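import Pool.Agent.LibStar4.Syntax

/-!
Arithmetization: a formula becomes the vanishing of a polynomial with slack variables.
(Definitions.)
-/

open Set Filter Topology

namespace Pool.Agent.LibStar4

noncomputable section

/-- the value of a polynomial in a commutative ring -/
def Tm.evr {A : Type*} [CommRing A] (V : ℕ → A) : Tm → A
  | .var i => V i
  | .const s b => (if s then -1 else 1) * (bin b : A)
  | .add a b => a.evr V + b.evr V
  | .mul a b => a.evr V * b.evr V

/-- the number of atoms -/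
def Fml.na : Fml → ℕ
  | .eq _ => 1
  | .gt _ => 1
  | .ge _ => 1
  | .neg φ => φ.na
  | .and φ ψ => φ.na + ψ.na
  | .or φ ψ => φ.na + ψ.na

/-- the arithmetization: `b = true` stands for truth, `b = false` for falsity; the slack variables
are `S o, S (o + 1), ...` -/
def Fml.ar {A : Type*} [CommRing A] (V S : ℕ → A) : Bool → ℕ → Fml → A
  | true, _, .eq t => (t.evr V) ^ 2
  | false, o, .eq t => (t.evr V * S o - 1) ^ 2
  | true, o, .gt t => (t.evr V * (S o) ^ 2 - 1) ^ 2
  | false, o, .gt t => (t.evr V + (S o) ^ 2) ^ 2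
  | true, o, .ge t => (t.evr V - (S o) ^ 2) ^ 2
  | false, o, .ge t => (t.evr V * (S o) ^ 2 + 1) ^ 2
  | b, o, .neg φ => φ.ar V S (!b) o
  | true, o, .and φ ψ => φ.ar V S true o + ψ.ar V S true (o + φ.na)
  | false, o, .and φ ψ => φ.ar V S false o * ψ.ar V S false (o + φ.na)
  | true, o, .or φ ψ => φ.ar V S true o * ψ.ar V S true (o + φ.na)
  | false, o, .or φ ψ => φ.ar V S false o + ψ.ar V S false (o + φ.na)

/-- the weight of a polynomial -/
def Tm.wt : Tm → ℕ
  | .var _ => 1
  | .const _ b => b.length + 1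
  | .add a b => a.wt + b.wt
  | .mul a b => a.wt + b.wt

/-- the weight of a formula -/
def Fml.wt : Fml → ℕ
  | .eq t => 2 * t.wt + 4
  | .gt t => 2 * t.wt + 4
  | .ge t => 2 * t.wt + 4
  | .neg φ => φ.wt
  | .and φ ψ => φ.wt + ψ.wt
  | .or φ ψ => φ.wt + ψ.wt

end

end Pool.Agent.LibStar4
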