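import Pool.Agent.LibStar4.Ar

/-!
Soundness and completeness of the arithmetization.
-/

open Set Filter Topology

namespace Pool.Agent.LibStar4

noncomputable section

theorem Tm.evr_real (V : ℕ → ℝ) (t : Tm) : t.evr V = t.eval V := by
  induction t with
  | var i => rfl
  | const s b => rfl
  | add a b iha ihb => simp only [Tm.evr, Tm.eval, iha, ihb]
  | mul a b iha ihb => simp only [Tm.evr, Tm.eval, iha, ihb]

theorem Tm.ArA_map {A B : Type*} [CommRing A] [CommRing B] (g : A →+* B) (V : ℕ → A) (t : Tm) :
    g (t.evr V) = t.evr (fun i => g (V i)) := by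
  induction t with
  | var i => rfl
  | const s b =>
    cases s
    · simp [Tm.evr]
    · simp [Tm.evr]
  | add a b iha ihb => simp only [Tm.evr, map_add, iha, ihb]
  | mul a b iha ihb => simp only [Tm.evr, map_mul, iha, ihb]

/-- induction on the formula (first for `Tm.evr`; `map_intCast`) -/
theorem Fml.map_ar {A B : Type*} [CommRing A] [CommRing B] (g : A →+* B) (V S : ℕ → A) (b : Bool)
    (o : ℕ) (φ : Fml) : g (φ.ar V S b o) = φ.ar (fun i => g (V i)) (fun i => g (S i)) b o := by
  induction φ generalizing b o with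
  | eq t => cases b <;> simp [Fml.ar, Tm.ArA_map g V t]
  | gt t => cases b <;> simp [Fml.ar, Tm.ArA_map g V t]
  | ge t => cases b <;> simp [Fml.ar, Tm.ArA_map g V t]
  | neg φ ih => cases b <;> simp only [Fml.ar, ih]
  | and φ ψ ih1 ih2 => cases b <;> simp only [Fml.ar, map_add, map_mul, ih1, ih2]
  | or φ ψ ih1 ih2 => cases b <;> simp only [Fml.ar, map_add, map_mul, ih1, ih2]

/-- squares, sums, products -/
theorem Fml.ar_nonneg (V S : ℕ → ℝ) (b : Bool) (o : ℕ) (φ : Fml) : 0 ≤ φ.ar V S b o := by
  induction φ generalizing b o with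
  | eq t => cases b <;> simp only [Fml.ar] <;> positivity
  | gt t => cases b <;> simp only [Fml.ar] <;> positivity
  | ge t => cases b <;> simp only [Fml.ar] <;> positivity
  | neg φ ih => cases b <;> simp only [Fml.ar] <;> exact ih _ _
  | and φ ψ ih1 ih2 =>
    cases b
    · exact mul_nonneg (ih1 _ _) (ih2 _ _)
    · exact add_nonneg (ih1 _ _) (ih2 _ _)
  | or φ ψ ih1 ih2 =>
    cases b
    · exact add_nonneg (ih1 _ _) (ih2 _ _)
    · exact mul_nonneg (ih1 _ _) (ih2 _ _)

/-- only the slack variables `o, ..., o + na - 1` matter -/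
theorem Fml.ar_congr {A : Type*} [CommRing A] (V : ℕ → A) {S S' : ℕ → A} (b : Bool) (o : ℕ)
    (φ : Fml) (h : ∀ i, o ≤ i → i < o + φ.na → S i = S' i) : φ.ar V S b o = φ.ar V S' b o := by
  induction φ generalizing b o with
  | eq t =>
    have h1 : S o = S' o := h o le_rfl (by simp [Fml.na])
    cases b <;> simp only [Fml.ar, h1]
  | gt t =>
    have h1 : S o = S' o := h o le_rfl (by simp [Fml.na])
    cases b <;> simp only [Fml.ar, h1]
  | ge t =>
    have h1 : S o = S' o := h o le_rfl (by simp [Fml.na])
    cases b <;> simp only [Fml.ar, h1]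
  | neg φ ih =>
    have h1 := ih (!b) o h
    cases b <;> simpa only [Fml.ar] using h1
  | and φ ψ ih1 ih2 =>
    have h1 := fun b => ih1 b o (fun i hi hi' => h i hi (by simp only [Fml.na]; omega))
    have h2 := fun b => ih2 b (o + φ.na)
      (fun i hi hi' => h i (by omega) (by simp only [Fml.na]; omega))
    cases b <;> simp only [Fml.ar, h1, h2]
  | or φ ψ ih1 ih2 =>
    have h1 := fun b => ih1 b o (fun i hi hi' => h i hi (by simp only [Fml.na]; omega))
    have h2 := fun b => ih2 b (o + φ.na)
      (fun i hi hi' => h i (by omega) (by simp only [Fml.na]; omega))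
    cases b <;> simp only [Fml.ar, h1, h2]

/-- Soundness of the arithmetization: induction; for sums of non-negative terms both vanish, for
products one factor vanishes (`Fml.ar_nonneg`). -/
theorem Fml.holds_of_ar (V S : ℕ → ℝ) (b : Bool) (o : ℕ) (φ : Fml) (h : φ.ar V S b o = 0) :
    φ.holds V ↔ b = true := by
  induction φ generalizing b o with
  | eq t =>
    cases b
    · simp only [Fml.ar, Tm.evr_real] at h
      have h1 : t.eval V * S o - 1 = 0 := by simpa using h
      simp only [Fml.holds, Bool.false_eq_true, iff_false]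
      intro h2
      rw [h2] at h1
      norm_num at h1
    · simp only [Fml.ar, Tm.evr_real] at h
      simp only [Fml.holds, iff_true]
      simpa using h
  | gt t =>
    cases b
    · simp only [Fml.ar, Tm.evr_real] at h
      have h1 : t.eval V + S o ^ 2 = 0 := by simpa using h
      simp only [Fml.holds, Bool.false_eq_true, iff_false, not_lt]
      nlinarith [sq_nonneg (S o)]
    · simp only [Fml.ar, Tm.evr_real] at h
      have h1 : t.eval V * S o ^ 2 - 1 = 0 := by simpa using h
      simp only [Fml.holds, iff_true]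
      by_contra h2
      rw [not_lt] at h2
      nlinarith [mul_nonneg (neg_nonneg.2 h2) (sq_nonneg (S o))]
  | ge t =>
    cases b
    · simp only [Fml.ar, Tm.evr_real] at h
      have h1 : t.eval V * S o ^ 2 + 1 = 0 := by simpa using h
      simp only [Fml.holds, Bool.false_eq_true, iff_false, not_le]
      by_contra h2
      rw [not_lt] at h2
      nlinarith [mul_nonneg h2 (sq_nonneg (S o))]
    · simp only [Fml.ar, Tm.evr_real] at h
      have h1 : t.eval V - S o ^ 2 = 0 := by simpa using h
      simp only [Fml.holds, iff_true]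
      nlinarith [sq_nonneg (S o)]
  | neg φ ih =>
    cases b
    · have h1 := ih _ _ (by simpa only [Fml.ar] using h)
      simp only [Fml.holds, h1]
      decide
    · have h1 := ih _ _ (by simpa only [Fml.ar] using h)
      simp only [Fml.holds, h1]
      decide
  | and φ ψ ih1 ih2 =>
    cases b
    · simp only [Fml.ar] at h
      rcases mul_eq_zero.1 h with h1 | h1
      · have h2 := ih1 _ _ h1
        simp only [Fml.holds, h2, Bool.false_eq_true, false_and]
      · have h2 := ih2 _ _ h1
        simp only [Fml.holds, h2, Bool.false_eq_true, and_false]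
    · simp only [Fml.ar] at h
      have h1 := Fml.ar_nonneg V S true o φ
      have h2 := Fml.ar_nonneg V S true (o + φ.na) ψ
      have h3 := ih1 _ _ (by linarith : φ.ar V S true o = 0)
      have h4 := ih2 _ _ (by linarith : ψ.ar V S true (o + φ.na) = 0)
      simp only [Fml.holds, h3, h4, and_self]
  | or φ ψ ih1 ih2 =>
    cases b
    · simp only [Fml.ar] at h
      have h1 := Fml.ar_nonneg V S false o φ
      have h2 := Fml.ar_nonneg V S false (o + φ.na) ψ
      have h3 := ih1 _ _ (by linarith : φ.ar V S false o = 0)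
      have h4 := ih2 _ _ (by linarith : ψ.ar V S false (o + φ.na) = 0)
      simp only [Fml.holds, h3, h4, or_self]
    · simp only [Fml.ar] at h
      rcases mul_eq_zero.1 h with h1 | h1
      · have h2 := ih1 _ _ h1
        simp only [Fml.holds, h2, true_or]
      · have h2 := ih2 _ _ h1
        simp only [Fml.holds, h2, or_true]

/-- Completeness of the arithmetization. Atoms: `S o = 1 / t`, `1 / √t`, `√(-t)`, `√t`, `1 / √(-t)`. For
`and`/`or` with a sum combine the two assignments (`fun i => if i < o + φ.na then S₁ i else S₂ i`,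
`Fml.ar_congr`). -/
theorem Fml.exists_ar (V : ℕ → ℝ) (b : Bool) (o : ℕ) (φ : Fml) (h : φ.holds V ↔ b = true) :
    ∃ S : ℕ → ℝ, φ.ar V S b o = 0 := by
  have hcomb : ∀ (b : Bool) (o : ℕ) (φ ψ : Fml) (S₁ S₂ : ℕ → ℝ), φ.ar V S₁ b o = 0 →
      ψ.ar V S₂ b (o + φ.na) = 0 →
      ∃ S : ℕ → ℝ, φ.ar V S b o = 0 ∧ ψ.ar V S b (o + φ.na) = 0 := by
    intro b o φ ψ S₁ S₂ h1 h2
    refine ⟨fun i => if i < o + φ.na then S₁ i else S₂ i, ?_, ?_⟩
    · rw [← h1]
      exact Fml.ar_congr V b o φ (fun i _ hi' => if_pos hi')
    · rw [← h2]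
      exact Fml.ar_congr V b _ ψ (fun i hi _ => if_neg (by omega))
  induction φ generalizing b o with
  | eq t =>
    cases b
    · have h1 : t.eval V ≠ 0 := by
        intro h2
        exact Bool.false_ne_true (h.1 h2)
      refine ⟨fun _ => 1 / t.eval V, ?_⟩
      simp only [Fml.ar, Tm.evr_real]
      field_simp
      norm_num
    · have h1 : t.eval V = 0 := h.2 rfl
      refine ⟨fun _ => 0, ?_⟩
      simp only [Fml.ar, Tm.evr_real, h1]
      norm_num
  | gt t =>
    cases b
    · have h1 : t.eval V ≤ 0 := by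
        by_contra h2
        exact Bool.false_ne_true (h.1 (not_le.1 h2))
      refine ⟨fun _ => √(-t.eval V), ?_⟩
      simp only [Fml.ar, Tm.evr_real]
      rw [Real.sq_sqrt (by linarith)]
      ring
    · have h1 : 0 < t.eval V := h.2 rfl
      refine ⟨fun _ => 1 / √(t.eval V), ?_⟩
      simp only [Fml.ar, Tm.evr_real]
      rw [div_pow, Real.sq_sqrt h1.le]
      field_simp
      norm_num
  | ge t =>
    cases b
    · have h1 : t.eval V < 0 := by
        by_contra h2
        exact Bool.false_ne_true (h.1 (not_lt.1 h2))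
      refine ⟨fun _ => 1 / √(-t.eval V), ?_⟩
      simp only [Fml.ar, Tm.evr_real]
      rw [div_pow, Real.sq_sqrt (by linarith)]
      have h3 : t.eval V ≠ 0 := h1.ne
      field_simp
      norm_num
    · have h1 : 0 ≤ t.eval V := h.2 rfl
      refine ⟨fun _ => √(t.eval V), ?_⟩
      simp only [Fml.ar, Tm.evr_real]
      rw [Real.sq_sqrt h1]
      ring
  | neg φ ih =>
    cases b
    · obtain ⟨S, hS⟩ := ih true o (by
        constructor
        · intro _
          rfl
        · intro _
          by_contra h2
          exact Bool.false_ne_true (h.1 h2))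
      exact ⟨S, hS⟩
    · obtain ⟨S, hS⟩ := ih false o (by
        constructor
        · intro h2
          exact absurd h2 (h.2 rfl)
        · intro h2
          exact absurd h2 Bool.false_ne_true)
      exact ⟨S, hS⟩
  | and φ ψ ih1 ih2 =>
    cases b
    · have h1 : ¬ (φ.holds V ∧ ψ.holds V) := fun h2 => Bool.false_ne_true (h.1 h2)
      by_cases h2 : φ.holds V
      · obtain ⟨S, hS⟩ := ih2 false (o + φ.na) (by
          constructor
          · intro h3
            exact absurd ⟨h2, h3⟩ h1
          · intro h3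
            exact absurd h3 Bool.false_ne_true)
        exact ⟨S, by simp only [Fml.ar, hS, mul_zero]⟩
      · obtain ⟨S, hS⟩ := ih1 false o (by
          constructor
          · intro h3
            exact absurd h3 h2
          · intro h3
            exact absurd h3 Bool.false_ne_true)
        exact ⟨S, by simp only [Fml.ar, hS, zero_mul]⟩
    · have h1 : φ.holds V ∧ ψ.holds V := h.2 rfl
      obtain ⟨S₁, hS₁⟩ := ih1 true o ⟨fun _ => rfl, fun _ => h1.1⟩
      obtain ⟨S₂, hS₂⟩ := ih2 true (o + φ.na) ⟨fun _ => rfl, fun _ => h1.2⟩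
      obtain ⟨S, h3, h4⟩ := hcomb true o φ ψ S₁ S₂ hS₁ hS₂
      exact ⟨S, by simp only [Fml.ar, h3, h4, add_zero]⟩
  | or φ ψ ih1 ih2 =>
    cases b
    · have h1 : ¬ (φ.holds V ∨ ψ.holds V) := fun h2 => Bool.false_ne_true (h.1 h2)
      obtain ⟨S₁, hS₁⟩ := ih1 false o ⟨fun h3 => absurd (Or.inl h3) h1,
        fun h3 => absurd h3 Bool.false_ne_true⟩
      obtain ⟨S₂, hS₂⟩ := ih2 false (o + φ.na) ⟨fun h3 => absurd (Or.inr h3) h1,
        fun h3 => absurd h3 Bool.false_ne_true⟩
      obtain ⟨S, h3, h4⟩ := hcomb false o φ ψ S₁ S₂ hS₁ hS₂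
      exact ⟨S, by simp only [Fml.ar, h3, h4, add_zero]⟩
    · rcases h.2 rfl with h1 | h1
      · obtain ⟨S, hS⟩ := ih1 true o ⟨fun _ => rfl, fun _ => h1⟩
        exact ⟨S, by simp only [Fml.ar, hS, zero_mul]⟩
      · obtain ⟨S, hS⟩ := ih2 true (o + φ.na) ⟨fun _ => rfl, fun _ => h1⟩
        exact ⟨S, by simp only [Fml.ar, hS, mul_zero]⟩

end

end Pool.Agent.LibStar4
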