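import Mathlib

/-!
Rings with a size: a submultiplicative norm with values in `ℕ` and a degree.
-/

namespace Pool.Agent.LibStar4

noncomputable section

/-- a commutative ring with a norm and a degree -/
structure Siz (B : Type) [CommRing B] where
  nrm : B → ℕ
  deg : B → ℕ
  nrm_zero : nrm 0 = 0
  nrm_one : nrm 1 ≤ 1
  nrm_neg : ∀ a, nrm (-a) = nrm a
  nrm_add : ∀ a b, nrm (a + b) ≤ nrm a + nrm b
  nrm_mul : ∀ a b, nrm (a * b) ≤ nrm a * nrm b
  deg_zero : deg 0 = 0
  deg_one : deg 1 = 0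
  deg_neg : ∀ a, deg (-a) = deg a
  deg_add : ∀ a b, deg (a + b) ≤ max (deg a) (deg b)
  deg_mul : ∀ a b, deg (a * b) ≤ deg a + deg b

namespace Siz

variable {B : Type} [CommRing B] (s : Siz B)

/-- the element `a` has degree at most `d` and norm at most `h` -/
def Le (a : B) (d h : ℕ) : Prop := s.deg a ≤ d ∧ s.nrm a ≤ h

theorem nrm_sum {ι : Type*} (I : Finset ι) (f : ι → B) :
    s.nrm (∑ i ∈ I, f i) ≤ ∑ i ∈ I, s.nrm (f i) := by
  classical
  induction I using Finset.induction_on with
  | empty => simp [s.nrm_zero]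
  | insert a I ha ih =>
    rw [Finset.sum_insert ha, Finset.sum_insert ha]
    exact (s.nrm_add _ _).trans (Nat.add_le_add_left ih _)

theorem deg_sum {ι : Type*} (I : Finset ι) (f : ι → B) (d : ℕ) (h : ∀ i ∈ I, s.deg (f i) ≤ d) :
    s.deg (∑ i ∈ I, f i) ≤ d := by
  classical
  induction I using Finset.induction_on with
  | empty => simp [s.deg_zero]
  | insert a I ha ih =>
    rw [Finset.sum_insert ha]
    refine (s.deg_add _ _).trans (max_le (h a (Finset.mem_insert_self a I)) ?_)
    exact ih fun i hi => h i (Finset.mem_insert_of_mem hi)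

theorem nrm_prod {ι : Type*} (I : Finset ι) (f : ι → B) :
    s.nrm (∏ i ∈ I, f i) ≤ ∏ i ∈ I, s.nrm (f i) := by
  classical
  induction I using Finset.induction_on with
  | empty => simpa using s.nrm_one
  | insert a I ha ih =>
    rw [Finset.prod_insert ha, Finset.prod_insert ha]
    exact (s.nrm_mul _ _).trans (Nat.mul_le_mul_left _ ih)

theorem deg_prod {ι : Type*} (I : Finset ι) (f : ι → B) :
    s.deg (∏ i ∈ I, f i) ≤ ∑ i ∈ I, s.deg (f i) := by
  classical
  induction I using Finset.induction_on with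
  | empty => simp [s.deg_one]
  | insert a I ha ih =>
    rw [Finset.prod_insert ha, Finset.sum_insert ha]
    exact (s.deg_mul _ _).trans (Nat.add_le_add_left ih _)

theorem nrm_pow (a : B) (n : ℕ) : s.nrm (a ^ n) ≤ s.nrm a ^ n := by
  induction n with
  | zero => simpa using s.nrm_one
  | succ n ih =>
    rw [pow_succ, pow_succ]
    exact (s.nrm_mul _ _).trans (Nat.mul_le_mul_right _ ih)

theorem deg_pow (a : B) (n : ℕ) : s.deg (a ^ n) ≤ n * s.deg a := by
  induction n with
  | zero => simp [s.deg_one]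
  | succ n ih =>
    rw [pow_succ]
    refine (s.deg_mul _ _).trans ?_
    rw [Nat.succ_mul]
    exact Nat.add_le_add_right ih _

theorem nrm_natCast (n : ℕ) : s.nrm (n : B) ≤ n := by
  induction n with
  | zero => simp [s.nrm_zero]
  | succ n ih =>
    rw [Nat.cast_succ]
    exact (s.nrm_add _ _).trans (Nat.add_le_add ih s.nrm_one)

theorem deg_natCast (n : ℕ) : s.deg (n : B) = 0 := by
  induction n with
  | zero => simp [s.deg_zero]
  | succ n ih =>
    rw [Nat.cast_succ]
    have := s.deg_add (n : B) 1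
    rw [ih, s.deg_one] at this
    simpa using this

theorem nrm_intCast (n : ℤ) : s.nrm (n : B) ≤ n.natAbs := by
  obtain ⟨m, rfl | rfl⟩ := n.eq_nat_or_neg
  · simpa using s.nrm_natCast m
  · rw [Int.cast_neg, s.nrm_neg]
    simpa using s.nrm_natCast m

theorem deg_intCast (n : ℤ) : s.deg (n : B) = 0 := by
  obtain ⟨m, rfl | rfl⟩ := n.eq_nat_or_neg
  · simpa using s.deg_natCast m
  · rw [Int.cast_neg, s.deg_neg]
    simpa using s.deg_natCast m

variable {s}

theorem Le.add {a b : B} {d h d' h' : ℕ} (H : s.Le a d h) (H' : s.Le b d' h') :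
    s.Le (a + b) (max d d') (h + h') :=
  ⟨(s.deg_add _ _).trans (max_le_max H.1 H'.1), (s.nrm_add _ _).trans (Nat.add_le_add H.2 H'.2)⟩

theorem Le.mul {a b : B} {d h d' h' : ℕ} (H : s.Le a d h) (H' : s.Le b d' h') :
    s.Le (a * b) (d + d') (h * h') :=
  ⟨(s.deg_mul _ _).trans (Nat.add_le_add H.1 H'.1), (s.nrm_mul _ _).trans (Nat.mul_le_mul H.2 H'.2)⟩

theorem Le.neg {a : B} {d h : ℕ} (H : s.Le a d h) : s.Le (-a) d h :=
  ⟨(s.deg_neg _).le.trans H.1, (s.nrm_neg _).le.trans H.2⟩

theorem Le.mono {a : B} {d h d' h' : ℕ} (H : s.Le a d h) (hd : d ≤ d') (hh : h ≤ h') :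
    s.Le a d' h' := ⟨H.1.trans hd, H.2.trans hh⟩

theorem Le.pow {a : B} {d h : ℕ} (H : s.Le a d h) (n : ℕ) : s.Le (a ^ n) (n * d) (h ^ n) :=
  ⟨(s.deg_pow _ _).trans (Nat.mul_le_mul_left _ H.1),
    (s.nrm_pow _ _).trans (Nat.pow_le_pow_left H.2 _)⟩

theorem Le.zero : s.Le (0 : B) 0 0 := ⟨s.deg_zero.le, s.nrm_zero.le⟩

theorem Le.one : s.Le (1 : B) 0 1 := ⟨s.deg_one.le, s.nrm_one⟩

theorem Le.nat (n : ℕ) : s.Le (n : B) 0 n := ⟨(s.deg_natCast n).le, s.nrm_natCast n⟩

theorem Le.int (n : ℤ) : s.Le (n : B) 0 n.natAbs := ⟨(s.deg_intCast n).le, s.nrm_intCast n⟩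

theorem Le.sum {ι : Type*} (I : Finset ι) (f : ι → B) (d : ℕ) (h : ι → ℕ)
    (H : ∀ i ∈ I, s.Le (f i) d (h i)) : s.Le (∑ i ∈ I, f i) d (∑ i ∈ I, h i) :=
  ⟨s.deg_sum I f d fun i hi => (H i hi).1,
    (s.nrm_sum I f).trans (Finset.sum_le_sum fun i hi => (H i hi).2)⟩

/-- determinants -/
theorem Le.det {κ : Type} [Fintype κ] [DecidableEq κ] (M : Matrix κ κ B) {d h : ℕ}
    (H : ∀ i j, s.Le (M i j) d h) :
    s.Le M.det (Fintype.card κ * d) ((Fintype.card κ).factorial * h ^ Fintype.card κ) := by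
  rw [Matrix.det_apply]
  have h1 : ∀ σ : Equiv.Perm κ, s.Le (Equiv.Perm.sign σ • ∏ i, M (σ i) i)
      (Fintype.card κ * d) (h ^ Fintype.card κ) := by
    intro σ
    have h2 : s.Le (∏ i, M (σ i) i) (Fintype.card κ * d) (h ^ Fintype.card κ) := by
      constructor
      · refine (s.deg_prod _ _).trans ?_
        refine (Finset.sum_le_sum fun i _ => (H (σ i) i).1).trans ?_
        simp
      · refine (s.nrm_prod _ _).trans ?_
        refine (Finset.prod_le_prod' fun i _ => (H (σ i) i).2).trans ?_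
        simp
    rcases Int.units_eq_one_or (Equiv.Perm.sign σ) with h3 | h3
    · rw [h3, one_smul]; exact h2
    · rw [h3, Units.neg_smul, one_smul]; exact h2.neg
  have h2 := Le.sum (s := s) Finset.univ (fun σ : Equiv.Perm κ =>
    Equiv.Perm.sign σ • ∏ i, M (σ i) i) _ (fun _ => h ^ Fintype.card κ) (fun σ _ => h1 σ)
  refine h2.mono le_rfl ?_
  simp [Fintype.card_perm]

/-! ### Integers -/

/-- the integers -/
def int : Siz ℤ where
  nrm := Int.natAbs
  deg := fun _ => 0
  nrm_zero := rfl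
  nrm_one := le_rfl
  nrm_neg := Int.natAbs_neg
  nrm_add := Int.natAbs_add_le
  nrm_mul := fun a b => (Int.natAbs_mul a b).le
  deg_zero := rfl
  deg_one := rfl
  deg_neg := fun _ => rfl
  deg_add := fun _ _ => by simp
  deg_mul := fun _ _ => by simp

/-! ### Polynomials in several variables -/

section Mv

variable {σ : Type} (s : Siz B)

open MvPolynomial

def mvNrm (P : MvPolynomial σ B) : ℕ := ∑ m ∈ P.support, s.nrm (P.coeff m)

def mvDeg (P : MvPolynomial σ B) : ℕ := P.support.sup fun m => s.deg (P.coeff m) + m.degree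

theorem mvNrm_eq (P : MvPolynomial σ B) (I : Finset (σ →₀ ℕ)) (h : P.support ⊆ I) :
    mvNrm s P = ∑ m ∈ I, s.nrm (P.coeff m) := by
  unfold mvNrm
  apply Finset.sum_subset h
  intro m _ hm
  rw [MvPolynomial.notMem_support_iff.1 hm, s.nrm_zero]

theorem mvDeg_le (P : MvPolynomial σ B) (d : ℕ) :
    mvDeg s P ≤ d ↔ ∀ m, P.coeff m ≠ 0 → s.deg (P.coeff m) + m.degree ≤ d := by
  unfold mvDeg
  rw [Finset.sup_le_iff]
  simp only [MvPolynomial.mem_support_iff]

theorem mvNrm_add (P Q : MvPolynomial σ B) : mvNrm s (P + Q) ≤ mvNrm s P + mvNrm s Q := by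
  classical
  rw [mvNrm_eq s (P + Q) (P.support ∪ Q.support) MvPolynomial.support_add,
    mvNrm_eq s P (P.support ∪ Q.support) Finset.subset_union_left,
    mvNrm_eq s Q (P.support ∪ Q.support) Finset.subset_union_right, ← Finset.sum_add_distrib]
  exact Finset.sum_le_sum fun m _ => by rw [MvPolynomial.coeff_add]; exact s.nrm_add _ _

theorem mvDeg_add (P Q : MvPolynomial σ B) : mvDeg s (P + Q) ≤ max (mvDeg s P) (mvDeg s Q) := by
  rw [mvDeg_le]
  intro m hm
  rw [MvPolynomial.coeff_add] at hm ⊢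
  by_cases hP : P.coeff m = 0
  · rw [hP, zero_add] at hm ⊢
    exact ((mvDeg_le s Q _).1 le_rfl m hm).trans (le_max_right _ _)
  · by_cases hQ : Q.coeff m = 0
    · rw [hQ, add_zero]
      exact ((mvDeg_le s P _).1 le_rfl m hP).trans (le_max_left _ _)
    · have h1 := (mvDeg_le s P _).1 le_rfl m hP
      have h2 := (mvDeg_le s Q _).1 le_rfl m hQ
      have h3 := s.deg_add (P.coeff m) (Q.coeff m)
      omega

theorem mvNrm_sum {ι : Type*} (I : Finset ι) (f : ι → MvPolynomial σ B) :
    mvNrm s (∑ i ∈ I, f i) ≤ ∑ i ∈ I, mvNrm s (f i) := by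
  classical
  induction I using Finset.induction_on with
  | empty => simp [mvNrm]
  | insert a I ha ih =>
    rw [Finset.sum_insert ha, Finset.sum_insert ha]
    exact (mvNrm_add s _ _).trans (Nat.add_le_add_left ih _)

theorem mvDeg_sum {ι : Type*} (I : Finset ι) (f : ι → MvPolynomial σ B) (d : ℕ)
    (h : ∀ i ∈ I, mvDeg s (f i) ≤ d) : mvDeg s (∑ i ∈ I, f i) ≤ d := by
  classical
  induction I using Finset.induction_on with
  | empty => simp [mvDeg]
  | insert a I ha ih =>
    rw [Finset.sum_insert ha]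
    refine (mvDeg_add s _ _).trans (max_le (h a (Finset.mem_insert_self a I)) ?_)
    exact ih fun i hi => h i (Finset.mem_insert_of_mem hi)

theorem mvNrm_monomial (m : σ →₀ ℕ) (c : B) : mvNrm s (monomial m c) = s.nrm c := by
  classical
  rw [mvNrm_eq s _ {m} MvPolynomial.support_monomial_subset, Finset.sum_singleton,
    MvPolynomial.coeff_monomial, if_pos rfl]

theorem mvDeg_monomial (m : σ →₀ ℕ) (c : B) : mvDeg s (monomial m c) ≤ s.deg c + m.degree := by
  classical
  rw [mvDeg_le]
  intro m' hm'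
  rw [MvPolynomial.coeff_monomial] at hm' ⊢
  split_ifs at hm' ⊢ with h
  · rw [h]
  · exact absurd rfl hm'

theorem mv_mul_eq (P Q : MvPolynomial σ B) : P * Q = ∑ m ∈ P.support, ∑ m' ∈ Q.support,
    monomial (m + m') (P.coeff m * Q.coeff m') := by
  conv_lhs => rw [MvPolynomial.as_sum P, MvPolynomial.as_sum Q, Finset.sum_mul_sum]
  exact Finset.sum_congr rfl fun m _ => Finset.sum_congr rfl fun m' _ => by
    rw [MvPolynomial.monomial_mul]

theorem mvNrm_mul (P Q : MvPolynomial σ B) : mvNrm s (P * Q) ≤ mvNrm s P * mvNrm s Q := by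
  rw [mv_mul_eq]
  refine (mvNrm_sum s _ _).trans ?_
  unfold mvNrm
  rw [Finset.sum_mul_sum]
  refine Finset.sum_le_sum fun m _ => ?_
  refine (mvNrm_sum s _ _).trans (Finset.sum_le_sum fun m' _ => ?_)
  rw [mvNrm_monomial]
  exact s.nrm_mul _ _

theorem mvDeg_mul (P Q : MvPolynomial σ B) : mvDeg s (P * Q) ≤ mvDeg s P + mvDeg s Q := by
  rw [mv_mul_eq]
  refine mvDeg_sum s _ _ _ fun m hm => mvDeg_sum s _ _ _ fun m' hm' => ?_
  refine (mvDeg_monomial s _ _).trans ?_
  have h1 := (mvDeg_le s P _).1 le_rfl m (MvPolynomial.mem_support_iff.1 hm)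
  have h2 := (mvDeg_le s Q _).1 le_rfl m' (MvPolynomial.mem_support_iff.1 hm')
  have h3 := s.deg_mul (P.coeff m) (Q.coeff m')
  have h4 : (m + m').degree = m.degree + m'.degree := by simp
  omega

/-- polynomials in several variables, with the joint degree -/
def mv : Siz (MvPolynomial σ B) where
  nrm := mvNrm s
  deg := mvDeg s
  nrm_zero := by simp [mvNrm]
  nrm_one := by
    have := mvNrm_monomial s (0 : σ →₀ ℕ) (1 : B)
    rw [show (monomial (0 : σ →₀ ℕ)) (1 : B) = 1 from rfl] at this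
    rw [this]
    exact s.nrm_one
  nrm_neg := fun a => by
    unfold mvNrm
    rw [MvPolynomial.support_neg]
    exact Finset.sum_congr rfl fun m _ => by rw [MvPolynomial.coeff_neg, s.nrm_neg]
  nrm_add := mvNrm_add s
  nrm_mul := mvNrm_mul s
  deg_zero := by simp [mvDeg]
  deg_one := by
    have := mvDeg_monomial s (0 : σ →₀ ℕ) (1 : B)
    rw [show (monomial (0 : σ →₀ ℕ)) (1 : B) = 1 from rfl, s.deg_one] at this
    simpa using this
  deg_neg := fun a => by
    unfold mvDeg
    rw [MvPolynomial.support_neg]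
    exact Finset.sup_congr rfl fun m _ => by rw [MvPolynomial.coeff_neg, s.deg_neg]
  deg_add := mvDeg_add s
  deg_mul := mvDeg_mul s

theorem mv_X (i : σ) : (mv s).Le (X i : MvPolynomial σ B) 1 1 := by
  constructor
  · refine (mvDeg_monomial s _ _).trans ?_
    rw [s.deg_one]
    simp
  · have := mvNrm_monomial s (Finsupp.single i 1) (1 : B)
    refine le_trans (le_of_eq this) s.nrm_one

theorem mv_C {c : B} {d h : ℕ} (H : s.Le c d h) : (mv s).Le (C c : MvPolynomial σ B) d h := by
  constructor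
  · refine (mvDeg_monomial s _ _).trans ?_
    simpa using H.1
  · have := mvNrm_monomial s (0 : σ →₀ ℕ) c
    exact le_trans (le_of_eq this) H.2

theorem mv_coeff {P : MvPolynomial σ B} {d h : ℕ} (H : (mv s).Le P d h) (m : σ →₀ ℕ) :
    s.Le (P.coeff m) d h := by
  by_cases hm : P.coeff m = 0
  · rw [hm]
    exact Le.zero.mono (Nat.zero_le _) (Nat.zero_le _)
  · refine ⟨?_, ?_⟩
    · have := (mvDeg_le s P d).1 H.1 m hm
      omega
    · refine le_trans ?_ H.2
      exact Finset.single_le_sum (f := fun m => s.nrm (P.coeff m)) (fun _ _ => Nat.zero_le _)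
        (MvPolynomial.mem_support_iff.2 hm)

theorem mv_totalDegree {P : MvPolynomial σ B} {d h : ℕ} (H : (mv s).Le P d h) :
    P.totalDegree ≤ d := by
  unfold MvPolynomial.totalDegree
  rw [Finset.sup_le_iff]
  intro m hm
  have := (mvDeg_le s P d).1 H.1 m (MvPolynomial.mem_support_iff.1 hm)
  have h2 : (m.sum fun _ e => e) = m.degree := rfl
  rw [h2]
  omega

end Mv

/-! ### Polynomials in one variable -/

section Poly

variable (s : Siz B)

open Polynomial

def pNrm (P : B[X]) : ℕ := ∑ m ∈ P.support, s.nrm (P.coeff m)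

def pDeg (P : B[X]) : ℕ := P.support.sup fun m => s.deg (P.coeff m) + m

theorem pNrm_eq (P : B[X]) (I : Finset ℕ) (h : P.support ⊆ I) :
    pNrm s P = ∑ m ∈ I, s.nrm (P.coeff m) := by
  unfold pNrm
  apply Finset.sum_subset h
  intro m _ hm
  rw [Polynomial.notMem_support_iff.1 hm, s.nrm_zero]

theorem pDeg_le (P : B[X]) (d : ℕ) :
    pDeg s P ≤ d ↔ ∀ m, P.coeff m ≠ 0 → s.deg (P.coeff m) + m ≤ d := by
  unfold pDeg
  rw [Finset.sup_le_iff]
  simp only [Polynomial.mem_support_iff]

theorem pNrm_add (P Q : B[X]) : pNrm s (P + Q) ≤ pNrm s P + pNrm s Q := by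
  classical
  rw [pNrm_eq s (P + Q) (P.support ∪ Q.support) Polynomial.support_add,
    pNrm_eq s P (P.support ∪ Q.support) Finset.subset_union_left,
    pNrm_eq s Q (P.support ∪ Q.support) Finset.subset_union_right, ← Finset.sum_add_distrib]
  exact Finset.sum_le_sum fun m _ => by rw [Polynomial.coeff_add]; exact s.nrm_add _ _

theorem pDeg_add (P Q : B[X]) : pDeg s (P + Q) ≤ max (pDeg s P) (pDeg s Q) := by
  rw [pDeg_le]
  intro m hm
  rw [Polynomial.coeff_add] at hm ⊢
  by_cases hP : P.coeff m = 0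
  · rw [hP, zero_add] at hm ⊢
    exact ((pDeg_le s Q _).1 le_rfl m hm).trans (le_max_right _ _)
  · by_cases hQ : Q.coeff m = 0
    · rw [hQ, add_zero]
      exact ((pDeg_le s P _).1 le_rfl m hP).trans (le_max_left _ _)
    · have h1 := (pDeg_le s P _).1 le_rfl m hP
      have h2 := (pDeg_le s Q _).1 le_rfl m hQ
      have h3 := s.deg_add (P.coeff m) (Q.coeff m)
      omega

theorem pNrm_sum {ι : Type*} (I : Finset ι) (f : ι → B[X]) :
    pNrm s (∑ i ∈ I, f i) ≤ ∑ i ∈ I, pNrm s (f i) := by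
  classical
  induction I using Finset.induction_on with
  | empty => simp [pNrm]
  | insert a I ha ih =>
    rw [Finset.sum_insert ha, Finset.sum_insert ha]
    exact (pNrm_add s _ _).trans (Nat.add_le_add_left ih _)

theorem pDeg_sum {ι : Type*} (I : Finset ι) (f : ι → B[X]) (d : ℕ)
    (h : ∀ i ∈ I, pDeg s (f i) ≤ d) : pDeg s (∑ i ∈ I, f i) ≤ d := by
  classical
  induction I using Finset.induction_on with
  | empty => simp [pDeg]
  | insert a I ha ih =>
    rw [Finset.sum_insert ha]
    refine (pDeg_add s _ _).trans (max_le (h a (Finset.mem_insert_self a I)) ?_)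
    exact ih fun i hi => h i (Finset.mem_insert_of_mem hi)

theorem pNrm_monomial (m : ℕ) (c : B) : pNrm s (monomial m c) = s.nrm c := by
  classical
  rw [pNrm_eq s _ {m} (Polynomial.support_monomial_subset m c), Finset.sum_singleton,
    Polynomial.coeff_monomial, if_pos rfl]

theorem pDeg_monomial (m : ℕ) (c : B) : pDeg s (monomial m c) ≤ s.deg c + m := by
  classical
  rw [pDeg_le]
  intro m' hm'
  rw [Polynomial.coeff_monomial] at hm' ⊢
  split_ifs at hm' ⊢ with h
  · rw [h]
  · exact absurd rfl hm'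

theorem p_mul_eq (P Q : B[X]) : P * Q = ∑ m ∈ P.support, ∑ m' ∈ Q.support,
    monomial (m + m') (P.coeff m * Q.coeff m') := by
  conv_lhs => rw [Polynomial.as_sum_support P, Polynomial.as_sum_support Q, Finset.sum_mul_sum]
  exact Finset.sum_congr rfl fun m _ => Finset.sum_congr rfl fun m' _ => by
    rw [Polynomial.monomial_mul_monomial]

theorem pNrm_mul (P Q : B[X]) : pNrm s (P * Q) ≤ pNrm s P * pNrm s Q := by
  rw [p_mul_eq]
  refine (pNrm_sum s _ _).trans ?_
  unfold pNrm
  rw [Finset.sum_mul_sum]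
  refine Finset.sum_le_sum fun m _ => ?_
  refine (pNrm_sum s _ _).trans (Finset.sum_le_sum fun m' _ => ?_)
  rw [pNrm_monomial]
  exact s.nrm_mul _ _

theorem pDeg_mul (P Q : B[X]) : pDeg s (P * Q) ≤ pDeg s P + pDeg s Q := by
  rw [p_mul_eq]
  refine pDeg_sum s _ _ _ fun m hm => pDeg_sum s _ _ _ fun m' hm' => ?_
  refine (pDeg_monomial s _ _).trans ?_
  have h1 := (pDeg_le s P _).1 le_rfl m (Polynomial.mem_support_iff.1 hm)
  have h2 := (pDeg_le s Q _).1 le_rfl m' (Polynomial.mem_support_iff.1 hm')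
  have h3 := s.deg_mul (P.coeff m) (Q.coeff m')
  omega

/-- polynomials in one variable, with the joint degree -/
def poly : Siz B[X] where
  nrm := pNrm s
  deg := pDeg s
  nrm_zero := by simp [pNrm]
  nrm_one := by
    have := pNrm_monomial s 0 (1 : B)
    rw [Polynomial.monomial_zero_one] at this
    rw [this]
    exact s.nrm_one
  nrm_neg := fun a => by
    unfold pNrm
    rw [Polynomial.support_neg]
    exact Finset.sum_congr rfl fun m _ => by rw [Polynomial.coeff_neg, s.nrm_neg]
  nrm_add := pNrm_add s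
  nrm_mul := pNrm_mul s
  deg_zero := by simp [pDeg]
  deg_one := by
    have := pDeg_monomial s 0 (1 : B)
    rw [Polynomial.monomial_zero_one, s.deg_one] at this
    simpa using this
  deg_neg := fun a => by
    unfold pDeg
    rw [Polynomial.support_neg]
    exact Finset.sup_congr rfl fun m _ => by rw [Polynomial.coeff_neg, s.deg_neg]
  deg_add := pDeg_add s
  deg_mul := pDeg_mul s

theorem poly_X : (poly s).Le (X : B[X]) 1 1 := by
  constructor
  · have := pDeg_monomial s 1 (1 : B)
    rw [Polynomial.monomial_one_one_eq_X, s.deg_one] at this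
    exact this
  · have := pNrm_monomial s 1 (1 : B)
    rw [Polynomial.monomial_one_one_eq_X] at this
    exact le_trans (le_of_eq this) s.nrm_one

theorem poly_C {c : B} {d h : ℕ} (H : s.Le c d h) : (poly s).Le (C c : B[X]) d h := by
  constructor
  · have := pDeg_monomial s 0 c
    rw [Polynomial.monomial_zero_left] at this
    exact this.trans (by simpa using H.1)
  · have := pNrm_monomial s 0 c
    rw [Polynomial.monomial_zero_left] at this
    exact le_trans (le_of_eq this) H.2

theorem poly_coeff {P : B[X]} {d h : ℕ} (H : (poly s).Le P d h) (m : ℕ) :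
    s.Le (P.coeff m) d h := by
  by_cases hm : P.coeff m = 0
  · rw [hm]
    exact Le.zero.mono (Nat.zero_le _) (Nat.zero_le _)
  · refine ⟨?_, ?_⟩
    · have := (pDeg_le s P d).1 H.1 m hm
      omega
    · refine le_trans ?_ H.2
      exact Finset.single_le_sum (f := fun m => s.nrm (P.coeff m)) (fun _ _ => Nat.zero_le _)
        (Polynomial.mem_support_iff.2 hm)

theorem poly_natDegree {P : B[X]} {d h : ℕ} (H : (poly s).Le P d h) : P.natDegree ≤ d := by
  rw [Polynomial.natDegree_le_iff_coeff_eq_zero]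
  intro m hm
  by_contra hne
  have := (pDeg_le s P d).1 H.1 m hne
  omega

end Poly

end Siz

end

end Pool.Agent.LibStar4
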