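import Pool.Agent.LibStar4.Ar
import Pool.Agent.LibStar4.Siz

/-!
The size of the arithmetization.
-/

open Set Filter Topology

namespace Pool.Agent.LibStar4

noncomputable section

theorem ArB_two_pow_add {x y : ℕ} (hx : 1 ≤ x) (hy : 1 ≤ y) : 2 ^ x + 2 ^ y ≤ 2 ^ (x + y) := by
  have h1 : 2 ≤ 2 ^ x := by
    calc 2 = 2 ^ 1 := by norm_num
      _ ≤ 2 ^ x := Nat.pow_le_pow_right (by norm_num) hx
  have h2 : 2 ≤ 2 ^ y := by
    calc 2 = 2 ^ 1 := by norm_num
      _ ≤ 2 ^ y := Nat.pow_le_pow_right (by norm_num) hy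
  rw [pow_add]
  nlinarith

theorem ArB_bin_nonneg (b : List Bool) : 0 ≤ bin b := by
  induction b with
  | nil => simp [bin]
  | cons d l ih =>
    simp only [bin]
    split_ifs <;> omega

theorem ArB_bin_lt (b : List Bool) : bin b < 2 ^ b.length := by
  induction b with
  | nil => simp [bin]
  | cons d l ih =>
    simp only [bin, List.length_cons, pow_succ]
    split_ifs <;> omega

theorem ArB_bin_natAbs (b : List Bool) : (bin b).natAbs ≤ 2 ^ b.length := by
  have h1 := ArB_bin_nonneg b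
  have h2 := ArB_bin_lt b
  have h3 : ((bin b).natAbs : ℤ) = bin b := Int.natAbs_of_nonneg h1
  have h4 : ((bin b).natAbs : ℤ) < ((2 ^ b.length : ℕ) : ℤ) := by
    rw [h3]; push_cast; exact h2
  exact (Int.ofNat_lt.1 h4).le

theorem ArB_wt_pos (t : Tm) : 1 ≤ t.wt := by
  induction t with
  | var i => simp [Tm.wt]
  | const s b => simp [Tm.wt]
  | add a b iha ihb => simp only [Tm.wt]; omega
  | mul a b iha ihb => simp only [Tm.wt]; omega

theorem ArB_fwt_pos (φ : Fml) : 1 ≤ φ.wt := by
  induction φ with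
  | eq t => simp only [Fml.wt]; omega
  | gt t => simp only [Fml.wt]; omega
  | ge t => simp only [Fml.wt]; omega
  | neg φ ih => simpa only [Fml.wt] using ih
  | and φ ψ ih1 ih2 => simp only [Fml.wt]; omega
  | or φ ψ ih1 ih2 => simp only [Fml.wt]; omega

/-- induction; constants: `|bin b| < 2 ^ b.length`, `Siz.Le.int`; sums: `2 ^ x + 2 ^ y ≤ 2 ^ (x + y)` for
`x, y ≥ 1` -/
theorem Tm.le_evr {A : Type} [CommRing A] (s : Siz A) {V : ℕ → A} (hV : ∀ i, s.Le (V i) 1 1)
    (t : Tm) : s.Le (t.evr V) t.wt (2 ^ t.wt) := by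
  induction t with
  | var i =>
    simp only [Tm.evr, Tm.wt]
    exact (hV i).mono le_rfl (by norm_num)
  | const c b =>
    simp only [Tm.evr, Tm.wt]
    have h1 : s.Le ((if c = true then (-1 : A) else 1)) 0 1 := by
      split_ifs
      · exact Siz.Le.one.neg
      · exact Siz.Le.one
    have h2 : s.Le ((bin b : ℤ) : A) 0 (bin b).natAbs := Siz.Le.int _
    have h3 := h1.mul h2
    refine h3.mono (by omega) ?_
    rw [one_mul]
    refine (ArB_bin_natAbs b).trans (Nat.pow_le_pow_right (by norm_num) (by omega))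
  | add a b iha ihb =>
    simp only [Tm.evr, Tm.wt]
    have ha := ArB_wt_pos a
    have hb := ArB_wt_pos b
    exact (iha.add ihb).mono (by omega) (ArB_two_pow_add ha hb)
  | mul a b iha ihb =>
    simp only [Tm.evr, Tm.wt]
    refine (iha.mul ihb).mono le_rfl (le_of_eq ?_)
    rw [pow_add]

theorem ArB_sq_bound {A : Type} [CommRing A] (s : Siz A) {a : A} {d w : ℕ} (hd : d ≤ w + 2)
    (ha : s.Le a d (2 ^ (w + 1))) : s.Le (a ^ 2) (2 * w + 4) (2 ^ (2 * w + 4)) := by
  refine (ha.pow 2).mono (by omega) ?_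
  rw [← pow_mul]
  exact Nat.pow_le_pow_right (by norm_num) (by omega)

theorem ArB_pow_succ (w : ℕ) : 2 ^ w + 1 ≤ 2 ^ (w + 1) := by
  have : 1 ≤ 2 ^ w := Nat.one_le_two_pow
  rw [pow_succ]; omega

/-- induction (`Siz.Le.add`, `Siz.Le.mul`, `Siz.Le.pow`, `Siz.Le.neg`, `Siz.Le.one`) -/
theorem Fml.le_ar {A : Type} [CommRing A] (s : Siz A) {V S : ℕ → A} (hV : ∀ i, s.Le (V i) 1 1)
    (hS : ∀ i, s.Le (S i) 1 1) (b : Bool) (o : ℕ) (φ : Fml) :
    s.Le (φ.ar V S b o) φ.wt (2 ^ φ.wt) := by
  have hS2 : ∀ i, s.Le ((S i) ^ 2) 2 1 := fun i => by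
    have := (hS i).pow 2
    simpa using this
  induction φ generalizing b o with
  | eq t =>
    have ht := Tm.le_evr s hV t
    cases b with
    | true =>
      simp only [Fml.ar, Fml.wt]
      exact ArB_sq_bound s (by omega) (ht.mono le_rfl (Nat.pow_le_pow_right (by norm_num) (by omega)))
    | false =>
      simp only [Fml.ar, Fml.wt]
      rw [sub_eq_add_neg]
      have h := (ht.mul (hS o)).add (Siz.Le.one (s := s)).neg
      exact ArB_sq_bound s (w := t.wt) (by omega)
        (h.mono le_rfl (by rw [mul_one]; exact ArB_pow_succ _))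
  | gt t =>
    have ht := Tm.le_evr s hV t
    cases b with
    | true =>
      simp only [Fml.ar, Fml.wt]
      rw [sub_eq_add_neg]
      have h := (ht.mul (hS2 o)).add (Siz.Le.one (s := s)).neg
      exact ArB_sq_bound s (w := t.wt) (by omega)
        (h.mono le_rfl (by rw [mul_one]; exact ArB_pow_succ _))
    | false =>
      simp only [Fml.ar, Fml.wt]
      have h := ht.add (hS2 o)
      exact ArB_sq_bound s (w := t.wt) (by omega)
        (h.mono le_rfl (ArB_pow_succ _))
  | ge t =>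
    have ht := Tm.le_evr s hV t
    cases b with
    | true =>
      simp only [Fml.ar, Fml.wt]
      rw [sub_eq_add_neg]
      have h := ht.add (hS2 o).neg
      exact ArB_sq_bound s (w := t.wt) (by omega)
        (h.mono le_rfl (ArB_pow_succ _))
    | false =>
      simp only [Fml.ar, Fml.wt]
      have h := (ht.mul (hS2 o)).add (Siz.Le.one (s := s))
      exact ArB_sq_bound s (w := t.wt) (by omega)
        (h.mono le_rfl (by rw [mul_one]; exact ArB_pow_succ _))
  | neg φ ih =>
    simp only [Fml.ar, Fml.wt]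
    exact ih _ _
  | and φ ψ ih1 ih2 =>
    have h1 := ArB_fwt_pos φ
    have h2 := ArB_fwt_pos ψ
    cases b with
    | true =>
      simp only [Fml.ar, Fml.wt]
      exact ((ih1 _ _).add (ih2 _ _)).mono (by omega) (ArB_two_pow_add h1 h2)
    | false =>
      simp only [Fml.ar, Fml.wt]
      refine ((ih1 _ _).mul (ih2 _ _)).mono le_rfl (le_of_eq ?_)
      rw [pow_add]
  | or φ ψ ih1 ih2 =>
    have h1 := ArB_fwt_pos φ
    have h2 := ArB_fwt_pos ψ
    cases b with
    | true =>
      simp only [Fml.ar, Fml.wt]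
      refine ((ih1 _ _).mul (ih2 _ _)).mono le_rfl (le_of_eq ?_)
      rw [pow_add]
    | false =>
      simp only [Fml.ar, Fml.wt]
      exact ((ih1 _ _).add (ih2 _ _)).mono (by omega) (ArB_two_pow_add h1 h2)

theorem Fml.na_le_wt (φ : Fml) : φ.na ≤ φ.wt := by
  induction φ with
  | eq t => simp only [Fml.na, Fml.wt]; omega
  | gt t => simp only [Fml.na, Fml.wt]; omega
  | ge t => simp only [Fml.na, Fml.wt]; omega
  | neg φ ih => simpa only [Fml.na, Fml.wt] using ih
  | and φ ψ ih1 ih2 => simp only [Fml.na, Fml.wt]; omega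
  | or φ ψ ih1 ih2 => simp only [Fml.na, Fml.wt]; omega

end

end Pool.Agent.LibStar4
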