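import Pool.Agent.LibStar4.Syntax

namespace Pool.Agent.LibStar4

/-- The assignment with the values `l`, then `u`, then `y`. -/
def env₃ {m k₁ k₂ : ℕ} (l : Fin m → ℝ) (u : Fin k₁ → ℝ) (y : Fin k₂ → ℝ) (i : ℕ) : ℝ :=
  if h : i < m then l ⟨i, h⟩ else if h' : i - m < k₁ then u ⟨i - m, h'⟩ else
    if h'' : i - m - k₁ < k₂ then y ⟨i - m - k₁, h''⟩ else 0

end Pool.Agent.LibStar4
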