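import Pool.Agent.LibStar4.Types

/-!
Projections of clopen subsets of real algebraic sets are locally constant on types.
-/

open Polynomial Metric Set Filter Topology

namespace Pool.Agent.LibStar4

noncomputable section

attribute [local irreducible] Rj

variable {ι : Type} [Fintype ι] {k d : ℕ}

/-- the function of a polynomial -/
def fv (F : MvPolynomial (Fin k) (MvPolynomial ι ℤ)) (x : (ι → ℝ) × (Fin k → ℝ)) : ℝ :=
  MvPolynomial.eval₂ (ev x.1) x.2 F

omit [Fintype ι] in
theorem continuous_fv (F : MvPolynomial (Fin k) (MvPolynomial ι ℤ)) : Continuous (fv F) := by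
  unfold fv
  induction F using MvPolynomial.induction_on with
  | C a => simp only [MvPolynomial.eval₂_C]; exact (continuous_ev a).comp continuous_fst
  | add p q hp hq => simp only [MvPolynomial.eval₂_add]; exact hp.add hq
  | mul_X p i hp =>
    simp only [MvPolynomial.eval₂_mul, MvPolynomial.eval₂_X]
    exact hp.mul ((continuous_apply i).comp continuous_snd)

/-- the box -/
def box (l0 : ι → ℝ) (d : ℕ) (T : ℝ) : Set ((ι → ℝ) × (Fin k → ℝ)) :=
  {x | dist x.1 l0 ≤ 1 ∧ qf d x.2 ≤ T}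

theorem isCompact_box (l0 : ι → ℝ) (d : ℕ) (T : ℝ) :
    IsCompact (box l0 d T : Set ((ι → ℝ) × (Fin k → ℝ))) := by
  apply isCompact_of_isClosed_isBounded
  · apply IsClosed.inter
    · exact isClosed_le (continuous_fst.dist continuous_const) continuous_const
    · exact isClosed_le ((continuous_qf d).comp continuous_snd) continuous_const
  · have h1 : box l0 d T ⊆ (closedBall l0 1) ×ˢ (closedBall (0 : Fin k → ℝ) (max 1 T)) := by
      intro x hx
      refine ⟨hx.1, ?_⟩
      rw [mem_closedBall, dist_zero_right, pi_norm_le_iff_of_nonneg (le_trans zero_le_one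
        (le_max_left _ _))]
      intro i
      rw [Real.norm_eq_abs]
      exact abs_le_of_qf hx.2 i
    exact (isBounded_closedBall.prod isBounded_closedBall).subset h1

/-- the hypotheses on a clopen subset of the zero set -/
structure Clop (F : MvPolynomial (Fin k) (MvPolynomial ι ℤ)) (C : Set ((ι → ℝ) × (Fin k → ℝ))) :
    Prop where
  nonneg : ∀ x, 0 ≤ fv F x
  sub : ∀ x ∈ C, fv F x = 0
  closed : IsClosed C
  closed' : IsClosed {x | fv F x = 0 ∧ x ∉ C}

variable {F : MvPolynomial (Fin k) (MvPolynomial ι ℤ)} {C : Set ((ι → ℝ) × (Fin k → ℝ))}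

theorem exists_pos_of_compact {X : Type*} [TopologicalSpace X] {K : Set X} (hK : IsCompact K)
    {g : X → ℝ} (hg : Continuous g) (h : ∀ x ∈ K, 0 < g x) : ∃ m > 0, ∀ x ∈ K, m ≤ g x := by
  rcases K.eq_empty_or_nonempty with hK0 | hK0
  · exact ⟨1, one_pos, fun x hx => absurd hx (by rw [hK0]; exact notMem_empty x)⟩
  · obtain ⟨x, hx, hmin⟩ := hK.exists_isMinOn hK0 hg.continuousOn
    exact ⟨g x, h x hx, fun y hy => hmin hy⟩

/-- separation of `C` from the rest of the zero set -/
theorem Clop.sep (H : Clop F C) (hne : C.Nonempty) (l0 : ι → ℝ) (T : ℝ) :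
    ∃ ρ > 0, (∀ x ∈ box l0 d T, infDist x C ≤ ρ → fv F x = 0 → x ∈ C) ∧
      ∃ m > 0, ∀ x ∈ box l0 d T, infDist x C = ρ → m ≤ fv F x := by
  have hK := isCompact_box (k := k) l0 d T
  have hdc : Continuous fun x => infDist x C := continuous_infDist_pt C
  obtain ⟨δ, hδ, hδ'⟩ := exists_pos_of_compact (hK.inter_right H.closed') hdc (by
    rintro x ⟨_, hx⟩
    exact (H.closed.notMem_iff_infDist_pos hne).1 hx.2)
  have h1 : ∀ x ∈ box l0 d T, infDist x C ≤ δ / 2 → fv F x = 0 → x ∈ C := by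
    intro x hx hxd hx0
    by_contra hxC
    have := hδ' x ⟨hx, hx0, hxC⟩
    linarith
  refine ⟨δ / 2, by linarith, h1, ?_⟩
  obtain ⟨m, hm, hm'⟩ := exists_pos_of_compact (hK.inter_right
    (isClosed_singleton.preimage hdc : IsClosed ((fun x => infDist x C) ⁻¹' {δ / 2})))
    (continuous_fv F) (by
    rintro x ⟨hx, hx'⟩
    have hx'' : infDist x C = δ / 2 := hx'
    rcases lt_or_eq_of_le (H.nonneg x) with h | h
    · exact h
    · have := h1 x hx hx''.le h.symm
      rw [infDist_zero_of_mem this] at hx''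
      linarith)
  exact ⟨m, hm, fun x hx hx' => hm' x ⟨hx, hx'⟩⟩

/-- the fibre of the neighbourhood of `C` -/
def Nb (C : Set ((ι → ℝ) × (Fin k → ℝ))) (d : ℕ) (l : ι → ℝ) (T ρ : ℝ) : Set (Fin k → ℝ) :=
  {y | qf d y ≤ T ∧ infDist (l, y) C ≤ ρ}

theorem isCompact_Nb (C : Set ((ι → ℝ) × (Fin k → ℝ))) (d : ℕ) (l : ι → ℝ) (T ρ : ℝ) :
    IsCompact (Nb C d l T ρ) := by
  apply isCompact_of_isClosed_isBounded
  · apply IsClosed.inter
    · exact isClosed_le (continuous_qf d) continuous_const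
    · exact isClosed_le ((continuous_infDist_pt C).comp (by fun_prop)) continuous_const
  · have h1 : Nb C d l T ρ ⊆ closedBall (0 : Fin k → ℝ) (max 1 T) := by
      intro x hx
      rw [mem_closedBall, dist_zero_right, pi_norm_le_iff_of_nonneg (le_trans zero_le_one
        (le_max_left _ _))]
      intro i
      rw [Real.norm_eq_abs]
      exact abs_le_of_qf hx.1 i
    exact isBounded_closedBall.subset h1

/-- the property of the eliminating polynomial -/
def ElimP (F : MvPolynomial (Fin k) (MvPolynomial ι ℤ)) (d : ℕ) (P : (MvPolynomial ι ℤ)[X][X]) :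
    Prop :=
  ∀ (l : ι → ℝ) (t T : ℝ) (y : Fin k → ℝ), Crit F d (ev l) t y →
    t * T = fv F (l, y) + t * qf d y → evtT (ev l) t T P = 0

/-- interior minima give roots -/
theorem root_of_min {P : (MvPolynomial ι ℤ)[X][X]} (hP : ElimP F d P) {l : ι → ℝ} {T ρ s : ℝ}
    (hs : 0 < s) {y : Fin k → ℝ}
    (hmin : ∀ z ∈ Nb C d l T ρ, s * fv F (l, y) + qf d y ≤ s * fv F (l, z) + qf d z)
    (hq : qf d y < T) (hd : infDist (l, y) C < ρ) :
    evtT (ev l) (1 / s) (s * fv F (l, y) + qf d y) P = 0 := by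
  have h1 : ∀ᶠ z in 𝓝 y, z ∈ Nb C d l T ρ := by
    have a1 : ∀ᶠ z in 𝓝 y, qf d z < T := (continuous_qf d).continuousAt.eventually_lt
      continuousAt_const hq
    have a2 : ∀ᶠ z in 𝓝 y, infDist (l, z) C < ρ := by
      have : Continuous fun z : Fin k → ℝ => infDist (l, z) C :=
        (continuous_infDist_pt C).comp (by fun_prop)
      exact this.continuousAt.eventually_lt continuousAt_const hd
    filter_upwards [a1, a2] with z b1 b2
    exact ⟨b1.le, b2.le⟩
  have h2 : IsLocalMin (fun y => MvPolynomial.eval₂ (ev l) y F + 1 / s * qf d y) y := by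
    filter_upwards [h1] with z hz
    have h3 := hmin z hz
    have h4 : ∀ w : Fin k → ℝ, MvPolynomial.eval₂ (ev l) w F + 1 / s * qf d w =
        1 / s * (s * fv F (l, w) + qf d w) := by
      intro w
      unfold fv
      field_simp
    rw [h4, h4]
    exact mul_le_mul_of_nonneg_left h3 (by positivity)
  apply hP l (1 / s) _ y (crit_of_isLocalMin _ F _ y h2)
  field_simp

/-- the least value of the penalty on a fibre of `C` is a root -/
theorem Clop.root (H : Clop F C) {P : (MvPolynomial ι ℤ)[X][X]} (hP : ElimP F d P) {j e : ℕ}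
    {l : ι → ℝ} (hty : HasType P j e l) {y : Fin k → ℝ} (hy : (l, y) ∈ C)
    (hmin : ∀ z, (l, z) ∈ C → qf d y ≤ qf d z) : Rj P j l 0 (qf d y) = 0 := by
  by_contra hne
  set v := qf d y with hv
  have hv0 : 0 ≤ v := qf_nonneg d y
  -- `Rj` does not vanish near `(0, v)`
  obtain ⟨δ, hδ, hδ'⟩ : ∃ δ > 0, ∀ t T, |t| < δ → |T - v| < δ → Rj P j l t T ≠ 0 := by
    have hc : Continuous fun q : ℝ × ℝ => Rj P j l q.1 q.2 :=
      (continuous_Rj P j).comp (by fun_prop : Continuous fun q : ℝ × ℝ => (l, q.1, q.2))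
    have h1 : ∀ᶠ q in 𝓝 ((0 : ℝ), v), Rj P j l q.1 q.2 ≠ 0 :=
      hc.continuousAt.eventually_ne hne
    obtain ⟨δ, hδ, h2⟩ := Metric.eventually_nhds_iff.1 h1
    refine ⟨δ, hδ, fun t T ht hT => ?_⟩
    have h3 : dist (t, T) ((0 : ℝ), v) < δ := by
      rw [Prod.dist_eq, max_lt_iff, Real.dist_eq, Real.dist_eq, sub_zero]
      exact ⟨ht, hT⟩
    exact h2 h3
  have hCne : C.Nonempty := ⟨_, hy⟩
  obtain ⟨ρ, hρ, hsep, m, hm, hmb⟩ := H.sep (d := d) hCne l (v + 1)
  have hN := isCompact_Nb C d l (v + 1) ρ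
  have hyN : y ∈ Nb C d l (v + 1) ρ := ⟨by rw [← hv]; linarith, by
    rw [infDist_zero_of_mem hy]; exact hρ.le⟩
  have hbox : ∀ z ∈ Nb C d l (v + 1) ρ, ((l, z) : (ι → ℝ) × (Fin k → ℝ)) ∈ box l d (v + 1) :=
    fun z hz => ⟨by simp, hz.1⟩
  -- away from the minimum the function is positive
  have hfc : Continuous fun z : Fin k → ℝ => fv F (l, z) := (continuous_fv F).comp (by fun_prop)
  obtain ⟨m', hm', hmb'⟩ := exists_pos_of_compact
    (hN.inter_right (isClosed_le (continuous_qf d) (continuous_const (y := v - δ)))) hfc (by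
      rintro z ⟨hz, hz'⟩
      rcases lt_or_eq_of_le (H.nonneg (l, z)) with h | h
      · exact h
      · have h1 := hsep _ (hbox z hz) hz.2 h.symm
        have h2 := hmin z h1
        have h3 : qf d z ≤ v - δ := hz'
        linarith)
  obtain ⟨s, hs1, hs2, hs3⟩ : ∃ s : ℝ, 1 / δ < s ∧ v / m < s ∧ v / m' < s :=
    ⟨max (1 / δ) (max (v / m) (v / m')) + 1,
      lt_of_le_of_lt (le_max_left _ _) (lt_add_one _),
      lt_of_le_of_lt ((le_max_left _ _).trans (le_max_right _ _)) (lt_add_one _),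
      lt_of_le_of_lt ((le_max_right _ _).trans (le_max_right _ _)) (lt_add_one _)⟩
  have hs : 0 < s := lt_trans (by positivity) hs1
  obtain ⟨z, hz, hzmin⟩ := hN.exists_isMinOn ⟨y, hyN⟩
    ((hfc.const_mul s).add (continuous_qf d)).continuousOn
  have hzv : s * fv F (l, z) + qf d z ≤ v := by
    have h0 : s * fv F (l, z) + qf d z ≤ s * fv F (l, y) + qf d y := hzmin hyN
    rw [H.sub _ hy, mul_zero, zero_add] at h0
    exact h0
  have hfz := H.nonneg (l, z)
  have hqz := qf_nonneg d z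
  have h1 : qf d z < v + 1 := by
    have : 0 ≤ s * fv F (l, z) := mul_nonneg hs.le hfz
    linarith
  have h2 : infDist (l, z) C < ρ := by
    rcases lt_or_eq_of_le hz.2 with h | h
    · exact h
    · exfalso
      have h3 := hmb _ (hbox z hz) h
      have h4 : v < s * m := by rwa [div_lt_iff₀ hm] at hs2
      have h5 : s * m ≤ s * fv F (l, z) := mul_le_mul_of_nonneg_left h3 hs.le
      linarith
  have h3 := root_of_min hP hs (fun w hw => hzmin hw) h1 h2
  rw [evtT_eq_Rj hty] at h3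
  have h4 : Rj P j l (1 / s) (s * fv F (l, z) + qf d z) = 0 := by
    rcases mul_eq_zero.1 h3 with h | h
    · exact absurd h (pow_ne_zero _ (by positivity))
    · exact h
  apply hδ' _ _ _ _ h4
  · rw [abs_of_pos (by positivity), div_lt_iff₀ hs]
    rwa [div_lt_iff₀ hδ, mul_comm] at hs1
  · rw [abs_lt]
    constructor
    · by_contra hcon
      push Not at hcon
      have h5 : 0 ≤ s * fv F (l, z) := mul_nonneg hs.le hfz
      have h6 := hmb' z ⟨hz, show qf d z ≤ v - δ by linarith⟩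
      have h7 : v < s * m' := by rwa [div_lt_iff₀ hm'] at hs3
      have h8 : s * m' ≤ s * fv F (l, z) := mul_le_mul_of_nonneg_left h6 hs.le
      linarith
    · linarith

/-- the fibre stays non-empty -/
theorem Clop.open_dir (H : Clop F C) {P : (MvPolynomial ι ℤ)[X][X]} (hP : ElimP F d P) {j e : ℕ}
    {l0 : ι → ℝ} (hty : HasType P j e l0) {y0 : Fin k → ℝ} (hy : (l0, y0) ∈ C) :
    ∀ᶠ l in 𝓝 l0, HasType P j e l → ∃ y, (l, y) ∈ C := by
  obtain ⟨T, hT, hR⟩ := exists_T hty (qf d y0)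
  have hT0 : 0 < T := lt_of_le_of_lt (qf_nonneg d y0) hT
  -- `Rj` does not vanish near
  obtain ⟨δ, hδ, hδ'⟩ : ∃ δ > 0, ∀ l t, dist l l0 < δ → |t| < δ → Rj P j l t T ≠ 0 := by
    have hc : Continuous fun q : (ι → ℝ) × ℝ => Rj P j q.1 q.2 T :=
      (continuous_Rj P j).comp (by fun_prop : Continuous fun q : (ι → ℝ) × ℝ => (q.1, q.2, T))
    have h1 : ∀ᶠ q in 𝓝 (l0, (0 : ℝ)), Rj P j q.1 q.2 T ≠ 0 :=
      hc.continuousAt.eventually_ne hR
    obtain ⟨δ, hδ, h2⟩ := Metric.eventually_nhds_iff.1 h1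
    refine ⟨δ, hδ, fun l t hl ht => ?_⟩
    have h3 : dist (l, t) (l0, (0 : ℝ)) < δ := by
      rw [Prod.dist_eq, max_lt_iff, Real.dist_eq, sub_zero]
      exact ⟨hl, ht⟩
    exact h2 h3
  have hCne : C.Nonempty := ⟨_, hy⟩
  obtain ⟨ρ, hρ, hsep, m, hm, hmb⟩ := H.sep (d := d) hCne l0 T
  obtain ⟨s, hs1, hs2⟩ : ∃ s : ℝ, 1 / δ < s ∧ T / m < s :=
    ⟨max (1 / δ) (T / m) + 1, lt_of_le_of_lt (le_max_left _ _) (lt_add_one _),
      lt_of_le_of_lt (le_max_right _ _) (lt_add_one _)⟩
  have hs : 0 < s := lt_trans (by positivity) hs1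
  have e1 : ∀ᶠ l in 𝓝 l0, dist l l0 < δ := by
    have := Metric.ball_mem_nhds l0 hδ
    filter_upwards [this] with l hl
    exact hl
  have e2 : ∀ᶠ l in 𝓝 l0, dist l l0 < 1 := by
    have := Metric.ball_mem_nhds l0 one_pos
    filter_upwards [this] with l hl
    exact hl
  have e3 : ∀ᶠ l in 𝓝 l0, infDist (l, y0) C < ρ := by
    have hc : Continuous fun l : ι → ℝ => infDist (l, y0) C :=
      (continuous_infDist_pt C).comp (by fun_prop)
    apply hc.continuousAt.eventually_lt continuousAt_const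
    rw [infDist_zero_of_mem hy]
    exact hρ
  have e4 : ∀ᶠ l in 𝓝 l0, s * fv F (l, y0) + qf d y0 < T := by
    have hc : Continuous fun l : ι → ℝ => s * fv F (l, y0) + qf d y0 :=
      (((continuous_fv F).comp (by fun_prop : Continuous fun l : ι → ℝ => (l, y0))).const_mul
        s).add continuous_const
    apply hc.continuousAt.eventually_lt continuousAt_const
    rw [H.sub _ hy, mul_zero, zero_add]
    exact hT
  filter_upwards [e1, e2, e3, e4] with l h1 h2 h3 h4 htyl
  by_contra hno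
  push Not at hno
  have hN := isCompact_Nb C d l T ρ
  have hy0N : y0 ∈ Nb C d l T ρ := ⟨hT.le, h3.le⟩
  have hbox : ∀ z ∈ Nb C d l T ρ, ((l, z) : (ι → ℝ) × (Fin k → ℝ)) ∈ box l0 d T :=
    fun z hz => ⟨h2.le, hz.1⟩
  have hfc : Continuous fun z : Fin k → ℝ => fv F (l, z) := (continuous_fv F).comp (by fun_prop)
  have hfpos : ∀ z ∈ Nb C d l T ρ, 0 < fv F (l, z) := by
    intro z hz
    rcases lt_or_eq_of_le (H.nonneg (l, z)) with h | h
    · exact h
    · exact absurd (hsep _ (hbox z hz) hz.2 h.symm) (hno z)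
  obtain ⟨m', hm', hmb'⟩ := exists_pos_of_compact hN hfc hfpos
  let w : ℝ → ℝ := fun s => sInf ((fun z => s * fv F (l, z) + qf d z) '' Nb C d l T ρ)
  have hw : Continuous w := by
    apply IsCompact.continuous_sInf hN
    have : Continuous fun q : ℝ × (Fin k → ℝ) => q.1 * fv F (l, q.2) + qf d q.2 :=
      (continuous_fst.mul (hfc.comp continuous_snd)).add ((continuous_qf d).comp continuous_snd)
    exact this
  have hwmin : ∀ s : ℝ, ∃ z ∈ Nb C d l T ρ, w s = s * fv F (l, z) + qf d z ∧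
      ∀ z' ∈ Nb C d l T ρ, s * fv F (l, z) + qf d z ≤ s * fv F (l, z') + qf d z' := by
    intro s
    have hc : ContinuousOn (fun z => s * fv F (l, z) + qf d z) (Nb C d l T ρ) :=
      ((hfc.const_mul s).add (continuous_qf d)).continuousOn
    obtain ⟨z, hz, hz', hz''⟩ := hN.exists_sInf_image_eq_and_le ⟨y0, hy0N⟩ hc
    exact ⟨z, hz, hz', hz''⟩
  have hws : w s < T := by
    obtain ⟨z, hz, hz1, hz2⟩ := hwmin s
    rw [hz1]
    exact lt_of_le_of_lt (hz2 y0 hy0N) h4
  have hwS : T < w (max s (T / m' + 1)) := by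
    obtain ⟨z, hz, hz1, _⟩ := hwmin (max s (T / m' + 1))
    rw [hz1]
    have a1 : T / m' + 1 ≤ max s (T / m' + 1) := le_max_right _ _
    have a2 := hmb' z hz
    have a3 : (T / m' + 1) * m' ≤ max s (T / m' + 1) * fv F (l, z) :=
      mul_le_mul a1 a2 hm'.le (le_trans hs.le (le_max_left _ _))
    have a4 : (T / m' + 1) * m' = T + m' := by field_simp
    have a5 := qf_nonneg d z
    linarith
  obtain ⟨s', hs', hws'⟩ := intermediate_value_Icc (le_max_left s (T / m' + 1)) hw.continuousOn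
    ⟨hws.le, hwS.le⟩
  have hs'0 : 0 < s' := lt_of_lt_of_le hs hs'.1
  obtain ⟨z, hz, hz1, hz2⟩ := hwmin s'
  rw [hws'] at hz1
  have hqz := qf_nonneg d z
  have b1 : qf d z < T := by
    have : 0 < s' * fv F (l, z) := mul_pos hs'0 (hfpos z hz)
    linarith
  have b2 : infDist (l, z) C < ρ := by
    rcases lt_or_eq_of_le hz.2 with h | h
    · exact h
    · exfalso
      have c3 := hmb _ (hbox z hz) h
      have c4 : T < s * m := by rwa [div_lt_iff₀ hm] at hs2
      have c5 : s * m ≤ s' * fv F (l, z) := mul_le_mul hs'.1 c3 hm.le hs'0.le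
      linarith
  have b3 := root_of_min hP hs'0 hz2 b1 b2
  rw [← hz1, evtT_eq_Rj htyl] at b3
  rcases mul_eq_zero.1 b3 with h | h
  · exact absurd h (pow_ne_zero _ (by positivity))
  · apply hδ' l (1 / s') h1 _ h
    rw [abs_of_pos (by positivity), div_lt_iff₀ hs'0]
    rw [div_lt_iff₀ hδ, mul_comm] at hs1
    exact lt_of_lt_of_le hs1 (mul_le_mul_of_nonneg_left hs'.1 hδ.le)

/-- the fibre stays empty -/
theorem Clop.closed_dir (H : Clop F C) {P : (MvPolynomial ι ℤ)[X][X]} (hP : ElimP F d P) {j e : ℕ}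
    {l0 : ι → ℝ} (hty : HasType P j e l0) (hno : ∀ y, (l0, y) ∉ C) :
    ∀ᶠ l in 𝓝 l0, HasType P j e l → ∀ y, (l, y) ∉ C := by
  -- the bound for the roots
  obtain ⟨V, hV⟩ : ∃ V : ℝ, ∀ᶠ l in 𝓝 l0,
      1 + (∑ i ∈ Finset.range e, |co P i j l|) / |co P e j l| < V := by
    refine ⟨1 + (∑ i ∈ Finset.range e, |co P i j l0|) / |co P e j l0| + 1, ?_⟩
    have hc : ContinuousAt (fun l => 1 + (∑ i ∈ Finset.range e, |co P i j l|) / |co P e j l|)
        l0 := by
      apply ContinuousAt.add continuousAt_const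
      apply ContinuousAt.div
      · apply Continuous.continuousAt
        apply continuous_finsetSum
        intro i _
        exact (continuous_co P i j).abs
      · exact (continuous_co P e j).abs.continuousAt
      · exact abs_ne_zero.2 hty.2.2
    exact hc.eventually_lt continuousAt_const (lt_add_one _)
  have hK : IsCompact (Prod.fst '' (C ∩ box l0 d V)) :=
    ((isCompact_box l0 d V).inter_left H.closed).image continuous_fst
  have hl0 : l0 ∉ Prod.fst '' (C ∩ box l0 d V) := by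
    rintro ⟨⟨l, y⟩, ⟨hC, _⟩, rfl⟩
    exact hno y hC
  have e1 : ∀ᶠ l in 𝓝 l0, l ∉ Prod.fst '' (C ∩ box l0 d V) :=
    hK.isClosed.isOpen_compl.mem_nhds hl0
  have e2 : ∀ᶠ l in 𝓝 l0, dist l l0 < 1 := by
    have := Metric.ball_mem_nhds l0 one_pos
    filter_upwards [this] with l hl
    exact hl
  filter_upwards [e1, e2, hV] with l h1 h2 h3 htyl y hy
  -- a point of the fibre with the least penalty
  obtain ⟨z, hz, hzmin⟩ : ∃ z, (l, z) ∈ C ∧ ∀ w, (l, w) ∈ C → qf d z ≤ qf d w := by
    have hK' : IsCompact {w | (l, w) ∈ C ∧ qf d w ≤ qf d y} := by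
      apply isCompact_of_isClosed_isBounded
      · apply IsClosed.inter
        · exact H.closed.preimage (by fun_prop : Continuous fun w : Fin k → ℝ => (l, w))
        · exact isClosed_le (continuous_qf d) continuous_const
      · have h1 : {w | (l, w) ∈ C ∧ qf d w ≤ qf d y} ⊆
            closedBall (0 : Fin k → ℝ) (max 1 (qf d y)) := by
          intro x hx
          rw [mem_closedBall, dist_zero_right, pi_norm_le_iff_of_nonneg (le_trans zero_le_one
            (le_max_left _ _))]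
          intro i
          rw [Real.norm_eq_abs]
          exact abs_le_of_qf hx.2 i
        exact isBounded_closedBall.subset h1
    obtain ⟨z, hz, hz'⟩ := hK'.exists_isMinOn ⟨y, hy, le_rfl⟩ (continuous_qf d).continuousOn
    refine ⟨z, hz.1, fun w hw => ?_⟩
    by_cases hwy : qf d w ≤ qf d y
    · exact hz' ⟨hw, hwy⟩
    · push Not at hwy
      exact hz.2.trans hwy.le
  have h4 := root_le htyl (H.root hP htyl hz hzmin)
  apply h1
  exact ⟨(l, z), ⟨hz, h2.le, by linarith⟩, rfl⟩

/-- **Projection lemma.** -/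
theorem Clop.proj (H : Clop F C) {P : (MvPolynomial ι ℤ)[X][X]} (hP : ElimP F d P) {j e : ℕ}
    {l0 : ι → ℝ} (hty : HasType P j e l0) :
    ∀ᶠ l in 𝓝 l0, HasType P j e l → ((∃ y, (l, y) ∈ C) ↔ ∃ y, (l0, y) ∈ C) := by
  by_cases h : ∃ y, (l0, y) ∈ C
  · obtain ⟨y, hy⟩ := h
    filter_upwards [H.open_dir hP hty hy] with l hl htyl
    exact ⟨fun _ => ⟨y, hy⟩, fun _ => hl htyl⟩
  · push Not at h
    filter_upwards [H.closed_dir hP hty h] with l hl htyl
    exact ⟨fun ⟨y, hy⟩ => absurd hy (hl htyl y), fun ⟨y, hy⟩ => absurd hy (h y)⟩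

end

end Pool.Agent.LibStar4
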