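import Pool.Agent.LibStar4.ArA
import Pool.Agent.LibStar4.ArB
import Pool.Agent.LibStar4.Proj
import Pool.Agent.LibStar4.Env

/-!
The polynomial of a formula.
-/

open Set Filter Topology

namespace Pool.Agent.LibStar4

noncomputable section

/-- the variables in the polynomial ring -/
def VA (m k₁ k₂ a : ℕ) (i : ℕ) : MvPolynomial (Fin (k₂ + a)) (MvPolynomial (Fin m ⊕ Fin k₁) ℤ) :=
  if h : i < m then MvPolynomial.C (MvPolynomial.X (Sum.inl ⟨i, h⟩)) else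
    if h' : i - m < k₁ then MvPolynomial.C (MvPolynomial.X (Sum.inr ⟨i - m, h'⟩)) else
    if h'' : i - m - k₁ < k₂ then MvPolynomial.X ⟨i - m - k₁, by omega⟩ else 0

/-- the slack variables in the polynomial ring -/
def SA (m k₁ k₂ a : ℕ) (i : ℕ) : MvPolynomial (Fin (k₂ + a)) (MvPolynomial (Fin m ⊕ Fin k₁) ℤ) :=
  if h : i < a then MvPolynomial.X ⟨k₂ + i, by omega⟩ else 0

/-- the polynomial of a formula -/
def FA (m k₁ k₂ : ℕ) (χ : Fml) :
    MvPolynomial (Fin (k₂ + χ.na)) (MvPolynomial (Fin m ⊕ Fin k₁) ℤ) :=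
  χ.ar (VA m k₁ k₂ χ.na) (SA m k₁ k₂ χ.na) true 0

/-- `Fml.le_ar` for `s = Siz.int.mv.mv`; the variables have size `≤ 1, 1` -/
theorem le_FA (m k₁ k₂ : ℕ) (χ : Fml) : Siz.int.mv.mv.Le (FA m k₁ k₂ χ) χ.wt (2 ^ χ.wt) := by
  unfold FA
  apply Fml.le_ar
  · intro i
    unfold VA
    split_ifs
    · exact Siz.mv_C _ (Siz.mv_X _ _)
    · exact Siz.mv_C _ (Siz.mv_X _ _)
    · exact Siz.mv_X _ _
    · exact Siz.Le.zero.mono (Nat.zero_le _) (Nat.zero_le _)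
  · intro i
    unfold SA
    split_ifs
    · exact Siz.mv_X _ _
    · exact Siz.Le.zero.mono (Nat.zero_le _) (Nat.zero_le _)

/-- The value of the polynomial of a formula: `Fml.map_ar` for the ring homomorphism
`MvPolynomial.eval₂Hom (ev _) v`, then compare the values of the variables. -/
theorem fv_FA (m k₁ k₂ : ℕ) (χ : Fml) (l : Fin m → ℝ) (u : Fin k₁ → ℝ)
    (v : Fin (k₂ + χ.na) → ℝ) :
    fv (FA m k₁ k₂ χ) (Sum.elim l u, v) =
      χ.ar (env₃ l u fun i : Fin k₂ => v (Fin.castAdd χ.na i))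
        (fun i => if h : i < χ.na then v (Fin.natAdd k₂ ⟨i, h⟩) else 0) true 0 := by
  have h0 : fv (FA m k₁ k₂ χ) (Sum.elim l u, v) =
      MvPolynomial.eval₂Hom (ev (Sum.elim l u)) v
        (χ.ar (VA m k₁ k₂ χ.na) (SA m k₁ k₂ χ.na) true 0) := rfl
  rw [h0, Fml.map_ar]
  have h1 : (fun i => MvPolynomial.eval₂Hom (ev (Sum.elim l u)) v (VA m k₁ k₂ χ.na i)) =
      env₃ l u fun i : Fin k₂ => v (Fin.castAdd χ.na i) := by
    funext i
    unfold VA env₃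
    split_ifs with h2 h3 h4
    · simp [ev]
    · simp [ev]
    · rw [MvPolynomial.coe_eval₂Hom, MvPolynomial.eval₂_X]
      rfl
    · exact map_zero _
  have h2 : (fun i => MvPolynomial.eval₂Hom (ev (Sum.elim l u)) v (SA m k₁ k₂ χ.na i)) =
      fun i => if h : i < χ.na then v (Fin.natAdd k₂ ⟨i, h⟩) else 0 := by
    funext i
    unfold SA
    split_ifs with h3
    · rw [MvPolynomial.coe_eval₂Hom, MvPolynomial.eval₂_X]
      rfl
    · exact map_zero _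
  rw [h1, h2]

theorem fv_FA_nonneg (m k₁ k₂ : ℕ) (χ : Fml)
    (x : (Fin m ⊕ Fin k₁ → ℝ) × (Fin (k₂ + χ.na) → ℝ)) : 0 ≤ fv (FA m k₁ k₂ χ) x := by
  have h0 : x = (Sum.elim (fun i => x.1 (Sum.inl i)) (fun i => x.1 (Sum.inr i)), x.2) := by
    refine Prod.ext ?_ rfl
    funext i
    rcases i with i | i <;> rfl
  rw [h0, fv_FA]
  exact Fml.ar_nonneg _ _ _ _ _

/-- `fv_FA`, `Fml.holds_of_ar`, `Fml.exists_ar`, `Fml.ar_congr`; `v = Fin.append y s` -/
theorem exists_FA_iff (m k₁ k₂ : ℕ) (χ : Fml) (l : Fin m → ℝ) (u : Fin k₁ → ℝ) :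
    (∃ v, fv (FA m k₁ k₂ χ) (Sum.elim l u, v) = 0) ↔ ∃ y : Fin k₂ → ℝ, χ.holds (env₃ l u y) := by
  constructor
  · rintro ⟨v, hv⟩
    rw [fv_FA] at hv
    exact ⟨_, (Fml.holds_of_ar _ _ true 0 χ hv).2 rfl⟩
  · rintro ⟨y, hy⟩
    obtain ⟨S, hS⟩ := Fml.exists_ar (env₃ l u y) true 0 χ (iff_of_true hy rfl)
    refine ⟨Fin.append y fun i : Fin χ.na => S i, ?_⟩
    rw [fv_FA]
    have h1 : (fun i : Fin k₂ => Fin.append y (fun i : Fin χ.na => S i) (Fin.castAdd χ.na i)) = y :=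
      funext fun i => Fin.append_left _ _ i
    rw [h1, ← hS]
    apply Fml.ar_congr
    intro i _ hi
    rw [Nat.zero_add] at hi
    simp only [dif_pos hi, Fin.append_right]

end

end Pool.Agent.LibStar4
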