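import Pool.Agent.LibStar4.BndA

namespace Pool.Agent.LibStar4

theorem BndB_eD1 {d k N : ℕ} (hd : d ≤ N) (hk : k ≤ N) :
    2 * eD d k + 2 ≤ 2 ^ ((N + 5) * (N + 3) + 2) := by
  have h1 : eD d k ≤ 2 ^ ((N + 5) * (N + 3)) :=
    eD_bound (hd.trans Nat.lt_two_pow_self.le) hk
  have h2 : 1 ≤ 2 ^ ((N + 5) * (N + 3)) := Nat.one_le_two_pow
  have h3 : 2 ^ ((N + 5) * (N + 3) + 2) = 4 * 2 ^ ((N + 5) * (N + 3)) := by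
    rw [pow_add]; ring
  rw [h3]
  omega

theorem BndB_norm {x y a c : ℕ} (hx : x ≤ 2 ^ a) (hy : y ≤ 2 ^ 2 ^ c) :
    2 * (x + 1) ^ 2 * y ^ 2 + (y + 1) ^ 2 ≤ 2 ^ 2 ^ (c + 2 * a + 5) := by
  have e1 : 1 ≤ 2 ^ a := Nat.one_le_two_pow
  have e2 : 1 ≤ 2 ^ 2 ^ c := Nat.one_le_two_pow
  have h1 : x + 1 ≤ 2 ^ (a + 1) := by rw [pow_succ]; omega
  have h2 : y + 1 ≤ 2 ^ (2 ^ c + 1) := by rw [pow_succ]; omega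
  have h3 : (x + 1) ^ 2 ≤ 2 ^ (2 * a + 2) := by
    calc (x + 1) ^ 2 ≤ (2 ^ (a + 1)) ^ 2 := Nat.pow_le_pow_left h1 2
      _ = 2 ^ (2 * a + 2) := by rw [← pow_mul]; congr 1; ring
  have h4 : y ^ 2 ≤ 2 ^ (2 ^ (c + 1)) := by
    calc y ^ 2 ≤ (2 ^ 2 ^ c) ^ 2 := Nat.pow_le_pow_left hy 2
      _ = 2 ^ (2 ^ (c + 1)) := by rw [← pow_mul]; congr 1
  have h5 : (y + 1) ^ 2 ≤ 2 ^ (2 ^ (c + 1) + 2) := by
    calc (y + 1) ^ 2 ≤ (2 ^ (2 ^ c + 1)) ^ 2 := Nat.pow_le_pow_left h2 2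
      _ = 2 ^ (2 ^ (c + 1) + 2) := by rw [← pow_mul]; congr 1; rw [pow_succ 2 c]; ring
  have h6 : 2 * (x + 1) ^ 2 * y ^ 2 ≤ 2 ^ (2 ^ (c + 1) + 2 * a + 3) := by
    calc 2 * (x + 1) ^ 2 * y ^ 2 ≤ 2 * 2 ^ (2 * a + 2) * 2 ^ (2 ^ (c + 1)) :=
          Nat.mul_le_mul (Nat.mul_le_mul_left _ h3) h4
      _ = 2 ^ (2 ^ (c + 1) + 2 * a + 3) := by
          rw [← pow_succ', ← pow_add]; congr 1; ring
  have h7 : (y + 1) ^ 2 ≤ 2 ^ (2 ^ (c + 1) + 2 * a + 3) :=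
    h5.trans (Nat.pow_le_pow_right (by norm_num) (by omega))
  have h8 : 2 * (x + 1) ^ 2 * y ^ 2 + (y + 1) ^ 2 ≤ 2 ^ (2 ^ (c + 1) + (2 * a + 4)) := by
    have : 2 ^ (2 ^ (c + 1) + (2 * a + 4)) = 2 ^ (2 ^ (c + 1) + 2 * a + 3) * 2 := by
      rw [← pow_succ]; congr 1
    rw [this]; omega
  refine h8.trans (Nat.pow_le_pow_right (by norm_num) ?_)
  have h9 : 2 * a + 4 + 1 ≤ 2 ^ (2 * a + 4) := Nat.lt_two_pow_self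
  have h10 : 1 ≤ 2 ^ (c + 1) := Nat.one_le_two_pow
  have h11 : 2 ^ (c + 2 * a + 5) = 2 ^ (c + 1) * 2 ^ (2 * a + 4) := by
    rw [← pow_add]; congr 1; ring
  rw [h11]
  nlinarith

/-- `eD_bound` twice: `eD d k ≤ 2 ^ a₁` with `a₁ = (N + 5) (N + 3)` (`a = N`, `M = N`, `N ≤ 2 ^ N`),
`2 * eD d k + 2 ≤ 2 ^ (a₁ + 2)`, and then `M = N + 1` -/
theorem tD_bound {d k k₁ N : ℕ} (hd : d ≤ N) (hk : k ≤ N) (hk₁ : k₁ ≤ N) :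
    tD d k k₁ ≤ 2 ^ pB N := by
  unfold tD
  refine (eD_bound (BndB_eD1 hd hk) (Nat.succ_le_succ hk₁)).trans
    (Nat.pow_le_pow_right (by norm_num) ?_)
  unfold pB
  exact Nat.le_add_right _ _

/-- `eH_bound` twice: `eH d h k ≤ 2 ^ 2 ^ c₁` (`a = b = M = N`), the new norm is
`≤ 2 ^ (2 ^ (c₁ + 1) + 2 a₁ + 4) ≤ 2 ^ 2 ^ (c₁ + 2 a₁ + 5)`, and then `M = N + 1` -/
theorem tH_bound {d h k k₁ N : ℕ} (hd : d ≤ N) (hh : h ≤ 2 ^ N) (hk : k ≤ N) (hk₁ : k₁ ≤ N) :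
    tH d h k k₁ ≤ 2 ^ 2 ^ pB N := by
  unfold tH
  have h1 : eD d k ≤ 2 ^ ((N + 5) * (N + 3)) :=
    eD_bound (hd.trans Nat.lt_two_pow_self.le) hk
  have h2 : eH d h k ≤ 2 ^ 2 ^ (2 * (N + 2) * N + N + 2 * N + N + 9) :=
    eH_bound (hd.trans Nat.lt_two_pow_self.le)
      (hh.trans (Nat.pow_le_pow_right (by norm_num) Nat.lt_two_pow_self.le)) hk
  refine (eH_bound (BndB_eD1 hd hk) (BndB_norm h1 h2) (Nat.succ_le_succ hk₁)).trans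
    (Nat.pow_le_pow_right (by norm_num) (Nat.pow_le_pow_right (by norm_num) ?_))
  unfold pB
  exact Nat.le_add_left _ _

end Pool.Agent.LibStar4
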