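import Pool.Agent.LibStar4.Elim2

/-!
The sizes (definitions).
-/

namespace Pool.Agent.LibStar4

/-- the degree of the eliminating polynomial -/
def eD (d k : ℕ) : ℕ := (2 * d + 1) ^ k * ((Lk k d + 2) * (d + 1))

/-- the norm of the eliminating polynomial -/
def eH (d h k : ℕ) : ℕ := ((2 * d + 1) ^ k).factorial *
  ((h + k + 1) * (2 * d + 2 + d * h) ^ Lk k d) ^ ((2 * d + 1) ^ k)

/-- the degree for two blocks -/
def tD (d k k₁ : ℕ) : ℕ := eD (2 * eD d k + 2) (k₁ + 1)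

/-- the norm for two blocks -/
def tH (d h k k₁ : ℕ) : ℕ := eH (2 * eD d k + 2)
  (2 * (eD d k + 1) ^ 2 * eH d h k ^ 2 + (eH d h k + 1) ^ 2) (k₁ + 1)

/-- the exponent -/
def pB (N : ℕ) : ℕ :=
  let a₁ := (N + 5) * (N + 3)
  let c₁ := 2 * (N + 2) * N + N + 2 * N + N + 9
  let a₂ := a₁ + 2
  let b₂ := c₁ + 2 * a₁ + 5
  (a₂ + 5) * (N + 1 + 3) + (2 * (a₂ + 2) * (N + 1) + b₂ + 2 * a₂ + (N + 1) + 9)

end Pool.Agent.LibStar4
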