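import Pool.Agent.LibStar4.Omega
import Pool.Agent.LibStar4.Sizes

open Set Filter Topology

namespace Pool.Agent.LibStar4

noncomputable section

/-- the scales are `≤ 1` (`om_le_one`) -/
theorem om_anti {m D H D' H' : ℕ} (hD : D ≤ D') (hH : H ≤ H') (h1 : 1 ≤ H') :
    Om m D' H' ⊆ Om m D H := by
  intro l hl
  refine ⟨hl.1, fun i => ?_⟩
  have hle : ∀ k, l k ≤ 1 := fun k => om_le_one h1 hl (k : ℕ) k rfl
  have h2 : (H : ℝ) * l i ≤ H' * l i :=
    mul_le_mul_of_nonneg_right (by exact_mod_cast hH) (hl.1 i).le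
  refine lt_of_le_of_lt h2 (lt_of_lt_of_le (hl.2 i) ?_)
  apply Finset.prod_le_prod
  · intro k _
    exact pow_nonneg (hl.1 k).le _
  · intro k _
    exact pow_le_pow_of_le_one (hl.1 k).le (hle k) hD

/-- `tH` is positive: `factorial_pos`, `2 * d + 2 + ... > 0` -/
theorem one_le_tH (d h k k₁ : ℕ) : 1 ≤ tH d h k k₁ := by
  unfold tH
  have key : ∀ a b c : ℕ, 1 ≤ eH a b c := by
    intro a b c
    unfold eH
    apply Nat.succ_le_of_lt
    apply Nat.mul_pos (Nat.factorial_pos _)
    apply Nat.pow_pos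
    apply Nat.mul_pos (by omega)
    apply Nat.pow_pos
    have : 0 ≤ a * b := Nat.zero_le _
    omega
  exact key _ _ _

end

end Pool.Agent.LibStar4
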