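import Pool.Agent.LibStar4.StratD
import Pool.Agent.LibStar4.StratF

/-!
Two blocks of quantifiers.
-/

open Polynomial Set Filter Topology

namespace Pool.Agent.LibStar4

noncomputable section

variable {m k₁ : ℕ}

/-! ### Sizes -/

/-- Elimination in the form that is used: `elim` with `s = Siz.int.mv`, `κ = 2 * d + 2 + d * h`. -/
theorem elim' {ι : Type} {k d h : ℕ} {F : MvPolynomial (Fin k) (MvPolynomial ι ℤ)}
    (hF : Siz.int.mv.mv.Le F d h) : ∃ P : (MvPolynomial ι ℤ)[X][X], Cst P ∧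
      Siz.int.mv.poly.poly.Le P (eD d k) (eH d h k) ∧ ElimP F d P := by
  obtain ⟨P, h1, h2, h3⟩ := elim Siz.int.mv hF (κ := 2 * d + 2 + d * h) (by omega) (by omega)
  refine ⟨P, h1, h2, ?_⟩
  intro l t T y hcrit hT
  exact h3 (ev l) t T y hcrit hT

/-- the whole zero set is clopen in itself -/
theorem stratE_clop {ι : Type} [Fintype ι] {k : ℕ} {F : MvPolynomial (Fin k) (MvPolynomial ι ℤ)}
    (hnn : ∀ x, 0 ≤ fv F x) : Clop F {x | fv F x = 0} where
  nonneg := hnn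
  sub := fun _ hx => hx
  closed := isClosed_eq (continuous_fv F) continuous_const
  closed' := by
    have : {x | fv F x = 0 ∧ x ∉ {x | fv F x = 0}} = (∅ : Set ((ι → ℝ) × (Fin k → ℝ))) := by
      ext x
      simp
    rw [this]
    exact isClosed_empty

/-- the set where there is no solution is locally constant on the types -/
theorem stratE_lc {ι : Type} [Fintype ι] {k d : ℕ}
    {F : MvPolynomial (Fin k) (MvPolynomial ι ℤ)} {C : Set ((ι → ℝ) × (Fin k → ℝ))}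
    (H : Clop F C) {P : (MvPolynomial ι ℤ)[X][X]} (hP : ElimP F d P) :
    LC P {x | ∃ y, (x, y) ∈ C} := by
  intro j e l0 hty
  exact H.proj hP hty

/-- complements -/
theorem stratE_lc_not {ι : Type} {P : (MvPolynomial ι ℤ)[X][X]} {T : Set (ι → ℝ)}
    (h : LC P T) : LC P Tᶜ := by
  intro j e l0 hty
  filter_upwards [h j e l0 hty] with l hl htyl
  have := hl htyl
  simp only [Set.mem_compl_iff]
  tauto

/-- **Two blocks.** Proof. `elim'` for `F` gives `P`; the set `T = {x | ¬ ∃ y, fv F (x, y) = 0}` is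
locally constant on the types of `P` (`Clop.proj` for `C = {x | fv F x = 0}`), i.e. `LC P T`. The
negation of the statement is `∃ u, Sum.elim l u ∈ T`, i.e. by `exists_iff_C₂`
`∃ j ≤ bt P, ∃ e ≤ P.natDegree, ∃ v, (l, v) ∈ C₂ P j e T`. For each `j, e`: `elim'` for `F₂ P j e`
(size: `le_F₂`, `bt_le`) gives `P₂`, and `{l | ∃ v, (l, v) ∈ C₂ P j e T}` is locally constant on the types
of `P₂` (`Clop.proj`, `clop_C₂`); `om_const` shows that membership is the same for `l` and `l'`. -/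
theorem two_block {k d h : ℕ} {F : MvPolynomial (Fin k) (MvPolynomial (Fin m ⊕ Fin k₁) ℤ)}
    (hF : Siz.int.mv.mv.Le F d h) (hnn : ∀ x, 0 ≤ fv F x) {l l' : Fin m → ℝ}
    (hl : l ∈ Om m (tD d k k₁) (tH d h k k₁)) (hl' : l' ∈ Om m (tD d k k₁) (tH d h k k₁)) :
    (∀ u : Fin k₁ → ℝ, ∃ y : Fin k → ℝ, fv F (Sum.elim l u, y) = 0) ↔
      ∀ u : Fin k₁ → ℝ, ∃ y : Fin k → ℝ, fv F (Sum.elim l' u, y) = 0 := by
  obtain ⟨P, hc, hle, hel⟩ := elim' hF
  set T : Set (Fin m ⊕ Fin k₁ → ℝ) := {x | ∃ y : Fin k → ℝ, (x, y) ∈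
    {x : (Fin m ⊕ Fin k₁ → ℝ) × (Fin k → ℝ) | fv F x = 0}}ᶜ with hTdef
  have hT : LC P T := stratE_lc_not (stratE_lc (stratE_clop hnn) hel)
  have key : ∀ j ≤ bt P, ∀ e ≤ P.natDegree,
      ((∃ v, (l, v) ∈ C₂ P j e T) ↔ ∃ v, (l', v) ∈ C₂ P j e T) := by
    intro j hj e _
    have hj' : j ≤ eD d k := hj.trans (bt_le hle)
    obtain ⟨P₂, hc₂, hle₂, hel₂⟩ := elim' (le_F₂ hle hj' e)
    have hT₂ : LC P₂ {l | ∃ v, (l, v) ∈ C₂ P j e T} := stratE_lc (clop_C₂ hT j e) hel₂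
    exact om_const (one_le_tH d h k k₁) hc₂ hle₂ hT₂ hl hl'
  have hneg : ∀ l : Fin m → ℝ, (∀ u : Fin k₁ → ℝ, ∃ y : Fin k → ℝ, fv F (Sum.elim l u, y) = 0) ↔
      ¬ ∃ j ≤ bt P, ∃ e ≤ P.natDegree, ∃ v, (l, v) ∈ C₂ P j e T := by
    intro l
    rw [← exists_iff_C₂ hc T l]
    simp only [hTdef, Set.mem_compl_iff, Set.mem_ofPred_eq, not_exists]
    push Not
    rfl
  rw [hneg l, hneg l']
  apply not_congr
  constructor
  · rintro ⟨j, hj, e, he, hv⟩
    exact ⟨j, hj, e, he, (key j hj e he).1 hv⟩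
  · rintro ⟨j, hj, e, he, hv⟩
    exact ⟨j, hj, e, he, (key j hj e he).2 hv⟩

end

end Pool.Agent.LibStar4
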