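import Pool.Agent.LibStar4.ArC
import Pool.Agent.LibStar4.StratE
import Pool.Agent.LibStar4.BndB

/-!
The threshold theorem.
-/

open Set Filter Topology

namespace Pool.Agent.LibStar4

noncomputable section

/-- **Threshold theorem.** -/
theorem threshold {m k₁ k₂ N : ℕ} (χ : Fml) (hχ : χ.wt ≤ N) (hk₁ : k₁ ≤ N)
    (hk₂ : k₂ + χ.na ≤ N) {l l' : Fin m → ℝ} (hl : l ∈ Om m (2 ^ pB N) (2 ^ 2 ^ pB N))
    (hl' : l' ∈ Om m (2 ^ pB N) (2 ^ 2 ^ pB N)) :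
    (∀ u : Fin k₁ → ℝ, ∃ y : Fin k₂ → ℝ, χ.holds (env₃ l u y)) ↔
      ∀ u : Fin k₁ → ℝ, ∃ y : Fin k₂ → ℝ, χ.holds (env₃ l' u y) := by
  have h1 : Om m (2 ^ pB N) (2 ^ 2 ^ pB N) ⊆
      Om m (tD χ.wt (k₂ + χ.na) k₁) (tH χ.wt (2 ^ χ.wt) (k₂ + χ.na) k₁) :=
    om_anti (tD_bound hχ hk₂ hk₁) (tH_bound hχ (Nat.pow_le_pow_right (by norm_num) hχ) hk₂ hk₁)
      (Nat.one_le_two_pow)
  have h2 := two_block (le_FA m k₁ k₂ χ) (fv_FA_nonneg m k₁ k₂ χ) (h1 hl) (h1 hl')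
  simp only [exists_FA_iff] at h2
  exact h2

end

end Pool.Agent.LibStar4
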