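import Pool.Agent.LibStar4.Atoms

/-!
Values and signs of the atoms.
-/

open Set

namespace Pool.Agent.LibStar4

noncomputable section

theorem Fml.isAt_range (φ : Fml) (o a : ℕ) (h : φ.isAt o a) : o ≤ a ∧ a < o + φ.code.length := by
  induction φ generalizing o with
  | eq t => simp only [Fml.isAt] at h; simp only [Fml.code, List.length_append, List.length_singleton]; omega
  | gt t => simp only [Fml.isAt] at h; simp only [Fml.code, List.length_append, List.length_singleton]; omega
  | ge t => simp only [Fml.isAt] at h; simp only [Fml.code, List.length_append, List.length_singleton]; omega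
  | neg φ ih =>
    simp only [Fml.isAt] at h
    have := ih o h
    simp only [Fml.code, List.length_append, List.length_singleton]
    omega
  | and φ ψ ih1 ih2 =>
    simp only [Fml.isAt] at h
    simp only [Fml.code, List.length_append, List.length_singleton]
    rcases h with h | h
    · have := ih1 o h
      omega
    · have := ih2 _ h
      omega
  | or φ ψ ih1 ih2 =>
    simp only [Fml.isAt] at h
    simp only [Fml.code, List.length_append, List.length_singleton]
    rcases h with h | h
    · have := ih1 o h
      omega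
    · have := ih2 _ h
      omega

theorem Fml.atv_of_not (V : ℕ → ℝ) (φ : Fml) (o a : ℕ) (h : ¬ φ.isAt o a) : φ.atv V o a = 0 := by
  induction φ generalizing o with
  | eq t => simp only [Fml.isAt] at h; simp only [Fml.atv, if_neg h]
  | gt t => simp only [Fml.isAt] at h; simp only [Fml.atv, if_neg h]
  | ge t => simp only [Fml.isAt] at h; simp only [Fml.atv, if_neg h]
  | neg φ ih =>
    simp only [Fml.isAt] at h
    simpa only [Fml.atv] using ih o h
  | and φ ψ ih1 ih2 =>
    simp only [Fml.isAt, not_or] at h
    simp only [Fml.atv, ih1 o h.1, ih2 _ h.2, add_zero]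
  | or φ ψ ih1 ih2 =>
    simp only [Fml.isAt, not_or] at h
    simp only [Fml.atv, ih1 o h.1, ih2 _ h.2, add_zero]

theorem Fml.sgn_congr {σ σ' : ℕ → SignType} (φ : Fml) (o : ℕ)
    (h : ∀ a, φ.isAt o a → σ a = σ' a) : φ.sgn σ o ↔ φ.sgn σ' o := by
  induction φ generalizing o with
  | eq t => simp only [Fml.sgn, h _ (show Fml.isAt o (.eq t) _ from rfl)]
  | gt t => simp only [Fml.sgn, h _ (show Fml.isAt o (.gt t) _ from rfl)]
  | ge t => simp only [Fml.sgn, h _ (show Fml.isAt o (.ge t) _ from rfl)]
  | neg φ ih =>
    simp only [Fml.sgn]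
    rw [ih o (fun a ha => h a ha)]
  | and φ ψ ih1 ih2 =>
    simp only [Fml.sgn]
    rw [ih1 o (fun a ha => h a (Or.inl ha)), ih2 _ (fun a ha => h a (Or.inr ha))]
  | or φ ψ ih1 ih2 =>
    simp only [Fml.sgn]
    rw [ih1 o (fun a ha => h a (Or.inl ha)), ih2 _ (fun a ha => h a (Or.inr ha))]

/-- induction on the formula for all `o`; for `and`, `or`: at the positions of the atoms of `φ` the value
`ψ.atv V (o + φ.code.length) a` is `0` and conversely (`isAt_range`, `atv_of_not`, `sgn_congr`) -/
theorem Fml.sgn_atv (V : ℕ → ℝ) (φ : Fml) (o : ℕ) :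
    φ.sgn (fun a => SignType.sign (φ.atv V o a)) o ↔ φ.holds V := by
  induction φ generalizing o with
  | eq t => simp only [Fml.sgn, Fml.atv, Fml.holds, if_true, sign_eq_zero_iff]
  | gt t => simp only [Fml.sgn, Fml.atv, Fml.holds, if_true, sign_eq_one_iff]
  | ge t => simp only [Fml.sgn, Fml.atv, Fml.holds, if_true, ne_eq, sign_eq_neg_one_iff, not_lt]
  | neg φ ih =>
    simp only [Fml.sgn, Fml.atv, Fml.holds]
    rw [ih o]
  | and φ ψ ih1 ih2 =>
    simp only [Fml.sgn, Fml.atv, Fml.holds]
    rw [Fml.sgn_congr (σ' := fun a => SignType.sign (φ.atv V o a)) φ o, ih1 o,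
      Fml.sgn_congr (σ' := fun a => SignType.sign (ψ.atv V (o + φ.code.length) a)) ψ _, ih2 _]
    · intro a ha
      have h1 : ¬ φ.isAt o a := by
        intro h
        have h2 := Fml.isAt_range _ _ _ h
        have h3 := Fml.isAt_range _ _ _ ha
        omega
      show SignType.sign _ = SignType.sign _
      rw [Fml.atv_of_not V φ o a h1, zero_add]
    · intro a ha
      have h1 : ¬ ψ.isAt (o + φ.code.length) a := by
        intro h
        have h2 := Fml.isAt_range _ _ _ h
        have h3 := Fml.isAt_range _ _ _ ha
        omega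
      show SignType.sign _ = SignType.sign _
      rw [Fml.atv_of_not V ψ _ a h1, add_zero]
  | or φ ψ ih1 ih2 =>
    simp only [Fml.sgn, Fml.atv, Fml.holds]
    rw [Fml.sgn_congr (σ' := fun a => SignType.sign (φ.atv V o a)) φ o, ih1 o,
      Fml.sgn_congr (σ' := fun a => SignType.sign (ψ.atv V (o + φ.code.length) a)) ψ _, ih2 _]
    · intro a ha
      have h1 : ¬ φ.isAt o a := by
        intro h
        have h2 := Fml.isAt_range _ _ _ h
        have h3 := Fml.isAt_range _ _ _ ha
        omega
      show SignType.sign _ = SignType.sign _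
      rw [Fml.atv_of_not V φ o a h1, zero_add]
    · intro a ha
      have h1 : ¬ ψ.isAt (o + φ.code.length) a := by
        intro h
        have h2 := Fml.isAt_range _ _ _ h
        have h3 := Fml.isAt_range _ _ _ ha
        omega
      show SignType.sign _ = SignType.sign _
      rw [Fml.atv_of_not V ψ _ a h1, add_zero]

theorem AtA_env_continuous (n : ℕ) (i : ℕ) :
    Continuous fun x : EuclideanSpace ℝ (Fin n) => env x.ofLp i := by
  unfold env
  by_cases h : i < n
  · simp only [dif_pos h]
    fun_prop
  · simp only [dif_neg h]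
    exact continuous_const

theorem AtA_eval_continuous (n : ℕ) (t : Tm) :
    Continuous fun x : EuclideanSpace ℝ (Fin n) => t.eval (env x.ofLp) := by
  induction t with
  | var i => exact AtA_env_continuous n i
  | const s b => exact continuous_const
  | add a b iha ihb => exact iha.add ihb
  | mul a b iha ihb => exact iha.mul ihb

theorem AtA_atv_continuous (n : ℕ) (φ : Fml) (o a : ℕ) :
    Continuous fun x : EuclideanSpace ℝ (Fin n) => φ.atv (env x.ofLp) o a := by
  induction φ generalizing o with
  | eq t =>
    simp only [Fml.atv]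
    by_cases h : a = o + t.code.length
    · simp only [if_pos h]; exact AtA_eval_continuous n t
    · simp only [if_neg h]; exact continuous_const
  | gt t =>
    simp only [Fml.atv]
    by_cases h : a = o + t.code.length
    · simp only [if_pos h]; exact AtA_eval_continuous n t
    · simp only [if_neg h]; exact continuous_const
  | ge t =>
    simp only [Fml.atv]
    by_cases h : a = o + t.code.length
    · simp only [if_pos h]; exact AtA_eval_continuous n t
    · simp only [if_neg h]; exact continuous_const
  | neg φ ih => exact ih o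
  | and φ ψ ih1 ih2 => exact (ih1 o).add (ih2 _)
  | or φ ψ ih1 ih2 => exact (ih1 o).add (ih2 _)

/-- `Tm.eval (env x)` is continuous in `x`; induction on the formula -/
theorem continuous_fA (n : ℕ) (φ : Fml) (a : Fin φ.code.length) : Continuous (fA n φ a) :=
  AtA_atv_continuous n φ 0 a

/-- `Fml.sgn_atv` with `o = 0`, `Fml.sgn_congr`, `Fml.isAt_range` -/
theorem semi_fA (n : ℕ) (φ : Fml) : semi (fA n φ) (PhiA φ) = {x | x.ofLp ∈ semiSet n φ} := by
  ext x
  show φ.sgn (fun a => if h : a < φ.code.length then
    SignType.sign (fA n φ ⟨a, h⟩ x) else 0) 0 ↔ φ.holds (env x.ofLp)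
  rw [← Fml.sgn_atv (env x.ofLp) φ 0]
  apply Fml.sgn_congr
  intro a ha
  have h1 := Fml.isAt_range _ _ _ ha
  have h2 : a < φ.code.length := by omega
  show (if h : a < φ.code.length then SignType.sign (fA n φ ⟨a, h⟩ x) else 0) = _
  rw [dif_pos h2]
  rfl

end

end Pool.Agent.LibStar4
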