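import Pool.Agent.LibStar4.Atoms

/-!
The code of a transformed formula.
-/

open Set

namespace Pool.Agent.LibStar4

noncomputable section

theorem atB_append (h : Tok → List Tok) (suf : ℕ → ℕ → List Tok) (b : Bool) (o : ℕ)
    (l l' : List Tok) :
    trC h suf b o (l ++ l') = trC h suf b o l ++ trC h suf b (o + l.length) l' := by
  unfold trC
  rw [List.length_append, List.range_add, List.flatMap_append, List.flatMap_map]
  have e1 : (List.range l.length).flatMap
      (fun i => trT h suf b (o + i) ((l ++ l').getD i (tok 0)))
      = (List.range l.length).flatMap (fun i => trT h suf b (o + i) (l.getD i (tok 0))) := by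
    refine List.flatMap_congr fun i hi => ?_
    rw [List.getD_append _ _ _ _ (List.mem_range.1 hi)]
  have e2 : (List.range l'.length).flatMap
      (fun i => trT h suf b (o + (l.length + i)) ((l ++ l').getD (l.length + i) (tok 0)))
      = (List.range l'.length).flatMap
        (fun i => trT h suf b (o + l.length + i) (l'.getD i (tok 0))) := by
    refine List.flatMap_congr fun i _ => ?_
    rw [List.getD_append_right _ _ _ _ (Nat.le_add_right _ _), Nat.add_sub_cancel_left,
      Nat.add_assoc]
  rw [e1, e2]

theorem atB_single (h : Tok → List Tok) (suf : ℕ → ℕ → List Tok) (b : Bool) (o : ℕ) (q : Tok) :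
    trC h suf b o [q] = trT h suf b o q := by
  unfold trC
  simp

theorem atB_tm_tok (h : Tok → List Tok) (suf : ℕ → ℕ → List Tok) (b : Bool) (o : ℕ) (q : Tok)
    (hq : q.1 < 3 ∨ 9 ≤ q.1) : trT h suf b o q = h q := by
  unfold trT
  rcases hq with hq | hq
  · rw [if_pos hq]
  · rw [if_neg (by omega), if_neg (by omega), if_neg (by omega), if_neg (by omega),
      if_neg (by omega)]

theorem atB_tm_mem (t : Tm) : ∀ q ∈ t.code, q.1 < 3 ∨ 9 ≤ q.1 := by
  induction t with
  | var i =>
    intro q hq
    simp only [Tm.code, List.mem_singleton] at hq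
    subst hq
    right
    change 9 ≤ i + 9
    omega
  | const s c =>
    intro q hq
    simp only [Tm.code, List.mem_singleton] at hq
    subst hq
    left
    change 0 < 3
    omega
  | add x y hx hy =>
    intro q hq
    simp only [Tm.code, List.mem_append, List.mem_singleton] at hq
    rcases hq with (hq | hq) | hq
    · exact hx q hq
    · exact hy q hq
    · subst hq
      left
      change 1 < 3
      omega
  | mul x y hx hy =>
    intro q hq
    simp only [Tm.code, List.mem_append, List.mem_singleton] at hq
    rcases hq with (hq | hq) | hq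
    · exact hx q hq
    · exact hy q hq
    · subst hq
      left
      change 2 < 3
      omega

theorem atB_list (h : Tok → List Tok) (suf : ℕ → ℕ → List Tok) (b : Bool) (l : List Tok)
    (hl : ∀ q ∈ l, q.1 < 3 ∨ 9 ≤ q.1) : ∀ o, trC h suf b o l = l.flatMap h := by
  induction l with
  | nil => intro o; rfl
  | cons q l ih =>
    intro o
    have e : q :: l = [q] ++ l := rfl
    rw [e, atB_append, atB_single, ih (fun r hr => hl r (List.mem_cons_of_mem _ hr)),
      atB_tm_tok h suf b o q (hl q List.mem_cons_self), List.flatMap_append,
      List.flatMap_singleton]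

theorem atB_tm (h : Tok → List Tok) (suf : ℕ → ℕ → List Tok) (b : Bool) (o : ℕ) (t : Tm) :
    trC h suf b o t.code = t.code.flatMap h :=
  atB_list h suf b t.code (atB_tm_mem t) o

theorem atB_suf (h : Tok → List Tok) (suf : ℕ → ℕ → List Tok) (b : Bool) (a k : ℕ) (h3 : 3 ≤ k)
    (h6 : k < 6) : trT h suf b a (tok k) = suf k a := by
  unfold trT tok
  rw [if_neg (by change ¬ k < 3; omega), if_pos (by change k < 6; exact h6)]

/-- The code of a transformed formula. Induction on the formula for all `o`, with a lemma
`trC h suf b o (l ++ l') = trC h suf b o l ++ trC h suf b (o + l.length) l'` (`List.range_add`,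
`List.flatMap_append`, `List.getD_append`, `List.getD_append_right`) and: for a polynomial `t` all the
symbols of `t.code` have number `< 3` or `≥ 9`, so `trC h suf b o t.code = t.code.flatMap h`. -/
theorem Fml.code_tr {A : ℕ → ℕ → Tm → Fml} {h : Tok → List Tok} {suf : ℕ → ℕ → List Tok}
    (hA : ∀ k a t, 3 ≤ k → k < 6 → (A k a t).code = t.code.flatMap h ++ suf k a) (b : Bool)
    (o : ℕ) (φ : Fml) : (φ.tr A b o).code = trC h suf b o φ.code := by
  induction φ generalizing o with
  | eq t =>
    simp only [Fml.tr, Fml.code]
    rw [hA 3 _ t (by omega) (by omega), atB_append, atB_tm, atB_single,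
      atB_suf h suf b _ 3 (by omega) (by omega)]
  | gt t =>
    simp only [Fml.tr, Fml.code]
    rw [hA 4 _ t (by omega) (by omega), atB_append, atB_tm, atB_single,
      atB_suf h suf b _ 4 (by omega) (by omega)]
  | ge t =>
    simp only [Fml.tr, Fml.code]
    rw [hA 5 _ t (by omega) (by omega), atB_append, atB_tm, atB_single,
      atB_suf h suf b _ 5 (by omega) (by omega)]
  | neg φ ih =>
    simp only [Fml.tr, Fml.code]
    rw [atB_append, atB_single, ← ih o]
    cases b
    · change (φ.tr A false o).code = (φ.tr A false o).code ++ []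
      rw [List.append_nil]
    · rfl
  | and φ ψ ih1 ih2 =>
    simp only [Fml.tr, Fml.code]
    rw [atB_append, atB_append, atB_single, ← ih1 o, ← ih2 (o + φ.code.length)]
    rfl
  | or φ ψ ih1 ih2 =>
    simp only [Fml.tr, Fml.code]
    rw [atB_append, atB_append, atB_single, ← ih1 o, ← ih2 (o + φ.code.length)]
    cases b
    · rfl
    · rfl

end

end Pool.Agent.LibStar4
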