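import Pool.Agent.LibStar4.AtA

/-!
The meaning of the transformed formulas.
-/

open Set

namespace Pool.Agent.LibStar4

noncomputable section

theorem AtC_eval_sq (V : ℕ → ℝ) (t : Tm) : (Tm.sq t).eval V = t.eval V ^ 2 := by
  simp [Tm.sq, Tm.eval, sq]

theorem AtC_eval_var (V : ℕ → ℝ) (i : ℕ) : (Tm.var i).eval V = V i := rfl

theorem AtC_alleq_aux (g : ℕ → ℕ) (y : ℕ) (V : ℕ → ℝ) (φ : Fml) : ∀ o : ℕ,
    ((φ.tr (fun _ a t => .eq (.add (t.rename g) (.mul tm1 (.var (y + a))))) false o).holds V ↔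
      ∀ a, φ.isAt o a → V (y + a) = φ.atv (fun v => V (g v)) o a) := by
  have key : ∀ (t : Tm) (b : ℕ),
      (Fml.eq (.add (t.rename g) (.mul tm1 (.var (y + b))))).holds V ↔
        V (y + b) = t.eval (fun v => V (g v)) := by
    intro t b
    have h1 : tm1.eval V = -1 := by simp [tm1, Tm.eval, bin]
    simp only [Fml.holds, Tm.eval, Tm.eval_rename]
    change _ + tm1.eval V * _ = 0 ↔ _
    rw [h1]
    constructor <;> intro h <;> linarith
  have both : ∀ (φ ψ : Fml) (o : ℕ),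
      ((∀ a, φ.isAt o a → V (y + a) = φ.atv (fun v => V (g v)) o a) ∧
        (∀ a, ψ.isAt (o + φ.code.length) a →
          V (y + a) = ψ.atv (fun v => V (g v)) (o + φ.code.length) a)) ↔
      ∀ a, (φ.isAt o a ∨ ψ.isAt (o + φ.code.length) a) →
        V (y + a) = φ.atv (fun v => V (g v)) o a
          + ψ.atv (fun v => V (g v)) (o + φ.code.length) a := by
    intro φ ψ o
    have s1 : ∀ a, φ.isAt o a → ψ.atv (fun v => V (g v)) (o + φ.code.length) a = 0 := by
      intro a ha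
      apply Fml.atv_of_not
      intro hb
      have := φ.isAt_range o a ha
      have := ψ.isAt_range _ a hb
      omega
    have s2 : ∀ a, ψ.isAt (o + φ.code.length) a → φ.atv (fun v => V (g v)) o a = 0 := by
      intro a hb
      apply Fml.atv_of_not
      intro ha
      have := φ.isAt_range o a ha
      have := ψ.isAt_range _ a hb
      omega
    constructor
    · rintro ⟨h1, h2⟩ a (ha | ha)
      · rw [h1 a ha, s1 a ha, add_zero]
      · rw [h2 a ha, s2 a ha, zero_add]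
    · intro h
      refine ⟨fun a ha => ?_, fun a ha => ?_⟩
      · rw [h a (Or.inl ha), s1 a ha, add_zero]
      · rw [h a (Or.inr ha), s2 a ha, zero_add]
  induction φ with
  | eq t => intro o; simp only [Fml.tr, Fml.isAt, Fml.atv]; rw [key]; simp
  | gt t => intro o; simp only [Fml.tr, Fml.isAt, Fml.atv]; rw [key]; simp
  | ge t => intro o; simp only [Fml.tr, Fml.isAt, Fml.atv]; rw [key]; simp
  | neg φ ih => intro o; simp only [Fml.tr, Fml.isAt, Fml.atv, cond_false]; exact ih o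
  | and φ ψ ih1 ih2 =>
    intro o
    simp only [Fml.tr, Fml.isAt, Fml.atv, Fml.holds]
    rw [ih1, ih2]
    exact both φ ψ o
  | or φ ψ ih1 ih2 =>
    intro o
    simp only [Fml.tr, Fml.isAt, Fml.atv, cond_false, Fml.holds]
    rw [ih1, ih2]
    exact both φ ψ o

/-- induction (generalize the start `0` of the code to `o`); for `and`: the values of the atoms of the two
parts are separate (`isAt_range`, `atv_of_not`) -/
theorem holds_alleq (g : ℕ → ℕ) (y : ℕ) (φ : Fml) (V : ℕ → ℝ) :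
    (alleq g y φ).holds V ↔
      ∀ a, φ.isAt 0 a → V (y + a) = φ.atv (fun v => V (g v)) 0 a := by
  exact AtC_alleq_aux g y V φ 0

/-- induction; `δ² - Y² ≥ 0 ↔ |Y| ≤ δ` for `δ ≥ 0` (`sq_le_sq'`, `abs_le_abs`) -/
theorem holds_gapF (y : ℕ) (ε δ : Tm) (φ : Fml) (V : ℕ → ℝ) (hε : 0 ≤ ε.eval V)
    (hδ : 0 ≤ δ.eval V) :
    (gapF y ε δ φ).holds V ↔
      ∀ a, φ.isAt 0 a → |V (y + a)| ≤ δ.eval V ∨ ε.eval V ≤ |V (y + a)| := by
  have key : ∀ b : ℕ, (Fml.or (.ge (Tm.sub δ.sq (Tm.sq (.var (y + b)))))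
      (.ge (Tm.sub (Tm.sq (.var (y + b))) ε.sq))).holds V ↔
        (|V (y + b)| ≤ δ.eval V ∨ ε.eval V ≤ |V (y + b)|) := by
    intro b
    simp only [Fml.holds, eval_sub, AtC_eval_sq, AtC_eval_var, sub_nonneg]
    rw [← sq_abs (V (y + b)), pow_le_pow_iff_left₀ (abs_nonneg _) hδ two_ne_zero,
      pow_le_pow_iff_left₀ hε (abs_nonneg _) two_ne_zero]
  have aux : ∀ (φ : Fml) (o : ℕ),
      ((φ.tr (fun _ a _ => .or (.ge (Tm.sub δ.sq (Tm.sq (.var (y + a)))))
        (.ge (Tm.sub (Tm.sq (.var (y + a))) ε.sq))) false o).holds V ↔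
      ∀ a, φ.isAt o a → |V (y + a)| ≤ δ.eval V ∨ ε.eval V ≤ |V (y + a)|) := by
    intro φ
    induction φ with
    | eq t => intro o; simp only [Fml.tr, Fml.isAt]; rw [key]; simp
    | gt t => intro o; simp only [Fml.tr, Fml.isAt]; rw [key]; simp
    | ge t => intro o; simp only [Fml.tr, Fml.isAt]; rw [key]; simp
    | neg φ ih => intro o; simp only [Fml.tr, Fml.isAt, cond_false]; exact ih o
    | and φ ψ ih1 ih2 =>
      intro o
      simp only [Fml.tr, Fml.isAt]
      change (_ ∧ _) ↔ _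
      rw [ih1, ih2]
      exact ⟨fun h a ha => ha.elim (h.1 a) (h.2 a),
        fun h => ⟨fun a ha => h a (Or.inl ha), fun a ha => h a (Or.inr ha)⟩⟩
    | or φ ψ ih1 ih2 =>
      intro o
      simp only [Fml.tr, Fml.isAt, cond_false]
      change (_ ∧ _) ↔ _
      rw [ih1, ih2]
      exact ⟨fun h a ha => ha.elim (h.1 a) (h.2 a),
        fun h => ⟨fun a ha => h a (Or.inl ha), fun a ha => h a (Or.inr ha)⟩⟩
  exact aux φ 0

theorem AtC_sg_zero {δ Y : ℝ} : sg δ Y = 0 ↔ |Y| ≤ δ ∨ Y = 0 := by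
  unfold sg
  split_ifs with h
  · simp [h]
  · simp only [h, false_or]
    exact sign_eq_zero_iff

theorem AtC_sg_zero' {δ Y : ℝ} (hδ : 0 ≤ δ) : sg δ Y = 0 ↔ |Y| ≤ δ := by
  rw [AtC_sg_zero]
  refine ⟨fun h => h.elim id fun h => ?_, Or.inl⟩
  rw [h, abs_zero]; exact hδ

theorem AtC_sg_one {δ Y : ℝ} (hδ : 0 ≤ δ) : sg δ Y = 1 ↔ δ < Y := by
  unfold sg
  split_ifs with h
  · have h2 : ¬ δ < Y := not_lt.2 ((le_abs_self Y).trans h)
    simp [h2]
  · rw [sign_eq_one_iff]
    rw [not_le, lt_abs] at h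
    constructor
    · intro hY; rcases h with h | h
      · exact h
      · linarith
    · intro hY; linarith

theorem AtC_sg_neg {δ Y : ℝ} (hδ : 0 ≤ δ) : sg δ Y = -1 ↔ Y < -δ := by
  unfold sg
  split_ifs with h
  · have h2 : ¬ Y < -δ := not_lt.2 (neg_le_of_abs_le h)
    simp [h2]
  · rw [sign_eq_neg_one_iff]
    rw [not_le, lt_abs] at h
    constructor
    · intro hY; rcases h with h | h
      · linarith
      · linarith
    · intro hY; linarith

/-- induction; `sg δ Y = 0 ↔ |Y| ≤ δ`, `sg δ Y = 1 ↔ δ < Y`, `sg δ Y ≠ -1 ↔ -δ ≤ Y` for `δ ≥ 0` -/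
theorem holds_sgF (y : ℕ) (δ : Tm) (φ : Fml) (V : ℕ → ℝ) (hδ : 0 ≤ δ.eval V) :
    (sgF y δ φ).holds V ↔ φ.sgn (fun a => sg (δ.eval V) (V (y + a))) 0 := by
  have aux : ∀ (φ : Fml) (o : ℕ),
      ((φ.tr (fun k a _ => if k < 4 then .ge (Tm.sub δ.sq (Tm.sq (.var (y + a)))) else
        if k < 5 then .gt (Tm.sub (.var (y + a)) δ) else .ge (.add (.var (y + a)) δ))
        true o).holds V ↔ φ.sgn (fun a => sg (δ.eval V) (V (y + a))) o) := by
    intro φ
    induction φ with
    | eq t =>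
      intro o
      have h34 : (3 : ℕ) < 4 := by norm_num
      simp only [Fml.tr, Fml.sgn, h34, if_true, Fml.holds, eval_sub, AtC_eval_sq, AtC_eval_var,
        sub_nonneg]
      rw [AtC_sg_zero' hδ, ← sq_abs (V _), pow_le_pow_iff_left₀ (abs_nonneg _) hδ two_ne_zero]
    | gt t =>
      intro o
      have h44 : ¬ (4 : ℕ) < 4 := by norm_num
      have h45 : (4 : ℕ) < 5 := by norm_num
      simp only [Fml.tr, Fml.sgn, h44, h45, if_true, if_false, Fml.holds, eval_sub, AtC_eval_var,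
        sub_pos]
      rw [AtC_sg_one hδ]
    | ge t =>
      intro o
      have h54 : ¬ (5 : ℕ) < 4 := by norm_num
      have h55 : ¬ (5 : ℕ) < 5 := by norm_num
      simp only [Fml.tr, Fml.sgn, h54, h55, if_false, Fml.holds, Tm.eval, ne_eq]
      rw [AtC_sg_neg hδ, not_lt]
      constructor <;> intro h <;> linarith
    | neg φ ih =>
      intro o
      simp only [Fml.tr, Fml.sgn, cond_true]
      change (¬ _) ↔ _
      rw [ih]
    | and φ ψ ih1 ih2 =>
      intro o
      simp only [Fml.tr, Fml.sgn]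
      change (_ ∧ _) ↔ _
      rw [ih1, ih2]
    | or φ ψ ih1 ih2 =>
      intro o
      simp only [Fml.tr, Fml.sgn, cond_true]
      change (_ ∨ _) ↔ _
      rw [ih1, ih2]
  exact aux φ 0

end

end Pool.Agent.LibStar4
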