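import Mathlib

/-!
Windows: approximations of sets that are defined by the signs of finitely many functions.
(Definitions.)
-/

open Filter Topology Set

namespace Pool.Agent.LibStar4

noncomputable section

variable {ι : Type} {E : Type*}

/-- the sign with tolerance `δ` -/
def sg (δ y : ℝ) : SignType := if |y| ≤ δ then 0 else SignType.sign y

/-- the set defined by the signs of functions -/
def semi (f : ι → E → ℝ) (Φ : (ι → SignType) → Prop) : Set E :=
  {x | Φ fun a => SignType.sign (f a x)}

/-- the complementary condition -/
def nt (Φ : (ι → SignType) → Prop) : (ι → SignType) → Prop := fun σ => ¬ Φ σ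

/-- the window `(δ, ε)` -/
def Win (f : ι → E → ℝ) (Φ : (ι → SignType) → Prop) (ε δ : ℝ) : Set E :=
  {x | (∀ a, |f a x| ≤ δ ∨ ε ≤ |f a x|) ∧ Φ fun a => sg δ (f a x)}

end

end Pool.Agent.LibStar4
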