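import Pool.Agent.LibStar4.Sent
import Pool.Agent.LibStar4.Win

/-!
Atoms of formulas by their positions in the code, and transformations of formulas. (Definitions.)
-/

open Set

namespace Pool.Agent.LibStar4

noncomputable section

/-- truth from the signs of the atoms; the atom at the position `a` of the code has the sign `σ a`,
and the code starts at the position `o` -/
def Fml.sgn (σ : ℕ → SignType) : ℕ → Fml → Prop
  | o, .eq t => σ (o + t.code.length) = 0
  | o, .gt t => σ (o + t.code.length) = 1
  | o, .ge t => σ (o + t.code.length) ≠ -1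
  | o, .neg φ => ¬ φ.sgn σ o
  | o, .and φ ψ => φ.sgn σ o ∧ ψ.sgn σ (o + φ.code.length)
  | o, .or φ ψ => φ.sgn σ o ∨ ψ.sgn σ (o + φ.code.length)

/-- the value of the atom at a position (`0` if there is no atom) -/
def Fml.atv (V : ℕ → ℝ) : ℕ → Fml → ℕ → ℝ
  | o, .eq t, a => if a = o + t.code.length then t.eval V else 0
  | o, .gt t, a => if a = o + t.code.length then t.eval V else 0
  | o, .ge t, a => if a = o + t.code.length then t.eval V else 0
  | o, .neg φ, a => φ.atv V o a
  | o, .and φ ψ, a => φ.atv V o a + ψ.atv V (o + φ.code.length) a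
  | o, .or φ ψ, a => φ.atv V o a + ψ.atv V (o + φ.code.length) a

/-- the positions of the atoms -/
def Fml.isAt : ℕ → Fml → ℕ → Prop
  | o, .eq t, a => a = o + t.code.length
  | o, .gt t, a => a = o + t.code.length
  | o, .ge t, a => a = o + t.code.length
  | o, .neg φ, a => φ.isAt o a
  | o, .and φ ψ, a => φ.isAt o a ∨ ψ.isAt (o + φ.code.length) a
  | o, .or φ ψ, a => φ.isAt o a ∨ ψ.isAt (o + φ.code.length) a

/-- the functions of the atoms -/
def fA (n : ℕ) (φ : Fml) (a : Fin φ.code.length) (x : EuclideanSpace ℝ (Fin n)) : ℝ :=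
  φ.atv (env x.ofLp) 0 a

/-- the condition on the signs -/
def PhiA (φ : Fml) (σ : Fin φ.code.length → SignType) : Prop :=
  φ.sgn (fun a => if h : a < φ.code.length then σ ⟨a, h⟩ else 0) 0

/-! ### Transformations of formulas -/

/-- transformation of a formula: the atoms are replaced, depending on the kind (`3, 4, 5`), the
position and the polynomial; for `b = false` negations are dropped and disjunctions become conjunctions -/
def Fml.tr (A : ℕ → ℕ → Tm → Fml) (b : Bool) : ℕ → Fml → Fml
  | o, .eq t => A 3 (o + t.code.length) t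
  | o, .gt t => A 4 (o + t.code.length) t
  | o, .ge t => A 5 (o + t.code.length) t
  | o, .neg φ => bif b then .neg (φ.tr A b o) else φ.tr A b o
  | o, .and φ ψ => .and (φ.tr A b o) (ψ.tr A b (o + φ.code.length))
  | o, .or φ ψ => bif b then .or (φ.tr A b o) (ψ.tr A b (o + φ.code.length)) else
      .and (φ.tr A b o) (ψ.tr A b (o + φ.code.length))

/-- the transformation of one symbol at the position `a` -/
def trT (h : Tok → List Tok) (suf : ℕ → ℕ → List Tok) (b : Bool) (a : ℕ) (q : Tok) : List Tok :=
  if q.1 < 3 then h q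
  else if q.1 < 6 then suf q.1 a
  else if q.1 < 7 then (bif b then [tok 6] else [])
  else if q.1 < 8 then [tok 7]
  else if q.1 < 9 then (bif b then [tok 8] else [tok 7])
  else h q

/-- the transformation on codes -/
def trC (h : Tok → List Tok) (suf : ℕ → ℕ → List Tok) (b : Bool) (o : ℕ) (l : List Tok) :
    List Tok :=
  (List.range l.length).flatMap fun i => trT h suf b (o + i) (l.getD i (tok 0))

/-- the constant `1` -/
def to1 : Tm := .const false [true]

/-- all atoms have the values `V (y + a)`, where the variables of the polynomials are renamed -/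
def alleq (g : ℕ → ℕ) (y : ℕ) (φ : Fml) : Fml :=
  φ.tr (fun _ a t => .eq (.add (t.rename g) (.mul tm1 (.var (y + a))))) false 0

/-- truth of the formula with tolerance `δ` -/
def sgF (y : ℕ) (δ : Tm) (φ : Fml) : Fml :=
  φ.tr (fun k a _ => if k < 4 then .ge (Tm.sub δ.sq (Tm.sq (.var (y + a)))) else
    if k < 5 then .gt (Tm.sub (.var (y + a)) δ) else .ge (.add (.var (y + a)) δ)) true 0

/-- no value between `δ` and `ε` -/
def gapF (y : ℕ) (ε δ : Tm) (φ : Fml) : Fml :=
  φ.tr (fun _ a _ => .or (.ge (Tm.sub δ.sq (Tm.sq (.var (y + a)))))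
    (.ge (Tm.sub (Tm.sq (.var (y + a))) ε.sq))) false 0

end

end Pool.Agent.LibStar4
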