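import Pool.Agent.LibStar4.Sizes

namespace Pool.Agent.LibStar4

theorem bndA_r {d k a M : ℕ} (hd : d ≤ 2 ^ a) (hk : k ≤ M) :
    (2 * d + 1) ^ k ≤ 2 ^ ((a + 2) * M) := by
  have h1 : 2 * d + 1 ≤ 2 ^ (a + 2) := by
    have h2 : 2 ^ (a + 2) = 4 * 2 ^ a := by ring
    have h3 : 1 ≤ 2 ^ a := Nat.one_le_two_pow
    omega
  calc (2 * d + 1) ^ k ≤ (2 * d + 1) ^ M := Nat.pow_le_pow_right (by omega) hk
    _ ≤ (2 ^ (a + 2)) ^ M := Nat.pow_le_pow_left h1 M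
    _ = 2 ^ ((a + 2) * M) := (pow_mul 2 (a + 2) M).symm

theorem bndA_k {k M : ℕ} (hk : k ≤ M) : k + 1 ≤ 2 ^ M := by
  have h1 : M < 2 ^ M := Nat.lt_two_pow_self
  omega

theorem bndA_L {d k a M : ℕ} (hd : d ≤ 2 ^ a) (hk : k ≤ M) :
    Lk k d + 2 ≤ 2 ^ (a + M + 3) := by
  unfold Lk
  have h1 := bndA_k hk
  have h2 : d * (k + 1) ≤ 2 ^ a * 2 ^ M := Nat.mul_le_mul hd h1
  have h3 : 2 ^ (a + M + 3) = 8 * (2 ^ a * 2 ^ M) := by ring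
  have h4 : 1 ≤ 2 ^ a * 2 ^ M := Nat.succ_le_of_lt (by positivity)
  have h5 : 2 * d + 2 + 2 * d * k + 2 = 2 * (d * (k + 1)) + 4 := by ring
  omega

theorem bndA_add {X y : ℕ} (hX : 1 ≤ X) : X + y ≤ X * 2 ^ y := by
  have h1 : y + 1 ≤ 2 ^ y := bndA_k le_rfl
  calc X + y ≤ X * (y + 1) := by
        have : y ≤ X * y := Nat.le_mul_of_pos_left y hX
        calc X + y ≤ X + X * y := by omega
          _ = X * (y + 1) := by ring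
    _ ≤ X * 2 ^ y := Nat.mul_le_mul_left X h1

/-- `2 d + 1 ≤ 2 ^ (a + 2)`, `Lk k d + 2 = 2 d + 4 + 2 d k ≤ 2 ^ (a + M + 3)` (`M ≤ 2 ^ M`),
`d + 1 ≤ 2 ^ (a + 1)`, and `(a + 2) M + (a + M + 3) + (a + 1) ≤ (a + 5) (M + 3)`. -/
theorem eD_bound {d k a M : ℕ} (hd : d ≤ 2 ^ a) (hk : k ≤ M) :
    eD d k ≤ 2 ^ ((a + 5) * (M + 3)) := by
  unfold eD
  have h1 := bndA_r hd hk
  have h2 := bndA_L hd hk
  have h3 : d + 1 ≤ 2 ^ (a + 1) := by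
    have h4 : 2 ^ (a + 1) = 2 * 2 ^ a := by ring
    have h5 : 1 ≤ 2 ^ a := Nat.one_le_two_pow
    omega
  calc (2 * d + 1) ^ k * ((Lk k d + 2) * (d + 1))
      ≤ 2 ^ ((a + 2) * M) * (2 ^ (a + M + 3) * 2 ^ (a + 1)) :=
        Nat.mul_le_mul h1 (Nat.mul_le_mul h2 h3)
    _ = 2 ^ ((a + 2) * M + (a + M + 3 + (a + 1))) := by rw [← pow_add, ← pow_add]
    _ ≤ 2 ^ ((a + 5) * (M + 3)) := by
        apply Nat.pow_le_pow_right (by norm_num)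
        nlinarith

/-- Let `R = (2 d + 1) ^ k ≤ 2 ^ r`, `r = (a + 2) M`. `R! ≤ R ^ R ≤ 2 ^ (r 2 ^ r) ≤ 2 ^ 2 ^ (2 r)`.
`h + k + 1 ≤ 2 ^ (2 ^ b + M + 1)`, `2 d + 2 + d h ≤ 2 ^ (2 ^ b + a + 2)`, `Lk k d ≤ 2 ^ (a + M + 3)`, so
`(2 d + 2 + d h) ^ Lk k d ≤ 2 ^ 2 ^ (b + 2 a + M + 5)` (using `X + y ≤ X * 2 ^ y` for `X ≥ 1`), the base
is `≤ 2 ^ 2 ^ (b + 2 a + M + 6)`, its power `R` is `≤ 2 ^ 2 ^ (b + 2 a + M + 6 + r)`, and
`2 ^ (2 r) + 2 ^ (b + 2 a + M + 6 + r) ≤ 2 ^ (2 r + b + 2 a + M + 7)`. -/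
theorem eH_bound {d h k a b M : ℕ} (hd : d ≤ 2 ^ a) (hh : h ≤ 2 ^ 2 ^ b) (hk : k ≤ M) :
    eH d h k ≤ 2 ^ 2 ^ (2 * (a + 2) * M + b + 2 * a + M + 9) := by
  unfold eH
  set R := (2 * d + 1) ^ k with hR
  set r := (a + 2) * M with hr
  have hRr : R ≤ 2 ^ r := bndA_r hd hk
  have hR1 : 1 ≤ R := Nat.succ_le_of_lt (Nat.pow_pos (by omega))
  have hrr : r ≤ 2 ^ r := Nat.lt_two_pow_self.le
  -- the factorial
  have hF : R.factorial ≤ 2 ^ 2 ^ (2 * r) := by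
    calc R.factorial ≤ R ^ R := Nat.factorial_le_pow R
      _ ≤ (2 ^ r) ^ R := Nat.pow_le_pow_left hRr R
      _ ≤ (2 ^ r) ^ (2 ^ r) := Nat.pow_le_pow_right Nat.one_le_two_pow hRr
      _ = 2 ^ (r * 2 ^ r) := (pow_mul 2 r (2 ^ r)).symm
      _ ≤ 2 ^ (2 ^ r * 2 ^ r) :=
          Nat.pow_le_pow_right (by norm_num) (Nat.mul_le_mul_right _ hrr)
      _ = 2 ^ 2 ^ (2 * r) := by rw [← pow_add, two_mul]
  have hb1 : 1 ≤ 2 ^ b := Nat.one_le_two_pow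
  have hX : 2 ≤ 2 ^ 2 ^ b := by
    calc 2 = 2 ^ 1 := by norm_num
      _ ≤ 2 ^ 2 ^ b := Nat.pow_le_pow_right (by norm_num) hb1
  have hA1 : 1 ≤ 2 ^ a := Nat.one_le_two_pow
  have hM1 : 1 ≤ 2 ^ M := Nat.one_le_two_pow
  -- the first factor of the base
  have h1 : h + k + 1 ≤ 2 ^ 2 ^ (b + 2 * a + M + 5) := by
    have c1 := bndA_k hk
    have c2 : h + k + 1 ≤ 2 ^ (2 ^ b + (M + 1)) := by
      have c3 : 2 ^ (2 ^ b + (M + 1)) = 2 * (2 ^ 2 ^ b * 2 ^ M) := by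
        rw [pow_add, pow_succ]; ring
      have c4 : 2 ^ 2 ^ b ≤ 2 ^ 2 ^ b * 2 ^ M := Nat.le_mul_of_pos_right _ (by omega)
      have c5 : 2 ^ M ≤ 2 ^ 2 ^ b * 2 ^ M := Nat.le_mul_of_pos_left _ (by omega)
      omega
    refine c2.trans (Nat.pow_le_pow_right (by norm_num) ?_)
    calc 2 ^ b + (M + 1) ≤ 2 ^ b * 2 ^ (M + 1) := bndA_add hb1
      _ = 2 ^ (b + (M + 1)) := (pow_add 2 b (M + 1)).symm
      _ ≤ 2 ^ (b + 2 * a + M + 5) := Nat.pow_le_pow_right (by norm_num) (by omega)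
  -- the second factor of the base
  have h2 : (2 * d + 2 + d * h) ^ Lk k d ≤ 2 ^ 2 ^ (b + 2 * a + M + 5) := by
    have c1 : 2 * d + 2 + d * h ≤ 2 ^ (2 ^ b + (a + 2)) := by
      have c3 : 2 ^ (2 ^ b + (a + 2)) = 4 * (2 ^ a * 2 ^ 2 ^ b) := by
        rw [pow_add, pow_add]; ring
      have c4 : d * h ≤ 2 ^ a * 2 ^ 2 ^ b := Nat.mul_le_mul hd hh
      have c5 : 2 ^ a * 2 ≤ 2 ^ a * 2 ^ 2 ^ b := Nat.mul_le_mul_left _ hX
      omega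
    have hL : Lk k d ≤ 2 ^ (a + M + 3) := by
      have := bndA_L hd hk
      omega
    calc (2 * d + 2 + d * h) ^ Lk k d ≤ (2 ^ (2 ^ b + (a + 2))) ^ Lk k d :=
          Nat.pow_le_pow_left c1 _
      _ ≤ (2 ^ (2 ^ b + (a + 2))) ^ 2 ^ (a + M + 3) :=
          Nat.pow_le_pow_right Nat.one_le_two_pow hL
      _ = 2 ^ ((2 ^ b + (a + 2)) * 2 ^ (a + M + 3)) := (pow_mul 2 _ _).symm
      _ ≤ 2 ^ (2 ^ b * 2 ^ (a + 2) * 2 ^ (a + M + 3)) :=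
          Nat.pow_le_pow_right (by norm_num) (Nat.mul_le_mul_right _ (bndA_add hb1))
      _ = 2 ^ 2 ^ (b + 2 * a + M + 5) := by
          congr 1
          rw [← pow_add, ← pow_add]
          congr 1
          ring
  -- the base
  have h3 : (h + k + 1) * (2 * d + 2 + d * h) ^ Lk k d ≤ 2 ^ 2 ^ (b + 2 * a + M + 6) := by
    calc (h + k + 1) * (2 * d + 2 + d * h) ^ Lk k d
        ≤ 2 ^ 2 ^ (b + 2 * a + M + 5) * 2 ^ 2 ^ (b + 2 * a + M + 5) := Nat.mul_le_mul h1 h2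
      _ = 2 ^ 2 ^ (b + 2 * a + M + 6) := by
          rw [← pow_add, ← two_mul]
          congr 1
          rw [← pow_succ']
  -- its power
  have h4 : ((h + k + 1) * (2 * d + 2 + d * h) ^ Lk k d) ^ R ≤
      2 ^ 2 ^ (b + 2 * a + M + 6 + r) := by
    calc ((h + k + 1) * (2 * d + 2 + d * h) ^ Lk k d) ^ R
        ≤ (2 ^ 2 ^ (b + 2 * a + M + 6)) ^ R := Nat.pow_le_pow_left h3 R
      _ ≤ (2 ^ 2 ^ (b + 2 * a + M + 6)) ^ 2 ^ r := Nat.pow_le_pow_right Nat.one_le_two_pow hRr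
      _ = 2 ^ 2 ^ (b + 2 * a + M + 6 + r) := by
          rw [← pow_mul, ← pow_add]
  calc R.factorial * ((h + k + 1) * (2 * d + 2 + d * h) ^ Lk k d) ^ R
      ≤ 2 ^ 2 ^ (2 * r) * 2 ^ 2 ^ (b + 2 * a + M + 6 + r) := Nat.mul_le_mul hF h4
    _ ≤ 2 ^ 2 ^ (2 * r + (b + 2 * a + M + 6)) * 2 ^ 2 ^ (2 * r + (b + 2 * a + M + 6)) := by
        apply Nat.mul_le_mul
        · exact Nat.pow_le_pow_right (by norm_num)
            (Nat.pow_le_pow_right (by norm_num) (by omega))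
        · exact Nat.pow_le_pow_right (by norm_num)
            (Nat.pow_le_pow_right (by norm_num) (by omega))
    _ = 2 ^ 2 ^ (2 * r + (b + 2 * a + M + 6) + 1) := by
        rw [← pow_add, ← two_mul, ← pow_succ']
    _ ≤ 2 ^ 2 ^ (2 * (a + 2) * M + b + 2 * a + M + 9) := by
        apply Nat.pow_le_pow_right (by norm_num)
        apply Nat.pow_le_pow_right (by norm_num)
        have : 2 * r = 2 * (a + 2) * M := by rw [hr]; ring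
        omega

end Pool.Agent.LibStar4
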