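import Pool.Agent.LibStar4.Chi

/-!
Norms and the equation of the points.
-/

open Set

namespace Pool.Agent.LibStar4

noncomputable section

theorem ChA_sq (V : ℕ → ℝ) (t : Tm) : (Tm.sq t).eval V = t.eval V ^ 2 := by
  simp only [Tm.sq, Tm.eval]
  ring

theorem ChA_to1 (V : ℕ → ℝ) : to1.eval V = 1 := by
  simp [to1, Tm.eval, bin]

/-- `1 - s² ∑ x_j² ≥ 0 ↔ ‖x‖ s ≤ 1` for `s ≥ 0`; `eval_sum`, `sum_map_range` (`Syntax.lean`),
`EuclideanSpace.norm_sq_eq` / `norm_sub_sq_E` -/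
theorem holds_normF (n c sv : ℕ) (V : ℕ → ℝ) (hs : 0 ≤ V sv) :
    (normF n c sv).holds V ↔ ‖rdP n V c‖ * V sv ≤ 1 := by
  have h1 : ‖rdP n V c‖ ^ 2 = ∑ j : Fin n, V (c + j) ^ 2 := by
    rw [EuclideanSpace.norm_sq_eq]
    refine Finset.sum_congr rfl fun j _ => ?_
    rw [Real.norm_eq_abs, sq_abs]
    rfl
  have h2 : (Tm.sub to1 (.mul (Tm.sq (.var sv)) (Tm.sum ((List.range n).map fun j =>
      Tm.sq (.var (c + j)))))).eval V = 1 - (‖rdP n V c‖ * V sv) ^ 2 := by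
    rw [eval_sub, ChA_to1, Tm.eval, eval_sum, List.map_map, mul_pow, h1, ChA_sq]
    have h3 : ((fun t => Tm.eval V t) ∘ fun j => Tm.sq (Tm.var (c + j))) =
        fun j : ℕ => V (c + j) ^ 2 := by
      funext j
      simp only [Function.comp, ChA_sq, Tm.eval]
    rw [h3, sum_map_range, Tm.eval]
    ring
  have h4 : 0 ≤ ‖rdP n V c‖ * V sv := mul_nonneg (norm_nonneg _) hs
  have h5 : (normF n c sv).holds V ↔ 0 ≤ 1 - (‖rdP n V c‖ * V sv) ^ 2 := by
    rw [← h2]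
    rfl
  rw [h5, sub_nonneg]
  exact sq_le_one_iff₀ h4

theorem holds_sgnF (b : Bool) (F : Fml) (V : ℕ → ℝ) :
    (sgnF b F).holds V ↔ (F.holds V ↔ b = true) := by
  cases b
  · simp [sgnF, Fml.holds]
  · simp [sgnF]

/-- `holds_conj`, coordinates of the equation -/
theorem holds_XF (n ℓ q : ℕ) (V : ℕ → ℝ) :
    (XF n ℓ q).holds V ↔ rdP n V (vX n ℓ q) = rdP n V (vZ n ℓ q) +
      V (vT n ℓ q) • (rdP n V (vP n ℓ) - rdP n V (vZ n ℓ q)) := by
  have h1 : (rdP n V (vX n ℓ q) = rdP n V (vZ n ℓ q) +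
      V (vT n ℓ q) • (rdP n V (vP n ℓ) - rdP n V (vZ n ℓ q))) ↔
      ∀ j : Fin n, V (vX n ℓ q + j) = V (vZ n ℓ q + j) +
        V (vT n ℓ q) * (V (vP n ℓ + j) - V (vZ n ℓ q + j)) := by
    constructor
    · intro h j
      have h2 := congrArg (fun x : EuclideanSpace ℝ (Fin n) => x.ofLp j) h
      exact h2
    · intro h
      ext j
      exact h j
  rw [h1, XF, holds_conj]
  constructor
  · intro h j
    have h2 := h _ (List.mem_map.2 ⟨j.1, List.mem_range.2 j.2, rfl⟩)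
    simp only [Fml.holds, eval_sub, Tm.eval] at h2
    linarith
  · intro h F hF
    obtain ⟨j, hj, rfl⟩ := List.mem_map.1 hF
    have h2 := h ⟨j, List.mem_range.1 hj⟩
    simp only [Fml.holds, eval_sub, Tm.eval]
    have h3 : V (vX n ℓ q + j) = V (vZ n ℓ q + j) +
        V (vT n ℓ q) * (V (vP n ℓ + j) - V (vZ n ℓ q + j)) := h2
    linarith

end

end Pool.Agent.LibStar4
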