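import Pool.Agent.LibStar4.ChA
import Pool.Agent.LibStar4.AtC

/-!
The meaning of the formulas for windows.
-/

open Set

namespace Pool.Agent.LibStar4

noncomputable section

/-- `holds_alleq`, and `env_ren` (`Out.lean`): `(fun v => V (ren n c (vFar ..) v)) = env x` -/
theorem holds_valF (n c r : ℕ) (φ : Fml) (V : ℕ → ℝ)
    (hfar : ∀ v, vFar n φ.code.length ≤ v → V v = 0) :
    (valF n φ.code.length c r φ).holds V ↔ valOK n φ V (vY n φ.code.length r) (rdP n V c) := by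
  unfold valF valOK
  rw [holds_alleq, env_ren (vFar n φ.code.length) c V (rdP n V c).ofLp (fun j => rfl) hfar]

/-- the gap condition at the positions of the atoms -/
theorem ChB_gap {n : ℕ} {φ : Fml} {V : ℕ → ℝ} {y : ℕ} {x : EuclideanSpace ℝ (Fin n)}
    (h : valOK n φ V y x) {ε δ : ℝ} (hd : 0 ≤ δ) :
    (∀ a, φ.isAt 0 a → |V (y + a)| ≤ δ ∨ ε ≤ |V (y + a)|) ↔
      ∀ a, |fA n φ a x| ≤ δ ∨ ε ≤ |fA n φ a x| := by
  constructor
  · intro H a
    by_cases ha : φ.isAt 0 a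
    · have h1 := H a ha
      rw [h a ha] at h1
      exact h1
    · left
      have h1 : fA n φ a x = 0 := Fml.atv_of_not _ φ 0 a ha
      rw [h1, abs_zero]
      exact hd
  · intro H a ha
    have h2 := Fml.isAt_range φ 0 a ha
    have h3 : a < φ.code.length := by omega
    have h4 := H ⟨a, h3⟩
    rw [h a ha]
    exact h4

/-- the sign condition -/
theorem ChB_sgn {n : ℕ} {φ : Fml} {V : ℕ → ℝ} {y : ℕ} {x : EuclideanSpace ℝ (Fin n)}
    (h : valOK n φ V y x) (δ : ℝ) :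
    φ.sgn (fun a => sg δ (V (y + a))) 0 ↔ PhiA φ (fun a => sg δ (fA n φ a x)) := by
  unfold PhiA
  apply Fml.sgn_congr
  intro a ha
  have h2 := Fml.isAt_range φ 0 a ha
  have h3 : a < φ.code.length := by omega
  simp only [dif_pos h3]
  rw [h a ha]
  rfl

/-- the window for given tolerances -/
theorem ChB_win {n : ℕ} {φ : Fml} {V : ℕ → ℝ} {y : ℕ} {x : EuclideanSpace ℝ (Fin n)}
    (h : valOK n φ V y x) (b : Bool) {ε δ : Tm} (he : 0 ≤ ε.eval V) (hd : 0 ≤ δ.eval V) :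
    ((gapF y ε δ φ).holds V ∧ (sgnF b (sgF y δ φ)).holds V) ↔
      x ∈ Win (fA n φ) (bs b φ) (ε.eval V) (δ.eval V) := by
  rw [holds_gapF y ε δ φ V he hd, ChB_gap h hd, holds_sgnF, holds_sgF y δ φ V hd, ChB_sgn h]
  unfold Win
  rw [mem_setOf_eq]
  cases b
  · simp [bs, nt]
  · simp [bs]

/-- `holds_gapF`, `holds_sgF`, `holds_sgnF`; under `valOK` the value `V (y + a)` at the position of an atom is
`fA n φ a x`; at the other positions `fA n φ a x = 0` (`atv_of_not`), so the gap condition holds there;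
`sgn_congr` -/
theorem holds_WinF {n : ℕ} {φ : Fml} {V : ℕ → ℝ} {y : ℕ} {x : EuclideanSpace ℝ (Fin n)}
    (h : valOK n φ V y x) (b : Bool) {ev dv : ℕ} (he : 0 ≤ V ev) (hd : 0 ≤ V dv) :
    (WinF b y ev dv φ).holds V ↔ x ∈ Win (fA n φ) (bs b φ) (V ev) (V dv) :=
  ChB_win h b (ε := .var ev) (δ := .var dv) he hd

/-- `holds_normF`, and as for `holds_WinF` with `δ = 0` (`eval_tz`) -/
theorem holds_BaseF {n : ℕ} {φ : Fml} {V : ℕ → ℝ} {y c : ℕ} (h : valOK n φ V y (rdP n V c))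
    (b : Bool) {sv : ℕ} (hs : 0 ≤ V sv) :
    (BaseF b n c y sv φ).holds V ↔ rdP n V c ∈ Base (fA n φ) (bs b φ) (V sv) := by
  have h1 := ChB_win h b (ε := .var sv) (δ := tz) hs (eval_tz V).ge
  rw [eval_tz] at h1
  unfold BaseF Base
  rw [mem_setOf_eq]
  show (normF n c sv).holds V ∧ ((gapF y (.var sv) tz φ).holds V ∧
    (sgnF b (sgF y tz φ)).holds V) ↔ _
  rw [h1, holds_normF n c sv V hs]
  rfl

/-- `holds_disj`, `holds_WinF` -/
theorem holds_WinsF {n : ℕ} {φ : Fml} {V : ℕ → ℝ} {y : ℕ} {x : EuclideanSpace ℝ (Fin n)}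
    (h : valOK n φ V y x) (b : Bool) {k : ℕ} (hpos : ∀ i < iB φ.code.length, 0 ≤ V (vS φ.code.length k i)) :
    (WinsF b φ.code.length y k φ).holds V ↔
      x ∈ Wins (fA n φ) (bs b φ) φ.code.length (fun i => V (vS φ.code.length k i)) := by
  unfold WinsF Wins
  rw [holds_disj, mem_setOf_eq]
  constructor
  · rintro ⟨F, hF, hV⟩
    rw [List.mem_map] at hF
    obtain ⟨j, hj, rfl⟩ := hF
    rw [List.mem_range] at hj
    refine ⟨j, hj, ?_⟩
    rw [holds_WinF h b (hpos _ (by unfold iB; omega)) (hpos _ (by unfold iB; omega))] at hV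
    exact hV
  · rintro ⟨j, hj, hx⟩
    refine ⟨_, List.mem_map.2 ⟨j, List.mem_range.2 hj, rfl⟩, ?_⟩
    rw [holds_WinF h b (hpos _ (by unfold iB; omega)) (hpos _ (by unfold iB; omega))]
    exact hx

end

end Pool.Agent.LibStar4
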