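import Pool.Agent.LibStar4.ChB

/-!
The meaning of the matrix.
-/

open Set

namespace Pool.Agent.LibStar4

noncomputable section

theorem chC_to1 (V : ℕ → ℝ) : to1.eval V = 1 := by
  simp [to1, Tm.eval, bin]

theorem chC_tm1 (V : ℕ → ℝ) : tm1.eval V = -1 := by
  simp [tm1, Tm.eval, bin]

/-- unfold `NEx1`, `Ex1`; `holds_BaseF`, `holds_WinsF`, `hX` -/
theorem holds_NEx1 {n : ℕ} {φ : Fml} {V : ℕ → ℝ} {k q : ℕ}
    (hpos : ∀ i < iB φ.code.length, 0 ≤ V (vS φ.code.length k i))
    (hX : rdP n V (vX n φ.code.length q) = rdP n V (vZ n φ.code.length q) +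
      V (vT n φ.code.length q) • (rdP n V (vP n φ.code.length) - rdP n V (vZ n φ.code.length q)))
    (h1 : valOK n φ V (vY n φ.code.length (1 + 2 * q)) (rdP n V (vZ n φ.code.length q)))
    (h2 : valOK n φ V (vY n φ.code.length (2 + 2 * q)) (rdP n V (vX n φ.code.length q))) :
    (NEx1 n φ.code.length k q φ).holds V ↔ ¬ Ex1 (fA n φ) (PhiA φ) φ.code.length
      (fun i => V (vS φ.code.length k i)) (rdP n V (vZ n φ.code.length q))
      (V (vT n φ.code.length q)) (rdP n V (vP n φ.code.length)) := by
  have hs0 : 0 ≤ V (vS φ.code.length k 0) := hpos 0 (by unfold iB; omega)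
  have e1 := holds_BaseF h1 true hs0
  have e2 := holds_WinsF h2 true hpos
  have eb : bs true φ = PhiA φ := rfl
  rw [eb] at e1 e2
  rw [hX] at e2
  simp only [NEx1, Ex1, Fml.holds, eval_sub, Tm.eval, chC_to1, e1, e2, sub_pos]
  constructor
  · rintro (h | h | h | h) ⟨g1, g2, g3, g4⟩
    · exact h g1
    · exact absurd g2 (not_le.2 h)
    · exact absurd g3 (not_le.2 h)
    · exact g4 h
  · intro h
    by_cases g1 : rdP n V (vZ n φ.code.length q) ∈
        Base (fA n φ) (PhiA φ) (V (vS φ.code.length k 0))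
    · by_cases g2 : V (vS φ.code.length k 0) ≤ V (vT n φ.code.length q)
      · by_cases g3 : V (vT n φ.code.length q) ≤ 1
        · right; right; right
          by_contra g4
          exact h ⟨g1, g2, g3, g4⟩
        · right; right; left
          exact not_le.1 g3
      · right; left
        exact not_le.1 g2
    · left
      exact g1

/-- unfold `NEx2`, `Ex2`; `holds_BaseF`, `holds_WinsF`, `hX` -/
theorem holds_NEx2 {n : ℕ} {φ : Fml} {V : ℕ → ℝ} {k q : ℕ}
    (hpos : ∀ i < iB φ.code.length, 0 ≤ V (vS φ.code.length k i))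
    (hX : rdP n V (vX n φ.code.length q) = rdP n V (vZ n φ.code.length q) +
      V (vT n φ.code.length q) • (rdP n V (vP n φ.code.length) - rdP n V (vZ n φ.code.length q)))
    (h1 : valOK n φ V (vY n φ.code.length (1 + 2 * q)) (rdP n V (vZ n φ.code.length q)))
    (h2 : valOK n φ V (vY n φ.code.length (2 + 2 * q)) (rdP n V (vX n φ.code.length q))) :
    (NEx2 n φ.code.length k q φ).holds V ↔ ¬ Ex2 (fA n φ) (PhiA φ) φ.code.length
      (fun i => V (vS φ.code.length k i)) (rdP n V (vZ n φ.code.length q))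
      (V (vT n φ.code.length q)) (rdP n V (vP n φ.code.length)) := by
  have hs0 : 0 ≤ V (vS φ.code.length k 0) := hpos 0 (by unfold iB; omega)
  have e1 := holds_BaseF h1 false hs0
  have e2 := holds_WinsF h2 false hpos
  have eb : bs false φ = nt (PhiA φ) := rfl
  rw [eb] at e1 e2
  rw [hX] at e2
  simp only [NEx2, Ex2, Fml.holds, eval_sub, Tm.eval, chC_to1, chC_tm1, e1, e2, sub_pos]
  constructor
  · rintro (h | h | h | h) ⟨g1, g2, g3, g4⟩
    · exact h g1
    · linarith
    · rw [neg_one_mul] at h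
      linarith
    · exact g4 h
  · intro h
    by_cases g1 : rdP n V (vZ n φ.code.length q) ∈
        Base (fA n φ) (nt (PhiA φ)) (V (vS φ.code.length k 0))
    · by_cases g2 : V (vS φ.code.length k 0) ≤ -V (vT n φ.code.length q)
      · by_cases g3 : -V (vT n φ.code.length q) * V (vS φ.code.length k 0) ≤ 1
        · right; right; right
          by_contra g4
          exact h ⟨g1, g2, g3, g4⟩
        · right; right; left
          rw [neg_one_mul]
          exact not_le.1 g3
      · right; left
        have := not_le.1 g2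
        linarith
    · left
      exact g1

theorem chC_idx {n k c : ℕ} (hk : k < n + 1) (hc : c < iN n) : k * iN n + c < iQ n := by
  unfold iQ
  calc k * iN n + c < k * iN n + iN n := by omega
    _ = (k + 1) * iN n := by ring
    _ ≤ (n + 1) * iN n := Nat.mul_le_mul_right _ hk

theorem chC_eqs (n : ℕ) (φ : Fml) (V : ℕ → ℝ)
    (hfar : ∀ v, vFar n φ.code.length ≤ v → V v = 0) :
    (eqsF n φ.code.length φ).holds V ↔ eqsOK n φ V := by
  unfold eqsF eqsOK
  simp only [Fml.holds, holds_conj, List.mem_map, List.mem_range, forall_exists_index, and_imp,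
    forall_apply_eq_imp_iff₂, holds_XF, holds_valF n _ _ φ V hfar]

/-- The meaning of the formula: `holds_conj`, `holds_valF`, `holds_XF`, `holds_normF`, `holds_BaseF`,
`holds_NEx1`, `holds_NEx2` (`k * iN n + c < iQ n` for `k < n + 1`, `c < iN n`). -/
theorem holds_chiF (n : ℕ) (φ : Fml) (V : ℕ → ℝ)
    (hfar : ∀ v, vFar n φ.code.length ≤ v → V v = 0)
    (hpos : 0 ≤ V 0)
    (hpos' : ∀ k < n + 1, ∀ i < iB φ.code.length, 0 ≤ V (vS φ.code.length k i)) :
    (chiF n φ.code.length φ).holds V ↔ eqsOK n φ V ∧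
      ‖rdP n V (vP n φ.code.length)‖ * V 0 ≤ 1 ∧ ∀ k < n + 1,
        ¬ Excl (fA n φ) (PhiA φ) φ.code.length (iN n) (fun i => V (vS φ.code.length k i))
          (fun c => rdP n V (vZ n φ.code.length (k * iN n + c)))
          (fun c => V (vT n φ.code.length (k * iN n + c))) (rdP n V (vP n φ.code.length)) := by
  have key : eqsOK n φ V → ∀ k < n + 1, ((NExF n φ.code.length k φ).holds V ↔
      ¬ Excl (fA n φ) (PhiA φ) φ.code.length (iN n) (fun i => V (vS φ.code.length k i))
          (fun c => rdP n V (vZ n φ.code.length (k * iN n + c)))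
          (fun c => V (vT n φ.code.length (k * iN n + c))) (rdP n V (vP n φ.code.length))) := by
    intro hE k hk
    have hs0 : 0 ≤ V (vS φ.code.length k 0) := hpos' k hk 0 (by unfold iB; omega)
    have e1 := holds_BaseF hE.1 true hs0
    have eb : bs true φ = PhiA φ := rfl
    rw [eb] at e1
    unfold NExF Excl
    simp only [Fml.holds, holds_conj, List.mem_map, List.mem_range, forall_exists_index, and_imp,
      forall_apply_eq_imp_iff₂, e1, not_or, not_not, not_exists, not_and]
    refine and_congr_right fun _ => forall₂_congr fun c hc => ?_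
    obtain ⟨hX, h1, h2⟩ := hE.2 (k * iN n + c) (chC_idx hk hc)
    rw [holds_NEx1 (hpos' k hk) hX h1 h2, holds_NEx2 (hpos' k hk) hX h1 h2]
  unfold chiF
  simp only [Fml.holds, holds_conj, List.mem_map, List.mem_range, forall_exists_index, and_imp,
    forall_apply_eq_imp_iff₂, chC_eqs n φ V hfar, holds_normF n _ _ V hpos]
  constructor
  · rintro ⟨h1, h2, h3⟩
    exact ⟨h2, h1, fun k hk => (key h2 k hk).1 (h3 k hk)⟩
  · rintro ⟨h2, h1, h3⟩
    exact ⟨h1, h2, fun k hk => (key h2 k hk).2 (h3 k hk)⟩

end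

end Pool.Agent.LibStar4
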