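import Pool.Agent.LibStar4.Psi

open Metric Set Filter Topology

namespace Pool.Agent.LibStar4

set_option linter.unusedSectionVars false

variable {E : Type*} [NormedAddCommGroup E] [InnerProductSpace ℝ E] {ι : Type}
  {f : ι → E → ℝ} {Φ : (ι → SignType) → Prop}

theorem PsiA_wins_congr (f : ι → E → ℝ) (Φ : (ι → SignType) → Prop) {w : ℕ} {s s' : ℕ → ℝ}
    (h : ∀ i < 2 * w + 3, s i = s' i) : Wins f Φ w s = Wins f Φ w s' := by
  ext x
  constructor
  · rintro ⟨j, hj, hx⟩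
    refine ⟨j, hj, ?_⟩
    rw [← h (2 * j + 1) (by omega), ← h (2 * j + 2) (by omega)]
    exact hx
  · rintro ⟨j, hj, hx⟩
    refine ⟨j, hj, ?_⟩
    rw [h (2 * j + 1) (by omega), h (2 * j + 2) (by omega)]
    exact hx

/-- only the first scales matter -/
theorem excl_congr {w N : ℕ} {s s' : ℕ → ℝ} (h : ∀ i < 2 * w + 3, s i = s' i) (z : ℕ → E)
    (t : ℕ → ℝ) (p : E) : Excl f Φ w N s z t p ↔ Excl f Φ w N s' z t p := by
  unfold Excl Ex1 Ex2
  rw [PsiA_wins_congr f Φ h, PsiA_wins_congr f (nt Φ) h, h 0 (by omega)]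

/-- closed (`isClosed_win` with `δ = 0 < ε = s`) and bounded by `1 / s` -/
theorem isCompact_base [FiniteDimensional ℝ E] [Finite ι] (hf : ∀ a, Continuous (f a))
    (Φ : (ι → SignType) → Prop) {s : ℝ} (hs : 0 < s) : IsCompact (Base f Φ s) := by
  haveI : ProperSpace E := FiniteDimensional.proper_real E
  apply Metric.isCompact_of_isClosed_isBounded
  · have h1 : IsClosed {x : E | ‖x‖ * s ≤ 1} :=
      isClosed_le (continuous_norm.mul continuous_const) continuous_const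
    exact h1.inter (isClosed_win hf Φ le_rfl hs)
  · apply (isBounded_iff_forall_norm_le).2
    refine ⟨1 / s, fun x hx => ?_⟩
    rw [le_div_iff₀ hs]
    exact hx.1

/-- for small `s` every non-zero value `|f a x|` is `≥ s`, and `‖x‖ s ≤ 1` -/
theorem base_eventually [Finite ι] {x : E} (hx : x ∈ semi f Φ) :
    ∀ᶠ s in 𝓝[>] (0 : ℝ), x ∈ Base f Φ s := by
  have h1 : ∀ᶠ s in 𝓝[>] (0 : ℝ), ‖x‖ * s ≤ 1 := by
    have h2 : (0 : ℝ) < 1 / (‖x‖ + 1) := by positivity
    filter_upwards [Ioo_mem_nhdsGT h2] with s hs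
    have h3 : s * (‖x‖ + 1) < 1 := by
      have h4 : (0 : ℝ) < ‖x‖ + 1 := by positivity
      exact (lt_div_iff₀ h4).1 hs.2
    have h5 := hs.1
    nlinarith
  have h2 : ∀ᶠ s in 𝓝[>] (0 : ℝ), ∀ a, |f a x| ≤ 0 ∨ s ≤ |f a x| := by
    rw [eventually_all]
    intro a
    by_cases h3 : f a x = 0
    · filter_upwards with s
      left
      rw [h3, abs_zero]
    · have h4 : 0 < |f a x| := abs_pos.2 h3
      filter_upwards [Ioo_mem_nhdsGT h4] with s hs
      exact Or.inr hs.2.le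
  filter_upwards [h1, h2] with s h3 h4
  refine ⟨h3, h4, ?_⟩
  have h5 : (fun a => sg 0 (f a x)) = fun a => SignType.sign (f a x) := by
    funext a
    exact sg_zero _
  rw [h5]
  exact hx

/-- a finite union of closed sets (`isClosed_win`) -/
theorem isClosed_wins [Finite ι] (hf : ∀ a, Continuous (f a)) (Φ : (ι → SignType) → Prop)
    {w : ℕ} {s : ℕ → ℝ} (hpos : ∀ i < 2 * w + 3, 0 < s i)
    (hs : ∀ i < 2 * w + 2, s (i + 1) < s i) : IsClosed (Wins f Φ w s) := by
  have h1 : Wins f Φ w s = ⋃ j ∈ Finset.range (w + 1), Win f Φ (s (2 * j + 1)) (s (2 * j + 2)) := by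
    ext x
    simp [Wins]
  rw [h1]
  apply isClosed_biUnion_finset
  intro j hj
  rw [Finset.mem_range] at hj
  exact isClosed_win hf Φ (hpos _ (by omega)).le (hs (2 * j + 1) (by omega))

/-- the excluded points form an open set -/
theorem isOpen_excl [FiniteDimensional ℝ E] [Finite ι] (hf : ∀ a, Continuous (f a))
    {w N : ℕ} {s : ℕ → ℝ} (hpos : ∀ i < 2 * w + 3, 0 < s i)
    (hs : ∀ i < 2 * w + 2, s (i + 1) < s i) (z : ℕ → E) (t : ℕ → ℝ) :
    IsOpen {p | Excl f Φ w N s z t p} := by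
  have h0 : IsOpen {p : E | p ∉ Base f Φ (s 0)} :=
    (isCompact_base hf Φ (hpos 0 (by omega))).isClosed.isOpen_compl
  have h1 : ∀ c, IsOpen {p : E | Ex1 f Φ w s (z c) (t c) p} := by
    intro c
    have h2 : IsOpen {p : E | z c + t c • (p - z c) ∉ Wins f Φ w s} :=
      (isClosed_wins hf Φ hpos hs).isOpen_compl.preimage (by fun_prop)
    unfold Ex1
    by_cases h3 : z c ∈ Base f Φ (s 0) ∧ s 0 ≤ t c ∧ t c ≤ 1
    · simp only [h3.1, h3.2.1, h3.2.2, true_and]
      exact h2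
    · have h4 : {p : E | z c ∈ Base f Φ (s 0) ∧ s 0 ≤ t c ∧ t c ≤ 1 ∧
          z c + t c • (p - z c) ∉ Wins f Φ w s} = ∅ := by
        ext p
        simp only [mem_setOf_eq, mem_empty_iff_false, iff_false]
        rintro ⟨a, b, c, _⟩
        exact h3 ⟨a, b, c⟩
      rw [h4]
      exact isOpen_empty
  have h1' : ∀ c, IsOpen {p : E | Ex2 f Φ w s (z c) (t c) p} := by
    intro c
    have h2 : IsOpen {p : E | z c + t c • (p - z c) ∉ Wins f (nt Φ) w s} :=
      (isClosed_wins hf (nt Φ) hpos hs).isOpen_compl.preimage (by fun_prop)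
    unfold Ex2
    by_cases h3 : z c ∈ Base f (nt Φ) (s 0) ∧ s 0 ≤ -t c ∧ -t c * s 0 ≤ 1
    · simp only [h3.1, h3.2.1, h3.2.2, true_and]
      exact h2
    · have h4 : {p : E | z c ∈ Base f (nt Φ) (s 0) ∧ s 0 ≤ -t c ∧ -t c * s 0 ≤ 1 ∧
          z c + t c • (p - z c) ∉ Wins f (nt Φ) w s} = ∅ := by
        ext p
        simp only [mem_setOf_eq, mem_empty_iff_false, iff_false]
        rintro ⟨a, b, c, _⟩
        exact h3 ⟨a, b, c⟩
      rw [h4]
      exact isOpen_empty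
  have h5 : {p : E | Excl f Φ w N s z t p} = {p : E | p ∉ Base f Φ (s 0)} ∪
      ⋃ c ∈ Finset.range N, ({p : E | Ex1 f Φ w s (z c) (t c) p} ∪
        {p : E | Ex2 f Φ w s (z c) (t c) p}) := by
    ext p
    simp [Excl]
  rw [h5]
  exact h0.union (isOpen_biUnion fun c _ => (h1 c).union (h1' c))

end Pool.Agent.LibStar4
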