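import Pool.Agent.LibStar4.ChC
import Pool.Agent.LibStar4.PsiA

/-!
The formula expresses the negation of `Psi`.
-/

open Set

namespace Pool.Agent.LibStar4

noncomputable section

theorem ChD_env_l {m k₁ k₂ : ℕ} (l : Fin m → ℝ) (u : Fin k₁ → ℝ) (y : Fin k₂ → ℝ) {i : ℕ}
    (h : i < m) : env₃ l u y i = l ⟨i, h⟩ := by
  simp [env₃, h]

theorem ChD_env_u {m k₁ k₂ : ℕ} (l : Fin m → ℝ) (u : Fin k₁ → ℝ) (y : Fin k₂ → ℝ) {i : ℕ}
    (h : i < k₁) : env₃ l u y (m + i) = u ⟨i, h⟩ := by
  have h1 : ¬ m + i < m := by omega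
  have h2 : m + i - m = i := by omega
  have h3 : m + i - m < k₁ := by omega
  unfold env₃
  rw [dif_neg h1, dif_pos h3]
  exact congrArg u (Fin.ext h2)

theorem ChD_env_y {m k₁ k₂ : ℕ} (l : Fin m → ℝ) (u : Fin k₁ → ℝ) (y : Fin k₂ → ℝ) {i : ℕ}
    (h : i < k₂) : env₃ l u y (m + k₁ + i) = y ⟨i, h⟩ := by
  have h1 : ¬ m + k₁ + i < m := by omega
  have h2 : ¬ m + k₁ + i - m < k₁ := by omega
  have h3 : m + k₁ + i - m - k₁ < k₂ := by omega
  have h4 : m + k₁ + i - m - k₁ = i := by omega
  unfold env₃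
  rw [dif_neg h1, dif_neg h2, dif_pos h3]
  exact congrArg y (Fin.ext h4)

theorem ChD_env_far {m k₁ k₂ : ℕ} (l : Fin m → ℝ) (u : Fin k₁ → ℝ) (y : Fin k₂ → ℝ) {i : ℕ}
    (h : m + k₁ + k₂ ≤ i) : env₃ l u y i = 0 := by
  have h1 : ¬ i < m := by omega
  have h2 : ¬ i - m < k₁ := by omega
  have h3 : ¬ i - m - k₁ < k₂ := by omega
  unfold env₃
  rw [dif_neg h1, dif_neg h2, dif_neg h3]

/-- only the first certificates matter -/
theorem ChD_excl_congr {E : Type*} [NormedAddCommGroup E] [InnerProductSpace ℝ E] {ι : Type}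
    {f : ι → E → ℝ} {Φ : (ι → SignType) → Prop} {w N : ℕ} {s : ℕ → ℝ} {z z' : ℕ → E} {t t' : ℕ → ℝ}
    (hz : ∀ c < N, z c = z' c) (ht : ∀ c < N, t c = t' c) (p : E) :
    Excl f Φ w N s z t p ↔ Excl f Φ w N s z' t' p := by
  unfold Excl
  constructor
  · rintro (h | ⟨c, hc, h⟩)
    · exact Or.inl h
    · refine Or.inr ⟨c, hc, ?_⟩
      rw [← hz c hc, ← ht c hc]
      exact h
  · rintro (h | ⟨c, hc, h⟩)
    · exact Or.inl h
    · refine Or.inr ⟨c, hc, ?_⟩
      rw [hz c hc, ht c hc]
      exact h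

theorem ChD_div_add {a b m : ℕ} (hb : b < m) : (a * m + b) / m = a := by
  have hm : 0 < m := by omega
  rw [Nat.add_comm, Nat.add_mul_div_right _ _ hm, Nat.div_eq_of_lt hb, Nat.zero_add]

theorem ChD_mod_add {a b m : ℕ} (hb : b < m) : (a * m + b) % m = b := by
  rw [Nat.add_comm, Nat.add_mul_mod_self_right, Nat.mod_eq_of_lt hb]

theorem ChD_lt_mul {a b m k : ℕ} (ha : a < k) (hb : b < m) : a * m + b < k * m := by
  have h1 : (a + 1) * m ≤ k * m := Nat.mul_le_mul_right m ha
  have h2 : (a + 1) * m = a * m + m := by ring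
  omega

theorem ChD_iN_pos (n : ℕ) : 0 < iN n := by
  unfold iN; omega

/-- the parameters with an index in a block -/
theorem ChD_vS_lt {n ℓ k i : ℕ} (hk : k < n + 1) (hi : i < iB ℓ) : vS ℓ k i < iM n ℓ := by
  have h := ChD_lt_mul hk hi
  unfold vS iM
  omega

/-- the universal variables of the function `u` -/
def ChD_u (n : ℕ) (z : ℕ → ℕ → EuclideanSpace ℝ (Fin n)) (t : ℕ → ℕ → ℝ) (i : ℕ) : ℝ :=
  if h : i % (n + 1) < n then
    (z (i / (n + 1) / iN n) (i / (n + 1) % iN n)).ofLp ⟨i % (n + 1), h⟩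
  else t (i / (n + 1) / iN n) (i / (n + 1) % iN n)

theorem ChD_u_z (n : ℕ) (z : ℕ → ℕ → EuclideanSpace ℝ (Fin n)) (t : ℕ → ℕ → ℝ) {k c : ℕ}
    (hc : c < iN n) (j : Fin n) :
    ChD_u n z t ((k * iN n + c) * (n + 1) + j) = (z k c).ofLp j := by
  have hj : (j : ℕ) < n + 1 := by have := j.2; omega
  have h1 : ((k * iN n + c) * (n + 1) + j) % (n + 1) = j := ChD_mod_add hj
  have h2 : ((k * iN n + c) * (n + 1) + j) / (n + 1) = k * iN n + c := ChD_div_add hj
  have h3 : (k * iN n + c) / iN n = k := ChD_div_add hc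
  have h4 : (k * iN n + c) % iN n = c := ChD_mod_add hc
  have h5 : ((k * iN n + c) * (n + 1) + j) % (n + 1) < n := by rw [h1]; exact j.2
  unfold ChD_u
  rw [dif_pos h5]
  have h6 : (⟨((k * iN n + c) * (n + 1) + j) % (n + 1), h5⟩ : Fin n) = j := Fin.ext h1
  rw [h6, h2, h3, h4]

theorem ChD_u_t (n : ℕ) (z : ℕ → ℕ → EuclideanSpace ℝ (Fin n)) (t : ℕ → ℕ → ℝ) {k c : ℕ}
    (hc : c < iN n) : ChD_u n z t ((k * iN n + c) * (n + 1) + n) = t k c := by
  have hj : n < n + 1 := by omega
  have h1 : ((k * iN n + c) * (n + 1) + n) % (n + 1) = n := ChD_mod_add hj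
  have h2 : ((k * iN n + c) * (n + 1) + n) / (n + 1) = k * iN n + c := ChD_div_add hj
  have h3 : (k * iN n + c) / iN n = k := ChD_div_add hc
  have h4 : (k * iN n + c) % iN n = c := ChD_mod_add hc
  have h5 : ¬ ((k * iN n + c) * (n + 1) + n) % (n + 1) < n := by rw [h1]; omega
  unfold ChD_u
  rw [dif_neg h5, h2, h3, h4]

/-- the existential variables: `p`, the points `x q`, the values `v r a` -/
def ChD_y (n ℓ : ℕ) (p : EuclideanSpace ℝ (Fin n)) (x : ℕ → EuclideanSpace ℝ (Fin n))
    (v : ℕ → ℕ → ℝ) (i : ℕ) : ℝ :=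
  if h : i < n then p.ofLp ⟨i, h⟩
  else if h' : (i - n) % n < n ∧ i - n < iQ n * n then (x ((i - n) / n)).ofLp ⟨(i - n) % n, h'.1⟩
  else v ((i - n - iQ n * n) / ℓ) ((i - n - iQ n * n) % ℓ)

theorem ChD_y_p (n ℓ : ℕ) (p : EuclideanSpace ℝ (Fin n)) (x : ℕ → EuclideanSpace ℝ (Fin n))
    (v : ℕ → ℕ → ℝ) (j : Fin n) : ChD_y n ℓ p x v j = p.ofLp j := by
  unfold ChD_y
  rw [dif_pos j.2]

theorem ChD_y_x (n ℓ : ℕ) (p : EuclideanSpace ℝ (Fin n)) (x : ℕ → EuclideanSpace ℝ (Fin n))
    (v : ℕ → ℕ → ℝ) {q : ℕ} (hq : q < iQ n) (j : Fin n) :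
    ChD_y n ℓ p x v (n + q * n + j) = (x q).ofLp j := by
  have h0 : n + q * n + j - n = q * n + j := by omega
  have h1 : (n + q * n + j - n) % n = j := by rw [h0]; exact ChD_mod_add j.2
  have h2 : (n + q * n + j - n) / n = q := by rw [h0]; exact ChD_div_add j.2
  have h3 : ¬ n + q * n + j < n := by omega
  have h4 : (n + q * n + j - n) % n < n ∧ n + q * n + j - n < iQ n * n := by
    refine ⟨by rw [h1]; exact j.2, ?_⟩
    rw [h0]
    exact ChD_lt_mul hq j.2
  unfold ChD_y
  rw [dif_neg h3, dif_pos h4]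
  have h6 : (⟨(n + q * n + j - n) % n, h4.1⟩ : Fin n) = j := Fin.ext h1
  rw [h6, h2]

theorem ChD_y_v (n ℓ : ℕ) (p : EuclideanSpace ℝ (Fin n)) (x : ℕ → EuclideanSpace ℝ (Fin n))
    (v : ℕ → ℕ → ℝ) {r a : ℕ} (ha : a < ℓ) :
    ChD_y n ℓ p x v (n + iQ n * n + r * ℓ + a) = v r a := by
  have h0 : n + iQ n * n + r * ℓ + a - n - iQ n * n = r * ℓ + a := by omega
  have h3 : ¬ n + iQ n * n + r * ℓ + a < n := by omega
  have h4 : ¬ ((n + iQ n * n + r * ℓ + a - n) % n < n ∧
      n + iQ n * n + r * ℓ + a - n < iQ n * n) := by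
    rintro ⟨_, h⟩
    omega
  unfold ChD_y
  rw [dif_neg h3, dif_neg h4, h0, ChD_div_add ha, ChD_mod_add ha]

/-- **The formula expresses the negation of `Psi`.** Proof. `V = env₃ l u y` satisfies the hypotheses of
`holds_chiF` (`V v = 0` for `v ≥ vFar`, the parameters are positive), and `V (vS ℓ k i) =
l.getD (1 + (k * (2 ℓ + 3) + i)) 0` for `k < n + 1`, `i < 2 ℓ + 3` (`excl_congr` for the blocks; its proof is in
another file, it may be imported).
(→) If `Psi l` holds with `z, t`, let `u` be the values of `z, t` (the index `q (n + 1) + j` is the `j`-th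
coordinate of `z (q / iN n) (q % iN n)` for `j < n`, and `t` for `j = n`); a `y` as in the statement gives a
point `p` that contradicts `Psi`. (←) Given `u`, read `z k c = rdP n V (vZ n ℓ (k * iN n + c))`,
`t k c = V (vT n ℓ (k * iN n + c))`, get `p` from `¬ Psi`, and let `y` consist of `p`, the points
`x_q = z_q + t_q (p - z_q)` and the values of the atoms (`atv`) at the points `p, z_q, x_q`. -/
theorem chiF_spec (n : ℕ) (φ : Fml) (l : List ℝ) (hpos : ∀ i < iM n φ.code.length, 0 < l.getD i 0) :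
    (∀ u : Fin (iU n) → ℝ, ∃ y : Fin (iY n φ.code.length) → ℝ,
      (chiF n φ.code.length φ).holds
        (env₃ (fun i : Fin (iM n φ.code.length) => l.getD i 0) u y)) ↔
    ¬ Psi (fA n φ) (PhiA φ) φ.code.length (iN n) (n + 1) l := by
  -- general facts on the assignment
  have hM0 : 0 < iM n φ.code.length := by unfold iM; omega
  have hV0 : ∀ (u : Fin (iU n) → ℝ) (y : Fin (iY n φ.code.length) → ℝ),
      env₃ (fun i : Fin (iM n φ.code.length) => l.getD i 0) u y 0 = l.getD 0 0 := by
    intro u y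
    rw [ChD_env_l _ _ _ hM0]
  have hVS : ∀ (u : Fin (iU n) → ℝ) (y : Fin (iY n φ.code.length) → ℝ), ∀ k < n + 1,
      ∀ i < iB φ.code.length,
      env₃ (fun i : Fin (iM n φ.code.length) => l.getD i 0) u y (vS φ.code.length k i) =
        l.getD (1 + (k * (2 * φ.code.length + 3) + i)) 0 := by
    intro u y k hk i hi
    rw [ChD_env_l _ _ _ (ChD_vS_lt hk hi)]
    rfl
  have key : ∀ (u : Fin (iU n) → ℝ) (y : Fin (iY n φ.code.length) → ℝ),
      (chiF n φ.code.length φ).holds
        (env₃ (fun i : Fin (iM n φ.code.length) => l.getD i 0) u y) ↔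
      eqsOK n φ (env₃ (fun i : Fin (iM n φ.code.length) => l.getD i 0) u y) ∧
      ‖rdP n (env₃ (fun i : Fin (iM n φ.code.length) => l.getD i 0) u y)
        (vP n φ.code.length)‖ * l.getD 0 0 ≤ 1 ∧ ∀ k < n + 1,
        ¬ Excl (fA n φ) (PhiA φ) φ.code.length (iN n)
          (fun i => l.getD (1 + (k * (2 * φ.code.length + 3) + i)) 0)
          (fun c => rdP n (env₃ (fun i : Fin (iM n φ.code.length) => l.getD i 0) u y)
            (vZ n φ.code.length (k * iN n + c)))
          (fun c => (env₃ (fun i : Fin (iM n φ.code.length) => l.getD i 0) u y)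
            (vT n φ.code.length (k * iN n + c)))
          (rdP n (env₃ (fun i : Fin (iM n φ.code.length) => l.getD i 0) u y)
            (vP n φ.code.length)) := by
    intro u y
    rw [holds_chiF n φ (env₃ (fun i : Fin (iM n φ.code.length) => l.getD i 0) u y)
      (fun v hv => ChD_env_far _ _ _ hv)
      (by rw [hV0]; exact (hpos 0 hM0).le)
      (by
        intro k hk i hi
        rw [ChD_env_l _ _ _ (ChD_vS_lt hk hi)]
        exact (hpos _ (ChD_vS_lt hk hi)).le), hV0]
    refine and_congr_right fun _ => and_congr_right fun _ => ?_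
    refine forall_congr' fun k => forall_congr' fun hk => not_congr ?_
    exact excl_congr (fun i hi => hVS u y k hk i hi) _ _ _
  constructor
  · -- from the formula to the negation
    rintro H ⟨z, t, hzt⟩
    obtain ⟨y, hy⟩ := H fun i => ChD_u n z t i
    rw [key] at hy
    obtain ⟨_, hn, hE⟩ := hy
    obtain ⟨k, hk, hex⟩ := hzt _ hn
    refine hE k hk ?_
    refine (ChD_excl_congr ?_ ?_ _).1 hex
    · intro c hc
      have hq : k * iN n + c < iQ n := ChD_lt_mul hk hc
      apply (WithLp.ofLp_injective 2)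
      funext j
      have hj : (j : ℕ) < n + 1 := by have := j.2; omega
      have hi : (k * iN n + c) * (n + 1) + j < iU n := ChD_lt_mul hq hj
      have e1 : vZ n φ.code.length (k * iN n + c) + (j : ℕ) =
          iM n φ.code.length + ((k * iN n + c) * (n + 1) + j) := by
        unfold vZ; omega
      change (z k c).ofLp j = env₃ (fun i : Fin (iM n φ.code.length) => l.getD i 0)
        (fun i : Fin (iU n) => ChD_u n z t i) y (vZ n φ.code.length (k * iN n + c) + (j : ℕ))
      rw [e1, ChD_env_u _ _ _ hi]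
      exact (ChD_u_z n z t hc j).symm
    · intro c hc
      have hq : k * iN n + c < iQ n := ChD_lt_mul hk hc
      have hj : n < n + 1 := by omega
      have hi : (k * iN n + c) * (n + 1) + n < iU n := ChD_lt_mul hq hj
      have e1 : vT n φ.code.length (k * iN n + c) =
          iM n φ.code.length + ((k * iN n + c) * (n + 1) + n) := rfl
      rw [e1, ChD_env_u _ _ _ hi]
      exact (ChD_u_t n z t hc).symm
  · -- from the negation to the formula
    intro hP u
    set L : Fin (iM n φ.code.length) → ℝ := fun i => l.getD i 0 with hL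
    set W : ℕ → ℝ := env₃ L u (fun _ : Fin 0 => 0) with hW
    set Z : ℕ → EuclideanSpace ℝ (Fin n) := fun q => rdP n W (vZ n φ.code.length q) with hZ
    set T : ℕ → ℝ := fun q => W (vT n φ.code.length q) with hT
    have hex : ∃ p : EuclideanSpace ℝ (Fin n), ‖p‖ * l.getD 0 0 ≤ 1 ∧ ∀ k < n + 1,
        ¬ Excl (fA n φ) (PhiA φ) φ.code.length (iN n)
          (fun i => l.getD (1 + (k * (2 * φ.code.length + 3) + i)) 0)
          (fun c => Z (k * iN n + c)) (fun c => T (k * iN n + c)) p := by
      by_contra hcon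
      apply hP
      refine ⟨fun k c => Z (k * iN n + c), fun k c => T (k * iN n + c), fun p hp => ?_⟩
      by_contra hno
      refine hcon ⟨p, hp, fun k hk he => hno ⟨k, hk, he⟩⟩
    obtain ⟨p, hp, hpE⟩ := hex
    set X : ℕ → EuclideanSpace ℝ (Fin n) := fun q => Z q + T q • (p - Z q) with hX
    set P : ℕ → EuclideanSpace ℝ (Fin n) := fun r =>
      if r = 0 then p else if r % 2 = 1 then Z (r / 2) else X (r / 2 - 1) with hPdef
    set v : ℕ → ℕ → ℝ := fun r a => φ.atv (env (P r).ofLp) 0 a with hv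
    set y : Fin (iY n φ.code.length) → ℝ := fun i => ChD_y n φ.code.length p X v i with hy
    have hP0 : P 0 = p := by simp [hPdef]
    have hP1 : ∀ q, P (1 + 2 * q) = Z q := by
      intro q
      have h1 : ¬ 1 + 2 * q = 0 := by omega
      have h2 : (1 + 2 * q) % 2 = 1 := by omega
      have h3 : (1 + 2 * q) / 2 = q := by omega
      simp only [hPdef]
      rw [if_neg h1, if_pos h2, h3]
    have hP2 : ∀ q, P (2 + 2 * q) = X q := by
      intro q
      have h1 : ¬ 2 + 2 * q = 0 := by omega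
      have h2 : ¬ (2 + 2 * q) % 2 = 1 := by omega
      have h3 : (2 + 2 * q) / 2 - 1 = q := by omega
      simp only [hPdef]
      rw [if_neg h1, if_neg h2, h3]
    -- reading
    have rp : rdP n (env₃ L u y) (vP n φ.code.length) = p := by
      apply (WithLp.ofLp_injective 2)
      funext j
      have hj := j.2
      have hi : (j : ℕ) < iY n φ.code.length := by unfold iY; omega
      change env₃ L u y (vP n φ.code.length + (j : ℕ)) = p.ofLp j
      have e1 : vP n φ.code.length + (j : ℕ) = iM n φ.code.length + iU n + j := rfl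
      rw [e1, ChD_env_y _ _ _ hi]
      exact ChD_y_p n φ.code.length p X v j
    have rz : ∀ q < iQ n, rdP n (env₃ L u y) (vZ n φ.code.length q) = Z q := by
      intro q hq
      apply (WithLp.ofLp_injective 2)
      funext j
      have hj : (j : ℕ) < n + 1 := by have := j.2; omega
      have hi : q * (n + 1) + j < iU n := ChD_lt_mul hq hj
      have e1 : vZ n φ.code.length q + (j : ℕ) =
          iM n φ.code.length + (q * (n + 1) + j) := by
        unfold vZ; omega
      change env₃ L u y (vZ n φ.code.length q + (j : ℕ)) =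
        env₃ L u (fun _ : Fin 0 => 0) (vZ n φ.code.length q + (j : ℕ))
      rw [e1, ChD_env_u _ _ _ hi, ChD_env_u _ _ _ hi]
    have rt : ∀ q < iQ n, env₃ L u y (vT n φ.code.length q) = T q := by
      intro q hq
      have hj : n < n + 1 := by omega
      have hi : q * (n + 1) + n < iU n := ChD_lt_mul hq hj
      have e1 : vT n φ.code.length q = iM n φ.code.length + (q * (n + 1) + n) := rfl
      change env₃ L u y (vT n φ.code.length q) =
        env₃ L u (fun _ : Fin 0 => 0) (vT n φ.code.length q)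
      rw [e1, ChD_env_u _ _ _ hi, ChD_env_u _ _ _ hi]
    have rx : ∀ q < iQ n, rdP n (env₃ L u y) (vX n φ.code.length q) = X q := by
      intro q hq
      apply (WithLp.ofLp_injective 2)
      funext j
      have hlt : q * n + j < iQ n * n := ChD_lt_mul hq j.2
      have hi : n + q * n + j < iY n φ.code.length := by unfold iY; omega
      have e1 : vX n φ.code.length q + (j : ℕ) =
          iM n φ.code.length + iU n + (n + q * n + j) := by
        unfold vX; omega
      change env₃ L u y (vX n φ.code.length q + (j : ℕ)) = (X q).ofLp j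
      rw [e1, ChD_env_y _ _ _ hi]
      exact ChD_y_x n φ.code.length p X v hq j
    have rv : ∀ r < 1 + 2 * iQ n, ∀ a, φ.isAt 0 a →
        env₃ L u y (vY n φ.code.length r + a) = φ.atv (env (P r).ofLp) 0 a := by
      intro r hr a ha
      have hal : a < φ.code.length := by
        have := (φ.isAt_range 0 a ha).2
        omega
      have hlt : r * φ.code.length + a < (1 + 2 * iQ n) * φ.code.length := ChD_lt_mul hr hal
      have hi : n + iQ n * n + r * φ.code.length + a < iY n φ.code.length := by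
        unfold iY; omega
      have e1 : vY n φ.code.length r + a =
          iM n φ.code.length + iU n + (n + iQ n * n + r * φ.code.length + a) := by
        unfold vY; omega
      rw [e1, ChD_env_y _ _ _ hi]
      exact ChD_y_v n φ.code.length p X v hal
    refine ⟨y, ?_⟩
    rw [key]
    refine ⟨⟨?_, ?_⟩, ?_, ?_⟩
    · intro a ha
      rw [rp, rv 0 (by omega) a ha, hP0]
    · intro q hq
      refine ⟨?_, ?_, ?_⟩
      · rw [rx q hq, rz q hq, rt q hq, rp]
      · intro a ha
        rw [rz q hq, rv (1 + 2 * q) (by omega) a ha, hP1]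
      · intro a ha
        rw [rx q hq, rv (2 + 2 * q) (by omega) a ha, hP2]
    · rw [rp]; exact hp
    · intro k hk he
      refine hpE k hk ?_
      rw [rp] at he
      refine (ChD_excl_congr ?_ ?_ _).1 he
      · intro c hc
        exact rz _ (ChD_lt_mul hk hc)
      · intro c hc
        exact rt _ (ChD_lt_mul hk hc)

end

end Pool.Agent.LibStar4
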