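import Mathlib

/-!
The kernel of a closed set is the intersection of the half-spaces given by touching balls.
-/

open Metric Set

namespace Pool.Agent.LibStar4

variable {E : Type*} [NormedAddCommGroup E] [InnerProductSpace ℝ E]

/-- every point of `S` is seen from `p` through `S` -/
def StarAt (S : Set E) (p : E) : Prop :=
  ∀ x ∈ S, ∀ t : ℝ, 0 ≤ t → t ≤ 1 → p + t • (x - p) ∈ S

/-- `z ∈ S` and the open ball around `c` with `z` on its boundary does not meet `S` -/
def Cert (S : Set E) (z c : E) : Prop := z ∈ S ∧ ∀ x ∈ S, ‖z - c‖ ≤ ‖x - c‖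

theorem nonneg_of_small {a b : ℝ} {h₀ : ℝ} (hh₀ : 0 < h₀)
    (H : ∀ h : ℝ, 0 < h → h ≤ h₀ → 0 ≤ 2 * a + h * b) : 0 ≤ a := by
  by_contra ha
  push Not at ha
  have hb : 0 ≤ |b| := abs_nonneg b
  have h1 : 0 < min h₀ (-a / (|b| + 1)) := lt_min hh₀ (div_pos (by linarith) (by linarith))
  have h2 := H _ h1 (min_le_left _ _)
  have h3 : min h₀ (-a / (|b| + 1)) * b ≤ -a := by
    calc min h₀ (-a / (|b| + 1)) * b ≤ min h₀ (-a / (|b| + 1)) * |b| :=
          mul_le_mul_of_nonneg_left (le_abs_self b) h1.le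
      _ ≤ (-a / (|b| + 1)) * |b| := mul_le_mul_of_nonneg_right (min_le_right _ _) hb
      _ ≤ (-a / (|b| + 1)) * (|b| + 1) := by
          apply mul_le_mul_of_nonneg_left (by linarith)
          exact (div_pos (by linarith) (by linarith)).le
      _ = -a := by field_simp
  linarith

theorem halfspace_of_starAt {S : Set E} {p z c : E} (hp : StarAt S p) (h : Cert S z c) :
    0 ≤ inner ℝ (p - z) (z - c) := by
  apply nonneg_of_small (b := ‖p - z‖ ^ 2) one_pos
  intro t ht ht1
  have h1 : p + (1 - t) • (z - p) ∈ S := hp z h.1 (1 - t) (by linarith) (by linarith)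
  have h2 := h.2 _ h1
  have h3 : p + (1 - t) • (z - p) - c = (z - c) + t • (p - z) := by module
  rw [h3] at h2
  have h4 : ‖z - c‖ ^ 2 ≤ ‖(z - c) + t • (p - z)‖ ^ 2 := pow_le_pow_left₀ (norm_nonneg _) h2 2
  rw [norm_add_sq_real, norm_smul, inner_smul_right, mul_pow, Real.norm_eq_abs, sq_abs] at h4
  rw [real_inner_comm] at h4
  have h5 : 0 ≤ t * (2 * inner ℝ (p - z) (z - c) + t * ‖p - z‖ ^ 2) := by nlinarith
  exact nonneg_of_mul_nonneg_right h5 ht

theorem starAt_of_halfspaces [ProperSpace E] {S : Set E} {q : E} (hS : IsClosed S)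
    (hq : ∀ z c, Cert S z c → 0 ≤ inner ℝ (q - z) (z - c)) : StarAt S q := by
  intro x hx s hs0 hs1
  by_contra hy
  set y : E := q + s • (x - q) with hydef
  have hne : S.Nonempty := ⟨x, hx⟩
  have hs1' : s < 1 := by
    rcases lt_or_eq_of_le hs1 with h | h
    · exact h
    · exfalso
      apply hy
      have : y = x := by rw [hydef, h]; module
      rw [this]
      exact hx
  let f : ℝ → ℝ := fun τ => infDist (y + τ • (x - y)) S
  have hf : Continuous f := by
    apply (continuous_infDist_pt S).comp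
    fun_prop
  have hf0 : 0 < f 0 := by
    have : f 0 = infDist y S := by simp [f]
    rw [this]
    exact (hS.notMem_iff_infDist_pos hne).1 hy
  have hf1 : f 1 = 0 := by
    have : y + (1 : ℝ) • (x - y) = x := by module
    simp only [f, this]
    exact infDist_zero_of_mem hx
  set r : ℝ := f 0 / 2 with hr
  have hr0 : 0 < r := by rw [hr]; linarith
  let T : Set ℝ := Icc 0 1 ∩ f ⁻¹' Iic r
  have hTc : IsCompact T := isCompact_Icc.inter_right (isClosed_Iic.preimage hf)
  have hTne : T.Nonempty := ⟨1, ⟨zero_le_one, le_rfl⟩, by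
    simp only [mem_preimage, mem_Iic, hf1]; exact hr0.le⟩
  obtain ⟨τ, hτT, hτmin⟩ := hTc.exists_isLeast hTne
  have hτ0 : 0 ≤ τ := hτT.1.1
  have hfτ : f τ ≤ r := hτT.2
  have hτpos : 0 < τ := by
    rcases lt_or_eq_of_le hτ0 with h | h
    · exact h
    · exfalso
      rw [← h] at hfτ
      linarith
  have hbefore : ∀ σ, 0 ≤ σ → σ < τ → r < f σ := by
    intro σ h0 h1
    by_contra hcon
    push Not at hcon
    have : σ ∈ T := ⟨⟨h0, h1.le.trans hτT.1.2⟩, hcon⟩
    exact absurd (hτmin this) (not_le.2 h1)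
  have hfτ' : f τ = r := by
    apply le_antisymm hfτ
    by_contra hcon
    push Not at hcon
    -- continuity
    have h1 : ∀ᶠ σ in nhds τ, f σ < r := hf.continuousAt.eventually_lt continuousAt_const hcon
    have h2 : ∃ᶠ σ in nhdsWithin τ (Iio τ), True := by
      simp [Filter.frequently_true_iff_neBot]
      infer_instance
    have h3 : ∀ᶠ σ in nhdsWithin τ (Iio τ), f σ < r ∧ 0 < σ ∧ σ < τ := by
      filter_upwards [nhdsWithin_le_nhds h1, nhdsWithin_le_nhds (lt_mem_nhds hτpos),
        self_mem_nhdsWithin] with σ a b c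
      exact ⟨a, b, c⟩
    obtain ⟨σ, _, h4, h5, h6⟩ := (h2.and_eventually h3).exists
    exact absurd (hbefore σ h5.le h6) (not_lt.2 h4.le)
  set c : E := y + τ • (x - y) with hc
  obtain ⟨z, hz, hzc⟩ := hS.exists_infDist_eq_dist hne c
  have hzc' : ‖z - c‖ = r := by
    rw [← hfτ']
    simp only [f]
    rw [← hc, hzc, dist_eq_norm, norm_sub_rev]
  have hcert : Cert S z c := by
    refine ⟨hz, fun w hw => ?_⟩
    rw [← dist_eq_norm, ← dist_eq_norm, dist_comm z c, ← hzc, dist_comm w c]
    exact infDist_le_dist_of_mem hw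
  have h1 := hq z c hcert
  have h2 : 0 ≤ inner ℝ (z - c) (x - y) := by
    apply nonneg_of_small (b := ‖x - y‖ ^ 2) hτpos
    intro h hh0 hh1
    have h3 := hbefore (τ - h) (by linarith) (by linarith)
    have h4 : f (τ - h) ≤ ‖z - (y + (τ - h) • (x - y))‖ := by
      simp only [f]
      rw [← dist_eq_norm, dist_comm]
      exact infDist_le_dist_of_mem hz
    have h5 : z - (y + (τ - h) • (x - y)) = (z - c) + h • (x - y) := by rw [hc]; module
    rw [h5] at h4
    have h6 : ‖z - c‖ ^ 2 ≤ ‖(z - c) + h • (x - y)‖ ^ 2 :=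
      pow_le_pow_left₀ (norm_nonneg _) (by rw [hzc']; linarith) 2
    rw [norm_add_sq_real, norm_smul, inner_smul_right, mul_pow, Real.norm_eq_abs, sq_abs] at h6
    have h7 : 0 ≤ h * (2 * inner ℝ (z - c) (x - y) + h * ‖x - y‖ ^ 2) := by nlinarith
    exact nonneg_of_mul_nonneg_right h7 hh0
  have h3 : (1 - s) • (q - z) = (1 - s) • (c - z) - (s + (1 - s) * τ) • (x - y) := by
    rw [hc, hydef]
    module
  have h4 : (1 - s) * inner ℝ (q - z) (z - c) =
      - ((1 - s) * ‖z - c‖ ^ 2) - (s + (1 - s) * τ) * inner ℝ (z - c) (x - y) := by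
    have h5 : inner ℝ ((1 - s) • (q - z)) (z - c) = inner ℝ ((1 - s) • (c - z) -
        (s + (1 - s) * τ) • (x - y)) (z - c) := by rw [h3]
    rw [inner_sub_left, inner_smul_left, inner_smul_left, inner_smul_left] at h5
    have h6 : inner ℝ (c - z) (z - c) = - ‖z - c‖ ^ 2 := by
      rw [← neg_sub z c, inner_neg_left, real_inner_self_eq_norm_sq]
    rw [h6, real_inner_comm (z - c) (x - y)] at h5
    simp only [conj_trivial] at h5
    linarith
  have h5 : 0 < (1 - s) * ‖z - c‖ ^ 2 := by
    rw [hzc']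
    have : 0 < 1 - s := by linarith
    positivity
  have h6 : 0 ≤ (s + (1 - s) * τ) * inner ℝ (z - c) (x - y) := by
    apply mul_nonneg _ h2
    have : 0 ≤ (1 - s) * τ := mul_nonneg (by linarith) hτ0
    linarith
  have h7 : 0 ≤ (1 - s) * inner ℝ (q - z) (z - c) := mul_nonneg (by linarith) h1
  linarith

theorem mem_of_starAt {S : Set E} {q : E} (hne : S.Nonempty) (h : StarAt S q) : q ∈ S := by
  obtain ⟨x, hx⟩ := hne
  have := h x hx 0 le_rfl zero_le_one
  simpa using this

/-- the half-space of a touching ball -/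
def Half (z c : E) : Set E := {p | 0 ≤ inner ℝ (p - z) (z - c)}

theorem isClosed_half (z c : E) : IsClosed (Half z c) := by
  apply isClosed_le continuous_const
  fun_prop

theorem convex_half (z c : E) : Convex ℝ (Half z c) := by
  intro p hp q hq a b ha hb hab
  simp only [Half, mem_setOf_eq] at *
  have : a • p + b • q - z = a • (p - z) + b • (q - z) := by
    have : z = a • z + b • z := by rw [← add_smul, hab, one_smul]
    nth_rewrite 1 [this]
    module
  rw [this, inner_add_left, inner_smul_left, inner_smul_left]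
  simp only [conj_trivial]
  have h1 := mul_nonneg ha hp
  have h2 := mul_nonneg hb hq
  linarith

theorem starAt_iff [ProperSpace E] {S : Set E} (hS : IsClosed S) {p : E} :
    StarAt S p ↔ ∀ z c, Cert S z c → p ∈ Half z c :=
  ⟨fun h _ _ hc => halfspace_of_starAt h hc, fun h => starAt_of_halfspaces hS h⟩

/-- enumerating a small finset -/
theorem exists_enum {ι : Type*} (i0 : ι) (I : Finset ι) (m : ℕ) (h : I.card ≤ m + 1) :
    ∃ g : Fin (m + 1) → ι, ∀ i ∈ I, ∃ k, g k = i := by
  classical
  refine ⟨fun k => if hk : (k : ℕ) < I.card then (I.equivFin.symm ⟨k, hk⟩ : ι) else i0,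
    fun i hi => ?_⟩
  refine ⟨⟨I.equivFin ⟨i, hi⟩, ?_⟩, ?_⟩
  · exact lt_of_lt_of_le (I.equivFin ⟨i, hi⟩).2 h
  · simp

theorem inter_nonempty_of_tuples {ι : Type*} (n : ℕ) (F : ι → Set (EuclideanSpace ℝ (Fin n)))
    (hF : ∀ i, Convex ℝ (F i))
    (h : ∀ g : Fin (n + 1) → ι, ∃ p, ∀ k, p ∈ F (g k)) (I : Finset ι) :
    (⋂ i ∈ I, F i).Nonempty := by
  rcases isEmpty_or_nonempty ι with hι | ⟨⟨i0⟩⟩
  · have : I = ∅ := Finset.eq_empty_of_isEmpty I
    subst this
    simp
  apply Convex.helly_theorem' (𝕜 := ℝ) (fun i _ => hF i)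
  intro J _ hJ
  rw [finrank_euclideanSpace, Fintype.card_fin] at hJ
  obtain ⟨g, hg⟩ := exists_enum i0 J n hJ
  obtain ⟨p, hp⟩ := h g
  refine ⟨p, ?_⟩
  simp only [mem_iInter]
  intro i hi
  obtain ⟨k, rfl⟩ := hg i hi
  exact hp k

/-- Helly's theorem for the certified half-spaces, inside a compact convex set -/
theorem exists_starAt_iff_ball (n : ℕ) {S : Set (EuclideanSpace ℝ (Fin n))} (hS : IsClosed S)
    (hne : S.Nonempty) {K : Set (EuclideanSpace ℝ (Fin n))} (hK : IsCompact K)
    (hKc : Convex ℝ K) :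
    (∃ p ∈ K, StarAt S p) ↔
      ∀ z c : Fin (n + 1) → EuclideanSpace ℝ (Fin n), (∀ i, Cert S (z i) (c i)) →
        ∃ p ∈ K, ∀ i, p ∈ Half (z i) (c i) := by
  constructor
  · rintro ⟨p, hpK, hp⟩ z c h
    exact ⟨p, hpK, fun i => halfspace_of_starAt hp (h i)⟩
  · intro h
    let ι := {q : EuclideanSpace ℝ (Fin n) × EuclideanSpace ℝ (Fin n) // Cert S q.1 q.2}
    let F : ι → Set (EuclideanSpace ℝ (Fin n)) := fun q => K ∩ Half q.1.1 q.1.2
    obtain ⟨z0, hz0⟩ := hne
    let i0 : ι := ⟨(z0, z0), hz0, fun x _ => by simp⟩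
    have h0 : ∀ g : Fin (n + 1) → ι, ∃ p, ∀ k, p ∈ F (g k) := by
      intro g
      obtain ⟨p, hpK, hp⟩ := h (fun k => (g k).1.1) (fun k => (g k).1.2) (fun k => (g k).2)
      exact ⟨p, fun k => ⟨hpK, hp k⟩⟩
    have h1 : (⋂ q, F q).Nonempty := by
      apply Convex.helly_theorem_compact' (𝕜 := ℝ)
        (fun q => hKc.inter (convex_half _ _)) (fun q => hK.inter_right (isClosed_half _ _))
      intro I _
      exact inter_nonempty_of_tuples n F (fun q => hKc.inter (convex_half _ _)) h0 I
    obtain ⟨p, hp⟩ := h1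
    rw [mem_iInter] at hp
    refine ⟨p, (hp i0).1, (starAt_iff hS).2 fun z c hc => (hp ⟨(z, c), hc⟩).2⟩

/-- the certified half-spaces bound a compact set from all sides -/
theorem exists_box (n : ℕ) {S : Set (EuclideanSpace ℝ (Fin n))} (hS : IsCompact S)
    (hne : S.Nonempty) :
    ∃ z c : Fin n × Bool → EuclideanSpace ℝ (Fin n), (∀ i, Cert S (z i) (c i)) ∧
      IsCompact (⋂ i, Half (z i) (c i)) := by
  have key : ∀ i : Fin n × Bool, ∃ z ∈ S, ∀ x ∈ S,
      (if i.2 then (1 : ℝ) else -1) * x i.1 ≤ (if i.2 then (1 : ℝ) else -1) * z i.1 := by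
    intro i
    have hc : ContinuousOn (fun x : EuclideanSpace ℝ (Fin n) =>
        (if i.2 then (1 : ℝ) else -1) * x i.1) S := by
      apply Continuous.continuousOn
      fun_prop
    obtain ⟨z, hz, hmax⟩ := hS.exists_isMaxOn hne hc
    exact ⟨z, hz, fun x hx => hmax hx⟩
  choose z hz hmax using key
  let v : Fin n × Bool → EuclideanSpace ℝ (Fin n) := fun i =>
    (if i.2 then (1 : ℝ) else -1) • EuclideanSpace.single i.1 (1 : ℝ)
  have hv : ∀ (i : Fin n × Bool) (x : EuclideanSpace ℝ (Fin n)),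
      inner ℝ x (v i) = (if i.2 then (1 : ℝ) else -1) * x i.1 := by
    intro i x
    simp only [v, inner_smul_right]
    congr 1
    rw [EuclideanSpace.inner_single_right]
    simp
  refine ⟨z, fun i => z i + v i, fun i => ⟨hz i, fun x hx => ?_⟩, ?_⟩
  · have h1 : z i - (z i + v i) = - v i := by abel
    have h2 : x - (z i + v i) = (x - z i) - v i := by abel
    rw [h1, h2, norm_neg]
    apply le_of_sq_le_sq _ (norm_nonneg _)
    rw [norm_sub_sq_real, inner_sub_left, hv, hv]
    have := hmax i x hx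
    have h3 : 0 ≤ ‖x - z i‖ ^ 2 := sq_nonneg _
    linarith
  · have hhalf : ∀ i p, p ∈ Half (z i) (z i + v i) →
        (if i.2 then (1 : ℝ) else -1) * p i.1 ≤ (if i.2 then (1 : ℝ) else -1) * z i i.1 := by
      intro i p hp
      simp only [Half, mem_setOf_eq] at hp
      have h1 : z i - (z i + v i) = - v i := by abel
      rw [h1, inner_neg_right, inner_sub_left, hv, hv] at hp
      linarith
    apply isCompact_of_isClosed_isBounded
    · exact isClosed_iInter fun i => isClosed_half _ _
    · apply (isBounded_iff_forall_norm_le).2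
      refine ⟨∑ i : Fin n × Bool, |z i i.1|, fun p hp => ?_⟩
      rw [mem_iInter] at hp
      have h1 : ∀ i : Fin n, |p i| ≤ |z (i, true) i| + |z (i, false) i| := by
        intro i
        have a := hhalf (i, true) p (hp (i, true))
        have b := hhalf (i, false) p (hp (i, false))
        simp only [if_true, Bool.false_eq_true, if_false, one_mul, neg_mul] at a b
        have c1 := abs_le.1 (le_refl |z (i, true) i|)
        have c2 := abs_le.1 (le_refl |z (i, false) i|)
        rw [abs_le]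
        constructor <;> linarith [abs_nonneg (z (i, true) i), abs_nonneg (z (i, false) i)]
      calc ‖p‖ ≤ ∑ i, |p i| := by
            rw [EuclideanSpace.norm_eq]
            apply Real.sqrt_le_iff.2
            constructor
            · exact Finset.sum_nonneg fun i _ => abs_nonneg _
            · have h2 : ∀ i : Fin n, ‖p i‖ ^ 2 ≤ |p i| * ∑ j, |p j| := by
                intro i
                rw [Real.norm_eq_abs, sq]
                apply mul_le_mul_of_nonneg_left _ (abs_nonneg _)
                exact Finset.single_le_sum (f := fun j => |p j|) (fun j _ => abs_nonneg _)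
                  (Finset.mem_univ i)
              calc ∑ i, ‖p i‖ ^ 2 ≤ ∑ i, |p i| * ∑ j, |p j| := Finset.sum_le_sum fun i _ => h2 i
                _ = (∑ i, |p i|) ^ 2 := by rw [← Finset.sum_mul, sq]
        _ ≤ ∑ i, (|z (i, true) i| + |z (i, false) i|) := Finset.sum_le_sum fun i _ => h1 i
        _ = ∑ i : Fin n × Bool, |z i i.1| := by
            rw [Fintype.sum_prod_type]
            simp

/-- **Helly criterion for compact sets.** -/
theorem exists_starAt_iff_compact (n : ℕ) {S : Set (EuclideanSpace ℝ (Fin n))}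
    (hS : IsCompact S) (hne : S.Nonempty) :
    (∃ p, StarAt S p) ↔
      ∀ z c : Fin (n + 1) → EuclideanSpace ℝ (Fin n), (∀ i, Cert S (z i) (c i)) →
        ∃ p, ∀ i, p ∈ Half (z i) (c i) := by
  constructor
  · rintro ⟨p, hp⟩ z c h
    exact ⟨p, fun i => halfspace_of_starAt hp (h i)⟩
  · intro h
    obtain ⟨zb, cb, hcert, hbox⟩ := exists_box n hS hne
    let ι := {q : EuclideanSpace ℝ (Fin n) × EuclideanSpace ℝ (Fin n) // Cert S q.1 q.2}
    let F : ι → Set (EuclideanSpace ℝ (Fin n)) := fun q => Half q.1.1 q.1.2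
    let B : Fin n × Bool → ι := fun i => ⟨(zb i, cb i), hcert i⟩
    have h0 : ∀ g : Fin (n + 1) → ι, ∃ p, ∀ k, p ∈ F (g k) := by
      intro g
      exact h (fun k => (g k).1.1) (fun k => (g k).1.2) (fun k => (g k).2)
    have h1 := inter_nonempty_of_tuples n F (fun q => convex_half _ _) h0
    have h2 : ((⋂ i, Half (zb i) (cb i)) ∩ ⋂ q, F q).Nonempty := by
      classical
      apply hbox.inter_iInter_nonempty _ (fun q => isClosed_half _ _)
      intro u
      obtain ⟨p, hp⟩ := h1 (u ∪ Finset.univ.image B)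
      refine ⟨p, ?_, ?_⟩
      · rw [mem_iInter]
        intro i
        have := mem_iInter₂.1 hp (B i)
          (Finset.mem_union_right _ (Finset.mem_image_of_mem _ (Finset.mem_univ i)))
        exact this
      · rw [mem_iInter₂]
        intro q hq
        exact mem_iInter₂.1 hp q (Finset.mem_union_left _ hq)
    obtain ⟨p, _, hp⟩ := h2
    rw [mem_iInter] at hp
    exact ⟨p, (starAt_iff hS.isClosed).2 fun z c hc => hp ⟨(z, c), hc⟩⟩

end Pool.Agent.LibStar4
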