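import Pool.Agent.LibStar4.Omega

/-!
Tuples of scales, each one small with respect to the previous ones.
-/

open Filter Topology Set

namespace Pool.Agent.LibStar4

noncomputable section

/-- tuples of scales, each one small with respect to the previous ones -/
def scales : ℕ → Filter (List ℝ)
  | 0 => pure []
  | k + 1 => (𝓝[>] (0 : ℝ)).bind fun s => (scales k).map (List.cons s)

theorem ev_scales_zero {P : List ℝ → Prop} : (∀ᶠ l in scales 0, P l) ↔ P [] := by
  rw [scales]
  exact eventually_pure

/-- `Filter.eventually_bind`, `Filter.eventually_map` -/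
theorem ev_scales_succ {k : ℕ} {P : List ℝ → Prop} :
    (∀ᶠ l in scales (k + 1), P l) ↔ ∀ᶠ s in 𝓝[>] (0 : ℝ), ∀ᶠ l in scales k, P (s :: l) := by
  rw [scales, Filter.eventually_bind]
  simp only [Filter.eventually_map]

/-- induction on `a` -/
theorem ev_scales_add {a b : ℕ} {P : List ℝ → Prop} :
    (∀ᶠ l in scales (a + b), P l) ↔ ∀ᶠ u in scales a, ∀ᶠ v in scales b, P (u ++ v) := by
  induction a generalizing P with
  | zero =>
    rw [Nat.zero_add, ev_scales_zero]
    simp only [List.nil_append]
  | succ a ih =>
    have h : a + 1 + b = a + b + 1 := by omega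
    rw [h, ev_scales_succ, ev_scales_succ]
    simp only [ih, List.cons_append]

theorem scales_neBot (k : ℕ) : (scales k).NeBot := by
  induction k with
  | zero =>
    rw [scales]
    exact pure_neBot
  | succ k ih =>
    refine ⟨fun h => ?_⟩
    have h2 : ∀ᶠ l in scales (k + 1), False := by
      rw [h]
      exact Filter.eventually_bot
    rw [ev_scales_succ] at h2
    obtain ⟨s, hs⟩ := h2.exists
    obtain ⟨_, hl⟩ := hs.exists
    exact hl

theorem scales_length (k : ℕ) : ∀ᶠ l in scales k, l.length = k := by
  induction k with
  | zero =>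
    rw [ev_scales_zero]
    rfl
  | succ k ih =>
    rw [ev_scales_succ]
    refine Filter.Eventually.of_forall fun s => ?_
    filter_upwards [ih] with l hl
    rw [List.length_cons, hl]

theorem scales_pos (k : ℕ) : ∀ᶠ l in scales k, ∀ i < k, 0 < l.getD i 0 := by
  induction k with
  | zero =>
    rw [ev_scales_zero]
    intro i hi
    exact absurd hi (Nat.not_lt_zero i)
  | succ k ih =>
    rw [ev_scales_succ]
    have hs : ∀ᶠ s in 𝓝[>] (0 : ℝ), 0 < s := self_mem_nhdsWithin
    filter_upwards [hs] with s hs0
    filter_upwards [ih] with l hl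
    intro i hi
    rcases i with _ | i
    · simpa using hs0
    · simpa using hl i (by omega)

end

end Pool.Agent.LibStar4
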