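import Pool.Agent.LibStar4.WinA
import Pool.Agent.LibStar4.Scale
import Pool.Agent.LibStar4.Geo

/-!
The statement with scales (definitions).
-/

open Metric Set Filter Topology

namespace Pool.Agent.LibStar4

set_option linter.unusedSectionVars false

variable {E : Type*} [NormedAddCommGroup E] [InnerProductSpace ℝ E] {ι : Type}

/-- the compact approximation -/
def Base (f : ι → E → ℝ) (Φ : (ι → SignType) → Prop) (s : ℝ) : Set E :=
  {x | ‖x‖ * s ≤ 1 ∧ x ∈ Win f Φ s 0}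

/-- the union of the windows -/
def Wins (f : ι → E → ℝ) (Φ : (ι → SignType) → Prop) (w : ℕ) (s : ℕ → ℝ) : Set E :=
  {x | ∃ j < w + 1, x ∈ Win f Φ (s (2 * j + 1)) (s (2 * j + 2))}

/-- exclusion by a certificate of the first kind -/
def Ex1 (f : ι → E → ℝ) (Φ : (ι → SignType) → Prop) (w : ℕ) (s : ℕ → ℝ) (z : E) (t : ℝ) (p : E) :
    Prop :=
  z ∈ Base f Φ (s 0) ∧ s 0 ≤ t ∧ t ≤ 1 ∧ z + t • (p - z) ∉ Wins f Φ w s

/-- exclusion by a certificate of the second kind -/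
def Ex2 (f : ι → E → ℝ) (Φ : (ι → SignType) → Prop) (w : ℕ) (s : ℕ → ℝ) (z : E) (t : ℝ) (p : E) :
    Prop :=
  z ∈ Base f (nt Φ) (s 0) ∧ s 0 ≤ -t ∧ -t * s 0 ≤ 1 ∧ z + t • (p - z) ∉ Wins f (nt Φ) w s

/-- exclusion at one level -/
def Excl (f : ι → E → ℝ) (Φ : (ι → SignType) → Prop) (w N : ℕ) (s : ℕ → ℝ) (z : ℕ → E)
    (t : ℕ → ℝ) (p : E) : Prop :=
  p ∉ Base f Φ (s 0) ∨ ∃ c < N, Ex1 f Φ w s (z c) (t c) p ∨ Ex2 f Φ w s (z c) (t c) p

/-- the block of scales of the level `k` -/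
def blkS (B k : ℕ) (l : List ℝ) (i : ℕ) : ℝ := l.getD (k * B + i) 0

/-- the statement: the list is `1/R` followed by the blocks of the levels -/
def Psi (f : ι → E → ℝ) (Φ : (ι → SignType) → Prop) (w N K : ℕ) (l : List ℝ) : Prop :=
  ∃ (z : ℕ → ℕ → E) (t : ℕ → ℕ → ℝ), ∀ p : E, ‖p‖ * l.getD 0 0 ≤ 1 →
    ∃ k < K, Excl f Φ w N (fun i => l.getD (1 + (k * (2 * w + 3) + i)) 0) (z k) (t k) p

variable {f : ι → E → ℝ} {Φ : (ι → SignType) → Prop}

theorem base_sub (f : ι → E → ℝ) (Φ : (ι → SignType) → Prop) (s : ℝ) : Base f Φ s ⊆ semi f Φ :=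
  fun _ hx => win_zero_sub f Φ s hx.2

theorem semi_nt (f : ι → E → ℝ) (Φ : (ι → SignType) → Prop) : semi f (nt Φ) = (semi f Φ)ᶜ := rfl

end Pool.Agent.LibStar4
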