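import Pool.Agent.LibStar4.Atoms
import Pool.Agent.LibStar4.Psi
import Pool.Agent.LibStar4.Env

/-!
The matrix of the two-block statement with scales as parameters. (Definitions.)
-/

open Set

namespace Pool.Agent.LibStar4

noncomputable section

/-! ### Indices -/

/-- the length of a block of scales -/
def iB (ℓ : ℕ) : ℕ := 2 * ℓ + 3

/-- the number of certificates at one level -/
def iN (n : ℕ) : ℕ := 2 * (n + 1)

/-- the number of certificates -/
def iQ (n : ℕ) : ℕ := (n + 1) * iN n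

/-- the number of parameters -/
def iM (n ℓ : ℕ) : ℕ := 1 + (n + 1) * iB ℓ

/-- the number of universal variables -/
def iU (n : ℕ) : ℕ := iQ n * (n + 1)

/-- the number of existential variables -/
def iY (n ℓ : ℕ) : ℕ := n + iQ n * n + (1 + 2 * iQ n) * ℓ

/-- the scale `i` of the level `k` -/
def vS (ℓ k i : ℕ) : ℕ := 1 + (k * iB ℓ + i)

/-- the first coordinate of the certificate `q` -/
def vZ (n ℓ q : ℕ) : ℕ := iM n ℓ + q * (n + 1)

/-- the number `t` of the certificate `q` -/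
def vT (n ℓ q : ℕ) : ℕ := iM n ℓ + (q * (n + 1) + n)

/-- the first coordinate of `p` -/
def vP (n ℓ : ℕ) : ℕ := iM n ℓ + iU n

/-- the first coordinate of the point `x_q = z_q + t_q (p - z_q)` -/
def vX (n ℓ q : ℕ) : ℕ := iM n ℓ + iU n + (n + q * n)

/-- the values of the atoms at the point `r` (`0` for `p`, `1 + 2 q` for `z_q`, `2 + 2 q` for
`x_q`) -/
def vY (n ℓ r : ℕ) : ℕ := iM n ℓ + iU n + (n + iQ n * n + r * ℓ)

/-- the variables beyond -/
def vFar (n ℓ : ℕ) : ℕ := iM n ℓ + iU n + iY n ℓ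

/-! ### The formula -/

/-- `s² ∑ x_j² ≤ 1`, the coordinates start at `c` -/
def normF (n c sv : ℕ) : Fml :=
  .ge (Tm.sub to1 (.mul (Tm.sq (.var sv)) (Tm.sum ((List.range n).map fun j =>
    Tm.sq (.var (c + j))))))

/-- negation for `false` -/
def sgnF (b : Bool) (F : Fml) : Fml := bif b then F else .neg F

/-- membership in `Base` -/
def BaseF (b : Bool) (n c y sv : ℕ) (φ : Fml) : Fml :=
  .and (normF n c sv) (.and (gapF y (.var sv) tz φ) (sgnF b (sgF y tz φ)))

/-- membership in a window -/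
def WinF (b : Bool) (y ev dv : ℕ) (φ : Fml) : Fml :=
  .and (gapF y (.var ev) (.var dv) φ) (sgnF b (sgF y (.var dv) φ))

/-- membership in the union of the windows of the level `k` -/
def WinsF (b : Bool) (ℓ y k : ℕ) (φ : Fml) : Fml :=
  Fml.disj ((List.range (ℓ + 1)).map fun j =>
    WinF b y (vS ℓ k (2 * j + 1)) (vS ℓ k (2 * j + 2)) φ)

/-- `x_q = z_q + t_q (p - z_q)` -/
def XF (n ℓ q : ℕ) : Fml :=
  Fml.conj ((List.range n).map fun j =>
    .eq (Tm.sub (.var (vX n ℓ q + j)) (.add (.var (vZ n ℓ q + j))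
      (.mul (.var (vT n ℓ q)) (Tm.sub (.var (vP n ℓ + j)) (.var (vZ n ℓ q + j)))))))

/-- all values of atoms are correct -/
def valF (n ℓ c r : ℕ) (φ : Fml) : Fml := alleq (ren n c (vFar n ℓ)) (vY n ℓ r) φ

/-- not excluded by a certificate of the first kind -/
def NEx1 (n ℓ k q : ℕ) (φ : Fml) : Fml :=
  .or (.neg (BaseF true n (vZ n ℓ q) (vY n ℓ (1 + 2 * q)) (vS ℓ k 0) φ))
    (.or (.gt (Tm.sub (.var (vS ℓ k 0)) (.var (vT n ℓ q))))
      (.or (.gt (Tm.sub (.var (vT n ℓ q)) to1)) (WinsF true ℓ (vY n ℓ (2 + 2 * q)) k φ)))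

/-- not excluded by a certificate of the second kind -/
def NEx2 (n ℓ k q : ℕ) (φ : Fml) : Fml :=
  .or (.neg (BaseF false n (vZ n ℓ q) (vY n ℓ (1 + 2 * q)) (vS ℓ k 0) φ))
    (.or (.gt (.add (.var (vS ℓ k 0)) (.var (vT n ℓ q))))
      (.or (.gt (Tm.sub (.mul (.mul tm1 (.var (vT n ℓ q))) (.var (vS ℓ k 0))) to1))
        (WinsF false ℓ (vY n ℓ (2 + 2 * q)) k φ)))

/-- the equations -/
def eqsF (n ℓ : ℕ) (φ : Fml) : Fml :=
  .and (valF n ℓ (vP n ℓ) 0 φ) (Fml.conj ((List.range (iQ n)).map fun q =>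
    .and (XF n ℓ q) (.and (valF n ℓ (vZ n ℓ q) (1 + 2 * q) φ)
      (valF n ℓ (vX n ℓ q) (2 + 2 * q) φ))))

/-- not excluded at the level `k` -/
def NExF (n ℓ k : ℕ) (φ : Fml) : Fml :=
  .and (BaseF true n (vP n ℓ) (vY n ℓ 0) (vS ℓ k 0) φ)
    (Fml.conj ((List.range (iN n)).map fun c =>
      .and (NEx1 n ℓ k (k * iN n + c) φ) (NEx2 n ℓ k (k * iN n + c) φ)))

/-- the matrix of the negation of `Psi` -/
def chiF (n ℓ : ℕ) (φ : Fml) : Fml :=
  .and (normF n (vP n ℓ) 0) (.and (eqsF n ℓ φ)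
    (Fml.conj ((List.range (n + 1)).map fun k => NExF n ℓ k φ)))

/-- reading a point -/
def rdP (n : ℕ) (V : ℕ → ℝ) (c : ℕ) : EuclideanSpace ℝ (Fin n) := WithLp.toLp 2 fun j => V (c + j)

/-- the condition or its negation -/
def bs (b : Bool) (φ : Fml) : (Fin φ.code.length → SignType) → Prop :=
  bif b then PhiA φ else nt (PhiA φ)

/-- the values at `y` are the values of the atoms at the point `x` -/
def valOK (n : ℕ) (φ : Fml) (V : ℕ → ℝ) (y : ℕ) (x : EuclideanSpace ℝ (Fin n)) : Prop :=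
  ∀ a, φ.isAt 0 a → V (y + a) = φ.atv (env x.ofLp) 0 a

/-- the equations hold -/
def eqsOK (n : ℕ) (φ : Fml) (V : ℕ → ℝ) : Prop :=
  valOK n φ V (vY n φ.code.length 0) (rdP n V (vP n φ.code.length)) ∧ ∀ q < iQ n,
    rdP n V (vX n φ.code.length q) = rdP n V (vZ n φ.code.length q) +
      V (vT n φ.code.length q) • (rdP n V (vP n φ.code.length) - rdP n V (vZ n φ.code.length q)) ∧
    valOK n φ V (vY n φ.code.length (1 + 2 * q)) (rdP n V (vZ n φ.code.length q)) ∧
    valOK n φ V (vY n φ.code.length (2 + 2 * q)) (rdP n V (vX n φ.code.length q))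

end

end Pool.Agent.LibStar4
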