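import Pool.Agent.LibStar4.Map
import Pool.Agent.LibStar4.AtB

/-!
Transformed formulas are computable in polynomial time.
-/

namespace Pool.Agent.LibStar4

open Pool.Agent.LibComplexity

variable {𝒜 : Set Orc} {α β : Type} [Enc α] [Enc β]

/-- `Fml.code_tr`, `trC`, `trT`; `PTf.flatMap`, `PTf.range`, `PTf.listGetD`, `PTf.ifP`, `PTf.decide_lt` -/
theorem pf_tr {φ : Orc → α → Fml} (hφ : PF 𝒜 φ) {At : Orc → α → ℕ → ℕ → Tm → Fml}
    {h : Orc → α → Tok → List Tok} {suf : Orc → α → ℕ → ℕ → List Tok}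
    (hcode : ∀ A x k a t, 3 ≤ k → k < 6 → (At A x k a t).code = t.code.flatMap (h A x) ++ suf A x k a)
    (hh : PTf 𝒜 (fun A (p : α × Tok) => h A p.1 p.2))
    (hs : PTf 𝒜 (fun A (p : α × (ℕ × ℕ)) => suf A p.1 p.2.1 p.2.2)) (b : Bool) :
    PF 𝒜 (fun A x => (φ A x).tr (At A x) b 0) := by
  have h1 : ∀ A x, ((φ A x).tr (At A x) b 0).code = trC (h A x) (suf A x) b 0 (φ A x).code :=
    fun A x => Fml.code_tr (hcode A x) b 0 (φ A x)
  unfold PF
  simp only [h1, trC]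
  unfold PF at hφ
  apply PTf.flatMap hφ.length.range
  have hl : PTf 𝒜 (fun A (p : α × ℕ) => (φ A p.1).code) := hφ.comp PTf.id.fst
  have hi : PTf 𝒜 (fun _ (p : α × ℕ) => p.2) := PTf.id.snd
  have hx : PTf 𝒜 (fun _ (p : α × ℕ) => p.1) := PTf.id.fst
  have hq : PTf 𝒜 (fun A (p : α × ℕ) => (φ A p.1).code.getD p.2 (tok 0)) :=
    PTf.listGetD hl hi (PTf.const _)
  have hhq : PTf 𝒜 (fun A (p : α × ℕ) => h A p.1 ((φ A p.1).code.getD p.2 (tok 0))) :=
    hh.comp (hx.pair hq)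
  have hsq : PTf 𝒜 (fun A (p : α × ℕ) =>
      suf A p.1 ((φ A p.1).code.getD p.2 (tok 0)).1 (0 + p.2)) :=
    hs.comp (hx.pair (hq.fst.pair ((PTf.const 0).add hi)))
  unfold trT
  cases b
  · exact PTf.ifP (PTf.decide_lt hq.fst (PTf.const 3)) hhq
      (PTf.ifP (PTf.decide_lt hq.fst (PTf.const 6)) hsq
        (PTf.ifP (PTf.decide_lt hq.fst (PTf.const 7)) (PTf.const _)
          (PTf.ifP (PTf.decide_lt hq.fst (PTf.const 8)) (PTf.const _)
            (PTf.ifP (PTf.decide_lt hq.fst (PTf.const 9)) (PTf.const _) hhq))))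
  · exact PTf.ifP (PTf.decide_lt hq.fst (PTf.const 3)) hhq
      (PTf.ifP (PTf.decide_lt hq.fst (PTf.const 6)) hsq
        (PTf.ifP (PTf.decide_lt hq.fst (PTf.const 7)) (PTf.const _)
          (PTf.ifP (PTf.decide_lt hq.fst (PTf.const 8)) (PTf.const _)
            (PTf.ifP (PTf.decide_lt hq.fst (PTf.const 9)) (PTf.const _) hhq))))

theorem ptf_codeLength {φ : Orc → α → Fml} (hφ : PF 𝒜 φ) :
    PTf 𝒜 (fun A x => (φ A x).code.length) := hφ.length

end Pool.Agent.LibStar4
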