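import Pool.Agent.LibStar4.CoA

/-!
The formulas for the values, the gaps and the signs are computable in polynomial time.
-/

namespace Pool.Agent.LibStar4

open Pool.Agent.LibComplexity

variable {𝒜 : Set Orc} {α β : Type} [Enc α] [Enc β]

theorem CoB_map (g : Tok → Tok) (l : List Tok) : l.map g = l.flatMap fun q => [g q] := by
  induction l with
  | nil => rfl
  | cons a l ih => rw [List.map_cons, ih, List.flatMap_cons]; rfl

theorem CoB_nil (l : List Tok) : (l.flatMap fun _ => ([] : List Tok)) = [] := by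
  induction l with
  | nil => rfl
  | cons a l ih => rw [List.flatMap_cons, ih]; rfl

/-- `pf_tr`; the code of `.eq (.add (t.rename g) (.mul tm1 (.var (y + a))))` is
`t.code.flatMap (fun q => [renTok g q]) ++ suffix` (`Tm.code_rename`) -/
theorem pf_alleq {n c far y : Orc → α → ℕ} {φ : Orc → α → Fml} (hn : PTf 𝒜 n) (hc : PTf 𝒜 c)
    (hf : PTf 𝒜 far) (hy : PTf 𝒜 y) (hφ : PF 𝒜 φ) :
    PF 𝒜 (fun A x => alleq (ren (n A x) (c A x) (far A x)) (y A x) (φ A x)) := by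
  unfold alleq
  refine pf_tr hφ (At := fun A x _ a t =>
      .eq (.add (t.rename (ren (n A x) (c A x) (far A x))) (.mul tm1 (.var (y A x + a)))))
    (h := fun A x q => [renTok (ren (n A x) (c A x) (far A x)) q])
    (suf := fun A x _ a => (Tm.mul tm1 (.var (y A x + a))).code ++ [tok 1] ++ [tok 3])
    ?_ ?_ ?_ false
  · intro A x k a t _ _
    rw [Fml.code, Tm.code, Tm.code_rename, CoB_map]
    simp only [List.append_assoc]
  · exact (ptf_renTok (hn.comp PTf.id.fst) (hc.comp PTf.id.fst) (hf.comp PTf.id.fst)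
      PTf.id.snd).cons (PTf.const [])
  · have h : PT 𝒜 (fun A (p : α × (ℕ × ℕ)) => Tm.mul tm1 (.var (y A p.1 + p.2.2))) :=
      (PT.cst tm1).mul (PT.var ((hy.comp PTf.id.fst).add PTf.id.snd.snd))
    unfold PT at h
    exact (h.append (PTf.const _)).append (PTf.const _)

/-- `pf_tr` with `h = fun _ => []` -/
theorem pf_sgF {y : Orc → α → ℕ} {δ : Orc → α → Tm} {φ : Orc → α → Fml} (hy : PTf 𝒜 y)
    (hδ : PT 𝒜 δ) (hφ : PF 𝒜 φ) : PF 𝒜 (fun A x => sgF (y A x) (δ A x) (φ A x)) := by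
  unfold sgF
  refine pf_tr hφ (At := fun A x k a _ =>
      if k < 4 then .ge (Tm.sub (δ A x).sq (Tm.sq (.var (y A x + a)))) else
        if k < 5 then .gt (Tm.sub (.var (y A x + a)) (δ A x)) else
          .ge (.add (.var (y A x + a)) (δ A x)))
    (h := fun _ _ _ => [])
    (suf := fun A x k a =>
      if k < 4 then (Fml.ge (Tm.sub (δ A x).sq (Tm.sq (.var (y A x + a))))).code else
        if k < 5 then (Fml.gt (Tm.sub (.var (y A x + a)) (δ A x))).code else
          (Fml.ge (.add (.var (y A x + a)) (δ A x))).code)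
    ?_ ?_ ?_ true
  · intro A x k a t _ _
    rw [CoB_nil, List.nil_append]
    by_cases h4 : k < 4
    · rw [if_pos h4, if_pos h4]
    · rw [if_neg h4, if_neg h4]
      by_cases h5 : k < 5
      · rw [if_pos h5, if_pos h5]
      · rw [if_neg h5, if_neg h5]
  · exact PTf.const _
  · have hv : PT 𝒜 (fun A (p : α × (ℕ × ℕ)) => Tm.var (y A p.1 + p.2.2)) :=
      PT.var ((hy.comp PTf.id.fst).add PTf.id.snd.snd)
    have hd : PT 𝒜 (fun A (p : α × (ℕ × ℕ)) => δ A p.1) := hδ.comp PTf.id.fst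
    have h1 : PF 𝒜 (fun A (p : α × (ℕ × ℕ)) =>
        Fml.ge (Tm.sub (δ A p.1).sq (Tm.sq (.var (y A p.1 + p.2.2))))) :=
      PF.ge (hd.sq.sub hv.sq)
    have h2 : PF 𝒜 (fun A (p : α × (ℕ × ℕ)) =>
        Fml.gt (Tm.sub (.var (y A p.1 + p.2.2)) (δ A p.1))) := PF.gt (hv.sub hd)
    have h3 : PF 𝒜 (fun A (p : α × (ℕ × ℕ)) =>
        Fml.ge (.add (.var (y A p.1 + p.2.2)) (δ A p.1))) := PF.ge (hv.add hd)
    unfold PF at h1 h2 h3
    exact (PTf.decide_lt PTf.id.snd.fst (PTf.const 4)).ifP h1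
      ((PTf.decide_lt PTf.id.snd.fst (PTf.const 5)).ifP h2 h3)

/-- `pf_tr` with `h = fun _ => []` -/
theorem pf_gapF {y : Orc → α → ℕ} {ε δ : Orc → α → Tm} {φ : Orc → α → Fml} (hy : PTf 𝒜 y)
    (hε : PT 𝒜 ε) (hδ : PT 𝒜 δ) (hφ : PF 𝒜 φ) :
    PF 𝒜 (fun A x => gapF (y A x) (ε A x) (δ A x) (φ A x)) := by
  unfold gapF
  refine pf_tr hφ (At := fun A x _ a _ =>
      .or (.ge (Tm.sub (δ A x).sq (Tm.sq (.var (y A x + a)))))
        (.ge (Tm.sub (Tm.sq (.var (y A x + a))) (ε A x).sq)))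
    (h := fun _ _ _ => [])
    (suf := fun A x _ a => (Fml.or (.ge (Tm.sub (δ A x).sq (Tm.sq (.var (y A x + a)))))
        (.ge (Tm.sub (Tm.sq (.var (y A x + a))) (ε A x).sq))).code)
    ?_ ?_ ?_ false
  · intro A x k a t _ _
    rw [CoB_nil, List.nil_append]
  · exact PTf.const _
  · have hv : PT 𝒜 (fun A (p : α × (ℕ × ℕ)) => Tm.var (y A p.1 + p.2.2)) :=
      PT.var ((hy.comp PTf.id.fst).add PTf.id.snd.snd)
    have hd : PT 𝒜 (fun A (p : α × (ℕ × ℕ)) => δ A p.1) := hδ.comp PTf.id.fst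
    have he : PT 𝒜 (fun A (p : α × (ℕ × ℕ)) => ε A p.1) := hε.comp PTf.id.fst
    exact PF.or (PF.ge (hd.sq.sub hv.sq)) (PF.ge (hv.sq.sub he.sq))

end Pool.Agent.LibStar4
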