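import Pool.Agent.LibStar4.CoB
import Pool.Agent.LibStar4.Chi

/-!
The matrix is computable in polynomial time.
-/

namespace Pool.Agent.LibStar4

open Pool.Agent.LibComplexity

variable {𝒜 : Set Orc} {α β : Type} [Enc α] [Enc β]

theorem CoC_vS {ℓ k i : Orc → α → ℕ} (hℓ : PTf 𝒜 ℓ) (hk : PTf 𝒜 k) (hi : PTf 𝒜 i) :
    PTf 𝒜 (fun A x => vS (ℓ A x) (k A x) (i A x)) := by
  unfold vS iB
  exact (PTf.const 1).add ((hk.mul (((PTf.const 2).mul hℓ).add (PTf.const 3))).add hi)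

theorem CoC_iQ {n : Orc → α → ℕ} (hn : PTf 𝒜 n) : PTf 𝒜 (fun A x => iQ (n A x)) := by
  unfold iQ iN
  exact (hn.add (PTf.const 1)).mul ((PTf.const 2).mul (hn.add (PTf.const 1)))

theorem CoC_iN {n : Orc → α → ℕ} (hn : PTf 𝒜 n) : PTf 𝒜 (fun A x => iN (n A x)) := by
  unfold iN
  exact (PTf.const 2).mul (hn.add (PTf.const 1))

theorem CoC_iM {n ℓ : Orc → α → ℕ} (hn : PTf 𝒜 n) (hℓ : PTf 𝒜 ℓ) :
    PTf 𝒜 (fun A x => iM (n A x) (ℓ A x)) := by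
  unfold iM iB
  exact (PTf.const 1).add ((hn.add (PTf.const 1)).mul (((PTf.const 2).mul hℓ).add (PTf.const 3)))

theorem CoC_iU {n : Orc → α → ℕ} (hn : PTf 𝒜 n) : PTf 𝒜 (fun A x => iU (n A x)) := by
  unfold iU
  exact (CoC_iQ hn).mul (hn.add (PTf.const 1))

theorem CoC_vZ {n ℓ q : Orc → α → ℕ} (hn : PTf 𝒜 n) (hℓ : PTf 𝒜 ℓ) (hq : PTf 𝒜 q) :
    PTf 𝒜 (fun A x => vZ (n A x) (ℓ A x) (q A x)) := by
  unfold vZ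
  exact (CoC_iM hn hℓ).add (hq.mul (hn.add (PTf.const 1)))

theorem CoC_vT {n ℓ q : Orc → α → ℕ} (hn : PTf 𝒜 n) (hℓ : PTf 𝒜 ℓ) (hq : PTf 𝒜 q) :
    PTf 𝒜 (fun A x => vT (n A x) (ℓ A x) (q A x)) := by
  unfold vT
  exact (CoC_iM hn hℓ).add ((hq.mul (hn.add (PTf.const 1))).add hn)

theorem CoC_vP {n ℓ : Orc → α → ℕ} (hn : PTf 𝒜 n) (hℓ : PTf 𝒜 ℓ) :
    PTf 𝒜 (fun A x => vP (n A x) (ℓ A x)) := by
  unfold vP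
  exact (CoC_iM hn hℓ).add (CoC_iU hn)

theorem CoC_vX {n ℓ q : Orc → α → ℕ} (hn : PTf 𝒜 n) (hℓ : PTf 𝒜 ℓ) (hq : PTf 𝒜 q) :
    PTf 𝒜 (fun A x => vX (n A x) (ℓ A x) (q A x)) := by
  unfold vX
  exact ((CoC_iM hn hℓ).add (CoC_iU hn)).add (hn.add (hq.mul hn))

theorem CoC_vY {n ℓ r : Orc → α → ℕ} (hn : PTf 𝒜 n) (hℓ : PTf 𝒜 ℓ) (hr : PTf 𝒜 r) :
    PTf 𝒜 (fun A x => vY (n A x) (ℓ A x) (r A x)) := by
  unfold vY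
  exact ((CoC_iM hn hℓ).add (CoC_iU hn)).add ((hn.add ((CoC_iQ hn).mul hn)).add (hr.mul hℓ))

theorem CoC_vFar {n ℓ : Orc → α → ℕ} (hn : PTf 𝒜 n) (hℓ : PTf 𝒜 ℓ) :
    PTf 𝒜 (fun A x => vFar (n A x) (ℓ A x)) := by
  unfold vFar iY
  exact ((CoC_iM hn hℓ).add (CoC_iU hn)).add ((hn.add ((CoC_iQ hn).mul hn)).add
    (((PTf.const 1).add ((PTf.const 2).mul (CoC_iQ hn))).mul hℓ))

theorem CoC_odd {r : Orc → α → ℕ} (c : ℕ) (hr : PTf 𝒜 r) : PTf 𝒜 (fun A x => c + 2 * r A x) :=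
  (PTf.const c).add ((PTf.const 2).mul hr)

theorem CoC_sgnF (b : Bool) {F : Orc → α → Fml} (hF : PF 𝒜 F) :
    PF 𝒜 (fun A x => sgnF b (F A x)) := by
  cases b
  · exact PF.neg hF
  · exact hF

/-- In this file: unfold the definitions and use `PF.and`, `PF.or`, `PF.neg`, `PF.ge`, `PF.gt`, `PF.eq`,
`PF.conj`, `PF.disj` (`Red.lean`), `PT.var`, `PT.sub`, `PT.sum`, ..., and `hn.comp PTf.id.fst` for the
parameters inside of `map` (see `Map.lean`). For a `bif` on a constant `b`: `cases b`. -/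
theorem pf_normF {n c sv : Orc → α → ℕ} (hn : PTf 𝒜 n) (hc : PTf 𝒜 c) (hs : PTf 𝒜 sv) :
    PF 𝒜 (fun A x => normF (n A x) (c A x) (sv A x)) := by
  unfold normF
  refine PF.ge ((PT.cst to1).sub ((PT.var hs).sq.mul ?_))
  refine PT.sum (t := fun A x j => Tm.sq (.var (c A x + j))) hn.range ?_
  exact (PT.var ((hc.comp PTf.id.fst).add PTf.id.snd)).sq

theorem pf_BaseF (b : Bool) {n c y sv : Orc → α → ℕ} {φ : Orc → α → Fml} (hn : PTf 𝒜 n)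
    (hc : PTf 𝒜 c) (hy : PTf 𝒜 y) (hs : PTf 𝒜 sv) (hφ : PF 𝒜 φ) :
    PF 𝒜 (fun A x => BaseF b (n A x) (c A x) (y A x) (sv A x) (φ A x)) := by
  unfold BaseF
  exact PF.and (pf_normF hn hc hs) (PF.and (pf_gapF hy (PT.var hs) (PT.cst tz) hφ)
    (CoC_sgnF b (pf_sgF hy (PT.cst tz) hφ)))

theorem CoC_WinF (b : Bool) {y ev dv : Orc → α → ℕ} {φ : Orc → α → Fml} (hy : PTf 𝒜 y)
    (he : PTf 𝒜 ev) (hd : PTf 𝒜 dv) (hφ : PF 𝒜 φ) :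
    PF 𝒜 (fun A x => WinF b (y A x) (ev A x) (dv A x) (φ A x)) := by
  unfold WinF
  exact PF.and (pf_gapF hy (PT.var he) (PT.var hd) hφ) (CoC_sgnF b (pf_sgF hy (PT.var hd) hφ))

theorem pf_WinsF (b : Bool) {ℓ y k : Orc → α → ℕ} {φ : Orc → α → Fml} (hℓ : PTf 𝒜 ℓ)
    (hy : PTf 𝒜 y) (hk : PTf 𝒜 k) (hφ : PF 𝒜 φ) :
    PF 𝒜 (fun A x => WinsF b (ℓ A x) (y A x) (k A x) (φ A x)) := by
  unfold WinsF
  refine PF.disj (t := fun A x j => WinF b (y A x) (vS (ℓ A x) (k A x) (2 * j + 1))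
    (vS (ℓ A x) (k A x) (2 * j + 2)) (φ A x)) (hℓ.add (PTf.const 1)).range ?_
  have hℓ' : PTf 𝒜 (fun A (p : α × ℕ) => ℓ A p.1) := hℓ.comp PTf.id.fst
  have hk' : PTf 𝒜 (fun A (p : α × ℕ) => k A p.1) := hk.comp PTf.id.fst
  have hj : PTf 𝒜 (fun _ (p : α × ℕ) => 2 * p.2) := (PTf.const 2).mul PTf.id.snd
  exact CoC_WinF b (hy.comp PTf.id.fst) (CoC_vS hℓ' hk' (hj.add (PTf.const 1)))
    (CoC_vS hℓ' hk' (hj.add (PTf.const 2))) (hφ.comp PTf.id.fst)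

theorem pf_XF {n ℓ q : Orc → α → ℕ} (hn : PTf 𝒜 n) (hℓ : PTf 𝒜 ℓ) (hq : PTf 𝒜 q) :
    PF 𝒜 (fun A x => XF (n A x) (ℓ A x) (q A x)) := by
  unfold XF
  refine PF.conj (t := fun A x j => .eq (Tm.sub (.var (vX (n A x) (ℓ A x) (q A x) + j))
      (.add (.var (vZ (n A x) (ℓ A x) (q A x) + j))
      (.mul (.var (vT (n A x) (ℓ A x) (q A x))) (Tm.sub (.var (vP (n A x) (ℓ A x) + j))
        (.var (vZ (n A x) (ℓ A x) (q A x) + j))))))) hn.range ?_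
  have hn' : PTf 𝒜 (fun A (p : α × ℕ) => n A p.1) := hn.comp PTf.id.fst
  have hℓ' : PTf 𝒜 (fun A (p : α × ℕ) => ℓ A p.1) := hℓ.comp PTf.id.fst
  have hq' : PTf 𝒜 (fun A (p : α × ℕ) => q A p.1) := hq.comp PTf.id.fst
  have hj : PTf 𝒜 (fun _ (p : α × ℕ) => p.2) := PTf.id.snd
  have hz := PT.var ((CoC_vZ hn' hℓ' hq').add hj)
  exact PF.eq ((PT.var ((CoC_vX hn' hℓ' hq').add hj)).sub (hz.add
    ((PT.var (CoC_vT hn' hℓ' hq')).mul ((PT.var ((CoC_vP hn' hℓ').add hj)).sub hz))))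

theorem pf_NEx1 {n ℓ k q : Orc → α → ℕ} {φ : Orc → α → Fml} (hn : PTf 𝒜 n) (hℓ : PTf 𝒜 ℓ)
    (hk : PTf 𝒜 k) (hq : PTf 𝒜 q) (hφ : PF 𝒜 φ) :
    PF 𝒜 (fun A x => NEx1 (n A x) (ℓ A x) (k A x) (q A x) (φ A x)) := by
  unfold NEx1
  have hs := CoC_vS hℓ hk (PTf.const 0 : PTf 𝒜 (fun _ (_ : α) => 0))
  have ht := PT.var (CoC_vT hn hℓ hq)
  exact PF.or (PF.neg (pf_BaseF true hn (CoC_vZ hn hℓ hq) (CoC_vY hn hℓ (CoC_odd 1 hq)) hs hφ))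
    (PF.or (PF.gt ((PT.var hs).sub ht)) (PF.or (PF.gt (ht.sub (PT.cst to1)))
      (pf_WinsF true hℓ (CoC_vY hn hℓ (CoC_odd 2 hq)) hk hφ)))

theorem pf_NEx2 {n ℓ k q : Orc → α → ℕ} {φ : Orc → α → Fml} (hn : PTf 𝒜 n) (hℓ : PTf 𝒜 ℓ)
    (hk : PTf 𝒜 k) (hq : PTf 𝒜 q) (hφ : PF 𝒜 φ) :
    PF 𝒜 (fun A x => NEx2 (n A x) (ℓ A x) (k A x) (q A x) (φ A x)) := by
  unfold NEx2
  have hs := CoC_vS hℓ hk (PTf.const 0 : PTf 𝒜 (fun _ (_ : α) => 0))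
  have ht := PT.var (CoC_vT hn hℓ hq)
  exact PF.or (PF.neg (pf_BaseF false hn (CoC_vZ hn hℓ hq) (CoC_vY hn hℓ (CoC_odd 1 hq)) hs hφ))
    (PF.or (PF.gt ((PT.var hs).add ht))
      (PF.or (PF.gt ((((PT.cst tm1).mul ht).mul (PT.var hs)).sub (PT.cst to1)))
      (pf_WinsF false hℓ (CoC_vY hn hℓ (CoC_odd 2 hq)) hk hφ)))

theorem CoC_valF {n ℓ c r : Orc → α → ℕ} {φ : Orc → α → Fml} (hn : PTf 𝒜 n) (hℓ : PTf 𝒜 ℓ)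
    (hc : PTf 𝒜 c) (hr : PTf 𝒜 r) (hφ : PF 𝒜 φ) :
    PF 𝒜 (fun A x => valF (n A x) (ℓ A x) (c A x) (r A x) (φ A x)) := by
  unfold valF
  exact pf_alleq hn hc (CoC_vFar hn hℓ) (CoC_vY hn hℓ hr) hφ

theorem CoC_eqsF {n ℓ : Orc → α → ℕ} {φ : Orc → α → Fml} (hn : PTf 𝒜 n) (hℓ : PTf 𝒜 ℓ)
    (hφ : PF 𝒜 φ) : PF 𝒜 (fun A x => eqsF (n A x) (ℓ A x) (φ A x)) := by
  unfold eqsF
  refine PF.and (CoC_valF hn hℓ (CoC_vP hn hℓ) (PTf.const 0) hφ) ?_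
  refine PF.conj (t := fun A x q => .and (XF (n A x) (ℓ A x) q)
    (.and (valF (n A x) (ℓ A x) (vZ (n A x) (ℓ A x) q) (1 + 2 * q) (φ A x))
      (valF (n A x) (ℓ A x) (vX (n A x) (ℓ A x) q) (2 + 2 * q) (φ A x)))) (CoC_iQ hn).range ?_
  have hn' : PTf 𝒜 (fun A (p : α × ℕ) => n A p.1) := hn.comp PTf.id.fst
  have hℓ' : PTf 𝒜 (fun A (p : α × ℕ) => ℓ A p.1) := hℓ.comp PTf.id.fst
  have hφ' : PF 𝒜 (fun A (p : α × ℕ) => φ A p.1) := hφ.comp PTf.id.fst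
  have hj : PTf 𝒜 (fun _ (p : α × ℕ) => p.2) := PTf.id.snd
  exact PF.and (pf_XF hn' hℓ' hj) (PF.and
    (CoC_valF hn' hℓ' (CoC_vZ hn' hℓ' hj) (CoC_odd 1 hj) hφ')
    (CoC_valF hn' hℓ' (CoC_vX hn' hℓ' hj) (CoC_odd 2 hj) hφ'))

theorem CoC_NExF {n ℓ k : Orc → α → ℕ} {φ : Orc → α → Fml} (hn : PTf 𝒜 n) (hℓ : PTf 𝒜 ℓ)
    (hk : PTf 𝒜 k) (hφ : PF 𝒜 φ) :
    PF 𝒜 (fun A x => NExF (n A x) (ℓ A x) (k A x) (φ A x)) := by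
  unfold NExF
  refine PF.and (pf_BaseF true hn (CoC_vP hn hℓ) (CoC_vY hn hℓ (PTf.const 0))
    (CoC_vS hℓ hk (PTf.const 0)) hφ) ?_
  refine PF.conj (t := fun A x c =>
      .and (NEx1 (n A x) (ℓ A x) (k A x) (k A x * iN (n A x) + c) (φ A x))
        (NEx2 (n A x) (ℓ A x) (k A x) (k A x * iN (n A x) + c) (φ A x))) (CoC_iN hn).range ?_
  have hn' : PTf 𝒜 (fun A (p : α × ℕ) => n A p.1) := hn.comp PTf.id.fst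
  have hℓ' : PTf 𝒜 (fun A (p : α × ℕ) => ℓ A p.1) := hℓ.comp PTf.id.fst
  have hk' : PTf 𝒜 (fun A (p : α × ℕ) => k A p.1) := hk.comp PTf.id.fst
  have hφ' : PF 𝒜 (fun A (p : α × ℕ) => φ A p.1) := hφ.comp PTf.id.fst
  have hj : PTf 𝒜 (fun _ (p : α × ℕ) => p.2) := PTf.id.snd
  have hq := (hk'.mul (CoC_iN hn')).add hj
  exact PF.and (pf_NEx1 hn' hℓ' hk' hq hφ') (pf_NEx2 hn' hℓ' hk' hq hφ')

theorem pf_chiF {n ℓ : Orc → α → ℕ} {φ : Orc → α → Fml} (hn : PTf 𝒜 n) (hℓ : PTf 𝒜 ℓ)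
    (hφ : PF 𝒜 φ) : PF 𝒜 (fun A x => chiF (n A x) (ℓ A x) (φ A x)) := by
  unfold chiF
  refine PF.and (pf_normF hn (CoC_vP hn hℓ) (PTf.const 0)) (PF.and (CoC_eqsF hn hℓ hφ) ?_)
  refine PF.conj (t := fun A x k => NExF (n A x) (ℓ A x) k (φ A x))
    (hn.add (PTf.const 1)).range ?_
  exact CoC_NExF (hn.comp PTf.id.fst) (hℓ.comp PTf.id.fst) PTf.id.snd (hφ.comp PTf.id.fst)

end Pool.Agent.LibStar4
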