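import Pool.Agent.LibStar4.Chi
import Pool.Agent.LibStar4.Sizes
import Pool.Agent.LibStar4.Ar

/-!
The final sentence. (Definitions.)
-/

open Set

namespace Pool.Agent.LibStar4

noncomputable section

/-- the number of variables of the squaring chain -/
def iT (P m : ℕ) : ℕ := (P + 2) * m + 1

/-- the squaring chain `τ_0 = 1/2`, `τ_{a+1} = τ_a²` -/
def chainF (c T : ℕ) : Fml :=
  .and (.eq (Tm.sub (.add (.var c) (.var c)) to1)) (Fml.conj ((List.range (T - 1)).map fun a =>
    .eq (Tm.sub (.var (c + (a + 1))) (Tm.sq (.var (c + a))))))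

/-- the scales of the final sentence -/
def lamS (P i : ℕ) : ℝ := (1 / 2 : ℝ) ^ 2 ^ ((P + 2) * (i + 1))

/-- the renaming: the parameters become variables of the chain -/
def renS (m u y P i : ℕ) : ℕ :=
  if i < m then u + y + (P + 2) * (i + 1) else
    if i < m + (u + y) then i - m else i + (u + y + iT P m)

/-- the matrix of the final sentence -/
def sentF (m u y P : ℕ) (χ : Fml) : Fml :=
  .and (chainF (u + y) (iT P m)) (χ.rename (renS m u y P))

/-- the weight of a code -/
def cwt (l : List Tok) : ℕ := (l.map fun q => 2 * (q.2.2.length + 1) + 4).sum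

/-- the exponent of the final sentence -/
def iP (n ℓ : ℕ) (l : List Tok) : ℕ := pB (2 * cwt l + iU n + iY n ℓ)

/-- the matrix of the sentence for a formula -/
def outS (n : ℕ) (φ : Fml) : Fml :=
  sentF (iM n φ.code.length) (iU n) (iY n φ.code.length)
    (iP n φ.code.length (chiF n φ.code.length φ).code) (chiF n φ.code.length φ)

/-- the number of existential variables -/
def outY (n : ℕ) (φ : Fml) : ℕ := iY n φ.code.length +
  iT (iP n φ.code.length (chiF n φ.code.length φ).code) (iM n φ.code.length)

end

end Pool.Agent.LibStar4
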