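import Pool.Agent.LibStar4.CoC
import Pool.Agent.LibStar4.FiDef

/-!
The final sentence is computable in polynomial time.
-/

namespace Pool.Agent.LibStar4

open Pool.Agent.LibComplexity

variable {𝒜 : Set Orc} {α β : Type} [Enc α] [Enc β]

theorem CoD_iT {P m : Orc → α → ℕ} (hP : PTf 𝒜 P) (hm : PTf 𝒜 m) :
    PTf 𝒜 (fun A x => iT (P A x) (m A x)) := by
  unfold iT
  exact ((hP.add (PTf.const 2)).mul hm).add (PTf.const 1)

theorem CoD_renS {m u y P i : Orc → α → ℕ} (hm : PTf 𝒜 m) (hu : PTf 𝒜 u) (hy : PTf 𝒜 y)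
    (hP : PTf 𝒜 P) (hi : PTf 𝒜 i) :
    PTf 𝒜 (fun A x => renS (m A x) (u A x) (y A x) (P A x) (i A x)) := by
  unfold renS
  exact PTf.ifP (PTf.decide_lt hi hm)
    ((hu.add hy).add ((hP.add (PTf.const 2)).mul (hi.add (PTf.const 1))))
    (PTf.ifP (PTf.decide_lt hi (hm.add (hu.add hy))) (hi.sub hm)
      (hi.add ((hu.add hy).add (CoD_iT hP hm))))

theorem CoD_renTok {m u y P : Orc → α → ℕ} {q : Orc → α → Tok} (hm : PTf 𝒜 m) (hu : PTf 𝒜 u)
    (hy : PTf 𝒜 y) (hP : PTf 𝒜 P) (hq : PTf 𝒜 q) :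
    PTf 𝒜 (fun A x => renTok (renS (m A x) (u A x) (y A x) (P A x)) (q A x)) := by
  unfold renTok
  exact PTf.ifP (PTf.decide_le (PTf.const 9) hq.fst)
    ((PTf.add (CoD_renS hm hu hy hP (PTf.sub hq.fst (PTf.const 9))) (PTf.const 9)).pair hq.snd) hq

theorem pf_chainF {c T : Orc → α → ℕ} (hc : PTf 𝒜 c) (hT : PTf 𝒜 T) :
    PF 𝒜 (fun A x => chainF (c A x) (T A x)) := by
  unfold chainF
  have hc' : PTf 𝒜 (fun A (p : α × ℕ) => c A p.1) := hc.comp PTf.id.fst
  have hi' : PTf 𝒜 (fun _ (p : α × ℕ) => p.2) := PTf.id.snd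
  refine PF.and (PF.eq (PT.sub (PT.add (PT.var hc) (PT.var hc)) (PT.cst to1))) ?_
  apply PF.conj (hT.sub (PTf.const 1)).range
  exact PF.eq (PT.sub (PT.var (hc'.add (hi'.add (PTf.const 1)))) (PT.sq (PT.var (hc'.add hi'))))

theorem pf_sentF {m u y P : Orc → α → ℕ} {χ : Orc → α → Fml} (hm : PTf 𝒜 m) (hu : PTf 𝒜 u)
    (hy : PTf 𝒜 y) (hP : PTf 𝒜 P) (hχ : PF 𝒜 χ) :
    PF 𝒜 (fun A x => sentF (m A x) (u A x) (y A x) (P A x) (χ A x)) := by
  unfold sentF
  refine PF.and (pf_chainF (hu.add hy) (CoD_iT hP hm)) ?_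
  unfold PF at *
  simp only [Fml.code_rename]
  apply PTf.map hχ
  exact CoD_renTok (hm.comp PTf.id.fst) (hu.comp PTf.id.fst) (hy.comp PTf.id.fst)
    (hP.comp PTf.id.fst) PTf.id.snd

theorem ptf_pB {N : Orc → α → ℕ} (hN : PTf 𝒜 N) : PTf 𝒜 (fun A x => pB (N A x)) := by
  unfold pB
  simp only
  repeat (first
    | assumption | with_reducible apply PTf.id | with_reducible apply PTf.const
    | with_reducible apply PTf.pair | with_reducible apply PTf.fst
    | with_reducible apply PTf.snd | with_reducible apply PTf.succ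
    | with_reducible apply PTf.add | with_reducible apply PTf.mul
    | with_reducible apply PTf.sub | with_reducible apply PTf.cons
    | with_reducible apply PTf.append | with_reducible apply PTf.replicate
    | with_reducible apply PTf.length | with_reducible apply PTf.range
    | with_reducible apply PTf.map | with_reducible apply PTf.flatMap
    | with_reducible apply PTf.ifP | with_reducible apply PTf.decide_le
    | with_reducible apply PTf.decide_lt)

theorem CoD_iQ {n : Orc → α → ℕ} (hn : PTf 𝒜 n) : PTf 𝒜 (fun A x => iQ (n A x)) := by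
  unfold iQ iN
  repeat (first
    | assumption | with_reducible apply PTf.id | with_reducible apply PTf.const
    | with_reducible apply PTf.pair | with_reducible apply PTf.fst
    | with_reducible apply PTf.snd | with_reducible apply PTf.succ
    | with_reducible apply PTf.add | with_reducible apply PTf.mul
    | with_reducible apply PTf.sub | with_reducible apply PTf.cons
    | with_reducible apply PTf.append | with_reducible apply PTf.replicate
    | with_reducible apply PTf.length | with_reducible apply PTf.range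
    | with_reducible apply PTf.map | with_reducible apply PTf.flatMap
    | with_reducible apply PTf.ifP | with_reducible apply PTf.decide_le
    | with_reducible apply PTf.decide_lt)

theorem ptf_iU {n : Orc → α → ℕ} (hn : PTf 𝒜 n) : PTf 𝒜 (fun A x => iU (n A x)) := by
  unfold iU
  exact (CoD_iQ hn).mul hn.succ

theorem ptf_iY {n ℓ : Orc → α → ℕ} (hn : PTf 𝒜 n) (hℓ : PTf 𝒜 ℓ) :
    PTf 𝒜 (fun A x => iY (n A x) (ℓ A x)) := by
  unfold iY
  exact (hn.add ((CoD_iQ hn).mul hn)).add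
    (((PTf.const 1).add ((PTf.const 2).mul (CoD_iQ hn))).mul hℓ)

theorem ptf_iM {n ℓ : Orc → α → ℕ} (hn : PTf 𝒜 n) (hℓ : PTf 𝒜 ℓ) :
    PTf 𝒜 (fun A x => iM (n A x) (ℓ A x)) := by
  unfold iM iB
  exact (PTf.const 1).add (hn.succ.mul (((PTf.const 2).mul hℓ).add (PTf.const 3)))

theorem CoD_cwt {l : Orc → α → List Tok} (hl : PTf 𝒜 l) : PTf 𝒜 (fun A x => cwt (l A x)) := by
  unfold cwt
  apply PTf.sum
  apply PTf.map hl
  have h1 : PTf 𝒜 (fun _ (p : α × Tok) => p.2.2.2.length) := PTf.id.snd.snd.snd.length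
  exact ((PTf.const 2).mul h1.succ).add (PTf.const 4)

theorem ptf_iP {n ℓ : Orc → α → ℕ} {l : Orc → α → List Tok} (hn : PTf 𝒜 n) (hℓ : PTf 𝒜 ℓ)
    (hl : PTf 𝒜 l) : PTf 𝒜 (fun A x => iP (n A x) (ℓ A x) (l A x)) := by
  unfold iP
  exact ptf_pB ((((PTf.const 2).mul (CoD_cwt hl)).add (ptf_iU hn)).add (ptf_iY hn hℓ))

theorem CoD_iP {n : Orc → α → ℕ} {φ : Orc → α → Fml} (hn : PTf 𝒜 n) (hφ : PF 𝒜 φ) :
    PTf 𝒜 (fun A x => iP (n A x) (φ A x).code.length
      (chiF (n A x) (φ A x).code.length (φ A x)).code) := by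
  have hℓ : PTf 𝒜 (fun A x => (φ A x).code.length) := ptf_codeLength hφ
  exact ptf_iP hn hℓ (pf_chiF hn hℓ hφ)

theorem ptf_outY {n : Orc → α → ℕ} {φ : Orc → α → Fml} (hn : PTf 𝒜 n) (hφ : PF 𝒜 φ) :
    PTf 𝒜 (fun A x => outY (n A x) (φ A x)) := by
  unfold outY
  have hℓ : PTf 𝒜 (fun A x => (φ A x).code.length) := ptf_codeLength hφ
  exact (ptf_iY hn hℓ).add (CoD_iT (CoD_iP hn hφ) (ptf_iM hn hℓ))

theorem pf_outS {n : Orc → α → ℕ} {φ : Orc → α → Fml} (hn : PTf 𝒜 n) (hφ : PF 𝒜 φ) :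
    PF 𝒜 (fun A x => outS (n A x) (φ A x)) := by
  unfold outS
  have hℓ : PTf 𝒜 (fun A x => (φ A x).code.length) := ptf_codeLength hφ
  exact pf_sentF (ptf_iM hn hℓ) (ptf_iU hn) (ptf_iY hn hℓ) (CoD_iP hn hφ) (pf_chiF hn hℓ hφ)

end Pool.Agent.LibStar4
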