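import Pool.Agent.LibStar4.FiDef

/-!
The weight.
-/

open Set

namespace Pool.Agent.LibStar4

noncomputable section

theorem fiC_append (l l' : List Tok) : cwt (l ++ l') = cwt l + cwt l' := by
  unfold cwt
  rw [List.map_append, List.sum_append]

theorem fiC_single (q : Tok) : cwt [q] = 2 * (q.2.2.length + 1) + 4 := by
  unfold cwt
  simp

theorem fiC_single_ge (q : Tok) : 6 ≤ cwt [q] := by
  rw [fiC_single]
  omega

theorem fiC_tm (t : Tm) : 2 * t.wt ≤ cwt t.code := by
  induction t with
  | var i =>
    simp only [Tm.code, Tm.wt]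
    have := fiC_single_ge (tok (i + 9))
    omega
  | const s b =>
    simp only [Tm.code, Tm.wt]
    rw [fiC_single]
    simp only
    omega
  | add a b iha ihb =>
    simp only [Tm.code, Tm.wt, fiC_append]
    omega
  | mul a b iha ihb =>
    simp only [Tm.code, Tm.wt, fiC_append]
    omega

/-- first `2 * t.wt ≤ cwt t.code` for polynomials, then induction on the formula -/
theorem wt_le_cwt (χ : Fml) : χ.wt ≤ cwt χ.code := by
  induction χ with
  | eq t =>
    simp only [Fml.code, Fml.wt, fiC_append]
    have := fiC_tm t
    have h2 := fiC_single_ge (tok 3)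
    omega
  | gt t =>
    simp only [Fml.code, Fml.wt, fiC_append]
    have := fiC_tm t
    have h2 := fiC_single_ge (tok 4)
    omega
  | ge t =>
    simp only [Fml.code, Fml.wt, fiC_append]
    have := fiC_tm t
    have h2 := fiC_single_ge (tok 5)
    omega
  | neg φ ih =>
    simp only [Fml.code, Fml.wt, fiC_append]
    omega
  | and φ ψ ih1 ih2 =>
    simp only [Fml.code, Fml.wt, fiC_append]
    omega
  | or φ ψ ih1 ih2 =>
    simp only [Fml.code, Fml.wt, fiC_append]
    omega

end

end Pool.Agent.LibStar4
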