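import Pool.Agent.LibStar4.Scale

open Filter Topology Set

namespace Pool.Agent.LibStar4

noncomputable section

theorem scaleB_last {k : ℕ} {P : List ℝ → Prop} :
    (∀ᶠ l in scales (k + 1), P l) ↔ ∀ᶠ u in scales k, ∀ᶠ s in 𝓝[>] (0 : ℝ), P (u ++ [s]) := by
  rw [ev_scales_add]
  refine eventually_congr (Eventually.of_forall fun u => ?_)
  rw [ev_scales_succ (k := 0)]
  refine eventually_congr (Eventually.of_forall fun s => ?_)
  rw [ev_scales_zero]

theorem scaleB_getD_lt {u : List ℝ} {s : ℝ} {k i : ℕ} (hu : u.length = k) (hi : i < k) :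
    (u ++ [s]).getD i 0 = u.getD i 0 := by
  subst hu
  exact List.getD_append _ _ _ _ hi

theorem scaleB_getD_eq {u : List ℝ} {s : ℝ} {k : ℕ} (hu : u.length = k) :
    (u ++ [s]).getD k 0 = s := by
  subst hu
  rw [List.getD_append_right _ _ _ _ le_rfl]
  simp

/-- use `ev_scales_add` with `b = 1` (the last scale is small with respect to the others), with
`scales_length` and `scales_pos` -/
theorem scales_decr (k : ℕ) : ∀ᶠ l in scales k, ∀ i, i + 1 < k → l.getD (i + 1) 0 < l.getD i 0 := by
  induction k with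
  | zero =>
    refine Eventually.of_forall fun l i hi => ?_
    omega
  | succ k ih =>
    rw [scaleB_last]
    filter_upwards [ih, scales_length k, scales_pos k] with u h1 h2 h3
    have h4 : ∀ i, i < k → ∀ᶠ s in 𝓝[>] (0 : ℝ), s < u.getD i 0 := by
      intro i hi
      have := h3 i hi
      exact (eventually_lt_nhds this).filter_mono nhdsWithin_le_nhds
    have h5 : ∀ᶠ s in 𝓝[>] (0 : ℝ), ∀ i ∈ Finset.range k, s < u.getD i 0 := by
      rw [Finset.eventually_all]
      intro i hi
      exact h4 i (Finset.mem_range.1 hi)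
    filter_upwards [h5] with s hs
    intro i hi
    have hik : i < k := by omega
    rw [scaleB_getD_lt h2 hik]
    rcases Nat.lt_or_ge (i + 1) k with h | h
    · rw [scaleB_getD_lt h2 h]
      exact h1 i h
    · have e : i + 1 = k := by omega
      rw [e, scaleB_getD_eq h2]
      exact hs i (Finset.mem_range.2 hik)

theorem scaleB_prod {k : ℕ} (i : Fin k) (f : ℕ → ℝ) :
    ∏ j ∈ (Finset.univ : Finset (Fin k)).filter (· < i), f j = ∏ j ∈ Finset.range i, f j := by
  refine Finset.prod_bij (fun j _ => (j : ℕ)) ?_ ?_ ?_ ?_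
  · intro j hj
    rw [Finset.mem_filter] at hj
    exact Finset.mem_range.2 hj.2
  · intro a _ b _ h
    exact Fin.ext h
  · intro b hb
    have hb' := Finset.mem_range.1 hb
    exact ⟨⟨b, hb'.trans i.isLt⟩, by
      rw [Finset.mem_filter]
      exact ⟨Finset.mem_univ _, hb'⟩, rfl⟩
  · intro a _
    rfl

theorem scaleB_aux (D H : ℕ) (k : ℕ) :
    ∀ᶠ l in scales k, ∀ i < k, (H : ℝ) * l.getD i 0 < ∏ j ∈ Finset.range i, l.getD j 0 ^ D := by
  induction k with
  | zero =>
    refine Eventually.of_forall fun l i hi => ?_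
    omega
  | succ k ih =>
    rw [scaleB_last]
    filter_upwards [ih, scales_length k, scales_pos k] with u h1 h2 h3
    have hp : 0 < ∏ j ∈ Finset.range k, u.getD j 0 ^ D :=
      Finset.prod_pos fun j hj => pow_pos (h3 j (Finset.mem_range.1 hj)) _
    have h4 : ∀ᶠ s in 𝓝[>] (0 : ℝ), (H : ℝ) * s < ∏ j ∈ Finset.range k, u.getD j 0 ^ D := by
      have hc : Tendsto (fun s : ℝ => (H : ℝ) * s) (𝓝[>] 0) (𝓝 ((H : ℝ) * 0)) :=
        ((continuous_const.mul continuous_id).tendsto 0).mono_left nhdsWithin_le_nhds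
      rw [mul_zero] at hc
      exact hc.eventually_lt_const hp
    filter_upwards [h4] with s hs
    intro i hi
    have hpr : ∏ j ∈ Finset.range i, (u ++ [s]).getD j 0 ^ D
        = ∏ j ∈ Finset.range i, u.getD j 0 ^ D := by
      refine Finset.prod_congr rfl fun j hj => ?_
      have hj' := Finset.mem_range.1 hj
      rw [scaleB_getD_lt h2 (by omega)]
    rw [hpr]
    rcases Nat.lt_or_ge i k with h | h
    · rw [scaleB_getD_lt h2 h]
      exact h1 i h
    · have e : i = k := by omega
      rw [e, scaleB_getD_eq h2]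
      exact hs

/-- use `ev_scales_add` with `b = 1`: given the first `k` scales (positive), the condition for the
last one is `H * s < ∏ ..., which is positive` -/
theorem scales_om (k D H : ℕ) :
    ∀ᶠ l in scales k, (fun i : Fin k => l.getD i 0) ∈ Om k D H := by
  filter_upwards [scaleB_aux D H k, scales_pos k] with l h1 h2
  refine ⟨fun i => h2 i i.isLt, fun i => ?_⟩
  have h := h1 i i.isLt
  rw [scaleB_prod i (fun j => l.getD j 0 ^ D)]
  exact h

end

end Pool.Agent.LibStar4
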