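import Pool.Agent.LibStar4.Win

open Filter Topology Set

namespace Pool.Agent.LibStar4

noncomputable section

variable {ι : Type} {E : Type*} {f : ι → E → ℝ} {Φ : (ι → SignType) → Prop}

theorem winB_sg_zero {δ y : ℝ} (hδ : 0 < δ) (h : sg δ y = 0) : |y| ≤ δ := by
  by_contra hy
  unfold sg at h
  rw [if_neg hy] at h
  rw [sign_eq_zero_iff] at h
  rw [h, abs_zero] at hy
  exact hy hδ.le

theorem winB_sg_one {δ y : ℝ} (h : sg δ y = 1) : ¬ |y| ≤ δ ∧ 0 < y := by
  unfold sg at h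
  by_cases hy : |y| ≤ δ
  · rw [if_pos hy] at h
    exact absurd h (by decide)
  · rw [if_neg hy] at h
    exact ⟨hy, sign_eq_one_iff.1 h⟩

theorem winB_sg_neg {δ y : ℝ} (h : sg δ y = -1) : ¬ |y| ≤ δ ∧ y < 0 := by
  unfold sg at h
  by_cases hy : |y| ≤ δ
  · rw [if_pos hy] at h
    exact absurd h (by decide)
  · rw [if_neg hy] at h
    exact ⟨hy, sign_eq_neg_one_iff.1 h⟩

/-- one sign vector -/
theorem winB_one [TopologicalSpace E] [Fintype ι] (hf : ∀ a, Continuous (f a)) {K : Set E}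
    (hK : IsCompact K) (hKS : K ⊆ semi f Φ) {ε : ℝ} (hε : 0 < ε) (τ : ι → SignType) :
    ∀ᶠ δ in 𝓝[>] (0 : ℝ), ∀ y ∈ K, (∀ a, |f a y| ≤ δ ∨ ε ≤ |f a y|) →
      (fun a => sg δ (f a y)) = τ → Φ τ := by
  classical
  by_cases hτ : Φ τ
  · exact Eventually.of_forall fun _ _ _ _ _ => hτ
  -- the compact set
  have hcl : IsClosed {y : E | ∀ a, (τ a = 1 → ε ≤ f a y) ∧ (τ a = -1 → f a y ≤ -ε)} := by
    rw [Set.ofPred_forall]
    refine isClosed_iInter fun a => ?_
    rw [Set.ofPred_and]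
    refine IsClosed.inter ?_ ?_
    · by_cases h : τ a = 1
      · simpa [h] using isClosed_le continuous_const (hf a)
      · simp [h]
    · by_cases h : τ a = -1
      · simpa [h] using isClosed_le (hf a) continuous_const
      · simp [h]
  have hA : IsCompact (K ∩ {y : E | ∀ a, (τ a = 1 → ε ≤ f a y) ∧ (τ a = -1 → f a y ≤ -ε)}) :=
    hK.inter_right hcl
  set A := K ∩ {y : E | ∀ a, (τ a = 1 → ε ≤ f a y) ∧ (τ a = -1 → f a y ≤ -ε)} with hAdef
  let M : E → ℝ := fun y => ∑ a ∈ Finset.univ.filter (fun a => τ a = 0), |f a y|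
  have hMc : Continuous M := continuous_finsetSum _ fun a _ => (hf a).abs
  have hMpos : ∀ y ∈ A, 0 < M y := by
    intro y hy
    have h0 : 0 ≤ M y := Finset.sum_nonneg fun a _ => abs_nonneg _
    refine lt_of_le_of_ne h0 fun hM => hτ ?_
    have hz : ∀ a, τ a = 0 → f a y = 0 := by
      intro a ha
      have := (Finset.sum_eq_zero_iff_of_nonneg
        (fun b _ => abs_nonneg (f b y))).1 hM.symm a (by simp [ha])
      exact abs_eq_zero.1 this
    have hs : (fun a => SignType.sign (f a y)) = τ := by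
      funext a
      have h1 := (hy.2 a).1
      have h2 := (hy.2 a).2
      rcases h : τ a with _ | _ | _
      · have := hz a h
        rw [this]
        exact sign_zero
      · have := h2 h
        exact sign_neg (by linarith)
      · have := h1 h
        exact sign_pos (by linarith)
    have := hKS hy.1
    rw [← hs]
    exact this
  obtain ⟨m, hm, hmA⟩ : ∃ m : ℝ, 0 < m ∧ ∀ y ∈ A, m ≤ M y := by
    rcases A.eq_empty_or_nonempty with he | hne
    · exact ⟨1, one_pos, fun y hy => by rw [he] at hy; exact absurd hy (notMem_empty y)⟩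
    · obtain ⟨y, hy, hmin⟩ := hA.exists_isMinOn hne hMc.continuousOn
      exact ⟨M y, hMpos y hy, fun z hz => hmin hz⟩
  have hc : (0 : ℝ) < m / (Fintype.card ι + 1) := by positivity
  filter_upwards [Ioo_mem_nhdsGT hε, Ioo_mem_nhdsGT hc] with δ h1 h2 y hy hgap hsg
  exfalso
  have hδ : 0 < δ := h1.1
  have hyA : y ∈ A := by
    refine ⟨hy, fun a => ⟨fun ha => ?_, fun ha => ?_⟩⟩
    · have h3 : sg δ (f a y) = 1 := by rw [← ha, ← hsg]
      obtain ⟨h4, h5⟩ := winB_sg_one h3
      rcases hgap a with h6 | h6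
      · exact absurd h6 h4
      · rwa [abs_of_pos h5] at h6
    · have h3 : sg δ (f a y) = -1 := by rw [← ha, ← hsg]
      obtain ⟨h4, h5⟩ := winB_sg_neg h3
      rcases hgap a with h6 | h6
      · exact absurd h6 h4
      · rw [abs_of_neg h5] at h6
        linarith
  have hle : M y ≤ Fintype.card ι * δ := by
    calc M y ≤ ∑ a ∈ Finset.univ.filter (fun a => τ a = 0), δ := by
          refine Finset.sum_le_sum fun a ha => ?_
          have ha' : τ a = 0 := (Finset.mem_filter.1 ha).2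
          exact winB_sg_zero hδ (by rw [← ha', ← hsg])
      _ = (Finset.univ.filter (fun a => τ a = 0)).card * δ := by
          rw [Finset.sum_const, nsmul_eq_mul]
      _ ≤ Fintype.card ι * δ := by
          refine mul_le_mul_of_nonneg_right ?_ hδ.le
          exact_mod_cast Finset.card_le_univ _
  have h7 := h2.2
  rw [lt_div_iff₀ (by positivity)] at h7
  have h8 := hmA y hyA
  nlinarith

/-- **Windows lemma.** Proof: there are finitely many sign vectors `τ : ι → SignType` with `¬ Φ τ`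
(`Filter.eventually_all` for finite types); fix one. Let
`A = {y ∈ K | ∀ a, (τ a = 1 → ε ≤ f a y) ∧ (τ a = -1 → f a y ≤ -ε)}`, compact. Let
`M y = ∑ a with τ a = 0, |f a y|`, continuous. If `M y = 0` for some `y ∈ A`, then `sign (f a y) = τ a`
for all `a`, so `Φ τ` because `y ∈ K ⊆ semi f Φ`: contradiction. So `M ≥ m > 0` on `A`. For
`0 < δ` with `card ι * δ < m` and `δ < ε` no `y ∈ K` with the gap property has
`(fun a => sg δ (f a y)) = τ`. -/
theorem windows [TopologicalSpace E] [Finite ι] (hf : ∀ a, Continuous (f a)) {K : Set E}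
    (hK : IsCompact K) (hKS : K ⊆ semi f Φ) {ε : ℝ} (hε : 0 < ε) :
    ∀ᶠ δ in 𝓝[>] (0 : ℝ), ∀ y ∈ K, (∀ a, |f a y| ≤ δ ∨ ε ≤ |f a y|) →
      Φ fun a => sg δ (f a y) := by
  classical
  cases nonempty_fintype ι
  have h : ∀ᶠ δ in 𝓝[>] (0 : ℝ), ∀ τ : ι → SignType, ∀ y ∈ K,
      (∀ a, |f a y| ≤ δ ∨ ε ≤ |f a y|) → (fun a => sg δ (f a y)) = τ → Φ τ :=
    Filter.eventually_all.2 fun τ => winB_one hf hK hKS hε τ
  filter_upwards [h] with δ hδ y hy hg
  exact hδ _ y hy hg rfl

/-- a compact subset of the complement does not meet the windows (apply `windows` to `nt Φ`) -/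
theorem windows' [TopologicalSpace E] [Finite ι] (hf : ∀ a, Continuous (f a)) {K : Set E}
    (hK : IsCompact K) (hKS : ∀ x ∈ K, x ∉ semi f Φ) {ε : ℝ} (hε : 0 < ε) :
    ∀ᶠ δ in 𝓝[>] (0 : ℝ), ∀ y ∈ K, y ∉ Win f Φ ε δ := by
  have h : ∀ᶠ δ in 𝓝[>] (0 : ℝ), ∀ y ∈ K, (∀ a, |f a y| ≤ δ ∨ ε ≤ |f a y|) →
      nt Φ fun a => sg δ (f a y) :=
    windows (Φ := nt Φ) hf hK (fun x hx => hKS x hx) hε
  filter_upwards [h] with δ hδ y hy hW
  exact hδ y hy hW.1 hW.2

end

end Pool.Agent.LibStar4
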