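import Pool.Agent.LibStar4.Win

open Filter Topology Set

namespace Pool.Agent.LibStar4

noncomputable section

variable {ι : Type} {E : Type*} {f : ι → E → ℝ} {Φ : (ι → SignType) → Prop}

/-- one of the windows contains no value: otherwise choose for every `j < card ι + 1` an index
`a j` with `s (2 j + 2) < |y (a j)| < s (2 j + 1)`; `a` is injective because `s` is decreasing
(up to the index `2 * card ι + 2`), contradiction with the cardinality -/
theorem pigeon [Fintype ι] (y : ι → ℝ) (s : ℕ → ℝ)
    (hs : ∀ i < 2 * Fintype.card ι + 2, s (i + 1) < s i) :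
    ∃ j < Fintype.card ι + 1, ∀ a, |y a| ≤ s (2 * j + 2) ∨ s (2 * j + 1) ≤ |y a| := by
  by_contra hcon
  have h1 : ∀ j : Fin (Fintype.card ι + 1), ∃ a, s (2 * (j : ℕ) + 2) < |y a| ∧
      |y a| < s (2 * (j : ℕ) + 1) := by
    intro j
    by_contra hj
    refine hcon ⟨j, j.isLt, fun a => ?_⟩
    by_contra ha
    rw [not_or, not_le, not_le] at ha
    exact hj ⟨a, ha.1, ha.2⟩
  choose a ha using h1
  have hmono : ∀ k i : ℕ, i + k ≤ 2 * Fintype.card ι + 2 → s (i + k) ≤ s i := by
    intro k
    induction k with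
    | zero => intro i _; exact le_rfl
    | succ k ih =>
      intro i hi
      have h2 := hs (i + k) (by omega)
      have h3 := ih i (by omega)
      rw [← Nat.add_assoc]
      linarith
  have key : ∀ j j' : Fin (Fintype.card ι + 1), j < j' → a j ≠ a j' := by
    intro j j' hjj heq
    have h2 : (j : ℕ) < j' := hjj
    have h3 := j'.isLt
    have h4 := hmono (2 * (j' : ℕ) + 1 - (2 * (j : ℕ) + 2)) (2 * (j : ℕ) + 2) (by omega)
    have h5 : 2 * (j : ℕ) + 2 + (2 * (j' : ℕ) + 1 - (2 * (j : ℕ) + 2)) = 2 * (j' : ℕ) + 1 := by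
      omega
    rw [h5] at h4
    have h6 := (ha j).1
    have h7 := (ha j').2
    rw [heq] at h6
    linarith
  obtain ⟨j, j', hne, heq⟩ := Fintype.exists_ne_map_eq_of_card_lt a (by simp)
  rcases lt_or_gt_of_ne hne with h | h
  · exact key j j' h heq
  · exact key j' j h heq.symm

end

end Pool.Agent.LibStar4
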