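import Pool.Agent.LibStar4.Psi
import Pool.Agent.LibStar4.WinB
import Pool.Agent.LibStar4.WinC
import Pool.Agent.LibStar4.ScaleB

open Metric Set Filter Topology

namespace Pool.Agent.LibStar4

set_option linter.unusedSectionVars false

variable {E : Type*} [NormedAddCommGroup E] [InnerProductSpace ℝ E] {ι : Type}
  {f : ι → E → ℝ} {Φ : (ι → SignType) → Prop}

/-- A property that holds for every pair of consecutive scales: if for every `ε > 0` the property
`P ε δ` holds for all small `δ > 0`, then eventually `P (l_{2j}) (l_{2j+1})` for all `j < m`.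
Induction on `m`: `2 (m + 1) = 2 m + 2`, `ev_scales_add`, `ev_scales_succ`, `scales_length`,
`scales_pos`. -/
theorem pairs_eventually (P : ℝ → ℝ → Prop)
    (hP : ∀ ε : ℝ, 0 < ε → ∀ᶠ δ in 𝓝[>] (0 : ℝ), P ε δ) (m : ℕ) :
    ∀ᶠ l in scales (2 * m), ∀ j < m, P (l.getD (2 * j) 0) (l.getD (2 * j + 1) 0) := by
  induction m with
  | zero => exact Eventually.of_forall fun l j hj => absurd hj (Nat.not_lt_zero j)
  | succ m ih =>
    have h0 : 2 * (m + 1) = 2 * m + 2 := by ring
    rw [h0, ev_scales_add]
    filter_upwards [ih, scales_length (2 * m)] with u hu hlen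
    have h1 : ∀ᶠ v in scales (1 + 1), ∀ j < m + 1,
        P ((u ++ v).getD (2 * j) 0) ((u ++ v).getD (2 * j + 1) 0) := by
      rw [ev_scales_succ]
      filter_upwards [self_mem_nhdsWithin] with ε hε
      have h2 : ∀ᶠ v in scales (0 + 1), ∀ j < m + 1,
          P ((u ++ ε :: v).getD (2 * j) 0) ((u ++ ε :: v).getD (2 * j + 1) 0) := by
        rw [ev_scales_succ]
        filter_upwards [hP ε hε] with δ hδ
        rw [ev_scales_zero]
        intro j hj
        rcases Nat.lt_succ_iff_lt_or_eq.1 hj with h | h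
        · rw [List.getD_append _ _ _ _ (by omega), List.getD_append _ _ _ _ (by omega)]
          exact hu j h
        · subst h
          rw [List.getD_append_right _ _ _ _ (by omega),
            List.getD_append_right _ _ _ _ (by omega), hlen]
          have h3 : 2 * j - 2 * j = 0 := by omega
          have h4 : 2 * j + 1 - 2 * j = 1 := by omega
          rw [h3, h4]
          exact hδ
      exact h2
    exact h1

/-- A compact subset of the set is eventually (in one block) covered by the windows. Proof: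
`pairs_eventually` for `P ε δ = ∀ y ∈ K, (∀ a, |f a y| ≤ δ ∨ ε ≤ |f a y|) → Φ fun a => sg δ (f a y)`
(`windows`), the scales decrease (`scales_decr`, and the first one is `< s₀`), `pigeon`.
(`(s₀ :: l).getD (i + 1) 0 = l.getD i 0`.) -/
theorem wins_cover [Fintype ι] (hf : ∀ a, Continuous (f a)) {w : ℕ} (hw : Fintype.card ι = w)
    {s₀ : ℝ} (hs₀ : 0 < s₀) {K : Set E} (hK : IsCompact K) (hKS : K ⊆ semi f Φ) :
    ∀ᶠ l in scales (2 * w + 2), K ⊆ Wins f Φ w (fun i => (s₀ :: l).getD i 0) := by
  have h1 := pairs_eventually (fun ε δ => ∀ y ∈ K, (∀ a, |f a y| ≤ δ ∨ ε ≤ |f a y|) →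
    Φ fun a => sg δ (f a y)) (fun ε hε => windows hf hK hKS hε) (w + 1)
  have h0 : 2 * (w + 1) = 2 * w + 2 := by ring
  rw [h0] at h1
  have h2 : ∀ᶠ l in scales (2 * w + 1 + 1), l.getD 0 0 < s₀ := by
    rw [ev_scales_succ]
    filter_upwards [Ioo_mem_nhdsGT hs₀] with s hs
    exact Eventually.of_forall fun l => hs.2
  filter_upwards [h1, h2, scales_decr (2 * w + 2)] with l h3 h4 h5
  intro x hx
  obtain ⟨j, hj, hgap⟩ := pigeon (fun a => f a x) (fun i => (s₀ :: l).getD i 0) (by
    intro i hi
    rw [hw] at hi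
    rcases i with _ | i
    · exact h4
    · exact h5 i (by omega))
  rw [hw] at hj
  exact ⟨j, hj, hgap, h3 j hj x hx hgap⟩

/-- A compact subset of the complement eventually does not meet the windows (`pairs_eventually`
with `windows'`). -/
theorem wins_avoid [Finite ι] (hf : ∀ a, Continuous (f a)) {w : ℕ}
    (s₀ : ℝ) {K : Set E} (hK : IsCompact K) (hKS : ∀ x ∈ K, x ∉ semi f Φ) :
    ∀ᶠ l in scales (2 * w + 2), ∀ x ∈ K, x ∉ Wins f Φ w (fun i => (s₀ :: l).getD i 0) := by
  have h1 := pairs_eventually (fun ε δ => ∀ y ∈ K, y ∉ Win f Φ ε δ)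
    (fun ε hε => windows' hf hK hKS hε) (w + 1)
  have h0 : 2 * (w + 1) = 2 * w + 2 := by ring
  rw [h0] at h1
  filter_upwards [h1] with l h3
  rintro x hx ⟨j, hj, hwin⟩
  exact h3 j hj x hx hwin

end Pool.Agent.LibStar4
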