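import Pool.Agent.LibStar4.PsiA
import Pool.Agent.LibStar4.PsiB

/-!
Soundness.
-/

open Metric Set Filter Topology

namespace Pool.Agent.LibStar4

set_option linter.unusedSectionVars false

variable {E : Type*} [NormedAddCommGroup E] [InnerProductSpace ℝ E] {ι : Type}
  {f : ι → E → ℝ} {Φ : (ι → SignType) → Prop}

/-- the segments between `p` and the points of the set -/
theorem PsiC_seg {S : Set E} {p z : E} {t : ℝ} (hstar : StarAt S p) (hz : z ∈ S) (h0 : 0 ≤ t)
    (h1 : t ≤ 1) : z + t • (p - z) ∈ S := by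
  have h := hstar z hz (1 - t) (by linarith) (by linarith)
  have h2 : p + (1 - t) • (z - p) = z + t • (p - z) := by module
  rwa [h2] at h

/-- the points behind a point of the complement are not in the set -/
theorem PsiC_ray {S : Set E} {p z : E} {t : ℝ} (hstar : StarAt S p) (hz : z ∉ S) (h0 : t < 0) :
    z + t • (p - z) ∉ S := by
  intro hx
  apply hz
  have h1 : (0 : ℝ) < 1 - t := by linarith
  have h := hstar _ hx (1 / (1 - t)) (by positivity) (by
    rw [div_le_one h1]
    linarith)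
  have h2 : p + (1 / (1 - t)) • (z + t • (p - z) - p) = z := by
    have h3 : z + t • (p - z) - p = (1 - t) • (z - p) := by module
    rw [h3, smul_smul, one_div, inv_mul_cancel₀ h1.ne', one_smul]
    abel
  rwa [h2] at h

/-- The points of the kernel are not excluded by a block. Proof: `ev_scales_succ`; let the first
scale `s` be so small that `p ∈ Base f Φ s` (`base_eventually`). The images
`K₁ = {z + t (p - z) | z ∈ Base f Φ s, s ≤ t ≤ 1}` and
`K₂ = {z + t (p - z) | z ∈ Base f (nt Φ) s, s ≤ -t, -t * s ≤ 1}` are compact (`isCompact_base`),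
`K₁ ⊆ semi f Φ` (`hstar`), and `K₂ ⊆ semi f (nt Φ)`: if `x = z + t (p - z) ∈ S` with `t < 0`, then
`z = p + (1 / (1 - t)) (x - p)` is in `S`. Apply `wins_cover` to both. -/
theorem sound_block [FiniteDimensional ℝ E] [Fintype ι] (hf : ∀ a, Continuous (f a)) {w : ℕ}
    (hw : Fintype.card ι = w) {p : E} (hp : p ∈ semi f Φ) (hstar : StarAt (semi f Φ) p) (N : ℕ) :
    ∀ᶠ l in scales (2 * w + 3), ∀ (z : ℕ → E) (t : ℕ → ℝ),
      ¬ Excl f Φ w N (fun i => l.getD i 0) z t p := by
  have hB : 2 * w + 3 = (2 * w + 2) + 1 := rfl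
  rw [hB, ev_scales_succ]
  have hpos : ∀ᶠ s in 𝓝[>] (0 : ℝ), 0 < s := self_mem_nhdsWithin
  filter_upwards [hpos, base_eventually hp] with s hs hps
  have hφ : Continuous fun q : E × ℝ => q.1 + q.2 • (p - q.1) := by fun_prop
  have hK₁ : IsCompact ((fun q : E × ℝ => q.1 + q.2 • (p - q.1)) '' (Base f Φ s ×ˢ Icc s 1)) :=
    ((isCompact_base hf Φ hs).prod isCompact_Icc).image hφ
  have hK₂ : IsCompact ((fun q : E × ℝ => q.1 + q.2 • (p - q.1)) ''
      (Base f (nt Φ) s ×ˢ Icc (-(1 / s)) (-s))) :=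
    ((isCompact_base hf (nt Φ) hs).prod isCompact_Icc).image hφ
  have hS₁ : ((fun q : E × ℝ => q.1 + q.2 • (p - q.1)) '' (Base f Φ s ×ˢ Icc s 1)) ⊆
      semi f Φ := by
    rintro x ⟨⟨z, t⟩, ⟨hz, ht⟩, rfl⟩
    exact PsiC_seg hstar (base_sub f Φ s hz) (hs.le.trans ht.1) ht.2
  have hS₂ : ((fun q : E × ℝ => q.1 + q.2 • (p - q.1)) ''
      (Base f (nt Φ) s ×ˢ Icc (-(1 / s)) (-s))) ⊆ semi f (nt Φ) := by
    rintro x ⟨⟨z, t⟩, ⟨hz, ht⟩, rfl⟩
    have hz' : z ∉ semi f Φ := by
      have h := base_sub f (nt Φ) s hz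
      rw [semi_nt] at h
      exact h
    have ht' : t < 0 := lt_of_le_of_lt ht.2 (by linarith)
    rw [semi_nt]
    exact PsiC_ray hstar hz' ht'
  filter_upwards [wins_cover hf hw hs hK₁ hS₁, wins_cover hf hw hs hK₂ hS₂] with l h₁ h₂
  intro z t hE
  have h0 : (s :: l).getD 0 0 = s := rfl
  rcases hE with hE | ⟨c, _, hE | hE⟩
  · apply hE
    change p ∈ Base f Φ ((s :: l).getD 0 0)
    rw [h0]
    exact hps
  · obtain ⟨hz, ht0, ht1, hn⟩ := hE
    change z c ∈ Base f Φ ((s :: l).getD 0 0) at hz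
    change (s :: l).getD 0 0 ≤ t c at ht0
    rw [h0] at hz ht0
    exact hn (h₁ ⟨(z c, t c), ⟨hz, ht0, ht1⟩, rfl⟩)
  · obtain ⟨hz, ht0, ht1, hn⟩ := hE
    change z c ∈ Base f (nt Φ) ((s :: l).getD 0 0) at hz
    change (s :: l).getD 0 0 ≤ -t c at ht0
    change -t c * (s :: l).getD 0 0 ≤ 1 at ht1
    rw [h0] at hz ht0 ht1
    refine hn (h₂ ⟨(z c, t c), ⟨hz, ?_, ?_⟩, rfl⟩)
    · have h3 : -t c ≤ 1 / s := by
        rw [le_div_iff₀ hs]
        exact ht1
      change -(1 / s) ≤ t c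
      linarith
    · change t c ≤ -s
      linarith

/-- the first `K` blocks -/
theorem PsiC_blocks [FiniteDimensional ℝ E] [Fintype ι] (hf : ∀ a, Continuous (f a)) {w : ℕ}
    (hw : Fintype.card ι = w) {p : E} (hp : p ∈ semi f Φ) (hstar : StarAt (semi f Φ) p)
    (N K : ℕ) : ∀ᶠ v in scales (K * (2 * w + 3)), ∀ k < K, ∀ (z : ℕ → E) (t : ℕ → ℝ),
      ¬ Excl f Φ w N (fun i => v.getD (k * (2 * w + 3) + i) 0) z t p := by
  induction K with
  | zero => exact Filter.Eventually.of_forall fun v k hk => absurd hk (Nat.not_lt_zero k)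
  | succ K ih =>
    have hB : (K + 1) * (2 * w + 3) = K * (2 * w + 3) + (2 * w + 3) := by ring
    rw [hB, ev_scales_add]
    filter_upwards [ih, scales_length (K * (2 * w + 3))] with u hu hlen
    filter_upwards [sound_block hf hw hp hstar N] with v hv
    intro k hk z t hE
    rcases Nat.lt_succ_iff_lt_or_eq.mp hk with hk' | hk'
    · refine hu k hk' z t ((excl_congr (fun i hi => ?_) z t p).mp hE)
      have h1 : k * (2 * w + 3) + i < u.length := by
        rw [hlen]
        have h2 : (k + 1) * (2 * w + 3) ≤ K * (2 * w + 3) := Nat.mul_le_mul_right _ hk'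
        have h3 : (k + 1) * (2 * w + 3) = k * (2 * w + 3) + (2 * w + 3) := by ring
        omega
      exact List.getD_append u v 0 _ h1
    · subst hk'
      refine hv z t ((excl_congr (fun i _ => ?_) z t p).mp hE)
      have h1 : u.length ≤ k * (2 * w + 3) + i := by
        rw [hlen]
        omega
      change (u ++ v).getD (k * (2 * w + 3) + i) 0 = v.getD i 0
      rw [List.getD_append_right u v 0 _ h1, hlen, Nat.add_sub_cancel_left]

/-- **Soundness.** Proof: eventually `‖p‖ * l.getD 0 0 ≤ 1`; and by induction on `K` (with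
`ev_scales_add`, `scales_length`, `excl_congr`, `sound_block`) eventually in `scales (K * (2w+3))`
`p` is not excluded by any of the `K` blocks. -/
theorem sound [FiniteDimensional ℝ E] [Fintype ι] (hf : ∀ a, Continuous (f a)) {w : ℕ}
    (hw : Fintype.card ι = w) {p : E} (hp : p ∈ semi f Φ) (hstar : StarAt (semi f Φ) p)
    (N K : ℕ) : ∀ᶠ l in scales (1 + K * (2 * w + 3)), ¬ Psi f Φ w N K l := by
  rw [Nat.add_comm 1, ev_scales_succ]
  have hsm : ∀ᶠ s in 𝓝[>] (0 : ℝ), ‖p‖ * s < 1 := by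
    have h1 : Tendsto (fun s : ℝ => ‖p‖ * s) (𝓝[>] (0 : ℝ)) (𝓝 (‖p‖ * 0)) :=
      ((continuous_const.mul continuous_id).tendsto 0).mono_left nhdsWithin_le_nhds
    rw [mul_zero] at h1
    exact h1.eventually_lt_const one_pos
  filter_upwards [hsm] with s hs
  filter_upwards [PsiC_blocks hf hw hp hstar N K] with v hv
  rintro ⟨z, t, h⟩
  obtain ⟨k, hk, hE⟩ := h p (by
    change ‖p‖ * s ≤ 1
    exact hs.le)
  refine hv k hk (z k) (t k) ((excl_congr (fun i _ => ?_) (z k) (t k) p).mp hE)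
  rw [Nat.add_comm 1]
  rfl

end Pool.Agent.LibStar4
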