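import Pool.Agent.LibStar4.PsiE

/-!
Completeness.
-/

open Metric Set Filter Topology

namespace Pool.Agent.LibStar4

/-- **Completeness.** Proof: `ev_scales_add` (or `1 + a = a + 1` and `ev_scales_succ`): given the
first scale `s > 0`, apply `cover_flat` with `r = 1 / s`, `L = ⊤`, `j = n + 1`. -/
theorem complete (n : ℕ) {ι : Type} [Finite ι] {f : ι → EuclideanSpace ℝ (Fin n) → ℝ}
    {Φ : (ι → SignType) → Prop} (hf : ∀ a, Continuous (f a)) (w : ℕ)
    (hk : ∀ p ∈ semi f Φ, ¬ StarAt (semi f Φ) p) :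
    ∀ᶠ l in scales (1 + (n + 1) * (2 * w + 3)), Psi f Φ w (2 * (n + 1)) (n + 1) l := by
  rw [Nat.add_comm 1, ev_scales_succ]
  filter_upwards [self_mem_nhdsWithin] with s hs
  have hs0 : 0 < s := hs
  have hdim : Module.finrank ℝ (⊤ : AffineSubspace ℝ (EuclideanSpace ℝ (Fin n))).direction < n + 1 := by
    rw [AffineSubspace.direction_top, finrank_top, finrank_euclideanSpace, Fintype.card_fin]
    exact Nat.lt_succ_self n
  filter_upwards [cover_flat n hf w (r := 1 / s) hk (n + 1) ⊤ (fun _ => hdim)] with l hl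
  obtain ⟨z, t, h⟩ := hl
  refine ⟨z, t, fun p hp => ?_⟩
  have hp1 : ‖p‖ * s ≤ 1 := hp
  obtain ⟨k, hk', hE⟩ := h p (AffineSubspace.mem_top ℝ _ p) (by
    rw [le_div_iff₀ hs0]
    exact hp1)
  refine ⟨k, hk', ?_⟩
  refine (excl_congr (fun i _ => ?_) _ _ _).1 hE
  unfold blkS
  have h1 : 1 + (k * (2 * w + 3) + i) = (k * (2 * w + 3) + i) + 1 := Nat.add_comm _ _
  rw [h1]
  rfl

end Pool.Agent.LibStar4
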