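import Pool.Agent.LibStar4.FiB
import Pool.Agent.LibStar4.FiC
import Pool.Agent.LibStar4.ChD
import Pool.Agent.LibStar4.AtA
import Pool.Agent.LibStar4.PsiC
import Pool.Agent.LibStar4.PsiF
import Pool.Agent.LibStar4.Arith

/-!
The reduction is correct.
-/

open Set Filter Topology

namespace Pool.Agent.LibStar4

noncomputable section

/-- **The reduction is correct.** -/
theorem star_iff (n : ℕ) (φ : Fml) : StarShaped (semiSet n φ) ↔
    ∀ U : Fin (iU n) → ℝ, ∃ Y : Fin (outY n φ) → ℝ, (outS n φ).holds (env₂ U Y) := by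
  set χ := chiF n φ.code.length φ with hχ
  set P := iP n φ.code.length χ.code with hP
  set m := iM n φ.code.length with hm
  have hcont : ∀ a, Continuous (fA n φ a) := continuous_fA n φ
  have hcard : Fintype.card (Fin φ.code.length) = φ.code.length := Fintype.card_fin _
  have e0 : semi (fA n φ) (PhiA φ) = setE (semiSet n φ) := semi_fA n φ
  have e1 := sentF_spec m (iU n) (iY n φ.code.length) P χ
  have key : ∀ᶠ l in scales m, l.length = m ∧ (∀ i < m, 0 < l.getD i 0) ∧
      (fun i : Fin m => l.getD i 0) ∈ Om m (2 ^ P) (2 ^ 2 ^ P) ∧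
      (StarShaped (semiSet n φ) ↔
        ¬ Psi (fA n φ) (PhiA φ) φ.code.length (iN n) (n + 1) l) := by
    have h4 : ∀ᶠ l in scales m, (StarShaped (semiSet n φ) ↔
        ¬ Psi (fA n φ) (PhiA φ) φ.code.length (iN n) (n + 1) l) := by
      by_cases hst : StarShaped (semiSet n φ)
      · obtain ⟨p, hp, hs⟩ := (starShaped_iff_E _).1 hst
        rw [← e0] at hp hs
        have := sound hcont hcard hp hs (iN n) (n + 1)
        filter_upwards [this] with l hl
        exact ⟨fun _ => hl, fun _ => hst⟩
      · have := complete n hcont φ.code.length (Φ := PhiA φ) (fun p hp hs => hst (by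
          rw [e0] at hp hs
          exact (starShaped_iff_E _).2 ⟨p, hp, hs⟩))
        filter_upwards [this] with l hl
        exact ⟨fun h => absurd h hst, fun h => absurd hl h⟩
    filter_upwards [scales_length m, scales_pos m, scales_om m (2 ^ P) (2 ^ 2 ^ P), h4]
      with l a b c d
    exact ⟨a, b, c, d⟩
  have := scales_neBot m
  obtain ⟨l, -, hpos, hom, hiff⟩ := key.exists
  have hN : χ.wt ≤ 2 * cwt χ.code + iU n + iY n φ.code.length := by
    have := wt_le_cwt χ
    omega
  have hN1 : iU n ≤ 2 * cwt χ.code + iU n + iY n φ.code.length := by omega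
  have hN2 : iY n φ.code.length + χ.na ≤ 2 * cwt χ.code + iU n + iY n φ.code.length := by
    have h1 := wt_le_cwt χ
    have h2 := χ.na_le_wt
    omega
  have e2 := threshold (m := m) χ hN hN1 hN2 hom (lamS_mem P m)
  have e3 := chiF_spec n φ l hpos
  rw [hiff, ← e3, e2, ← e1]
  rfl

end

end Pool.Agent.LibStar4
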