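import Pool.Agent.LibStar4.Valid

/-!
Equality of words.
-/

namespace Pool.Agent.LibStar4

open Pool.Agent.LibComplexity

variable {𝒜 : Set Orc} {α β : Type} [Enc α] [Enc β]

/-- Equality of words can be decided (it is equality of codes: `PTf.decide_eq`). -/
theorem ptf_eqW {v w : Orc → α → List Bool} (hv : PTf 𝒜 v) (hw : PTf 𝒜 w) :
    PTf 𝒜 (fun A x => decide (v A x = w A x)) :=
  PTf.decide_eq hv hw

end Pool.Agent.LibStar4
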