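import Pool.Agent.LibStar4.VaB
import Pool.Agent.LibStar4.VaC

/-!
Reductions to the true sentences.
-/

namespace Pool.Agent.LibStar4

open Pool.Agent.LibComplexity

/-! ### Reductions to the true sentences -/

/-- the words that are codes are mapped by `g`, the other words are mapped to `d` -/
noncomputable def VaD_f {β : Type} [Enc β] [Dec β] (g : β → List Bool) (ok : β → Bool)
    (d : List Bool) (w : List Bool) : List Bool :=
  if (decide (word (read β w) = w) && ok (read β w)) = true then g (read β w) else d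

theorem VaD_inFP {β : Type} [Enc β] [Dec β] {g : β → List Bool} {ok : β → Bool}
    (hg : PTf {(∅ : Orc)} (fun _ x => g x)) (hok : PTf {(∅ : Orc)} (fun _ x => ok x))
    (d : List Bool) : InFP ∅ (VaD_f g ok d) := by
  have h : PTf {(∅ : Orc)} (fun _ w => VaD_f g ok d w) := by
    unfold VaD_f
    have h1 : PTf {(∅ : Orc)} (fun _ (w : List Bool) => read β w) := PTf.read PTf.id
    have h2 : PTf {(∅ : Orc)} (fun _ (w : List Bool) => decide (word (read β w) = w)) :=
      ptf_eqW (PTf.word h1) PTf.id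
    have h3 : PTf {(∅ : Orc)} (fun _ (w : List Bool) => ok (read β w)) := hok.comp h1
    exact (h2.band h3).ite (hg.comp h1) (PTf.const d)
  exact inFP_of_PTf h

theorem VaD_read {β : Type} [Enc β] [Dec β] (x : β) : read β (word x) = x := by
  have := read_word x []
  rwa [List.append_nil] at this

theorem VaD_spec {β : Type} [Enc β] [Dec β] {g : β → List Bool} {ok : β → Bool} {d : List Bool}
    {L : Set (List Bool)} {R : β → Prop} {T : Set (List Bool)}
    (h : ∀ w, w ∈ L ↔ ∃ x, w = word x ∧ ok x = true ∧ R x)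
    (hR : ∀ x, ok x = true → (R x ↔ g x ∈ T)) (hd : d ∉ T) (w : List Bool) :
    w ∈ L ↔ VaD_f g ok d w ∈ T := by
  rw [h]
  unfold VaD_f
  by_cases hc : (decide (word (read β w) = w) && ok (read β w)) = true
  · rw [if_pos hc]
    rw [Bool.and_eq_true, decide_eq_true_eq] at hc
    constructor
    · rintro ⟨x, rfl, hx, hRx⟩
      rw [VaD_read]
      exact (hR x hx).1 hRx
    · intro hw
      exact ⟨read β w, hc.1.symm, hc.2, (hR _ hc.2).2 hw⟩
  · rw [if_neg hc]
    refine ⟨?_, fun h => absurd h hd⟩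
    rintro ⟨x, rfl, hx, hRx⟩
    refine absurd ?_ hc
    rw [VaD_read, hx]
    simp

/-- A language given by sentences: map `w` to `word (k x, m x, (ψ x).code)` with `x = read β w` if
`word x = w` (`ptf_eqW`) and `ok x`, otherwise to the code of a false sentence
(`word (0, 0, (Fml.gt tz).code)`); `mem_TrueAE`, `read_word`, `inFP_of_PTf`. -/
theorem red_of_sentences {β : Type} [Enc β] [Dec β] {L : Set (List Bool)} {k m : β → ℕ}
    {ψ : β → Fml} {ok : β → Bool}
    (hk : PTf {(∅ : Orc)} (fun _ x => k x)) (hm : PTf {(∅ : Orc)} (fun _ x => m x))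
    (hψ : PF {(∅ : Orc)} (fun _ x => ψ x)) (hok : PTf {(∅ : Orc)} (fun _ x => ok x))
    (h : ∀ w, w ∈ L ↔ ∃ x, w = word x ∧ ok x = true ∧
      ∀ U : Fin (k x) → ℝ, ∃ Y : Fin (m x) → ℝ, (ψ x).holds (env₂ U Y)) : InAE L := by
  have hψ' : PTf {(∅ : Orc)} (fun _ x => (ψ x).code) := hψ
  have hg : PTf {(∅ : Orc)} (fun _ x => word (k x, m x, (ψ x).code)) :=
    PTf.word (hk.pair (hm.pair hψ'))
  refine ⟨VaD_f (fun x => word (k x, m x, (ψ x).code)) ok (word (0, 0, (Fml.gt tz).code)),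
    VaD_inFP hg hok _, ?_⟩
  refine VaD_spec h (fun x _ => (mem_TrueAE (k x) (m x) (ψ x)).symm) ?_
  rw [mem_TrueAE]
  intro h1
  obtain ⟨y, hy⟩ := h1 (fun _ => 0)
  simp [Fml.holds] at hy

/-- `ptf_of_inFP`, `inFP_of_PTf`, composition -/
theorem redTrans {L L' L'' : Set (List Bool)} (h : PolyRed L L') (h' : PolyRed L' L'') :
    PolyRed L L'' := by
  obtain ⟨f, hf, h⟩ := h
  obtain ⟨g, hg, h'⟩ := h'
  refine ⟨fun w => g (f w), ?_, fun w => (h w).trans (h' (f w))⟩
  exact inFP_of_PTf (f := fun _ w => g (f w)) ((ptf_of_inFP hg).comp (ptf_of_inFP hf))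

theorem redCompl {L L' : Set (List Bool)} (h : PolyRed L L') : PolyRed Lᶜ L'ᶜ := by
  obtain ⟨f, hf, h⟩ := h
  exact ⟨f, hf, fun w => not_congr (h w)⟩

theorem VaD_mem_TrueEA (k m : ℕ) (φ : Fml) :
    word (k, m, φ.code) ∈ TrueEA ↔
      ∃ x : Fin k → ℝ, ∀ y : Fin m → ℝ, φ.holds (env₂ x y) := by
  constructor
  · rintro ⟨k', m', ψ, hw, h⟩
    have h1 := word_injective hw
    simp only [Prod.mk.injEq] at h1
    obtain ⟨rfl, rfl, h2⟩ := h1
    rw [code_injective h2]
    exact h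
  · intro h
    exact ⟨k, m, φ, rfl, h⟩

/-- the code of the negated formula -/
noncomputable def VaD_g (x : ℕ × ℕ × List Tok) : List Bool :=
  word (x.1, x.2.1, (Fml.neg (fmlOf x.2.2)).code)

theorem VaD_ptf_g : PTf {(∅ : Orc)} (fun _ x => VaD_g x) := by
  unfold VaD_g
  have h1 : PTf {(∅ : Orc)} (fun _ (x : ℕ × ℕ × List Tok) => x) := PTf.id
  exact PTf.word (h1.fst.pair (h1.snd.fst.pair (PF.neg (pf_fmlOf h1.snd.snd))))

theorem VaD_ptf_ok : PTf {(∅ : Orc)} (fun _ (x : ℕ × ℕ × List Tok) => okC x.2.2) := by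
  have h1 : PTf {(∅ : Orc)} (fun _ (x : ℕ × ℕ × List Tok) => x) := PTf.id
  exact ptf_okC h1.snd.snd

/-- a false and a true sentence -/
theorem VaD_false : word (0, 0, (Fml.gt tz).code) ∉ TrueAE ∧ word (0, 0, (Fml.gt tz).code) ∉ TrueEA ∧
    word (0, 0, (Fml.ge tz).code) ∈ TrueAE ∧ word (0, 0, (Fml.ge tz).code) ∈ TrueEA := by
  rw [mem_TrueAE, VaD_mem_TrueEA, mem_TrueAE, VaD_mem_TrueEA]
  refine ⟨fun h => ?_, fun h => ?_, fun x => ⟨fun _ => 0, ?_⟩, ⟨fun _ => 0, fun y => ?_⟩⟩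
  · obtain ⟨y, hy⟩ := h (fun _ => 0)
    simp [Fml.holds] at hy
  · obtain ⟨x, hx⟩ := h
    have := hx (fun _ => 0)
    simp [Fml.holds] at this
  · simp [Fml.holds]
  · simp [Fml.holds]

/-- the complement, in general form -/
theorem VaD_compl {T T' : Set (List Bool)}
    (hT : ∀ (w : List Bool), w ∈ T ↔ ∃ x : ℕ × ℕ × List Tok, w = word x ∧ okC x.2.2 = true ∧
      ¬ (VaD_g x ∈ T'))
    (hd : word (0, 0, (Fml.ge tz).code) ∈ T') : PolyRed Tᶜ T' := by
  refine ⟨VaD_f VaD_g (fun x => okC x.2.2) (word (0, 0, (Fml.ge tz).code)),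
    VaD_inFP VaD_ptf_g VaD_ptf_ok _, fun w => ?_⟩
  have h := VaD_spec (T := T'ᶜ) hT (fun x _ => Iff.rfl) (fun h => h hd) w
  have h2 := not_congr h
  simpa using h2

/-- Let `f` reduce `Lᶜ` to `TrueEA`. Map `w` to: `word (k, m, (Fml.neg (fmlOf l)).code)` if `f w` is the word
of `(k, m, l)` with `okC l`, otherwise to the code of a true sentence. (The same as
`red_of_sentences`, in two steps: `TrueEAᶜ` is in `InAE`, then `redTrans`. Note that the complement of
`TrueEA` also contains the words that are not codes.) -/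
theorem inAE_of_inEA_compl {L : Set (List Bool)} (h : InEA Lᶜ) : InAE L := by
  have h1 := redCompl h
  rw [compl_compl] at h1
  refine redTrans h1 (VaD_compl (fun w => ?_) VaD_false.2.2.1)
  constructor
  · rintro ⟨k, m, φ, rfl, x, hx⟩
    refine ⟨(k, m, φ.code), rfl, (okC_iff _).2 ⟨φ, rfl⟩, ?_⟩
    unfold VaD_g
    simp only
    rw [fmlOf_code, mem_TrueAE]
    intro h2
    obtain ⟨y, hy⟩ := h2 x
    exact hy (hx y)
  · rintro ⟨⟨k, m, l⟩, rfl, hok, hx⟩
    obtain ⟨φ, rfl⟩ := (okC_iff _).1 hok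
    unfold VaD_g at hx
    simp only at hx
    rw [fmlOf_code, mem_TrueAE] at hx
    simp only [Fml.holds, not_forall, not_exists, not_not] at hx
    exact (VaD_mem_TrueEA k m φ).2 hx

/-- in the same way -/
theorem inEA_of_inAE_compl {L : Set (List Bool)} (h : InAE Lᶜ) : InEA L := by
  have h1 := redCompl h
  rw [compl_compl] at h1
  refine redTrans h1 (VaD_compl (fun w => ?_) VaD_false.2.2.2)
  constructor
  · rintro ⟨k, m, φ, rfl, hx⟩
    refine ⟨(k, m, φ.code), rfl, (okC_iff _).2 ⟨φ, rfl⟩, ?_⟩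
    unfold VaD_g
    simp only
    rw [fmlOf_code, VaD_mem_TrueEA]
    rintro ⟨x, h2⟩
    obtain ⟨y, hy⟩ := hx x
    exact h2 y hy
  · rintro ⟨⟨k, m, l⟩, rfl, hok, hx⟩
    obtain ⟨φ, rfl⟩ := (okC_iff _).1 hok
    unfold VaD_g at hx
    simp only at hx
    rw [fmlOf_code, VaD_mem_TrueEA] at hx
    simp only [Fml.holds, not_forall, not_exists, not_not] at hx
    exact (mem_TrueAE k m φ).2 hx

end Pool.Agent.LibStar4
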