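import Pool.Agent.LibStar4.CoD
import Pool.Agent.LibStar4.VaD
import Pool.Agent.LibStar4.Fin

/-!
STAR is in the class `∀∃ℝ`.
-/

namespace Pool.Agent.LibStar4

open Pool.Agent.LibComplexity

/-- **STAR is in `∀∃ℝ`.** -/
theorem star_inAE : InAE STAR := by
  refine red_of_sentences (β := ℕ × List Tok) (k := fun x => iU x.1)
    (m := fun x => outY x.1 (fmlOf x.2)) (ψ := fun x => outS x.1 (fmlOf x.2))
    (ok := fun x => okC x.2) (ptf_iU PTf.id.fst) (ptf_outY PTf.id.fst (pf_fmlOf PTf.id.snd))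
    (pf_outS PTf.id.fst (pf_fmlOf PTf.id.snd)) (ptf_okC PTf.id.snd) ?_
  intro w
  constructor
  · rintro ⟨n, φ, rfl, hst⟩
    refine ⟨(n, φ.code), rfl, (okC_iff _).2 ⟨φ, rfl⟩, ?_⟩
    show ∀ U : Fin (iU n) → ℝ, ∃ Y : Fin (outY n (fmlOf φ.code)) → ℝ,
      (outS n (fmlOf φ.code)).holds (env₂ U Y)
    rw [fmlOf_code]
    exact (star_iff n φ).1 hst
  · rintro ⟨⟨n, l⟩, rfl, hok, h⟩
    obtain ⟨φ, rfl⟩ := (okC_iff _).1 hok
    have h' : ∀ U : Fin (iU n) → ℝ, ∃ Y : Fin (outY n (fmlOf φ.code)) → ℝ,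
      (outS n (fmlOf φ.code)).holds (env₂ U Y) := h
    rw [fmlOf_code] at h'
    exact ⟨n, φ, rfl, (star_iff n φ).2 h'⟩

/-- If STAR is hard for `∃∀ℝ`, then the two classes coincide. -/
theorem collapse (h : ∀ L, InEA L → PolyRed L STAR) (L : Set (List Bool)) : InEA L ↔ InAE L := by
  have h1 : ∀ L, InEA L → InAE L := fun L hL => redTrans (h L hL) star_inAE
  refine ⟨h1 L, fun hL => ?_⟩
  apply inEA_of_inAE_compl
  apply h1
  apply inEA_of_inAE_compl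
  rwa [compl_compl]

end Pool.Agent.LibStar4
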