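import Mathlib

open Metric Set

namespace Pool.Agent.LibStar4

/-- A convex subset of a flat has an inner point (in the flat) or lies in a hyperplane that does not
contain the flat. Proof. `K = ∅`: take `g = 0`, `b = 1`. Otherwise, let `A = affineSpan ℝ K ≤ L`. If
`A = L`: `Set.Nonempty.intrinsicInterior` gives a point `q` of the intrinsic interior of `K`, i.e.
with a neighbourhood in `A` contained in `K`. If `A ≠ L`: `A.direction < L.direction`
(`AffineSubspace.direction_lt_of_nonempty`), take `v ∈ L.direction` not in `A.direction` and a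
functional `g` that vanishes on `A.direction` with `g v ≠ 0`; `b = g a` for a point `a ∈ K`. -/
theorem dichotomy {E : Type*} [NormedAddCommGroup E] [InnerProductSpace ℝ E]
    [FiniteDimensional ℝ E] {K : Set E} (hK : Convex ℝ K) {L : AffineSubspace ℝ E}
    (hKL : K ⊆ L) (hL : (L : Set E).Nonempty) :
    (∃ q ∈ K, ∃ ρ > 0, ∀ p ∈ L, dist p q < ρ → p ∈ K) ∨
    ∃ (g : E →L[ℝ] ℝ) (b : ℝ), (∀ p ∈ K, g p = b) ∧ ∃ p ∈ L, g p ≠ b := by
  rcases K.eq_empty_or_nonempty with rfl | hne
  · right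
    obtain ⟨p, hp⟩ := hL
    exact ⟨0, 1, by simp, p, hp, by simp⟩
  have hAL : affineSpan ℝ K ≤ L := affineSpan_le.2 hKL
  obtain ⟨a, ha⟩ := hne
  have haA : a ∈ affineSpan ℝ K := subset_affineSpan ℝ K ha
  by_cases hEq : affineSpan ℝ K = L
  · left
    obtain ⟨q, hq⟩ := Set.Nonempty.intrinsicInterior hK ⟨a, ha⟩
    obtain ⟨y, hy, rfl⟩ := mem_intrinsicInterior.1 hq
    obtain ⟨ρ, hρ, hb⟩ := Metric.mem_nhds_iff.1 (mem_interior_iff_mem_nhds.1 hy)
    refine ⟨y, ?_, ρ, hρ, ?_⟩
    · have h1 : y ∈ ((↑) ⁻¹' K : Set (affineSpan ℝ K)) := interior_subset hy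
      exact h1
    · intro p hp hd
      have hpA : p ∈ affineSpan ℝ K := by rw [hEq]; exact hp
      have : (⟨p, hpA⟩ : affineSpan ℝ K) ∈ Metric.ball y ρ := by
        rw [Metric.mem_ball, Subtype.dist_eq]; exact hd
      exact hb this
  · right
    have hlt : affineSpan ℝ K < L := lt_of_le_of_ne hAL hEq
    have hdir : (affineSpan ℝ K).direction < L.direction :=
      AffineSubspace.direction_lt_of_nonempty hlt ⟨a, haA⟩
    obtain ⟨v, hvL, hvA⟩ := SetLike.exists_of_lt hdir
    obtain ⟨g, hg, hgv⟩ := Submodule.exists_le_ker_of_notMem hvA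
    refine ⟨LinearMap.toContinuousLinearMap g, g a, ?_, v +ᵥ a, ?_, ?_⟩
    · intro p hp
      have h1 : p -ᵥ a ∈ (affineSpan ℝ K).direction :=
        AffineSubspace.vsub_mem_direction (subset_affineSpan ℝ K hp) haA
      have h2 := hgv h1
      rw [LinearMap.mem_ker, vsub_eq_sub, map_sub, sub_eq_zero] at h2
      simpa using h2
    · exact AffineSubspace.vadd_mem_of_mem_direction hvL (hKL ha)
    · simpa using hg

end Pool.Agent.LibStar4
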