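import Pool.Agent.LibStar4.Geo

open Metric Set

namespace Pool.Agent.LibStar4

/-- Helly's theorem: finitely many of the half-spaces cover a compact convex set. Proof: apply
Helly's theorem to the family `F : Option κ → Set _`, `F none = C`, `F (some i) = C ∩ H i` (compact
and convex). If every `g : Fin (n + 1) → Option κ` had a common point, then all the sets would have
one (`inter_nonempty_of_tuples` of `Geo.lean` and `Convex.helly_theorem_compact'`, as in the proof
of `exists_starAt_iff_ball` there), contradicting `h`. So some `g` has no common point. -/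
theorem helly_cover (n : ℕ) {C : Set (EuclideanSpace ℝ (Fin n))} (hC : IsCompact C)
    (hCc : Convex ℝ C) {κ : Type} (H : κ → Set (EuclideanSpace ℝ (Fin n)))
    (hcl : ∀ i, IsClosed (H i)) (hcv : ∀ i, Convex ℝ (H i))
    (h : ∀ p ∈ C, ∃ i, p ∉ H i) :
    ∃ g : Fin (n + 1) → Option κ, ∀ p ∈ C, ∃ c i, g c = some i ∧ p ∉ H i := by
  by_contra hcon
  push Not at hcon
  let F : Option κ → Set (EuclideanSpace ℝ (Fin n)) := fun o =>
    match o with
    | none => C
    | some i => C ∩ H i
  have hFc : ∀ o, Convex ℝ (F o) := by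
    intro o
    cases o with
    | none => exact hCc
    | some i => exact hCc.inter (hcv i)
  have hFk : ∀ o, IsCompact (F o) := by
    intro o
    cases o with
    | none => exact hC
    | some i => exact hC.inter_right (hcl i)
  have h0 : ∀ g : Fin (n + 1) → Option κ, ∃ p, ∀ k, p ∈ F (g k) := by
    intro g
    obtain ⟨p, hpC, hp⟩ := hcon g
    refine ⟨p, fun k => ?_⟩
    rcases hk : g k with _ | i
    · exact hpC
    · exact ⟨hpC, hp k i hk⟩
  have h1 : (⋂ o, F o).Nonempty := by
    apply Convex.helly_theorem_compact' (𝕜 := ℝ) hFc hFk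
    intro I _
    exact inter_nonempty_of_tuples n F hFc h0 I
  obtain ⟨p, hp⟩ := h1
  rw [mem_iInter] at hp
  have hpC : p ∈ C := hp none
  obtain ⟨i, hi⟩ := h p hpC
  have hpi : p ∈ C ∩ H i := hp (some i)
  exact hi hpi.2

end Pool.Agent.LibStar4
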