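import Pool.Agent.LibStar4.Kern
import Pool.Agent.LibStar4.ConvA
import Pool.Agent.LibStar4.ConvB

/-!
Convexity: the candidates for the kernel in a flat lie in a hyperplane, and finitely many
certificates (their number is bounded) exclude the points away from the hyperplane.
-/

open Metric Set

namespace Pool.Agent.LibStar4

/-- the compact pieces of a flat -/
theorem Conv_compact {n : ℕ} (L : AffineSubspace ℝ (EuclideanSpace ℝ (Fin n))) (r : ℝ)
    {W : Set (EuclideanSpace ℝ (Fin n))} (hW : IsClosed W) :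
    IsCompact {p | p ∈ L ∧ ‖p‖ ≤ r ∧ p ∈ W} := by
  have h1 : {p | p ∈ L ∧ ‖p‖ ≤ r ∧ p ∈ W} =
      closedBall (0 : EuclideanSpace ℝ (Fin n)) r ∩
        ((L : Set (EuclideanSpace ℝ (Fin n))) ∩ W) := by
    ext p
    simp only [Set.mem_ofPred_eq, mem_inter_iff, mem_closedBall_zero_iff, SetLike.mem_coe]
    tauto
  rw [h1]
  exact (isCompact_closedBall _ _).inter_right (L.closed_of_finiteDimensional.inter hW)

theorem Conv_convex {n : ℕ} (L : AffineSubspace ℝ (EuclideanSpace ℝ (Fin n))) (r : ℝ)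
    {W : Set (EuclideanSpace ℝ (Fin n))} (hW : Convex ℝ W) :
    Convex ℝ {p | p ∈ L ∧ ‖p‖ ≤ r ∧ p ∈ W} := by
  have h1 : {p | p ∈ L ∧ ‖p‖ ≤ r ∧ p ∈ W} =
      closedBall (0 : EuclideanSpace ℝ (Fin n)) r ∩
        ((L : Set (EuclideanSpace ℝ (Fin n))) ∩ W) := by
    ext p
    simp only [Set.mem_ofPred_eq, mem_inter_iff, mem_closedBall_zero_iff, SetLike.mem_coe]
    tauto
  rw [h1]
  exact (convex_closedBall _ _).inter (L.convex.inter hW)

/-- two tuples together -/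
theorem Conv_join {n : ℕ} {κ : Type} (G₁ G₂ : Fin (n + 1) → Option κ) :
    ∃ G : Fin (2 * (n + 1)) → Option κ,
      (∀ c, ∃ d, G d = G₁ c) ∧ ∀ c, ∃ d, G d = G₂ c := by
  refine ⟨fun j => if h : (j : ℕ) < n + 1 then G₁ ⟨j, h⟩ else
    G₂ ⟨(j : ℕ) - (n + 1), by have := j.2; omega⟩, fun c => ?_, fun c => ?_⟩
  · refine ⟨⟨c, by have := c.2; omega⟩, ?_⟩
    simp only [c.2, dif_pos]
  · refine ⟨⟨(c : ℕ) + (n + 1), by have := c.2; omega⟩, ?_⟩
    have h : ¬ ((c : ℕ) + (n + 1) < n + 1) := by omega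
    simp only [h, dif_neg, not_false_eq_true]
    congr 1
    ext
    simp

/-- **Geometry.** Proof. Let
`K = {p ∈ L | ‖p‖ ≤ r ∧ ∀ z t ν β, Crt (semi f Φ) L r z t ν β → inner ℝ ν p ≤ β}`, convex. By
`dichotomy` either there is an inner point `q` - then `star_of_ball` contradicts `hk` - or there are
`g, b` with `g = b` on `K` and `∃ p ∈ L, g p ≠ b`. Given `U`, the compact set
`{p ∈ L | ‖p‖ ≤ r, p ∉ U}` does not meet `{g = b}`, so `θ ≤ |g p - b|` on it for some `θ > 0`. The two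
sets `C₊ = {p ∈ L | ‖p‖ ≤ r, b + θ ≤ g p}`, `C₋ = {p ∈ L | ‖p‖ ≤ r, g p ≤ b - θ}` are compact and
convex and do not meet `K`; apply `helly_cover` to both, with the family of the half-spaces
`{p | inner ℝ ν p ≤ β}` of all certificates, and put the two tuples together
(`Fin (2 * (n + 1))`; for `none` use arbitrary values). -/
theorem geom (n : ℕ) {ι : Type} [Finite ι] {f : ι → EuclideanSpace ℝ (Fin n) → ℝ}
    {Φ : (ι → SignType) → Prop} (hf : ∀ a, Continuous (f a))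
    {L : AffineSubspace ℝ (EuclideanSpace ℝ (Fin n))} {r : ℝ}
    {x₀ : EuclideanSpace ℝ (Fin n)} (hx₀ : x₀ ∈ semi f Φ) (hx₀L : x₀ ∈ L)
    (hk : ∀ p ∈ L, ‖p‖ ≤ r → ¬ StarAt (semi f Φ) p) :
    ∃ (g : EuclideanSpace ℝ (Fin n) →L[ℝ] ℝ) (b : ℝ), (∃ p ∈ L, g p ≠ b) ∧
      ∀ U : Set (EuclideanSpace ℝ (Fin n)), IsOpen U →
        (∀ p ∈ L, ‖p‖ ≤ r → g p = b → p ∈ U) →
        ∃ (z : Fin (2 * (n + 1)) → EuclideanSpace ℝ (Fin n)) (t : Fin (2 * (n + 1)) → ℝ)
          (ν : Fin (2 * (n + 1)) → EuclideanSpace ℝ (Fin n)) (β : Fin (2 * (n + 1)) → ℝ),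
          ∀ p ∈ L, ‖p‖ ≤ r → p ∉ U → ∃ c, Crt (semi f Φ) L r (z c) (t c) (ν c) (β c) ∧
            β c ≤ inner ℝ (ν c) p := by
  let κ : Type := {c : EuclideanSpace ℝ (Fin n) × ℝ × EuclideanSpace ℝ (Fin n) × ℝ //
    Crt (semi f Φ) L r c.1 c.2.1 c.2.2.1 c.2.2.2}
  let H : κ → Set (EuclideanSpace ℝ (Fin n)) := fun c => {p | inner ℝ c.1.2.2.1 p ≤ c.1.2.2.2}
  have hcl : ∀ i, IsClosed (H i) := by
    intro i
    apply isClosed_le _ continuous_const
    fun_prop
  have hcv : ∀ i, Convex ℝ (H i) := by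
    intro i
    exact convex_halfSpace_le (f := fun p => inner ℝ i.1.2.2.1 p)
      ⟨fun x y => inner_add_right _ _ _, fun c x => by simp [inner_smul_right]⟩ _
  let W : Set (EuclideanSpace ℝ (Fin n)) := ⋂ i, H i
  have hWcv : Convex ℝ W := convex_iInter hcv
  have hKc := Conv_convex L r hWcv
  rcases dichotomy hKc (L := L) (fun p hp => hp.1) ⟨x₀, hx₀L⟩ with
    ⟨q, hqK, ρ, hρ, hq⟩ | ⟨g, b, hg, hgL⟩
  · exfalso
    refine hk q hqK.1 hqK.2.1 (star_of_ball (r := r) hf hqK.1 hρ ?_ hx₀ hx₀L)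
    intro q' hq'L hq'd z t ν β hC
    have h1 := (hq q' hq'L hq'd).2.2
    have h2 := mem_iInter.1 h1 ⟨(z, t, ν, β), hC⟩
    exact h2
  · refine ⟨g, b, hgL, fun U hU hUg => ?_⟩
    -- the distance of the compact set from the hyperplane
    have hth : ∃ θ : ℝ, 0 < θ ∧ ∀ p ∈ L, ‖p‖ ≤ r → p ∉ U → θ ≤ |g p - b| := by
      have hD := Conv_compact L r (W := Uᶜ) hU.isClosed_compl
      rcases eq_empty_or_nonempty {p | p ∈ L ∧ ‖p‖ ≤ r ∧ p ∈ Uᶜ} with he | hne
      · refine ⟨1, one_pos, fun p hp hr hpU => ?_⟩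
        exfalso
        have : p ∈ {p | p ∈ L ∧ ‖p‖ ≤ r ∧ p ∈ Uᶜ} := ⟨hp, hr, hpU⟩
        rw [he] at this
        exact this
      · have hc : Continuous fun p : EuclideanSpace ℝ (Fin n) => |g p - b| :=
          (g.continuous.sub continuous_const).abs
        obtain ⟨p₀, hp₀, hmin⟩ := hD.exists_isMinOn hne hc.continuousOn
        refine ⟨|g p₀ - b|, ?_, fun p hp hr hpU => hmin ⟨hp, hr, hpU⟩⟩
        apply abs_pos.2
        intro h0
        exact hp₀.2.2 (hUg p₀ hp₀.1 hp₀.2.1 (by linarith))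
    obtain ⟨θ, hθ, hθU⟩ := hth
    -- every point off the hyperplane is excluded
    have hex : ∀ p ∈ L, ‖p‖ ≤ r → g p ≠ b → ∃ i, p ∉ H i := by
      intro p hp hr hne
      by_contra hcon
      push Not at hcon
      exact hne (hg p ⟨hp, hr, mem_iInter.2 hcon⟩)
    have hgl : IsLinearMap ℝ (fun p : EuclideanSpace ℝ (Fin n) => g p) :=
      ⟨fun x y => map_add g x y, fun c x => map_smul g c x⟩
    obtain ⟨G₁, hG₁⟩ := helly_cover n
      (Conv_compact L r (W := {p | b + θ ≤ g p}) (isClosed_le continuous_const g.continuous))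
      (Conv_convex L r (W := {p | b + θ ≤ g p}) (convex_halfSpace_ge hgl _)) H hcl hcv
      (fun p hp => hex p hp.1 hp.2.1 (by
        have h2 : b + θ ≤ g p := hp.2.2
        intro h3
        linarith))
    obtain ⟨G₂, hG₂⟩ := helly_cover n
      (Conv_compact L r (W := {p | g p ≤ b - θ}) (isClosed_le g.continuous continuous_const))
      (Conv_convex L r (W := {p | g p ≤ b - θ}) (convex_halfSpace_le hgl _)) H hcl hcv
      (fun p hp => hex p hp.1 hp.2.1 (by
        have h2 : g p ≤ b - θ := hp.2.2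
        intro h3
        linarith))
    obtain ⟨G, hGa, hGb⟩ := Conv_join G₁ G₂
    refine ⟨fun j => (G j).elim 0 (fun i => i.1.1), fun j => (G j).elim 0 (fun i => i.1.2.1),
      fun j => (G j).elim 0 (fun i => i.1.2.2.1), fun j => (G j).elim 0 (fun i => i.1.2.2.2),
      fun p hp hr hpU => ?_⟩
    have key : ∃ j i, G j = some i ∧ p ∉ H i := by
      have h1 := hθU p hp hr hpU
      rcases le_abs'.1 h1 with h2 | h2
      · obtain ⟨c, i, hc, hi⟩ := hG₂ p ⟨hp, hr, by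
          show g p ≤ b - θ
          linarith⟩
        obtain ⟨d, hd⟩ := hGb c
        exact ⟨d, i, hd.trans hc, hi⟩
      · obtain ⟨c, i, hc, hi⟩ := hG₁ p ⟨hp, hr, by
          show b + θ ≤ g p
          linarith⟩
        obtain ⟨d, hd⟩ := hGa c
        exact ⟨d, i, hd.trans hc, hi⟩
    obtain ⟨j, i, hj, hi⟩ := key
    refine ⟨j, ?_⟩
    simp only [hj, Option.elim_some]
    refine ⟨i.2, ?_⟩
    have h3 : ¬ (inner ℝ i.1.2.2.1 p ≤ i.1.2.2.2) := hi
    exact (not_le.1 h3).le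

end Pool.Agent.LibStar4
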