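import Pool.Agent.LibComplexity.Decode

/-!
Quantifier-free formulas over the ordered ring of real numbers, their codes, and the classes
defined by real sentences with two blocks of quantifiers.
-/

namespace Pool.Agent.LibStar4

open Pool.Agent.LibComplexity

/-- The integer written in binary, least significant digit first. -/
def bin : List Bool → ℤ
  | [] => 0
  | d :: l => (if d then 1 else 0) + 2 * bin l

/-- Polynomials with integer coefficients, written with `+` and `*` from variables and from
integer constants. A constant is given by a sign (`true` is minus) and its binary digits. -/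
inductive Tm
  | var (i : ℕ)
  | const (s : Bool) (b : List Bool)
  | add (a b : Tm)
  | mul (a b : Tm)

/-- The value of a polynomial. -/
def Tm.eval (v : ℕ → ℝ) : Tm → ℝ
  | .var i => v i
  | .const s b => (if s then -1 else 1) * (bin b : ℝ)
  | .add a b => a.eval v + b.eval v
  | .mul a b => a.eval v * b.eval v

/-- Quantifier-free formulas: Boolean combinations of the atoms `t = 0`, `t > 0`, `t ≥ 0`. -/
inductive Fml
  | eq (t : Tm)
  | gt (t : Tm)
  | ge (t : Tm)
  | neg (φ : Fml)
  | and (φ ψ : Fml)
  | or (φ ψ : Fml)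

/-- The truth of a formula. -/
def Fml.holds (v : ℕ → ℝ) : Fml → Prop
  | .eq t => t.eval v = 0
  | .gt t => 0 < t.eval v
  | .ge t => 0 ≤ t.eval v
  | .neg φ => ¬ φ.holds v
  | .and φ ψ => φ.holds v ∧ ψ.holds v
  | .or φ ψ => φ.holds v ∨ ψ.holds v

/-- The symbols of formulas in postfix notation. A symbol is a triple `(k, s, b)`; for `k = 0` it
is the constant with sign `s` and digits `b`, for `k = 1, ..., 8` one of `+`, `*`, `= 0`, `> 0`,
`≥ 0`, not, and, or, and for `k ≥ 9` the variable with index `k - 9`. -/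
abbrev Tok := ℕ × Bool × List Bool

/-- The symbol with number `k`. -/
def tok (k : ℕ) : Tok := (k, false, [])

/-- A polynomial in postfix notation. -/
def Tm.code : Tm → List Tok
  | .var i => [tok (i + 9)]
  | .const s b => [(0, s, b)]
  | .add a b => a.code ++ b.code ++ [tok 1]
  | .mul a b => a.code ++ b.code ++ [tok 2]

/-- A formula in postfix notation. -/
def Fml.code : Fml → List Tok
  | .eq t => t.code ++ [tok 3]
  | .gt t => t.code ++ [tok 4]
  | .ge t => t.code ++ [tok 5]
  | .neg φ => φ.code ++ [tok 6]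
  | .and φ ψ => φ.code ++ ψ.code ++ [tok 7]
  | .or φ ψ => φ.code ++ ψ.code ++ [tok 8]

/-- The assignment with the values `x`; the variables with larger index get the value `0`. -/
def env {n : ℕ} (x : Fin n → ℝ) (i : ℕ) : ℝ := if h : i < n then x ⟨i, h⟩ else 0

/-- The assignment with the values `x` followed by the values `y`. -/
def env₂ {k m : ℕ} (x : Fin k → ℝ) (y : Fin m → ℝ) (i : ℕ) : ℝ :=
  if h : i < k then x ⟨i, h⟩ else if h' : i - k < m then y ⟨i - k, h'⟩ else 0

/-- The semialgebraic set in `ℝⁿ` defined by a formula. -/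
def semiSet (n : ℕ) (φ : Fml) : Set (Fin n → ℝ) := {x | φ.holds (env x)}

/-- Star-shaped sets: there is a point `p` of `S` such that for every `x ∈ S` the closed segment
from `p` to `x` lies in `S`. -/
def StarShaped {n : ℕ} (S : Set (Fin n → ℝ)) : Prop :=
  ∃ p ∈ S, ∀ x ∈ S, ∀ t : ℝ, 0 ≤ t → t ≤ 1 → p + t • (x - p) ∈ S

/-- The decision problem STAR: the words that encode a dimension `n` (in unary) and a formula that
defines a star-shaped set in `ℝⁿ`. -/
def STAR : Set (List Bool) :=
  {w | ∃ (n : ℕ) (φ : Fml), w = word (n, φ.code) ∧ StarShaped (semiSet n φ)}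

/-- The true sentences `∃ x ∈ ℝᵏ, ∀ y ∈ ℝᵐ, φ(x, y)`. -/
def TrueEA : Set (List Bool) :=
  {w | ∃ (k m : ℕ) (φ : Fml), w = word (k, m, φ.code) ∧
    ∃ x : Fin k → ℝ, ∀ y : Fin m → ℝ, φ.holds (env₂ x y)}

/-- The true sentences `∀ x ∈ ℝᵏ, ∃ y ∈ ℝᵐ, φ(x, y)`. -/
def TrueAE : Set (List Bool) :=
  {w | ∃ (k m : ℕ) (φ : Fml), w = word (k, m, φ.code) ∧
    ∀ x : Fin k → ℝ, ∃ y : Fin m → ℝ, φ.holds (env₂ x y)}

/-- The class `∃∀ℝ`. -/
def InEA (L : Set (List Bool)) : Prop := PolyRed L TrueEA

/-- The class `∀∃ℝ`. -/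
def InAE (L : Set (List Bool)) : Prop := PolyRed L TrueAE

/-! ### Renaming -/

def Tm.rename (g : ℕ → ℕ) : Tm → Tm
  | .var i => .var (g i)
  | .const s b => .const s b
  | .add a b => .add (a.rename g) (b.rename g)
  | .mul a b => .mul (a.rename g) (b.rename g)

def Fml.rename (g : ℕ → ℕ) : Fml → Fml
  | .eq t => .eq (t.rename g)
  | .gt t => .gt (t.rename g)
  | .ge t => .ge (t.rename g)
  | .neg φ => .neg (φ.rename g)
  | .and φ ψ => .and (φ.rename g) (ψ.rename g)
  | .or φ ψ => .or (φ.rename g) (ψ.rename g)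

theorem Tm.eval_rename (g : ℕ → ℕ) (v : ℕ → ℝ) (t : Tm) :
    (t.rename g).eval v = t.eval (fun i => v (g i)) := by
  induction t with
  | var i => rfl
  | const s b => rfl
  | add a b iha ihb => simp only [Tm.rename, Tm.eval, iha, ihb]
  | mul a b iha ihb => simp only [Tm.rename, Tm.eval, iha, ihb]

theorem Fml.holds_rename (g : ℕ → ℕ) (v : ℕ → ℝ) (φ : Fml) :
    (φ.rename g).holds v ↔ φ.holds (fun i => v (g i)) := by
  induction φ with
  | eq t => simp only [Fml.rename, Fml.holds, Tm.eval_rename]
  | gt t => simp only [Fml.rename, Fml.holds, Tm.eval_rename]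
  | ge t => simp only [Fml.rename, Fml.holds, Tm.eval_rename]
  | neg φ ih => simp only [Fml.rename, Fml.holds, ih]
  | and φ ψ ih1 ih2 => simp only [Fml.rename, Fml.holds, ih1, ih2]
  | or φ ψ ih1 ih2 => simp only [Fml.rename, Fml.holds, ih1, ih2]

/-- the renaming on symbols -/
def renTok (g : ℕ → ℕ) (q : Tok) : Tok := if 9 ≤ q.1 then (g (q.1 - 9) + 9, q.2) else q

theorem renTok_tok (g : ℕ → ℕ) (k : ℕ) (hk : k < 9) : renTok g (tok k) = tok k :=
  if_neg (by show ¬ 9 ≤ k; omega)

theorem Tm.code_rename (g : ℕ → ℕ) (t : Tm) : (t.rename g).code = t.code.map (renTok g) := by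
  induction t with
  | var i => simp [Tm.rename, Tm.code, renTok, tok]
  | const s b => simp [Tm.rename, Tm.code, renTok]
  | add a b iha ihb =>
    simp only [Tm.rename, Tm.code, iha, ihb, List.map_append, List.map_cons, List.map_nil]
    rw [renTok_tok g 1 (by norm_num)]
  | mul a b iha ihb =>
    simp only [Tm.rename, Tm.code, iha, ihb, List.map_append, List.map_cons, List.map_nil]
    rw [renTok_tok g 2 (by norm_num)]

theorem Fml.code_rename (g : ℕ → ℕ) (φ : Fml) : (φ.rename g).code = φ.code.map (renTok g) := by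
  induction φ with
  | eq t =>
    simp only [Fml.rename, Fml.code, Tm.code_rename, List.map_append, List.map_cons, List.map_nil]
    rw [renTok_tok g 3 (by norm_num)]
  | gt t =>
    simp only [Fml.rename, Fml.code, Tm.code_rename, List.map_append, List.map_cons, List.map_nil]
    rw [renTok_tok g 4 (by norm_num)]
  | ge t =>
    simp only [Fml.rename, Fml.code, Tm.code_rename, List.map_append, List.map_cons, List.map_nil]
    rw [renTok_tok g 5 (by norm_num)]
  | neg φ ih =>
    simp only [Fml.rename, Fml.code, ih, List.map_append, List.map_cons, List.map_nil]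
    rw [renTok_tok g 6 (by norm_num)]
  | and φ ψ ih1 ih2 =>
    simp only [Fml.rename, Fml.code, ih1, ih2, List.map_append, List.map_cons, List.map_nil]
    rw [renTok_tok g 7 (by norm_num)]
  | or φ ψ ih1 ih2 =>
    simp only [Fml.rename, Fml.code, ih1, ih2, List.map_append, List.map_cons, List.map_nil]
    rw [renTok_tok g 8 (by norm_num)]

/-! ### Abbreviations -/

/-- the constant `0` -/
def tz : Tm := .const false []

/-- the constant `-1` -/
def tm1 : Tm := .const true [true]

def Tm.sub (a b : Tm) : Tm := .add a (.mul tm1 b)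

def Tm.sum : List Tm → Tm
  | [] => tz
  | t :: l => .add t (Tm.sum l)

def Fml.disj : List Fml → Fml
  | [] => .gt tz
  | φ :: l => .or φ (Fml.disj l)

def Fml.conj : List Fml → Fml
  | [] => .ge tz
  | φ :: l => .and φ (Fml.conj l)

@[simp] theorem eval_tz (v : ℕ → ℝ) : tz.eval v = 0 := by simp [tz, Tm.eval, bin]

@[simp] theorem eval_sub (v : ℕ → ℝ) (a b : Tm) : (a.sub b).eval v = a.eval v - b.eval v := by
  simp [Tm.sub, tm1, Tm.eval, bin]; ring

theorem eval_sum (v : ℕ → ℝ) (l : List Tm) : (Tm.sum l).eval v = (l.map (fun t => t.eval v)).sum := by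
  induction l with
  | nil => simp [Tm.sum]
  | cons t l ih => simp [Tm.sum, Tm.eval, ih]

theorem holds_disj (v : ℕ → ℝ) (l : List Fml) :
    (Fml.disj l).holds v ↔ ∃ φ ∈ l, φ.holds v := by
  induction l with
  | nil => simp [Fml.disj, Fml.holds]
  | cons t l ih => simp [Fml.disj, Fml.holds, ih]

theorem holds_conj (v : ℕ → ℝ) (l : List Fml) :
    (Fml.conj l).holds v ↔ ∀ φ ∈ l, φ.holds v := by
  induction l with
  | nil => simp [Fml.conj, Fml.holds]
  | cons t l ih => simp [Fml.conj, Fml.holds, ih]

theorem sum_map_range (n : ℕ) (f : ℕ → ℝ) :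
    ((List.range n).map f).sum = ∑ j : Fin n, f j := by
  rw [← Finset.sum_range]
  induction n with
  | zero => simp
  | succ n ih => rw [List.range_succ, List.map_append, List.sum_append, ih,
      Finset.sum_range_succ]; simp

end Pool.Agent.LibStar4
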