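import Pool.Agent.LibStar4.Geo
import Pool.Agent.LibStar4.Syntax

/-!
The Helly criterion in coordinates.
-/

open Metric Set

namespace Pool.Agent.LibStar4

variable {n : ℕ}

/-- coordinates -/
noncomputable abbrev toE (x : Fin n → ℝ) : EuclideanSpace ℝ (Fin n) := WithLp.toLp 2 x

/-- the set in the Euclidean space -/
def setE (S : Set (Fin n → ℝ)) : Set (EuclideanSpace ℝ (Fin n)) := {x | x.ofLp ∈ S}

theorem mem_setE {S : Set (Fin n → ℝ)} {x : Fin n → ℝ} : toE x ∈ setE S ↔ x ∈ S := Iff.rfl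

theorem isClosed_setE {S : Set (Fin n → ℝ)} (h : IsClosed S) : IsClosed (setE S) :=
  h.preimage (EuclideanSpace.equiv (Fin n) ℝ).continuous

theorem isCompact_setE {S : Set (Fin n → ℝ)} (h : IsCompact S) : IsCompact (setE S) := by
  have := (EuclideanSpace.equiv (Fin n) ℝ).toHomeomorph.isCompact_preimage.2 h
  exact this

theorem starShaped_iff_E (S : Set (Fin n → ℝ)) :
    StarShaped S ↔ ∃ p ∈ setE S, StarAt (setE S) p := by
  constructor
  · rintro ⟨p, hp, h⟩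
    refine ⟨toE p, hp, fun x hx t ht ht1 => ?_⟩
    exact h x.ofLp hx t ht ht1
  · rintro ⟨p, hp, h⟩
    refine ⟨p.ofLp, hp, fun x hx t ht ht1 => ?_⟩
    exact h (toE x) hx t ht ht1

theorem norm_sub_sq_E (x c : Fin n → ℝ) : ‖toE x - toE c‖ ^ 2 = ∑ j, (x j - c j) ^ 2 := by
  rw [EuclideanSpace.norm_sq_eq]
  simp

theorem inner_E (x y : Fin n → ℝ) : inner ℝ (toE x) (toE y) = ∑ j, x j * y j := by
  rw [PiLp.inner_apply]
  simp [mul_comm]

theorem cert_iff (S : Set (Fin n → ℝ)) (z c : Fin n → ℝ) :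
    Cert (setE S) (toE z) (toE c) ↔
      z ∈ S ∧ ∀ x ∈ S, ∑ j, (z j - c j) ^ 2 ≤ ∑ j, (x j - c j) ^ 2 := by
  constructor
  · rintro ⟨h1, h2⟩
    refine ⟨h1, fun x hx => ?_⟩
    have := h2 (toE x) hx
    rw [← norm_sub_sq_E, ← norm_sub_sq_E]
    exact pow_le_pow_left₀ (norm_nonneg _) this 2
  · rintro ⟨h1, h2⟩
    refine ⟨h1, fun x hx => ?_⟩
    have := h2 x.ofLp hx
    apply le_of_sq_le_sq _ (norm_nonneg _)
    rw [norm_sub_sq_E]
    have h3 : ‖x - toE c‖ ^ 2 = ∑ j, (x.ofLp j - c j) ^ 2 := norm_sub_sq_E x.ofLp c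
    rw [h3]
    exact this

theorem half_iff (p z c : Fin n → ℝ) :
    toE p ∈ Half (toE z) (toE c) ↔ 0 ≤ ∑ j, (p j - z j) * (z j - c j) := by
  have h := inner_E (fun j => p j - z j) (fun j => z j - c j)
  have h1 : toE (fun j => p j - z j) = toE p - toE z := rfl
  have h2 : toE (fun j => z j - c j) = toE z - toE c := rfl
  rw [h1, h2] at h
  simp only [Half, mem_setOf_eq]
  rw [h]

/-- the matrix of the formula -/
def Matr (S : Set (Fin n → ℝ)) (K : Set (Fin n → ℝ)) (z c : Fin (n + 1) → Fin n → ℝ)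
    (w x p : Fin n → ℝ) : Prop :=
  w ∈ S ∧ ((∃ i, z i ∉ S) ∨
    ((x ∈ S ∧ ∃ i, ∑ j, (x j - c i j) ^ 2 < ∑ j, (z i j - c i j) ^ 2) ∨
    (p ∈ K ∧ ∀ i, 0 ≤ ∑ j, (p j - z i j) * (z i j - c i j))))

theorem matr_of {S : Set (Fin n → ℝ)} {K : Set (Fin n → ℝ)} (hne : S.Nonempty)
    (h : ∀ z c : Fin (n + 1) → EuclideanSpace ℝ (Fin n), (∀ i, Cert (setE S) (z i) (c i)) →
        ∃ p ∈ setE K, ∀ i, p ∈ Half (z i) (c i)) (z c : Fin (n + 1) → Fin n → ℝ) :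
    ∃ w x p, Matr S K z c w x p := by
  obtain ⟨w, hw⟩ := hne
  by_cases h1 : ∃ i, z i ∉ S
  · exact ⟨w, w, w, hw, Or.inl h1⟩
  · push Not at h1
    by_cases h2 : ∃ x ∈ S, ∃ i, ∑ j, (x j - c i j) ^ 2 < ∑ j, (z i j - c i j) ^ 2
    · obtain ⟨x, hx, hi⟩ := h2
      exact ⟨w, x, w, hw, Or.inr (Or.inl ⟨hx, hi⟩)⟩
    · push Not at h2
      obtain ⟨p, hpK, hp⟩ := h (fun i => toE (z i)) (fun i => toE (c i))
        (fun i => (cert_iff S _ _).2 ⟨h1 i, fun x hx => h2 x hx i⟩)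
      refine ⟨w, w, p.ofLp, hw, Or.inr (Or.inr ⟨hpK, fun i => ?_⟩)⟩
      rw [← half_iff]
      exact hp i

theorem of_matr {S : Set (Fin n → ℝ)} {K : Set (Fin n → ℝ)}
    (h : ∀ z c : Fin (n + 1) → Fin n → ℝ, ∃ w x p, Matr S K z c w x p) :
    S.Nonempty ∧ ∀ z c : Fin (n + 1) → EuclideanSpace ℝ (Fin n),
      (∀ i, Cert (setE S) (z i) (c i)) → ∃ p ∈ setE K, ∀ i, p ∈ Half (z i) (c i) := by
  constructor
  · obtain ⟨w, _, _, hw, _⟩ := h 0 0
    exact ⟨w, hw⟩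
  · intro z c hc
    have hc' : ∀ i, Cert (setE S) (toE (z i).ofLp) (toE (c i).ofLp) := hc
    obtain ⟨w, x, p, _, h1⟩ := h (fun i => (z i).ofLp) (fun i => (c i).ofLp)
    rcases h1 with ⟨i, hi⟩ | ⟨hx, i, hi⟩ | ⟨hpK, hp⟩
    · exact absurd ((cert_iff S _ _).1 (hc' i)).1 hi
    · exact absurd (((cert_iff S _ _).1 (hc' i)).2 x hx) (not_le.2 hi)
    · refine ⟨toE p, hpK, fun i => ?_⟩
      exact (half_iff p (z i).ofLp (c i).ofLp).2 (hp i)

/-- **criterion for compact sets** -/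
theorem starShaped_iff_compact {S : Set (Fin n → ℝ)} (hS : IsCompact S) :
    StarShaped S ↔ ∀ z c : Fin (n + 1) → Fin n → ℝ, ∃ w x p, Matr S univ z c w x p := by
  rw [starShaped_iff_E]
  constructor
  · rintro ⟨p, hp, h⟩ z c
    have hne : (setE S).Nonempty := ⟨p, hp⟩
    have hne' : S.Nonempty := ⟨p.ofLp, hp⟩
    refine matr_of hne' (fun z c hc => ?_) z c
    obtain ⟨p, hp⟩ := (exists_starAt_iff_compact n (isCompact_setE hS) hne).1 ⟨p, h⟩ z c hc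
    exact ⟨p, trivial, hp⟩
  · intro h
    obtain ⟨⟨w, hw⟩, h2⟩ := of_matr h
    have hne : (setE S).Nonempty := ⟨toE w, hw⟩
    obtain ⟨p, hp⟩ := (exists_starAt_iff_compact n (isCompact_setE hS) hne).2 (fun z c hc => by
      obtain ⟨p, _, hp⟩ := h2 z c hc
      exact ⟨p, hp⟩)
    exact ⟨p, mem_of_starAt hne hp, hp⟩

/-- **criterion for closed sets, with the centre in a compact convex set** -/
theorem starShaped_iff_closed {S : Set (Fin n → ℝ)} (hS : IsClosed S) {K : Set (Fin n → ℝ)}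
    (hK : IsCompact K) (hKc : Convex ℝ K) :
    (∃ p ∈ S, p ∈ K ∧ ∀ x ∈ S, ∀ t : ℝ, 0 ≤ t → t ≤ 1 → p + t • (x - p) ∈ S) ↔
      ∀ z c : Fin (n + 1) → Fin n → ℝ, ∃ w x p, Matr S K z c w x p := by
  have hKc' : Convex ℝ (setE K) :=
    hKc.linear_preimage (EuclideanSpace.equiv (Fin n) ℝ).toLinearEquiv.toLinearMap
  constructor
  · rintro ⟨p, hp, hpK, h⟩ z c
    have hne : (setE S).Nonempty := ⟨toE p, hp⟩
    refine matr_of ⟨p, hp⟩ (fun z c hc => ?_) z c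
    exact (exists_starAt_iff_ball n (isClosed_setE hS) hne (isCompact_setE hK) hKc').1
      ⟨toE p, hpK, fun x hx t ht ht1 => h x.ofLp hx t ht ht1⟩ z c hc
  · intro h
    obtain ⟨⟨w, hw⟩, h2⟩ := of_matr h
    have hne : (setE S).Nonempty := ⟨toE w, hw⟩
    obtain ⟨p, hpK, hp⟩ := (exists_starAt_iff_ball n (isClosed_setE hS) hne (isCompact_setE hK)
      hKc').2 h2
    have hpS : p ∈ setE S := mem_of_starAt hne hp
    exact ⟨p.ofLp, hpS, hpK, fun x hx t ht ht1 => hp (toE x) hx t ht ht1⟩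

end Pool.Agent.LibStar4
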