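import Pool.Agent.LibStar4.Siz

/-!
Elimination: the values at the critical points of `F + t ∑ y_i^(2d+2)` are roots of a polynomial
whose size is under control.
-/

open Polynomial

namespace Pool.Agent.LibStar4

noncomputable section

variable {A : Type} [CommRing A] (s : Siz A) {k d h : ℕ}

/-- the index set of the reduced monomials -/
abbrev Lam (k d : ℕ) : Type := Fin k → Fin (2 * d + 1)

/-- evaluation of the coefficients -/
def evt (ev : A →+* ℝ) (t : ℝ) : A[X] →+* ℝ := Polynomial.eval₂RingHom ev t

@[simp] theorem evt_X (ev : A →+* ℝ) (t : ℝ) : evt ev t X = t := by simp [evt]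

@[simp] theorem evt_C (ev : A →+* ℝ) (t : ℝ) (a : A) : evt ev t (C a) = ev a := by simp [evt]

/-- `(2d+2) t` -/
def c0 (A : Type) [CommRing A] (d : ℕ) : A[X] := ((2 * d + 2 : ℕ) : A[X]) * X

theorem evt_c0 (ev : A →+* ℝ) (t : ℝ) : evt ev t (c0 A d) = (2 * d + 2) * t := by
  rw [c0, map_mul, map_natCast, evt_X]
  push_cast
  ring

theorem le_c0 : s.poly.Le (c0 A d) 1 (2 * d + 2) := by
  have := (Siz.Le.nat (s := s.poly) (2 * d + 2)).mul s.poly_X
  simpa [c0] using this

/-- the critical equations -/
def Crit (F : MvPolynomial (Fin k) A) (d : ℕ) (ev : A →+* ℝ) (t : ℝ) (y : Fin k → ℝ) : Prop :=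
  ∀ i, MvPolynomial.eval₂ ev y (MvPolynomial.pderiv i F) + (2 * d + 2) * t * y i ^ (2 * d + 1) = 0

/-- monomials -/
def mon (y : Fin k → ℝ) (β : Fin k →₀ ℕ) : ℝ := ∏ i, y i ^ β i

theorem mon_add (y : Fin k → ℝ) (β γ : Fin k →₀ ℕ) : mon y (β + γ) = mon y β * mon y γ := by
  simp [mon, pow_add, Finset.prod_mul_distrib]

theorem mon_single (y : Fin k → ℝ) (i : Fin k) (e : ℕ) : mon y (Finsupp.single i e) = y i ^ e := by
  classical
  unfold mon
  rw [Finset.prod_eq_single i]
  · simp
  · intro j _ hj
    rw [Finsupp.single_apply, if_neg (Ne.symm hj), pow_zero]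
  · intro hi; exact absurd (Finset.mem_univ i) hi

theorem eval_eq_mon (ev : A →+* ℝ) (y : Fin k → ℝ) (F : MvPolynomial (Fin k) A) :
    MvPolynomial.eval₂ ev y F = ∑ m ∈ F.support, ev (F.coeff m) * mon y m :=
  MvPolynomial.eval₂_eq' _ _ _

theorem le_pderiv {F : MvPolynomial (Fin k) A} (hF : s.mv.Le F d h) (i : Fin k) :
    s.mv.Le (MvPolynomial.pderiv i F) d (d * h) := by
  classical
  have h1 : MvPolynomial.pderiv i F = ∑ m ∈ F.support,
      MvPolynomial.monomial (m - Finsupp.single i 1) (F.coeff m * (m i : A)) := by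
    conv_lhs => rw [MvPolynomial.as_sum F, map_sum]
    exact Finset.sum_congr rfl fun m _ => by rw [MvPolynomial.pderiv_monomial]
  rw [h1]
  have h2 : ∀ m ∈ F.support, s.mv.Le (MvPolynomial.monomial (m - Finsupp.single i 1)
      (F.coeff m * (m i : A))) d (d * s.nrm (F.coeff m)) := by
    intro m hm
    have hm1 := (Siz.mvDeg_le s F d).1 hF.1 m (MvPolynomial.mem_support_iff.1 hm)
    have hmi : m i ≤ m.degree := Finsupp.le_degree i m
    constructor
    · refine (Siz.mvDeg_monomial s _ _).trans ?_
      have a1 := s.deg_mul (F.coeff m) (m i : A)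
      rw [s.deg_natCast] at a1
      have a2 : (m - Finsupp.single i 1).degree ≤ m.degree := Finsupp.degree_mono tsub_le_self
      omega
    · refine le_trans (le_of_eq (Siz.mvNrm_monomial s _ _)) ?_
      refine (s.nrm_mul _ _).trans ?_
      rw [mul_comm]
      exact Nat.mul_le_mul ((s.nrm_natCast _).trans (by omega)) le_rfl
  refine (Siz.Le.sum (s := s.mv) F.support _ d (fun m => d * s.nrm (F.coeff m)) h2).mono le_rfl ?_
  rw [← Finset.mul_sum]
  exact Nat.mul_le_mul_left _ hF.2

/-- **reduction of monomials** -/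
theorem red {F : MvPolynomial (Fin k) A} (hF : s.mv.Le F d h) {κ : ℕ} (hκ : 2 * d + 2 ≤ κ)
    (hκ' : d * h ≤ κ) (n : ℕ) :
    ∀ β : Fin k →₀ ℕ, β.degree = n → ∃ c : Lam k d → A[X],
      (∀ α, s.poly.deg (c α) ≤ n * (d + 1)) ∧ (∑ α, s.poly.nrm (c α) ≤ κ ^ n) ∧
      ∀ (ev : A →+* ℝ) (t : ℝ) (y : Fin k → ℝ), Crit F d ev t y →
        ((2 * d + 2) * t) ^ n * mon y β = ∑ α, evt ev t (c α) * ∏ i, y i ^ (α i : ℕ) := by
  classical
  induction n using Nat.strong_induction_on with
  | _ n ih =>
    intro β hβ
    by_cases hsmall : ∀ i, β i < 2 * d + 1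
    · let α₀ : Lam k d := fun i => ⟨β i, hsmall i⟩
      refine ⟨Pi.single α₀ (c0 A d ^ n), ?_, ?_, ?_⟩
      · intro α
        by_cases hα : α = α₀
        · subst hα
          rw [Pi.single_eq_same]
          refine ((le_c0 s (d := d)).pow n).1.trans ?_
          exact Nat.mul_le_mul_left _ (by omega)
        · rw [Pi.single_eq_of_ne hα, s.poly.deg_zero]
          exact Nat.zero_le _
      · rw [Finset.sum_eq_single α₀]
        · rw [Pi.single_eq_same]
          exact ((le_c0 s (d := d)).pow n).2.trans (Nat.pow_le_pow_left hκ _)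
        · intro α _ hα
          rw [Pi.single_eq_of_ne hα, s.poly.nrm_zero]
        · intro hα; exact absurd (Finset.mem_univ _) hα
      · intro ev t y _
        rw [Finset.sum_eq_single α₀]
        · rw [Pi.single_eq_same, map_pow, evt_c0]
          rfl
        · intro α _ hα
          rw [Pi.single_eq_of_ne hα, map_zero, zero_mul]
        · intro hα; exact absurd (Finset.mem_univ _) hα
    · push Not at hsmall
      obtain ⟨i, hi⟩ := hsmall
      set β' : Fin k →₀ ℕ := β - Finsupp.single i (2 * d + 1) with hβ'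
      have hle : Finsupp.single i (2 * d + 1) ≤ β := by
        rw [Finsupp.single_le_iff]; exact hi
      have hsum : β = β' + Finsupp.single i (2 * d + 1) := (tsub_add_cancel_of_le hle).symm
      have hdeg : β'.degree + (2 * d + 1) = n := by
        rw [← hβ]
        conv_rhs => rw [hsum]
        rw [map_add, Finsupp.degree_single]
      set G := MvPolynomial.pderiv i F with hG
      have hGle : s.mv.Le G d (d * h) := le_pderiv s hF i
      have hγ : ∀ γ ∈ G.support, (β' + γ).degree < n := by
        intro γ hγ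
        have := (Siz.mvDeg_le s G d).1 hGle.1 γ (MvPolynomial.mem_support_iff.1 hγ)
        rw [map_add]
        omega
      have hih : ∀ γ : Fin k →₀ ℕ, ∃ c : Lam k d → A[X], γ ∈ G.support →
          (∀ α, s.poly.deg (c α) ≤ (β' + γ).degree * (d + 1)) ∧
          (∑ α, s.poly.nrm (c α) ≤ κ ^ (β' + γ).degree) ∧
          ∀ (ev : A →+* ℝ) (t : ℝ) (y : Fin k → ℝ), Crit F d ev t y →
          ((2 * d + 2) * t) ^ (β' + γ).degree * mon y (β' + γ) =
            ∑ α, evt ev t (c α) * ∏ i, y i ^ (α i : ℕ) := by
        intro γ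
        by_cases hγ' : γ ∈ G.support
        · obtain ⟨c, hc⟩ := ih _ (hγ γ hγ') (β' + γ) rfl
          exact ⟨c, fun _ => hc⟩
        · exact ⟨0, fun h => absurd h hγ'⟩
      choose c hc using hih
      refine ⟨fun α => - ∑ γ ∈ G.support,
        C (G.coeff γ) * c0 A d ^ (n - 1 - (β' + γ).degree) * c γ α, ?_, ?_, ?_⟩
      · intro α
        rw [s.poly.deg_neg]
        apply s.poly.deg_sum
        intro γ hγ'
        have h1 := hγ γ hγ'
        have h2 := (hc γ hγ').1 α
        have h3 : s.poly.deg (C (G.coeff γ)) ≤ d :=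
          (s.poly_C (d := d) (h := d * h) (Siz.mv_coeff s hGle γ)).1
        have h4 := ((le_c0 s (d := d)).pow (n - 1 - (β' + γ).degree)).1
        refine (s.poly.deg_mul _ _).trans ?_
        have h5 := s.poly.deg_mul (C (G.coeff γ)) (c0 A d ^ (n - 1 - (β' + γ).degree))
        have h6 : n * (d + 1) = (n - 1 - (β' + γ).degree) * (d + 1) + (β' + γ).degree * (d + 1) +
            (d + 1) := by
          have : n = (n - 1 - (β' + γ).degree) + (β' + γ).degree + 1 := by omega
          conv_lhs => rw [this]
          ring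
        have h7 : (n - 1 - (β' + γ).degree) * 1 ≤ (n - 1 - (β' + γ).degree) * (d + 1) :=
          Nat.mul_le_mul_left _ (by omega)
        omega
      · have h1 : ∀ α, s.poly.nrm (- ∑ γ ∈ G.support,
            C (G.coeff γ) * c0 A d ^ (n - 1 - (β' + γ).degree) * c γ α) ≤
            ∑ γ ∈ G.support, s.nrm (G.coeff γ) * κ ^ (n - 1 - (β' + γ).degree) *
              s.poly.nrm (c γ α) := by
          intro α
          rw [s.poly.nrm_neg]
          refine (s.poly.nrm_sum _ _).trans (Finset.sum_le_sum fun γ _ => ?_)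
          refine (s.poly.nrm_mul _ _).trans (Nat.mul_le_mul_right _ ?_)
          refine (s.poly.nrm_mul _ _).trans (Nat.mul_le_mul ?_ ?_)
          · exact (s.poly_C (d := s.deg (G.coeff γ)) ⟨le_rfl, le_rfl⟩).2
          · exact ((le_c0 s (d := d)).pow _).2.trans (Nat.pow_le_pow_left hκ _)
        refine (Finset.sum_le_sum fun α _ => h1 α).trans ?_
        rw [Finset.sum_comm]
        have h2 : ∀ γ ∈ G.support, ∑ α, s.nrm (G.coeff γ) * κ ^ (n - 1 - (β' + γ).degree) *
              s.poly.nrm (c γ α) ≤ s.nrm (G.coeff γ) * κ ^ (n - 1) := by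
          intro γ hγ'
          rw [← Finset.mul_sum, mul_assoc]
          apply Nat.mul_le_mul_left
          have h3 := (hc γ hγ').2.1
          have h4 := hγ γ hγ'
          calc κ ^ (n - 1 - (β' + γ).degree) * ∑ α, s.poly.nrm (c γ α)
              ≤ κ ^ (n - 1 - (β' + γ).degree) * κ ^ (β' + γ).degree := Nat.mul_le_mul_left _ h3
            _ = κ ^ (n - 1) := by rw [← pow_add]; congr 1; omega
        refine (Finset.sum_le_sum h2).trans ?_
        rw [← Finset.sum_mul]
        have h5 : ∑ γ ∈ G.support, s.nrm (G.coeff γ) ≤ κ := le_trans hGle.2 hκ'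
        calc (∑ γ ∈ G.support, s.nrm (G.coeff γ)) * κ ^ (n - 1) ≤ κ * κ ^ (n - 1) :=
              Nat.mul_le_mul_right _ h5
          _ = κ ^ n := by rw [← pow_succ']; congr 1; omega
      · intro ev t y hcrit
        have h1 := hcrit i
        rw [← hG, eval_eq_mon] at h1
        have h2 : ((2 * (d : ℝ) + 2) * t) ^ n * mon y β =
            - ∑ γ ∈ G.support, ev (G.coeff γ) *
              ((2 * d + 2) * t) ^ (n - 1 - (β' + γ).degree) *
              (((2 * d + 2) * t) ^ (β' + γ).degree * mon y (β' + γ)) := by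
          have h3 : (2 * (d : ℝ) + 2) * t * y i ^ (2 * d + 1) =
              - ∑ m ∈ G.support, ev (G.coeff m) * mon y m := by linarith
          have h4 : n = (n - 1) + 1 := by omega
          have h5 : ((2 * (d : ℝ) + 2) * t) ^ n * mon y β =
              ((2 * (d : ℝ) + 2) * t) ^ (n - 1) * mon y β' *
                ((2 * (d : ℝ) + 2) * t * y i ^ (2 * d + 1)) := by
            conv_lhs => rw [h4, hsum, mon_add, mon_single, pow_succ]
            ring
          rw [h5, h3, mul_neg, Finset.mul_sum]
          congr 1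
          apply Finset.sum_congr rfl
          intro γ hγ'
          have h6 := hγ γ hγ'
          rw [mon_add]
          have h7 : ((2 * (d : ℝ) + 2) * t) ^ (n - 1) =
              ((2 * (d : ℝ) + 2) * t) ^ (n - 1 - (β' + γ).degree) *
                ((2 * (d : ℝ) + 2) * t) ^ (β' + γ).degree := by
            rw [← pow_add]; congr 1; omega
          rw [h7]
          ring
        rw [h2]
        have h8 : ∀ α : Lam k d, evt ev t (- ∑ γ ∈ G.support,
            C (G.coeff γ) * c0 A d ^ (n - 1 - (β' + γ).degree) * c γ α) *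
            ∏ i, y i ^ (α i : ℕ) = - ∑ γ ∈ G.support, ev (G.coeff γ) *
              ((2 * d + 2) * t) ^ (n - 1 - (β' + γ).degree) *
              (evt ev t (c γ α) * ∏ i, y i ^ (α i : ℕ)) := by
          intro α
          rw [map_neg, map_sum, neg_mul, Finset.sum_mul]
          congr 1
          apply Finset.sum_congr rfl
          intro γ _
          rw [map_mul, map_mul, map_pow, evt_C, evt_c0]
          ring
        rw [Finset.sum_congr rfl fun α _ => h8 α, Finset.sum_neg_distrib, Finset.sum_comm]
        congr 1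
        apply Finset.sum_congr rfl
        intro γ hγ'
        rw [(hc γ hγ').2.2 ev t y hcrit, Finset.mul_sum]

end

end Pool.Agent.LibStar4
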