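import Pool.Agent.LibStar4.Elim

/-!
The eliminating determinant.
-/

open Polynomial

namespace Pool.Agent.LibStar4

noncomputable section

variable {A : Type} [CommRing A] (s : Siz A) {k d h : ℕ}

/-- evaluation of polynomials in `t` and `T` -/
def evtT (ev : A →+* ℝ) (t T : ℝ) : A[X][X] →+* ℝ := Polynomial.eval₂RingHom (evt ev t) T

/-- the bound for the length of the reduction -/
def Lk (k d : ℕ) : ℕ := 2 * d + 2 + 2 * d * k

theorem degree_lam (α : Lam k d) :
    (Finsupp.equivFunOnFinite.symm fun i => (α i : ℕ)).degree ≤ 2 * d * k := by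
  rw [Finsupp.degree_eq_sum]
  simp only [Finsupp.equivFunOnFinite_symm_apply_apply]
  refine (Finset.sum_le_sum fun i _ => (show (α i : ℕ) ≤ 2 * d from by have := (α i).2; omega)).trans ?_
  simp [mul_comm]

/-- the rows of the multiplication matrix -/
theorem row {F : MvPolynomial (Fin k) A} (hF : s.mv.Le F d h) {κ : ℕ} (hκ : 2 * d + 2 ≤ κ)
    (hκ' : d * h ≤ κ) (α : Lam k d) : ∃ M : Lam k d → A[X],
      (∀ α', s.poly.Le (M α') ((Lk k d + 1) * (d + 1)) ((h + k) * κ ^ Lk k d)) ∧
      ∀ (ev : A →+* ℝ) (t : ℝ) (y : Fin k → ℝ), Crit F d ev t y →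
        ((2 * d + 2) * t) ^ Lk k d * (MvPolynomial.eval₂ ev y F + t * ∑ i, y i ^ (2 * d + 2)) *
          ∏ i, y i ^ (α i : ℕ) = ∑ α', evt ev t (M α') * ∏ i, y i ^ (α' i : ℕ) := by
  classical
  set a : Fin k →₀ ℕ := Finsupp.equivFunOnFinite.symm fun i => (α i : ℕ) with ha
  have haL := degree_lam α
  rw [← ha] at haL
  have hmon : ∀ y : Fin k → ℝ, ∏ i, y i ^ (α i : ℕ) = mon y a := fun y => rfl
  have hm : ∀ m ∈ F.support, (m + a).degree ≤ Lk k d := by
    intro m hm
    have := (Siz.mvDeg_le s F d).1 hF.1 m (MvPolynomial.mem_support_iff.1 hm)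
    rw [map_add]
    unfold Lk
    omega
  have hi : ∀ i : Fin k, (Finsupp.single i (2 * d + 2) + a).degree ≤ Lk k d := by
    intro i
    rw [map_add, Finsupp.degree_single]
    unfold Lk
    omega
  have h1 := fun β : Fin k →₀ ℕ => red s hF hκ hκ' β.degree β rfl
  choose c hc1 hc2 hc3 using h1
  refine ⟨fun α' => ∑ m ∈ F.support, C (F.coeff m) * c0 A d ^ (Lk k d - (m + a).degree) *
      c (m + a) α' + ∑ i : Fin k, X * c0 A d ^ (Lk k d - (Finsupp.single i (2 * d + 2) + a).degree) *
      c (Finsupp.single i (2 * d + 2) + a) α', ?_, ?_⟩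
  · intro α'
    have hdeg : ∀ e : ℕ, e ≤ Lk k d → (Lk k d - e) * 1 + e * (d + 1) ≤ Lk k d * (d + 1) := by
      intro e he
      have : Lk k d = (Lk k d - e) + e := by omega
      calc (Lk k d - e) * 1 + e * (d + 1) ≤ (Lk k d - e) * (d + 1) + e * (d + 1) :=
            Nat.add_le_add_right (Nat.mul_le_mul_left _ (by omega)) _
        _ = ((Lk k d - e) + e) * (d + 1) := by ring
        _ = Lk k d * (d + 1) := by rw [← this]
    have hnrm : ∀ (β : Fin k →₀ ℕ), β.degree ≤ Lk k d →
        s.poly.nrm (c0 A d ^ (Lk k d - β.degree) * c β α') ≤ κ ^ Lk k d := by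
      intro β hβ
      refine (s.poly.nrm_mul _ _).trans ?_
      calc s.poly.nrm (c0 A d ^ (Lk k d - β.degree)) * s.poly.nrm (c β α')
          ≤ κ ^ (Lk k d - β.degree) * κ ^ β.degree := Nat.mul_le_mul
            (((le_c0 s (d := d)).pow _).2.trans (Nat.pow_le_pow_left hκ _))
            ((Finset.single_le_sum (f := fun α' => s.poly.nrm (c β α')) (fun _ _ => Nat.zero_le _)
              (Finset.mem_univ α')).trans (hc2 β))
        _ = κ ^ Lk k d := by rw [← pow_add]; congr 1; omega
    have hdg : ∀ (β : Fin k →₀ ℕ), β.degree ≤ Lk k d →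
        s.poly.deg (c0 A d ^ (Lk k d - β.degree) * c β α') ≤ Lk k d * (d + 1) := by
      intro β hβ
      refine (s.poly.deg_mul _ _).trans (le_trans ?_ (hdeg _ hβ))
      exact Nat.add_le_add ((le_c0 s (d := d)).pow _).1 (hc1 β α')
    have hL : (Lk k d + 1) * (d + 1) = d + 1 + Lk k d * (d + 1) := by ring
    have s1 : s.poly.Le (∑ m ∈ F.support, C (F.coeff m) *
        c0 A d ^ (Lk k d - (m + a).degree) * c (m + a) α')
        ((Lk k d + 1) * (d + 1)) (h * κ ^ Lk k d) := by
      have := Siz.Le.sum (s := s.poly) F.support (fun m => C (F.coeff m) *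
        c0 A d ^ (Lk k d - (m + a).degree) * c (m + a) α') ((Lk k d + 1) * (d + 1))
        (fun m => s.nrm (F.coeff m) * κ ^ Lk k d) (by
          intro m hm'
          have h2 : s.poly.Le (C (F.coeff m)) d (s.nrm (F.coeff m)) :=
            s.poly_C ⟨(Siz.mv_coeff s hF m).1, le_rfl⟩
          have h3 : s.poly.Le (c0 A d ^ (Lk k d - (m + a).degree) * c (m + a) α')
            (Lk k d * (d + 1)) (κ ^ Lk k d) := ⟨hdg _ (hm m hm'), hnrm _ (hm m hm')⟩
          have h4 := h2.mul h3
          rw [← mul_assoc] at h4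
          exact h4.mono (by omega) le_rfl)
      refine this.mono le_rfl ?_
      rw [← Finset.sum_mul]
      exact Nat.mul_le_mul_right _ hF.2
    have s2 : s.poly.Le (∑ i : Fin k, X *
        c0 A d ^ (Lk k d - (Finsupp.single i (2 * d + 2) + a).degree) *
        c (Finsupp.single i (2 * d + 2) + a) α')
        ((Lk k d + 1) * (d + 1)) (k * κ ^ Lk k d) := by
      have := Siz.Le.sum (s := s.poly) Finset.univ (fun i : Fin k => X *
        c0 A d ^ (Lk k d - (Finsupp.single i (2 * d + 2) + a).degree) *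
        c (Finsupp.single i (2 * d + 2) + a) α') ((Lk k d + 1) * (d + 1))
        (fun _ => κ ^ Lk k d) (by
          intro i _
          have h3 : s.poly.Le (c0 A d ^ (Lk k d - (Finsupp.single i (2 * d + 2) + a).degree) *
            c (Finsupp.single i (2 * d + 2) + a) α')
            (Lk k d * (d + 1)) (κ ^ Lk k d) := ⟨hdg _ (hi i), hnrm _ (hi i)⟩
          have h4 := s.poly_X.mul h3
          rw [← mul_assoc] at h4
          exact h4.mono (by omega) (by omega))
      refine this.mono le_rfl ?_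
      simp
    refine (s1.add s2).mono (by simp) ?_
    rw [add_mul]
  · intro ev t y hcrit
    have h2 : ∀ β : Fin k →₀ ℕ, β.degree ≤ Lk k d → ((2 * (d : ℝ) + 2) * t) ^ Lk k d * mon y β =
        ∑ α', evt ev t (c0 A d ^ (Lk k d - β.degree) * c β α') * ∏ i, y i ^ (α' i : ℕ) := by
      intro β hβ
      have h3 : ((2 * (d : ℝ) + 2) * t) ^ Lk k d = ((2 * (d : ℝ) + 2) * t) ^ (Lk k d - β.degree) *
          ((2 * (d : ℝ) + 2) * t) ^ β.degree := by rw [← pow_add]; congr 1; omega
      rw [h3, mul_assoc, hc3 β ev t y hcrit, Finset.mul_sum]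
      apply Finset.sum_congr rfl
      intro α' _
      rw [map_mul, map_pow, evt_c0]
      ring
    rw [hmon, eval_eq_mon]
    have e1 : ((2 * (d : ℝ) + 2) * t) ^ Lk k d *
        (∑ m ∈ F.support, ev (F.coeff m) * mon y m + t * ∑ i, y i ^ (2 * d + 2)) * mon y a =
        ∑ m ∈ F.support, ev (F.coeff m) * (((2 * (d : ℝ) + 2) * t) ^ Lk k d * mon y (m + a)) +
        ∑ i, t * (((2 * (d : ℝ) + 2) * t) ^ Lk k d *
          mon y (Finsupp.single i (2 * d + 2) + a)) := by
      rw [mul_add, add_mul]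
      congr 1
      · rw [Finset.mul_sum, Finset.sum_mul]
        apply Finset.sum_congr rfl
        intro m _
        rw [mon_add]
        ring
      · rw [Finset.mul_sum, Finset.mul_sum, Finset.sum_mul]
        apply Finset.sum_congr rfl
        intro i _
        rw [mon_add, mon_single]
        ring
    rw [e1]
    have e2 : ∀ α' : Lam k d, evt ev t (∑ m ∈ F.support, C (F.coeff m) *
          c0 A d ^ (Lk k d - (m + a).degree) * c (m + a) α' +
        ∑ i : Fin k, X * c0 A d ^ (Lk k d - (Finsupp.single i (2 * d + 2) + a).degree) *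
          c (Finsupp.single i (2 * d + 2) + a) α') * ∏ i, y i ^ (α' i : ℕ) =
        ∑ m ∈ F.support, ev (F.coeff m) * (evt ev t (c0 A d ^ (Lk k d - (m + a).degree) *
          c (m + a) α') * ∏ i, y i ^ (α' i : ℕ)) +
        ∑ i : Fin k, t * (evt ev t (c0 A d ^ (Lk k d -
          (Finsupp.single i (2 * d + 2) + a).degree) *
          c (Finsupp.single i (2 * d + 2) + a) α') * ∏ i, y i ^ (α' i : ℕ)) := by
      intro α'
      rw [map_add, map_sum, map_sum, add_mul, Finset.sum_mul, Finset.sum_mul]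
      congr 1
      · apply Finset.sum_congr rfl
        intro m _
        rw [mul_assoc (C (F.coeff m)), map_mul, evt_C, mul_assoc]
      · apply Finset.sum_congr rfl
        intro i _
        rw [mul_assoc X, map_mul, evt_X, mul_assoc]
    rw [Finset.sum_congr rfl fun α' _ => e2 α', Finset.sum_add_distrib, Finset.sum_comm]
    congr 1
    · apply Finset.sum_congr rfl
      intro m hm'
      rw [h2 _ (hm m hm'), Finset.mul_sum]
    · rw [Finset.sum_comm]
      apply Finset.sum_congr rfl
      intro i _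
      rw [h2 _ (hi i), Finset.mul_sum]

/-- **Elimination.** -/
theorem elim {F : MvPolynomial (Fin k) A} (hF : s.mv.Le F d h) {κ : ℕ} (hκ : 2 * d + 2 ≤ κ)
    (hκ' : d * h ≤ κ) : ∃ P : A[X][X],
      (∃ N e c : ℕ, 0 < c ∧ (P.coeff N).coeff e = (c : A)) ∧
      s.poly.poly.Le P ((2 * d + 1) ^ k * ((Lk k d + 2) * (d + 1)))
        (((2 * d + 1) ^ k).factorial * ((h + k + 1) * κ ^ Lk k d) ^ ((2 * d + 1) ^ k)) ∧
      ∀ (ev : A →+* ℝ) (t T : ℝ) (y : Fin k → ℝ), Crit F d ev t y →
        t * T = MvPolynomial.eval₂ ev y F + t * ∑ i, y i ^ (2 * d + 2) → evtT ev t T P = 0 := by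
  classical
  choose M hM1 hM2 using row s hF hκ hκ' (k := k)
  set κt : A[X] := c0 A d ^ Lk k d * X with hκt
  let Q : Matrix (Lam k d) (Lam k d) A[X][X] :=
    (X : A[X][X]) • (κt • (1 : Matrix (Lam k d) (Lam k d) A[X])).map C +
      (Matrix.of fun α α' => - M α α').map C
  have hcard : Fintype.card (Lam k d) = (2 * d + 1) ^ k := by simp
  have hκtle : s.poly.Le κt (Lk k d + 1) (κ ^ Lk k d) := by
    have := ((le_c0 s (d := d)).pow (Lk k d)).mul s.poly_X
    refine this.mono (by omega) ?_
    rw [mul_one]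
    exact Nat.pow_le_pow_left hκ _
  refine ⟨Q.det, ⟨(2 * d + 1) ^ k, (Lk k d + 1) * (2 * d + 1) ^ k,
    (2 * d + 2) ^ (Lk k d * (2 * d + 1) ^ k), by positivity, ?_⟩, ?_, ?_⟩
  · have h1 := Polynomial.coeff_det_X_add_C_card (κt • (1 : Matrix (Lam k d) (Lam k d) A[X]))
      (Matrix.of fun α α' => - M α α')
    rw [hcard] at h1
    have h2 : (κt • (1 : Matrix (Lam k d) (Lam k d) A[X])).det = κt ^ (2 * d + 1) ^ k := by
      rw [Matrix.det_smul, Matrix.det_one, mul_one, hcard]
    rw [h2] at h1
    have h3 : κt ^ (2 * d + 1) ^ k =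
        (((2 * d + 2) ^ (Lk k d * (2 * d + 1) ^ k) : ℕ) : A[X]) *
          X ^ ((Lk k d + 1) * (2 * d + 1) ^ k) := by
      rw [hκt, mul_pow, ← pow_mul, c0, mul_pow, Nat.cast_pow, mul_assoc, ← pow_add]
      congr 2
      ring
    rw [h3] at h1
    rw [show Q.det.coeff ((2 * d + 1) ^ k) = _ from h1, Polynomial.natCast_mul,
      Polynomial.coeff_smul, Polynomial.coeff_X_pow, if_pos rfl]
    simp
  · have h1 : ∀ α α', s.poly.poly.Le (Q α α') ((Lk k d + 2) * (d + 1))
        ((h + k + 1) * κ ^ Lk k d) := by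
      intro α α'
      have h2 : Q α α' = X * C (κt * (1 : Matrix (Lam k d) (Lam k d) A[X]) α α') +
          C (- M α α') := by
        simp [Q, Matrix.add_apply, Matrix.smul_apply, Matrix.map_apply]
      rw [h2]
      have h3 : s.poly.Le (κt * (1 : Matrix (Lam k d) (Lam k d) A[X]) α α')
          (Lk k d + 1) (κ ^ Lk k d) := by
        by_cases hα : α = α'
        · rw [hα, Matrix.one_apply_eq, mul_one]; exact hκtle
        · rw [Matrix.one_apply_ne hα, mul_zero]
          exact Siz.Le.zero.mono (Nat.zero_le _) (Nat.zero_le _)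
      have h4 := (s.poly.poly_X.mul (s.poly.poly_C h3)).add (s.poly.poly_C (hM1 α α').neg)
      refine h4.mono ?_ ?_
      · apply max_le
        · have : (Lk k d + 2) * 1 ≤ (Lk k d + 2) * (d + 1) := Nat.mul_le_mul_left _ (by omega)
          omega
        · exact Nat.mul_le_mul_right _ (by omega)
      · have : (h + k + 1) * κ ^ Lk k d = κ ^ Lk k d + (h + k) * κ ^ Lk k d := by ring
        omega
    have h5 := Siz.Le.det (s := s.poly.poly) Q h1
    rw [hcard] at h5
    exact h5
  · intro ev t T y hcrit hT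
    rw [RingHom.map_det]
    apply Matrix.exists_mulVec_eq_zero_iff.1
    refine ⟨fun α => ∏ i, y i ^ (α i : ℕ), ?_, ?_⟩
    · intro h0
      have := congrFun h0 (fun _ => (⟨0, by omega⟩ : Fin (2 * d + 1)))
      simp at this
    · funext α
      have hQ : ∀ α', ((evtT ev t T).mapMatrix Q) α α' =
          T * (evt ev t κt * (if α = α' then 1 else 0)) - evt ev t (M α α') := by
        intro α'
        have h2 : Q α α' = X * C (κt * (1 : Matrix (Lam k d) (Lam k d) A[X]) α α') +
            C (- M α α') := by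
          simp [Q, Matrix.add_apply, Matrix.smul_apply, Matrix.map_apply]
        rw [RingHom.mapMatrix_apply, Matrix.map_apply, h2]
        simp only [evtT, Polynomial.coe_eval₂RingHom, Polynomial.eval₂_add, Polynomial.eval₂_mul,
          Polynomial.eval₂_X, Polynomial.eval₂_C, Polynomial.eval₂_neg, map_mul, map_neg]
        by_cases hα : α = α'
        · rw [if_pos hα, hα, Matrix.one_apply_eq, map_one]; ring
        · rw [if_neg hα, Matrix.one_apply_ne hα, map_zero]; ring
      simp only [Matrix.mulVec, dotProduct, Pi.zero_apply]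
      rw [Finset.sum_congr rfl fun α' _ => by rw [hQ α', sub_mul], Finset.sum_sub_distrib,
        ← hM2 α ev t y hcrit, ← hT]
      rw [Finset.sum_eq_single α]
      · rw [if_pos rfl, hκt, map_mul, map_pow, evt_c0, evt_X]
        ring
      · intro α' _ hα
        rw [if_neg (Ne.symm hα)]
        ring
      · intro hα; exact absurd (Finset.mem_univ _) hα

end

end Pool.Agent.LibStar4
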