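import Pool.Agent.LibStar4.Types

/-!
The region of well separated scales: polynomials of bounded size do not vanish there, and it is
connected.
-/

open Set Filter Topology

namespace Pool.Agent.LibStar4

noncomputable section

/-- well separated scales -/
def Om (m D H : ℕ) : Set (Fin m → ℝ) :=
  {l | (∀ i, 0 < l i) ∧ ∀ i, (H : ℝ) * l i < ∏ k ∈ Finset.univ.filter (· < i), l k ^ D}

theorem om_le_one {m D H : ℕ} (hH : 1 ≤ H) {l : Fin m → ℝ} (hl : l ∈ Om m D H) :
    ∀ (n : ℕ) (i : Fin m), (i : ℕ) = n → l i ≤ 1 := by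
  have hH' : (1 : ℝ) ≤ H := by exact_mod_cast hH
  intro n
  induction n using Nat.strong_induction_on with
  | _ n ih =>
    intro i hi
    have h1 := hl.2 i
    have h2 : ∏ k ∈ Finset.univ.filter (· < i), l k ^ D ≤ 1 := by
      apply Finset.prod_le_one
      · intro k _
        exact pow_nonneg (hl.1 k).le _
      · intro k hk
        rw [Finset.mem_filter] at hk
        have hki : (k : ℕ) < n := by
          rw [← hi]; exact hk.2
        exact pow_le_one₀ (hl.1 k).le (ih k hki k rfl)
    have h3 := hl.1 i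
    nlinarith

/-- the value of a polynomial -/
theorem ev_eq_sum {ι : Type} [Fintype ι] (a : MvPolynomial ι ℤ) (l : ι → ℝ) :
    ev l a = ∑ m ∈ a.support, ((a.coeff m : ℤ) : ℝ) * ∏ i, l i ^ m i := by
  unfold ev
  rw [MvPolynomial.coe_eval₂Hom, MvPolynomial.eval₂_eq']
  rfl

theorem ev_ne_zero {m D H : ℕ} {a : MvPolynomial (Fin m) ℤ} (ha : a ≠ 0)
    (hsz : Siz.int.mv.Le a D H) {l : Fin m → ℝ} (hl : l ∈ Om m D H) : ev l a ≠ 0 := by
  classical
  have hsup : a.support.Nonempty := MvPolynomial.support_nonempty.2 ha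
  obtain ⟨α, hα, hmin⟩ := a.support.exists_min_image
    (fun β : Fin m →₀ ℕ => toColex (fun i => β i : Fin m → ℕ)) hsup
  have hnrm : ∑ β ∈ a.support, (a.coeff β).natAbs ≤ H := hsz.2
  have hαpos : 1 ≤ (a.coeff α).natAbs := by
    have := MvPolynomial.mem_support_iff.1 hα
    have h2 := Int.natAbs_pos.2 this
    omega
  have hH : 1 ≤ H := le_trans hαpos (le_trans (Finset.single_le_sum
    (f := fun β => (a.coeff β).natAbs) (fun _ _ => Nat.zero_le _) hα) hnrm)
  have hl1 : ∀ i, l i ≤ 1 := fun i => om_le_one hH hl i i rfl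
  set M : ℝ := ∏ i, l i ^ α i with hM
  have hMpos : 0 < M := Finset.prod_pos fun i _ => pow_pos (hl.1 i) _
  have hαD : ∀ i, α i ≤ D := by
    intro i
    have h1 := (Siz.mvDeg_le Siz.int a D).1 hsz.1 α (MvPolynomial.mem_support_iff.1 hα)
    have h2 := Finsupp.le_degree i α
    omega
  have key : ∀ β ∈ a.support, β ≠ α → (H : ℝ) * ∏ i, l i ^ β i ≤ M := by
    intro β hβ hne
    have h1 := hmin β hβ
    have h2 : toColex (fun i => α i : Fin m → ℕ) < toColex (fun i => β i : Fin m → ℕ) := by
      rcases lt_or_eq_of_le h1 with h | h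
      · exact h
      · exfalso
        apply hne
        have h3 : (fun i => α i : Fin m → ℕ) = fun i => β i := toColex_inj.1 h
        exact Finsupp.ext fun i => (congrFun h3 i).symm
    obtain ⟨i, hi1, hi2⟩ := h2
    have hi1' : ∀ j, i < j → α j = β j := fun j hj => hi1 j hj
    have hi2' : α i < β i := hi2
    -- split the products
    have hsplit : ∀ γ : Fin m →₀ ℕ, ∏ j, l j ^ γ j = (∏ j ∈ Finset.univ.filter (· < i), l j ^ γ j) *
        (l i ^ γ i * ∏ j ∈ Finset.univ.filter (i < ·), l j ^ γ j) := by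
      intro γ
      have hu : (Finset.univ : Finset (Fin m)) = Finset.univ.filter (· < i) ∪
          ({i} ∪ Finset.univ.filter (i < ·)) := by
        ext j
        simp only [Finset.mem_univ, Finset.mem_union, Finset.mem_filter, Finset.mem_singleton,
          true_and, true_iff]
        rcases lt_trichotomy j i with h | h | h
        · exact Or.inl h
        · exact Or.inr (Or.inl h)
        · exact Or.inr (Or.inr h)
      conv_lhs => rw [hu]
      rw [Finset.prod_union, Finset.prod_union, Finset.prod_singleton]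
      · rw [Finset.disjoint_singleton_left, Finset.mem_filter]
        simp
      · rw [Finset.disjoint_left]
        intro j hj hj'
        rw [Finset.mem_filter] at hj
        simp only [Finset.mem_union, Finset.mem_singleton, Finset.mem_filter, Finset.mem_univ,
          true_and] at hj'
        rcases hj' with h | h
        · rw [h] at hj; exact lt_irrefl _ hj.2
        · exact lt_asymm hj.2 h
    rw [hM, hsplit β, hsplit α]
    have e1 : ∏ j ∈ Finset.univ.filter (i < ·), l j ^ β j =
        ∏ j ∈ Finset.univ.filter (i < ·), l j ^ α j := by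
      apply Finset.prod_congr rfl
      intro j hj
      rw [Finset.mem_filter] at hj
      rw [hi1' j hj.2]
    rw [e1]
    set U := ∏ j ∈ Finset.univ.filter (i < ·), l j ^ α j with hU
    have hUpos : 0 < U := Finset.prod_pos fun j _ => pow_pos (hl.1 j) _
    have e2 : ∏ j ∈ Finset.univ.filter (· < i), l j ^ β j ≤ 1 := by
      apply Finset.prod_le_one
      · intro j _; exact pow_nonneg (hl.1 j).le _
      · intro j _; exact pow_le_one₀ (hl.1 j).le (hl1 j)
    have e2' : 0 ≤ ∏ j ∈ Finset.univ.filter (· < i), l j ^ β j :=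
      Finset.prod_nonneg fun j _ => pow_nonneg (hl.1 j).le _
    have e3 : l i ^ β i ≤ l i ^ α i * l i := by
      rw [← pow_succ]
      exact pow_le_pow_of_le_one (hl.1 i).le (hl1 i) hi2'
    have e4 : (H : ℝ) * l i ≤ ∏ j ∈ Finset.univ.filter (· < i), l j ^ α j := by
      refine (hl.2 i).le.trans ?_
      apply Finset.prod_le_prod
      · intro j _; exact pow_nonneg (hl.1 j).le _
      · intro j _; exact pow_le_pow_of_le_one (hl.1 j).le (hl1 j) (hαD j)
    have hHr : (0 : ℝ) ≤ H := by positivity
    have hli : 0 ≤ l i ^ α i := pow_nonneg (hl.1 i).le _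
    calc (H : ℝ) * ((∏ j ∈ Finset.univ.filter (· < i), l j ^ β j) * (l i ^ β i * U))
        ≤ H * (1 * ((l i ^ α i * l i) * U)) := by
          apply mul_le_mul_of_nonneg_left _ hHr
          apply mul_le_mul e2 _ (mul_nonneg (pow_nonneg (hl.1 i).le _) hUpos.le) zero_le_one
          exact mul_le_mul_of_nonneg_right e3 hUpos.le
      _ = (H * l i) * (l i ^ α i * U) := by ring
      _ ≤ _ := mul_le_mul_of_nonneg_right e4 (mul_nonneg hli hUpos.le)
  rw [ev_eq_sum, ← Finset.add_sum_erase _ _ hα]
  intro h0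
  have h1 : |((a.coeff α : ℤ) : ℝ)| * M ≤ ∑ β ∈ a.support.erase α, |((a.coeff β : ℤ) : ℝ)| *
      ∏ i, l i ^ β i := by
    have h2 : ((a.coeff α : ℤ) : ℝ) * M = - ∑ β ∈ a.support.erase α, ((a.coeff β : ℤ) : ℝ) *
      ∏ i, l i ^ β i := by rw [hM]; linarith
    calc |((a.coeff α : ℤ) : ℝ)| * M = |((a.coeff α : ℤ) : ℝ) * M| := by rw [abs_mul, abs_of_pos hMpos]
      _ = |∑ β ∈ a.support.erase α, ((a.coeff β : ℤ) : ℝ) * ∏ i, l i ^ β i| := by rw [h2, abs_neg]
      _ ≤ _ := (Finset.abs_sum_le_sum_abs _ _).trans (le_of_eq (Finset.sum_congr rfl fun β _ => by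
          rw [abs_mul, abs_of_nonneg (Finset.prod_nonneg fun j _ => pow_nonneg (hl.1 j).le _)]))
  have hHpos : (0 : ℝ) < H := by exact_mod_cast hH
  have h2 : (H : ℝ) * ∑ β ∈ a.support.erase α, |((a.coeff β : ℤ) : ℝ)| * ∏ i, l i ^ β i ≤
      (∑ β ∈ a.support.erase α, |((a.coeff β : ℤ) : ℝ)|) * M := by
    rw [Finset.mul_sum, Finset.sum_mul]
    apply Finset.sum_le_sum
    intro β hβ
    rw [mul_left_comm]
    exact mul_le_mul_of_nonneg_left (key β (Finset.mem_of_mem_erase hβ)
      (Finset.ne_of_mem_erase hβ)) (abs_nonneg _)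
  have h3 : ∑ β ∈ a.support.erase α, |((a.coeff β : ℤ) : ℝ)| + |((a.coeff α : ℤ) : ℝ)| ≤ H := by
    rw [add_comm, Finset.add_sum_erase _ (fun β => |((a.coeff β : ℤ) : ℝ)|) hα]
    have : (∑ β ∈ a.support, |((a.coeff β : ℤ) : ℝ)|) = ((∑ β ∈ a.support, (a.coeff β).natAbs : ℕ) : ℝ) := by
      push_cast
      exact Finset.sum_congr rfl fun β _ => by rw [Nat.cast_natAbs]; simp
    rw [this]
    exact_mod_cast hnrm
  have h4 : (1 : ℝ) ≤ |((a.coeff α : ℤ) : ℝ)| := by
    have : ((1 : ℕ) : ℝ) ≤ (((a.coeff α).natAbs : ℕ) : ℝ) := by exact_mod_cast hαpos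
    rw [Nat.cast_natAbs] at this
    simpa using this
  have h5 : (H : ℝ) * (|((a.coeff α : ℤ) : ℝ)| * M) ≤
      (∑ β ∈ a.support.erase α, |((a.coeff β : ℤ) : ℝ)|) * M :=
    (mul_le_mul_of_nonneg_left h1 hHpos.le).trans h2
  have h6 : (H : ℝ) * |((a.coeff α : ℤ) : ℝ)| ≤ ∑ β ∈ a.support.erase α, |((a.coeff β : ℤ) : ℝ)| := by
    rw [← mul_assoc] at h5
    exact le_of_mul_le_mul_right h5 hMpos
  nlinarith

/-- the region is connected -/
theorem isPreconnected_om (m D H : ℕ) (hH : 1 ≤ H) : IsPreconnected (Om m D H) := by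
  have hH' : (0 : ℝ) < H := by exact_mod_cast hH
  let L : Set (Fin m → ℝ) := {x | ∀ i, Real.log H + x i <
    ∑ k ∈ Finset.univ.filter (· < i), (D : ℝ) * x k}
  have hL : Convex ℝ L := by
    intro x hx y hy a b ha hb hab i
    have h1 := hx i
    have h2 := hy i
    have h3 : ∑ k ∈ Finset.univ.filter (· < i), (D : ℝ) * (a • x + b • y) k =
        a * ∑ k ∈ Finset.univ.filter (· < i), (D : ℝ) * x k +
        b * ∑ k ∈ Finset.univ.filter (· < i), (D : ℝ) * y k := by
      rw [Finset.mul_sum, Finset.mul_sum, ← Finset.sum_add_distrib]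
      apply Finset.sum_congr rfl
      intro k _
      simp only [Pi.add_apply, Pi.smul_apply, smul_eq_mul]
      ring
    rw [h3]
    simp only [Pi.add_apply, Pi.smul_apply, smul_eq_mul]
    have h4 : Real.log H = a * Real.log H + b * Real.log H := by rw [← add_mul, hab, one_mul]
    rcases eq_or_lt_of_le ha with ha0 | ha0
    · rw [← ha0] at hab ⊢
      have : b = 1 := by linarith
      rw [this]
      linarith
    · have h5 : a * (Real.log H + x i) < a * ∑ k ∈ Finset.univ.filter (· < i), (D : ℝ) * x k :=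
        mul_lt_mul_of_pos_left h1 ha0
      have h6 : b * (Real.log H + y i) ≤ b * ∑ k ∈ Finset.univ.filter (· < i), (D : ℝ) * y k :=
        mul_le_mul_of_nonneg_left h2.le hb
      linarith
  have himg : Om m D H = (fun x : Fin m → ℝ => fun i => Real.exp (x i)) '' L := by
    have hprod : ∀ (x : Fin m → ℝ) (i : Fin m), ∏ k ∈ Finset.univ.filter (· < i),
        (Real.exp (x k)) ^ D = Real.exp (∑ k ∈ Finset.univ.filter (· < i), (D : ℝ) * x k) := by
      intro x i
      rw [Real.exp_sum]
      apply Finset.prod_congr rfl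
      intro k _
      rw [← Real.exp_nat_mul]
    ext l
    constructor
    · rintro ⟨h1, h2⟩
      refine ⟨fun i => Real.log (l i), ?_, ?_⟩
      · intro i
        have h3 := h2 i
        have h4 : ∀ k, Real.exp (Real.log (l k)) = l k := fun k => Real.exp_log (h1 k)
        have h5 := hprod (fun i => Real.log (l i)) i
        simp only [h4] at h5
        rw [h5] at h3
        rw [← Real.exp_lt_exp, Real.exp_add, Real.exp_log hH', h4]
        exact h3
      · funext i
        exact Real.exp_log (h1 i)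
    · rintro ⟨x, hx, rfl⟩
      refine ⟨fun i => Real.exp_pos _, fun i => ?_⟩
      have h1 := hx i
      simp only
      rw [hprod]
      have h2 : (H : ℝ) * Real.exp (x i) = Real.exp (Real.log H + x i) := by
        rw [Real.exp_add, Real.exp_log hH']
      rw [h2]
      exact Real.exp_lt_exp.2 h1
  rw [himg]
  apply hL.isPreconnected.image
  apply Continuous.continuousOn
  fun_prop

/-- locally constant properties are constant on connected sets -/
theorem const_of_local {X : Type*} [TopologicalSpace X] {S : Set X} (hS : IsPreconnected S)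
    {p : X → Prop} (h : ∀ x ∈ S, ∀ᶠ y in 𝓝 x, y ∈ S → (p y ↔ p x)) {x y : X} (hx : x ∈ S)
    (hy : y ∈ S) : p x ↔ p y := by
  classical
  have hc : ContinuousOn (fun x => decide (p x)) S := by
    intro z hz
    have h1 := h z hz
    have h2 : ∀ᶠ w in 𝓝[S] z, decide (p w) = decide (p z) := by
      rw [eventually_nhdsWithin_iff]
      filter_upwards [h1] with w hw hwS
      rw [decide_eq_decide]
      exact hw hwS
    exact (continuousWithinAt_const (b := decide (p z))).congr_of_eventuallyEq h2 rfl
  have := hS.constant hc hx hy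
  rwa [decide_eq_decide] at this

end

end Pool.Agent.LibStar4
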