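import Pool.Agent.LibStar4.FiDef
import Pool.Agent.LibStar4.Omega

/-!
The squaring chain.
-/

open Set

namespace Pool.Agent.LibStar4

noncomputable section

/-- `holds_conj`; induction on `a` -/
theorem holds_chainF (c T : ℕ) (hT : 1 ≤ T) (V : ℕ → ℝ) :
    (chainF c T).holds V ↔ ∀ a < T, V (c + a) = (1 / 2 : ℝ) ^ 2 ^ a := by
  have key : (chainF c T).holds V ↔ (V c + V c = 1) ∧
      ∀ a < T - 1, V (c + (a + 1)) = V (c + a) ^ 2 := by
    unfold chainF
    simp only [Fml.holds, holds_conj, List.mem_map, List.mem_range, forall_exists_index, and_imp,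
      forall_apply_eq_imp_iff₂]
    refine and_congr ?_ (forall_congr' fun a => imp_congr_right fun _ => ?_)
    · rw [eval_sub]
      simp only [Tm.eval, to1, bin]
      constructor
      · intro h
        norm_num at h
        linarith
      · intro h
        norm_num
        linarith
    · rw [eval_sub]
      simp only [Tm.sq, Tm.eval]
      rw [sub_eq_zero, sq]
  rw [key]
  constructor
  · rintro ⟨h0, h1⟩ a
    induction a with
    | zero =>
      intro _
      simp only [add_zero, pow_zero, pow_one]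
      linarith
    | succ a ih =>
      intro ha
      rw [h1 a (by omega), ih (by omega), ← pow_mul, pow_succ 2 a]
  · intro h
    refine ⟨?_, fun a ha => ?_⟩
    · have := h 0 (by omega)
      simp only [add_zero, pow_zero, pow_one] at this
      linarith
    · rw [h (a + 1) (by omega), h a (by omega), ← pow_mul, pow_succ 2 a]

theorem FiA_sum (P : ℕ) : ∀ i : ℕ, 1 + ∑ k ∈ Finset.range i, 2 ^ ((P + 2) * (k + 1)) ≤
    2 * 2 ^ ((P + 2) * i) := by
  intro i
  induction i with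
  | zero => simp
  | succ i ih =>
    rw [Finset.sum_range_succ, ← add_assoc]
    have h1 : 2 * 2 ^ ((P + 2) * i) ≤ 2 ^ ((P + 2) * (i + 1)) := by
      rw [← pow_succ']
      exact Nat.pow_le_pow_right (by norm_num) (by nlinarith)
    omega

theorem FiA_exp (P i : ℕ) : 2 ^ P * (1 + ∑ k ∈ Finset.range i, 2 ^ ((P + 2) * (k + 1))) <
    2 ^ ((P + 2) * (i + 1)) := by
  have h1 := FiA_sum P i
  calc 2 ^ P * (1 + ∑ k ∈ Finset.range i, 2 ^ ((P + 2) * (k + 1)))
      ≤ 2 ^ P * (2 * 2 ^ ((P + 2) * i)) := Nat.mul_le_mul_left _ h1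
    _ = 2 ^ (P + 1 + (P + 2) * i) := by rw [pow_add, pow_succ]; ring
    _ < 2 ^ ((P + 2) * (i + 1)) := Nat.pow_lt_pow_right (by norm_num) (by nlinarith)

/-- `2 ^ P < 2 ^ ((P + 2) (i + 1))` and `2 ^ P * (1 + ∑_{k < i} 2 ^ ((P + 2) (k + 1))) < 2 ^ ((P + 2) (i + 1))`
(induction on `i`: `1 + ∑_{k < i} 2 ^ ((P + 2) (k + 1)) ≤ 2 * 2 ^ ((P + 2) i)`); everything is a power of `1/2`
(`Finset.prod_pow_eq_pow_sum`; the product over `Finset.univ.filter (· < i)` in `Fin m` can be moved to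
`Finset.range i`). -/
theorem lamS_mem (P m : ℕ) : (fun i : Fin m => lamS P i) ∈ Om m (2 ^ P) (2 ^ 2 ^ P) := by
  refine ⟨fun i => by unfold lamS; positivity, fun i => ?_⟩
  have h1 : ∏ k ∈ Finset.univ.filter (· < i), lamS P (k : ℕ) ^ (2 ^ P) =
      ∏ k ∈ Finset.range (i : ℕ), lamS P k ^ (2 ^ P) := by
    refine Finset.prod_nbij (fun k : Fin m => (k : ℕ)) ?_ ?_ ?_ ?_
    · intro k hk
      rw [Finset.mem_filter] at hk
      exact Finset.mem_range.2 hk.2
    · intro a _ b _ hab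
      exact Fin.ext hab
    · intro b hb
      rw [Finset.coe_range, Set.mem_Iio] at hb
      refine ⟨⟨b, lt_trans hb i.2⟩, ?_, rfl⟩
      rw [Finset.coe_filter]
      exact ⟨Finset.mem_univ _, hb⟩
    · intro _ _
      rfl
  change ((2 ^ 2 ^ P : ℕ) : ℝ) * lamS P i < ∏ k ∈ Finset.univ.filter (· < i), lamS P (k : ℕ) ^ (2 ^ P)
  rw [h1]
  have h2 : ∏ k ∈ Finset.range (i : ℕ), lamS P k ^ (2 ^ P) =
      (1 / 2 : ℝ) ^ (2 ^ P * ∑ k ∈ Finset.range (i : ℕ), 2 ^ ((P + 2) * (k + 1))) := by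
    unfold lamS
    rw [Finset.mul_sum, ← Finset.prod_pow_eq_pow_sum]
    refine Finset.prod_congr rfl fun k _ => ?_
    rw [← pow_mul, mul_comm]
  rw [h2]
  have h3 := FiA_exp P i
  set S := ∑ k ∈ Finset.range (i : ℕ), 2 ^ ((P + 2) * (k + 1)) with hS
  have h4 : lamS P i < (1 / 2 : ℝ) ^ (2 ^ P * (1 + S)) := by
    unfold lamS
    exact pow_lt_pow_right_of_lt_one₀ (by norm_num) (by norm_num) h3
  have h5 : ((2 ^ 2 ^ P : ℕ) : ℝ) * (1 / 2 : ℝ) ^ (2 ^ P * (1 + S)) =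
      (1 / 2 : ℝ) ^ (2 ^ P * S) := by
    rw [mul_add, mul_one, pow_add, ← mul_assoc]
    have : ((2 ^ 2 ^ P : ℕ) : ℝ) * (1 / 2 : ℝ) ^ (2 ^ P) = 1 := by
      push_cast
      rw [← mul_pow]
      norm_num
    rw [this, one_mul]
  calc ((2 ^ 2 ^ P : ℕ) : ℝ) * lamS P i < ((2 ^ 2 ^ P : ℕ) : ℝ) * (1 / 2 : ℝ) ^ (2 ^ P * (1 + S)) :=
        mul_lt_mul_of_pos_left h4 (by positivity)
    _ = _ := h5

end

end Pool.Agent.LibStar4
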