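import Pool.Agent.LibStar4.FiA

/-!
The final sentence.
-/

open Set

namespace Pool.Agent.LibStar4

noncomputable section

/-- if the chain variables have the right values, the renamed assignment is the expected one -/
theorem FiB_env (m u y P : ℕ) (U : Fin u → ℝ) (Y : Fin (y + iT P m) → ℝ)
    (hY : ∀ a < iT P m, env₂ U Y (u + y + a) = (1 / 2 : ℝ) ^ 2 ^ a) (i : ℕ) :
    env₂ U Y (renS m u y P i) =
      env₃ (fun i : Fin m => lamS P i) U (fun j => Y (Fin.castAdd (iT P m) j)) i := by
  unfold renS
  by_cases h1 : i < m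
  · have hlt : (P + 2) * (i + 1) < iT P m := by
      have : (P + 2) * (i + 1) ≤ (P + 2) * m := Nat.mul_le_mul_left _ h1
      unfold iT
      omega
    rw [if_pos h1, hY _ hlt]
    unfold env₃
    rw [dif_pos h1]
    rfl
  · rw [if_neg h1]
    by_cases h2 : i < m + (u + y)
    · rw [if_pos h2]
      unfold env₃ env₂
      rw [dif_neg h1]
      by_cases h3 : i - m < u
      · rw [dif_pos h3, dif_pos h3]
      · have h4 : i - m - u < y := by omega
        have h5 : i - m - u < y + iT P m := by omega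
        rw [dif_neg h3, dif_neg h3, dif_pos h4, dif_pos h5]
        rfl
    · rw [if_neg h2]
      unfold env₃ env₂
      have h3 : ¬ (i + (u + y + iT P m) < u) := by omega
      have h4 : ¬ (i + (u + y + iT P m) - u < y + iT P m) := by omega
      have h5 : ¬ (i - m < u) := by omega
      have h6 : ¬ (i - m - u < y) := by omega
      rw [dif_neg h3, dif_neg h4, dif_neg h1, dif_neg h5, dif_neg h6]

/-- `Fml.holds_rename`, `holds_chainF` (`1 ≤ iT P m`); for `Y` with the chain equations,
`(fun i => env₂ U Y (renS m u y P i)) = env₃ (fun i => lamS P i) U (fun j => Y (Fin.castAdd _ j))`; conversely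
take `Y = Fin.append Y' (fun a => (1/2) ^ 2 ^ a)`. -/
theorem sentF_spec (m u y P : ℕ) (χ : Fml) :
    (∀ U : Fin u → ℝ, ∃ Y : Fin (y + iT P m) → ℝ, (sentF m u y P χ).holds (env₂ U Y)) ↔
      ∀ U : Fin u → ℝ, ∃ Y : Fin y → ℝ, χ.holds (env₃ (fun i : Fin m => lamS P i) U Y) := by
  have hT : 1 ≤ iT P m := by unfold iT; omega
  refine forall_congr' fun U => ⟨?_, ?_⟩
  · rintro ⟨Y, hY⟩
    refine ⟨fun j => Y (Fin.castAdd (iT P m) j), ?_⟩
    have h1 : (chainF (u + y) (iT P m)).holds (env₂ U Y) := hY.1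
    have h2 : (χ.rename (renS m u y P)).holds (env₂ U Y) := hY.2
    rw [holds_chainF _ _ hT] at h1
    rw [Fml.holds_rename] at h2
    have h3 : (fun i => env₂ U Y (renS m u y P i)) =
        env₃ (fun i : Fin m => lamS P i) U (fun j => Y (Fin.castAdd (iT P m) j)) :=
      funext fun i => FiB_env m u y P U Y h1 i
    rwa [h3] at h2
  · rintro ⟨Y', hY'⟩
    let Y : Fin (y + iT P m) → ℝ := Fin.append Y' (fun a => (1 / 2 : ℝ) ^ 2 ^ (a : ℕ))
    have h1 : ∀ a < iT P m, env₂ U Y (u + y + a) = (1 / 2 : ℝ) ^ 2 ^ a := by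
      intro a ha
      unfold env₂
      have h3 : ¬ (u + y + a < u) := by omega
      have h4 : u + y + a - u < y + iT P m := by omega
      rw [dif_neg h3, dif_pos h4]
      have h5 : (⟨u + y + a - u, h4⟩ : Fin (y + iT P m)) = Fin.natAdd y ⟨a, ha⟩ := by
        apply Fin.ext
        show u + y + a - u = y + a
        omega
      rw [h5]
      exact Fin.append_right _ _ _
    refine ⟨Y, (holds_chainF _ _ hT _).2 h1, ?_⟩
    show (χ.rename (renS m u y P)).holds (env₂ U Y)
    rw [Fml.holds_rename]
    have h3 : (fun i => env₂ U Y (renS m u y P i)) =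
        env₃ (fun i : Fin m => lamS P i) U (fun j => Y (Fin.castAdd (iT P m) j)) :=
      funext fun i => FiB_env m u y P U Y h1 i
    have h4 : (fun j => Y (Fin.castAdd (iT P m) j)) = Y' :=
      funext fun j => Fin.append_left _ _ _
    rw [h3, h4]
    exact hY'

end

end Pool.Agent.LibStar4
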