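import Pool.Agent.LibStar4.KernC

/-!
The points with a neighbourhood (in the flat) that is not excluded by any certificate belong to the
kernel.
-/

open Metric Set

namespace Pool.Agent.LibStar4

variable {E : Type*} [NormedAddCommGroup E] [InnerProductSpace ℝ E]
variable {ι : Type} [Finite ι] {f : ι → E → ℝ} {Φ : (ι → SignType) → Prop}

/-- **The kernel of a flat.** -/
theorem star_of_ball [FiniteDimensional ℝ E] (hf : ∀ a, Continuous (f a))
    {L : AffineSubspace ℝ E} {r : ℝ} {q : E} (hq : q ∈ L) {ρ : ℝ} (hρ : 0 < ρ)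
    (H : ∀ q' ∈ L, dist q' q < ρ → ∀ z t ν β, Crt (semi f Φ) L r z t ν β → inner ℝ ν q' ≤ β)
    {x₀ : E} (hx₀ : x₀ ∈ semi f Φ) (hx₀L : x₀ ∈ L) : StarAt (semi f Φ) q := by
  have hqS : q ∈ semi f Φ := by
    have := seg_of_ball_flat hf hq hρ H hx₀ hx₀L (le_refl 0) zero_le_one
    simpa using this
  intro x hx s hs0 hs1
  by_cases hxL : x ∈ L
  · exact seg_of_ball_flat hf hq hρ H hx hxL hs0 hs1
  · rcases eq_or_lt_of_le hs0 with h | h
    · rw [← h]
      simpa using hqS
    · exact seg_of_ball_off hf hq hρ H hx hxL h hs1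

end Pool.Agent.LibStar4
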