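import Mathlib

/-!
Touching balls: the shrinking ball.
-/

open Metric Set

namespace Pool.Agent.LibStar4

variable {E : Type*} [NormedAddCommGroup E] [InnerProductSpace ℝ E]

theorem TouchB_nonneg_of_small {a b : ℝ} {h₀ : ℝ} (hh₀ : 0 < h₀)
    (H : ∀ h : ℝ, 0 < h → h ≤ h₀ → 0 ≤ 2 * a + h * b) : 0 ≤ a := by
  by_contra ha
  push Not at ha
  have hb : 0 ≤ |b| := abs_nonneg b
  have h1 : 0 < min h₀ (-a / (|b| + 1)) := lt_min hh₀ (div_pos (by linarith) (by linarith))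
  have h2 := H _ h1 (min_le_left _ _)
  have h3 : min h₀ (-a / (|b| + 1)) * b ≤ -a := by
    calc min h₀ (-a / (|b| + 1)) * b ≤ min h₀ (-a / (|b| + 1)) * |b| :=
          mul_le_mul_of_nonneg_left (le_abs_self b) h1.le
      _ ≤ (-a / (|b| + 1)) * |b| := mul_le_mul_of_nonneg_right (min_le_right _ _) hb
      _ ≤ (-a / (|b| + 1)) * (|b| + 1) := by
          apply mul_le_mul_of_nonneg_left (by linarith)
          exact (div_pos (by linarith) (by linarith)).le
      _ = -a := by field_simp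
  linarith

/-- **Shrinking ball.** Proof. Let `q'' = x + (1 + κ/2) (y - x)`, `ρ₁ = ρ / 2`,
`c σ = x + σ (q'' - x)` and `g σ = infDist (c σ) V - (1 - σ) ρ₁` (continuous). `g 0 > 0`. For
`σ₁ = 1 / (1 + κ/2) < 1` we have `c σ₁ = y ∈ V`, so `g σ₁ < 0`. Let `σ` be the least element of the
compact set `{σ ∈ [0, σ₁] | g σ ≤ 0}`; then `0 < σ ≤ σ₁ < 1`, `g σ = 0`, and `g > 0` on `[0, σ)`.
Let `z ∈ V` with `‖z - c σ‖ = infDist (c σ) V = (1 - σ) ρ₁ =: r > 0`
(`IsClosed.exists_infDist_eq_dist`). For `0 < h ≤ σ`: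
`‖z - c (σ - h)‖ ≥ infDist (c (σ - h)) V > (1 - σ + h) ρ₁ = r + h ρ₁`, and
`c (σ - h) = c σ - h (q'' - x)`. Squaring: `2 ⟪z - c, q'' - x⟫ + h ‖q'' - x‖² ≥ 2 r ρ₁`, so with
`h → 0` (compare `nonneg_of_small` in `Geo.lean`) `⟪z - c, q'' - x⟫ ≥ r ρ₁`. As
`q'' - c = (1 - σ) (q'' - x)`, `⟪z - c, q'' - c⟫ ≥ (1 - σ) r ρ₁ = r² = ‖z - c‖²`, so
`⟪z - c, q'' - z⟫ ≥ 0`. Finally the point `q' = y + κ (y - x)` satisfies
`q' - q'' = (κ/2) (y - x) = μ (q'' - x)` with `μ = (κ/2) / (1 + κ/2) > 0`, so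
`⟪z - c, q' - z⟫ ≥ μ r ρ₁ > 0`. The number `τ` of the statement is `σ (1 + κ/2) ≤ 1`. -/
theorem touch_shrink [ProperSpace E] {V : Set E} (hV : IsClosed V) {y x : E} (hy : y ∈ V) {ρ : ℝ}
    (hρ : 0 < ρ) (hx : ∀ w ∈ V, ρ ≤ ‖w - x‖) {κ : ℝ} (hκ : 0 < κ) :
    ∃ τ : ℝ, 0 ≤ τ ∧ τ ≤ 1 ∧ ∃ z ∈ V, 0 < ‖z - (x + τ • (y - x))‖ ∧
      (∀ w ∈ V, ‖z - (x + τ • (y - x))‖ ≤ ‖w - (x + τ • (y - x))‖) ∧
      0 < inner ℝ (y + κ • (y - x) - z) (z - (x + τ • (y - x))) := by
  have hne : V.Nonempty := ⟨y, hy⟩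
  set lam : ℝ := 1 + κ / 2 with hlam
  have hlam1 : 1 < lam := by rw [hlam]; linarith
  have hlam0 : 0 < lam := by linarith
  -- the direction
  set v : E := lam • (y - x) with hv
  let f : ℝ → ℝ := fun σ => infDist (x + σ • v) V - (1 - σ) * (ρ / 2)
  have hf : Continuous f := by
    apply Continuous.sub
    · apply (continuous_infDist_pt V).comp
      fun_prop
    · fun_prop
  have hf0 : 0 < f 0 := by
    have h1 : ρ ≤ infDist x V := by
      rw [le_infDist hne]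
      intro w hw
      rw [dist_eq_norm, norm_sub_rev]
      exact hx w hw
    have h2 : f 0 = infDist x V - ρ / 2 := by simp [f]
    rw [h2]
    linarith
  set s1 : ℝ := 1 / lam with hs1
  have hs1pos : 0 < s1 := by rw [hs1]; positivity
  have hs1lt : s1 < 1 := by
    rw [hs1, div_lt_one hlam0]; exact hlam1
  have hs1v : s1 • v = y - x := by
    rw [hs1, hv, smul_smul, one_div, inv_mul_cancel₀ hlam0.ne', one_smul]
  have hf1 : f s1 < 0 := by
    have h1 : x + s1 • v = y := by rw [hs1v]; abel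
    simp only [f, h1]
    rw [infDist_zero_of_mem hy]
    have : 0 < (1 - s1) * (ρ / 2) := mul_pos (by linarith) (by linarith)
    linarith
  let K : Set ℝ := Icc 0 s1 ∩ f ⁻¹' Iic 0
  have hKc : IsCompact K := isCompact_Icc.inter_right (isClosed_Iic.preimage hf)
  have hKne : K.Nonempty := ⟨s1, ⟨hs1pos.le, le_rfl⟩, by
    simp only [mem_preimage, mem_Iic]; exact hf1.le⟩
  obtain ⟨τ, hτT, hτmin⟩ := hKc.exists_isLeast hKne
  have hτ0 : 0 ≤ τ := hτT.1.1
  have hτ1 : τ ≤ s1 := hτT.1.2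
  have hfτ : f τ ≤ 0 := hτT.2
  have hτpos : 0 < τ := by
    rcases lt_or_eq_of_le hτ0 with h | h
    · exact h
    · exfalso
      rw [← h] at hfτ
      linarith
  have hbefore : ∀ σ, 0 ≤ σ → σ < τ → 0 < f σ := by
    intro σ h0 h1
    by_contra hcon
    push Not at hcon
    have : σ ∈ K := ⟨⟨h0, h1.le.trans hτT.1.2⟩, hcon⟩
    exact absurd (hτmin this) (not_le.2 h1)
  have hfτ' : f τ = 0 := by
    apply le_antisymm hfτ
    by_contra hcon
    push Not at hcon
    -- continuity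
    have h1 : ∀ᶠ σ in nhds τ, f σ < 0 := hf.continuousAt.eventually_lt continuousAt_const hcon
    have h2 : ∃ᶠ σ in nhdsWithin τ (Iio τ), True := by
      simp [Filter.frequently_true_iff_neBot]
      infer_instance
    have h3 : ∀ᶠ σ in nhdsWithin τ (Iio τ), f σ < 0 ∧ 0 < σ ∧ σ < τ := by
      filter_upwards [nhdsWithin_le_nhds h1, nhdsWithin_le_nhds (lt_mem_nhds hτpos),
        self_mem_nhdsWithin] with σ a b c
      exact ⟨a, b, c⟩
    obtain ⟨σ, _, h4, h5, h6⟩ := (h2.and_eventually h3).exists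
    exact absurd (hbefore σ h5.le h6) (not_lt.2 h4.le)
  have hcc : x + (τ * lam) • (y - x) = x + τ • v := by
    rw [hv, smul_smul]
  have hτlam : τ * lam ≤ 1 := by
    have h1 : s1 * lam = 1 := by rw [hs1]; field_simp
    calc τ * lam ≤ s1 * lam := mul_le_mul_of_nonneg_right hτ1 hlam0.le
      _ = 1 := h1
  refine ⟨τ * lam, mul_nonneg hτ0 hlam0.le, hτlam, ?_⟩
  rw [hcc]
  set c : E := x + τ • v with hc
  set r : ℝ := (1 - τ) * (ρ / 2) with hr
  have hr0 : 0 < r := mul_pos (by linarith) (by linarith)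
  obtain ⟨z, hz, hzc⟩ := hV.exists_infDist_eq_dist hne c
  have hfc : infDist c V = r := by
    have h1 : f τ = infDist c V - r := rfl
    linarith
  have hzc' : ‖z - c‖ = r := by
    rw [← hfc, hzc, dist_eq_norm, norm_sub_rev]
  have hcert : ∀ w ∈ V, ‖z - c‖ ≤ ‖w - c‖ := by
    intro w hw
    rw [← dist_eq_norm, ← dist_eq_norm, dist_comm z c, ← hzc, dist_comm w c]
    exact infDist_le_dist_of_mem hw
  have h2 : 0 ≤ inner ℝ (z - c) v - r * (ρ / 2) := by
    apply TouchB_nonneg_of_small (b := ‖v‖ ^ 2) hτpos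
    intro h hh0 hh1
    have h3 := hbefore (τ - h) (by linarith) (by linarith)
    have h4 : infDist (x + (τ - h) • v) V ≤ ‖z - (x + (τ - h) • v)‖ := by
      rw [← dist_eq_norm, dist_comm]
      exact infDist_le_dist_of_mem hz
    have h5 : z - (x + (τ - h) • v) = (z - c) + h • v := by rw [hc]; module
    rw [h5] at h4
    have h3' : (1 - (τ - h)) * (ρ / 2) < infDist (x + (τ - h) • v) V := by
      have : f (τ - h) = infDist (x + (τ - h) • v) V - (1 - (τ - h)) * (ρ / 2) := rfl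
      linarith
    have h3'' : r + h * (ρ / 2) ≤ ‖(z - c) + h • v‖ := by
      have : (1 - (τ - h)) * (ρ / 2) = r + h * (ρ / 2) := by rw [hr]; ring
      linarith
    have h6 : (r + h * (ρ / 2)) ^ 2 ≤ ‖(z - c) + h • v‖ ^ 2 :=
      pow_le_pow_left₀ (by positivity) h3'' 2
    rw [norm_add_sq_real, norm_smul, inner_smul_right, mul_pow, Real.norm_eq_abs, sq_abs,
      hzc'] at h6
    have h7 : 0 ≤ h * (2 * (inner ℝ (z - c) v - r * (ρ / 2)) + h * ‖v‖ ^ 2) := by
      have h8 : 0 ≤ h ^ 2 * (ρ / 2) ^ 2 := by positivity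
      nlinarith
    exact nonneg_of_mul_nonneg_right h7 hh0
  refine ⟨z, hz, by rw [hzc']; exact hr0, hcert, ?_⟩
  -- the last inequality
  set mu : ℝ := (κ / 2) / lam with hmu
  have hmu0 : 0 < mu := by rw [hmu]; positivity
  have hmuv : mu • v = (κ / 2) • (y - x) := by
    rw [hmu, hv, smul_smul]
    congr 1
    field_simp
  have h3 : y + κ • (y - x) - z = (c - z) + ((1 - τ) • v + mu • v) := by
    rw [hmuv]
    have h4 : (1 - τ) • v = v - τ • v := by module
    rw [h4, hc]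
    have h5 : v = (1 + κ / 2) • (y - x) := by rw [hv, hlam]
    have h6 : y + κ • (y - x) - z = x + (1 + κ / 2) • (y - x) + (κ / 2) • (y - x) - z := by
      module
    rw [h6, ← h5]
    abel
  rw [h3, inner_add_left, inner_add_left, real_inner_smul_left v _ (1 - τ),
    real_inner_smul_left v _ mu]
  have h6 : inner ℝ (c - z) (z - c) = - ‖z - c‖ ^ 2 := by
    rw [← neg_sub z c, inner_neg_left, real_inner_self_eq_norm_sq]
  rw [h6, real_inner_comm (z - c) v, hzc']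
  have h7 : (1 - τ) * (r * (ρ / 2)) ≤ (1 - τ) * inner ℝ (z - c) v :=
    mul_le_mul_of_nonneg_left (by linarith) (by linarith)
  have h8 : (1 - τ) * (r * (ρ / 2)) = r ^ 2 := by rw [hr]; ring
  have h9 : 0 < mu * inner ℝ (z - c) v := by
    apply mul_pos hmu0
    have : 0 < r * (ρ / 2) := by positivity
    linarith
  linarith

end Pool.Agent.LibStar4
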