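import Mathlib

/-!
Touching balls give certificates.
-/

open Metric Set

namespace Pool.Agent.LibStar4

variable {E : Type*} [NormedAddCommGroup E] [InnerProductSpace ℝ E]

/-- **A certificate from a touching ball.** Proof. Let `ρ = ‖z' - c‖`, `ν = κ (c - z')`,
`m = ⟪ν, q - z'⟫ > 0`, `η = m / 2`, `β = ⟪ν, z'⟫ + η` (so `β < ⟪ν, q⟫`), `D = |r| + ‖z'‖ + 1`,
`τ = min 1 (η / D²)`. If `‖p‖ ≤ r` and `β ≤ ⟪ν, p⟫`, then `⟪ν, p - z'⟫ ≥ η`, and
`‖z' + κ τ (p - z') - c‖² = ρ² - 2 τ ⟪ν, p - z'⟫ + τ² ‖p - z'‖² ≤ ρ² - 2 τ η + τ² D² ≤ ρ² - τ η`.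
For `z ∈ T` near `z'` (`mem_closure_iff`), `‖(z + κ τ (p - z)) - (z' + κ τ (p - z'))‖ ≤ 2 ‖z - z'‖`
(uniformly in `p`), so `‖z + κ τ (p - z) - c‖ < ρ`, and then `z + κ τ (p - z) ∉ T` by `hT`. -/
theorem touch_cert {T : Set E} {z' c : E} (hz' : z' ∈ closure T) (hpos : 0 < ‖z' - c‖)
    (hT : ∀ w ∈ T, ‖z' - c‖ ≤ ‖w - c‖) {κ : ℝ} (hκ : κ = 1 ∨ κ = -1) {q : E}
    (hq : 0 < κ * inner ℝ (q - z') (c - z')) (r : ℝ) :
    ∃ z ∈ T, ∃ τ : ℝ, 0 < τ ∧ τ ≤ 1 ∧ ∃ β : ℝ, β < inner ℝ (κ • (c - z')) q ∧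
      ∀ p : E, ‖p‖ ≤ r → β ≤ inner ℝ (κ • (c - z')) p → z + (κ * τ) • (p - z) ∉ T := by
  set ρ : ℝ := ‖z' - c‖ with hρ
  set ν : E := κ • (c - z') with hν
  have hκ2 : κ ^ 2 = 1 := by rcases hκ with h | h <;> rw [h] <;> norm_num
  have hm : 0 < inner ℝ ν (q - z') := by
    rw [hν, inner_smul_left, real_inner_comm]
    simpa using hq
  set m : ℝ := inner ℝ ν (q - z') with hmdef
  set η : ℝ := m / 2 with hη
  have hηpos : 0 < η := by positivity
  set D : ℝ := |r| + ‖z'‖ + 1 with hD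
  have hDpos : 0 < D := by positivity
  set τ : ℝ := min 1 (η / D ^ 2) with hτ
  have hτpos : 0 < τ := lt_min one_pos (by positivity)
  have hτ1 : τ ≤ 1 := min_le_left _ _
  have hτD : τ * D ^ 2 ≤ η := by
    have : τ ≤ η / D ^ 2 := min_le_right _ _
    rwa [le_div_iff₀ (by positivity)] at this
  set δ : ℝ := min (ρ / 2) (τ * η / (4 * ρ)) with hδ
  have hδpos : 0 < δ := lt_min (by positivity) (by positivity)
  obtain ⟨z, hzT, hzδ⟩ := Metric.mem_closure_iff.1 hz' δ hδpos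
  rw [dist_eq_norm] at hzδ
  refine ⟨z, hzT, τ, hτpos, hτ1, inner ℝ ν z' + η, ?_, ?_⟩
  · have : inner ℝ ν q = inner ℝ ν z' + m := by
      rw [hmdef, inner_sub_right]; ring
    rw [this]; linarith
  · intro p hp hβ hmem
    have hρle := hT _ hmem
    have hpz : η ≤ inner ℝ ν (p - z') := by
      rw [inner_sub_right]; linarith
    -- the norm of the shifted vector
    set a : ℝ := ‖(z' - c) + (κ * τ) • (p - z')‖ with ha
    have ha2 : a ^ 2 = ρ ^ 2 - 2 * τ * inner ℝ ν (p - z') + τ ^ 2 * ‖p - z'‖ ^ 2 := by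
      rw [ha, norm_add_sq_real, inner_smul_right, norm_smul, hρ, hν, inner_smul_left]
      have e1 : inner ℝ (z' - c) (p - z') = - inner ℝ (c - z') (p - z') := by
        rw [← inner_neg_left, neg_sub]
      rw [e1, mul_pow, Real.norm_eq_abs, sq_abs, mul_pow, hκ2]
      simp only [conj_trivial]
      ring
    have hnp : ‖p - z'‖ ≤ D := by
      calc ‖p - z'‖ ≤ ‖p‖ + ‖z'‖ := norm_sub_le _ _
        _ ≤ |r| + ‖z'‖ := by
            have := hp.trans (le_abs_self r)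
            linarith
        _ ≤ D := by rw [hD]; linarith
    have ha3 : a ^ 2 ≤ ρ ^ 2 - τ * η := by
      have h1 : ‖p - z'‖ ^ 2 ≤ D ^ 2 := by
        exact pow_le_pow_left₀ (norm_nonneg _) hnp 2
      have h2 : τ ^ 2 * ‖p - z'‖ ^ 2 ≤ τ * η := by
        calc τ ^ 2 * ‖p - z'‖ ^ 2 ≤ τ ^ 2 * D ^ 2 := by
              exact mul_le_mul_of_nonneg_left h1 (sq_nonneg _)
          _ = τ * (τ * D ^ 2) := by ring
          _ ≤ τ * η := mul_le_mul_of_nonneg_left hτD hτpos.le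
      have h3 : τ * η ≤ τ * inner ℝ ν (p - z') := mul_le_mul_of_nonneg_left hpz hτpos.le
      rw [ha2]; nlinarith
    have hdiff : z + (κ * τ) • (p - z) - c = ((z' - c) + (κ * τ) • (p - z')) +
        (1 - κ * τ) • (z - z') := by
      module
    have habs : |1 - κ * τ| ≤ 2 := by
      rw [abs_le]
      rcases hκ with h | h <;> rw [h] <;> constructor <;> linarith
    have hb : ρ ≤ a + 2 * ‖z' - z‖ := by
      calc ρ ≤ ‖z + (κ * τ) • (p - z) - c‖ := hρle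
        _ ≤ a + ‖(1 - κ * τ) • (z - z')‖ := by
            rw [hdiff]; exact norm_add_le _ _
        _ ≤ a + 2 * ‖z' - z‖ := by
            rw [norm_smul, Real.norm_eq_abs, norm_sub_rev z z']
            have := mul_le_mul_of_nonneg_right habs (norm_nonneg (z' - z))
            linarith
    have hd1 : ‖z' - z‖ < ρ / 2 := hzδ.trans_le (min_le_left _ _)
    have hd2 : ‖z' - z‖ < τ * η / (4 * ρ) := hzδ.trans_le (min_le_right _ _)
    have hd3 : 4 * ρ * ‖z' - z‖ < τ * η := by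
      rw [lt_div_iff₀ (by positivity)] at hd2
      linarith
    have hd0 := norm_nonneg (z' - z)
    have ha0 : 0 ≤ a := norm_nonneg _
    nlinarith

end Pool.Agent.LibStar4
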