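import Pool.Agent.LibStar4.TouchA
import Pool.Agent.LibStar4.TouchB
import Pool.Agent.LibStar4.TouchC
import Pool.Agent.LibStar4.Geo

/-!
Certificates for flats.
-/

open Metric Set

namespace Pool.Agent.LibStar4

variable {E : Type*} [NormedAddCommGroup E] [InnerProductSpace ℝ E]

/-- certificates for the flat `L` -/
def Crt (S : Set E) (L : AffineSubspace ℝ E) (r : ℝ) (z : E) (t : ℝ) (ν : E) (β : ℝ) : Prop :=
  (z ∈ S ∧ 0 < t ∧ t ≤ 1 ∧ ∀ p ∈ L, ‖p‖ ≤ r → β ≤ inner ℝ ν p → z + t • (p - z) ∉ S) ∨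
  (z ∉ S ∧ t < 0 ∧ ∀ p ∈ L, ‖p‖ ≤ r → β ≤ inner ℝ ν p → z + t • (p - z) ∈ S)

theorem KernA_line {M : AffineSubspace ℝ E} {z p : E} (hz : z ∈ M) (hp : p ∈ M) (t : ℝ) :
    z + t • (p - z) ∈ M := by
  have h := AffineMap.lineMap_mem t hz hp
  rw [AffineMap.lineMap_apply_module', add_comm] at h
  exact h

/-- First step: the segments lie in the closure. Proof: `s = 1` is clear. Otherwise suppose not;
`touch_move` with `T = closure (S ∩ M)` gives `c ∈ M` (it is on the line of `q, x ∈ M`) and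
`z' ∈ closure (S ∩ M)`; `touch_cert` with `T = S ∩ M`, `κ = 1` gives `z ∈ S ∩ M`, `τ`, `β`, and
`z + τ (p - z)` is in `M` for `p ∈ L`, so it is not in `S`: a certificate of the first kind that
contradicts `H`. -/
theorem closure_of_ball [FiniteDimensional ℝ E] {S : Set E} {L M : AffineSubspace ℝ E}
    (hLM : L ≤ M) {r : ℝ} {q : E} (hq : q ∈ L)
    (H : ∀ z t ν β, Crt S L r z t ν β → inner ℝ ν q ≤ β) {x : E} (hx : x ∈ S) (hxM : x ∈ M)
    {s : ℝ} (hs0 : 0 ≤ s) (hs1 : s ≤ 1) :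
    q + s • (x - q) ∈ closure (S ∩ M) := by
  have hxT : x ∈ closure (S ∩ (M : Set E)) := subset_closure ⟨hx, hxM⟩
  rcases hs1.eq_or_lt with rfl | hs1
  · rw [one_smul, add_sub_cancel]
    exact hxT
  by_contra hcon
  obtain ⟨τ, -, -, z', hz', hpos, hmin, hin⟩ := touch_move isClosed_closure hxT hs0 hs1 hcon
  obtain ⟨z, hz, t, ht0, ht1, β, hβ, hcert⟩ := touch_cert (κ := 1) (q := q) hz' hpos
    (fun w hw => hmin w (subset_closure hw)) (Or.inl rfl)
    (by
      have h1 : q + τ • (x - q) - z' = -(z' - (q + τ • (x - q))) := by abel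
      rw [one_mul, h1, inner_neg_right]
      linarith) r
  have h2 : Crt S L r z t ((1 : ℝ) • (q + τ • (x - q) - z')) β := by
    refine Or.inl ⟨hz.1, ht0, ht1, fun p hp hpr hpβ hmem => ?_⟩
    have h3 := hcert p hpr hpβ
    rw [one_mul] at h3
    exact h3 ⟨hmem, KernA_line hz.2 (hLM hp) t⟩
  exact absurd (H z t _ β h2) (not_le.2 hβ)

/-- Second step: a point outside of `S` behind a ball in `S` gives a certificate. Proof:
`touch_shrink` with `V = closure (M \ S)` (a point of `V` has distance `≥ ρ` from `x`), then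
`touch_cert` with `T = M \ S`, `κ = -1`; the number `t` is `-τ`. -/
theorem not_hole [FiniteDimensional ℝ E] {S : Set E} {L M : AffineSubspace ℝ E}
    (hLM : L ≤ M) {r : ℝ} {y x : E} (hyM : y ∈ M) (hyS : y ∉ S) (hxM : x ∈ M) {ρ : ℝ}
    (hρ : 0 < ρ) (hx : ∀ w ∈ M, dist w x < ρ → w ∈ S) {κ : ℝ} (hκ : 0 < κ)
    (hq : y + κ • (y - x) ∈ L) :
    ∃ z t ν β, Crt S L r z t ν β ∧ β < inner ℝ ν (y + κ • (y - x)) := by
  have hyV : y ∈ closure ((M : Set E) \ S) := subset_closure ⟨hyM, hyS⟩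
  have hV : ∀ w ∈ closure ((M : Set E) \ S), ρ ≤ ‖w - x‖ := by
    have hcl : IsClosed {w : E | ρ ≤ ‖w - x‖} :=
      isClosed_le continuous_const (continuous_norm.comp (continuous_id.sub continuous_const))
    have hsub : (M : Set E) \ S ⊆ {w : E | ρ ≤ ‖w - x‖} := by
      intro w hw
      by_contra hcon
      rw [mem_ofPred_eq, not_le, ← dist_eq_norm] at hcon
      exact hw.2 (hx w hw.1 hcon)
    exact fun w hw => closure_minimal hsub hcl hw
  obtain ⟨τ, -, -, z', hz', hpos, hmin, hin⟩ := touch_shrink isClosed_closure hyV hρ hV hκ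
  obtain ⟨z, hz, t, ht0, ht1, β, hβ, hcert⟩ := touch_cert (κ := -1) (q := y + κ • (y - x)) hz'
    hpos (fun w hw => hmin w (subset_closure hw)) (Or.inr rfl)
    (by
      have h1 : x + τ • (y - x) - z' = -(z' - (x + τ • (y - x))) := by abel
      rw [h1, inner_neg_right]
      linarith) r
  refine ⟨z, -t, _, β, Or.inr ⟨hz.2, by linarith, fun p hp hpr hpβ => ?_⟩, hβ⟩
  have h3 := hcert p hpr hpβ
  rw [neg_one_mul] at h3
  by_contra hcon
  exact h3 ⟨KernA_line hz.1 (hLM hp) (-t), hcon⟩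

end Pool.Agent.LibStar4
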