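import Pool.Agent.LibStar4.Win

open Filter Topology Set

namespace Pool.Agent.LibStar4

noncomputable section

variable {ι : Type} {E : Type*} {f : ι → E → ℝ} {Φ : (ι → SignType) → Prop}

theorem WinD_aux [PseudoMetricSpace E] (hf : ∀ a, Continuous (f a)) (M : Set E) (s : Finset ι) :
    ∀ {x : E}, x ∈ M → ∀ {ρ : ℝ}, 0 < ρ →
    ∃ x' ∈ M, dist x' x < ρ ∧ ∃ ρ' > 0, ∀ w ∈ M, dist w x' < ρ' →
      dist w x < ρ ∧ ∀ a ∈ s, SignType.sign (f a w) = SignType.sign (f a x') := by
  classical
  induction s using Finset.induction_on with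
  | empty =>
    intro x hx ρ hρ
    exact ⟨x, hx, by rwa [dist_self], ρ, hρ, fun w _ h => ⟨h, fun a ha => absurd ha (by simp)⟩⟩
  | insert a s _ ih =>
    intro x hx ρ hρ
    obtain ⟨x₁, h1, h2, ρ₁, h3, h4⟩ := ih hx hρ
    by_cases h5 : ∀ w ∈ M, dist w x₁ < ρ₁ → f a w = 0
    · refine ⟨x₁, h1, h2, ρ₁, h3, fun w hw hd => ⟨(h4 w hw hd).1, fun b hb => ?_⟩⟩
      rcases Finset.mem_insert.1 hb with rfl | hb
      · rw [h5 w hw hd, h5 x₁ h1 (by rwa [dist_self])]
      · exact (h4 w hw hd).2 b hb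
    · push Not at h5
      obtain ⟨w₀, h6, h7, h8⟩ := h5
      have h9 : ∃ ε > 0, ∀ w, dist w w₀ < ε →
          SignType.sign (f a w) = SignType.sign (f a w₀) := by
        rcases lt_or_gt_of_ne h8 with h | h
        · have ho : IsOpen {w | f a w < 0} := isOpen_lt (hf a) continuous_const
          obtain ⟨ε, hε, h10⟩ := Metric.isOpen_iff.1 ho w₀ h
          refine ⟨ε, hε, fun w hw => ?_⟩
          have h11 : f a w < 0 := h10 hw
          rw [sign_neg h, sign_neg h11]
        · have ho : IsOpen {w | 0 < f a w} := isOpen_lt continuous_const (hf a)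
          obtain ⟨ε, hε, h10⟩ := Metric.isOpen_iff.1 ho w₀ h
          refine ⟨ε, hε, fun w hw => ?_⟩
          have h11 : 0 < f a w := h10 hw
          rw [sign_pos h, sign_pos h11]
      obtain ⟨ε, hε, h10⟩ := h9
      have h11 := h4 w₀ h6 h7
      refine ⟨w₀, h6, h11.1, min ε (ρ₁ - dist w₀ x₁), lt_min hε (sub_pos.2 h7),
        fun w hw hd => ?_⟩
      have h12 : dist w w₀ < ε := lt_of_lt_of_le hd (min_le_left _ _)
      have h13 : dist w x₁ < ρ₁ := by
        have h14 := lt_of_lt_of_le hd (min_le_right _ _)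
        have h15 := dist_triangle w w₀ x₁
        linarith
      have h14 := h4 w hw h13
      refine ⟨h14.1, fun b hb => ?_⟩
      rcases Finset.mem_insert.1 hb with rfl | hb
      · exact h10 w h12
      · rw [h14.2 b hb, h11.2 b hb]

/-- on a flat (or any set) there are small pieces on which all the signs are constant. Proof:
induction over a finset of indices `a` (statement for the indices of the finset, for all `x, ρ`):
if `f a` vanishes on the piece, its sign is constant; otherwise take a point of the piece with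
`f a ≠ 0` and a smaller piece around it. (Keep the pieces as `{w ∈ M | dist w x' < ρ'}`.) -/
theorem tame [PseudoMetricSpace E] [Finite ι] (hf : ∀ a, Continuous (f a)) (M : Set E) {x : E}
    (hx : x ∈ M) {ρ : ℝ} (hρ : 0 < ρ) :
    ∃ x' ∈ M, dist x' x < ρ ∧ ∃ ρ' > 0, ∀ w ∈ M, dist w x' < ρ' →
      dist w x < ρ ∧ ∀ a, SignType.sign (f a w) = SignType.sign (f a x') := by
  have := Fintype.ofFinite ι
  obtain ⟨x', h1, h2, ρ', h3, h4⟩ := WinD_aux hf M Finset.univ hx hρ
  exact ⟨x', h1, h2, ρ', h3, fun w hw hd =>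
    ⟨(h4 w hw hd).1, fun a => (h4 w hw hd).2 a (Finset.mem_univ a)⟩⟩

end

end Pool.Agent.LibStar4
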