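import Pool.Agent.LibStar4.KernA
import Pool.Agent.LibStar4.WinD

open Metric Set

namespace Pool.Agent.LibStar4

variable {E : Type*} [NormedAddCommGroup E] [InnerProductSpace ℝ E]
variable {ι : Type} [Finite ι] {f : ι → E → ℝ} {Φ : (ι → SignType) → Prop}

/-- Near a point where `S` is dense there are balls in `S`: apply `tame` at `x` with the radius
`min ρ₂ (ρ - dist x y)`; the point `x'` is in the closure of `semi f Φ ∩ M`, so the small piece
around `x'` contains a point of `semi f Φ`, and the signs are constant on the piece. -/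
theorem ball_of_dense (hf : ∀ a, Continuous (f a)) (M : Set E) {y : E}
    {ρ : ℝ} (hd : ∀ w ∈ M, dist w y < ρ → w ∈ closure (semi f Φ ∩ M)) {x : E} (hx : x ∈ M)
    (hxy : dist x y < ρ) {ρ₂ : ℝ} (hρ₂ : 0 < ρ₂) :
    ∃ x' ∈ M, dist x' x < ρ₂ ∧ ∃ ρ' > 0, ∀ w ∈ M, dist w x' < ρ' → w ∈ semi f Φ := by
  have h0 : 0 < min ρ₂ (ρ - dist x y) := lt_min hρ₂ (by linarith)
  obtain ⟨x', hx'M, hx'x, ρ', hρ', hp⟩ := tame hf M hx h0
  refine ⟨x', hx'M, lt_of_lt_of_le hx'x (min_le_left _ _), ρ', hρ', ?_⟩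
  have h1 : dist x' y < ρ := by
    have h2 := lt_of_lt_of_le hx'x (min_le_right ρ₂ (ρ - dist x y))
    linarith [dist_triangle x' x y]
  have h3 := hd x' hx'M h1
  obtain ⟨b, hb, hbd⟩ := Metric.mem_closure_iff.1 h3 ρ' hρ'
  rw [dist_comm] at hbd
  have h4 := (hp b hb.2 hbd).2
  have h5 : Φ (fun a => SignType.sign (f a b)) := hb.1
  intro w hw hwd
  have h6 := (hp w hw hwd).2
  show Φ (fun a => SignType.sign (f a w))
  have h7 : (fun a => SignType.sign (f a w)) = fun a => SignType.sign (f a b) := by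
    funext a
    rw [h6 a, h4 a]
  rw [h7]
  exact h5

/-- The points of the flat (`M = L`). Proof. `s = 1` is clear (`x`). Let `s < 1`,
`y = q + s (x - q)`, and suppose `y ∉ S`. For `w ∈ L` with `dist w y < (1 - s) ρ` we have
`w = q' + s (x - q')` with `q' = q + (1 - s)⁻¹ (w - y) ∈ L`, `dist q' q < ρ`, so
`w ∈ closure (S ∩ L)` by `closure_of_ball`. Let `D = ‖x - q‖ + 1`, choose `s' > 0` with
`s' D < ρ / 2`, `η > 0` with `η D < (1 - s) ρ`, `κ = (s + s') / η > 0`, `x₁ = y + η (x - q)`, and by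
`ball_of_dense` a point `x'` with `dist x' x₁ < ρ₂` where `κ ρ₂ ≤ ρ / 2`, with a ball in `S`. Then
`q' = y + κ (y - x') = q - s' (x - q) + κ (x₁ - x') ∈ L` has `dist q' q < ρ`, and `not_hole` gives a
certificate that contradicts `H`. -/
theorem seg_of_ball_flat [FiniteDimensional ℝ E] (hf : ∀ a, Continuous (f a))
    {L : AffineSubspace ℝ E} {r : ℝ} {q : E} (hq : q ∈ L) {ρ : ℝ} (hρ : 0 < ρ)
    (H : ∀ q' ∈ L, dist q' q < ρ → ∀ z t ν β, Crt (semi f Φ) L r z t ν β → inner ℝ ν q' ≤ β)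
    {x : E} (hx : x ∈ semi f Φ) (hxL : x ∈ L) {s : ℝ} (hs0 : 0 ≤ s) (hs1 : s ≤ 1) :
    q + s • (x - q) ∈ semi f Φ := by
  rcases eq_or_lt_of_le hs1 with h1 | h1
  · rw [h1, one_smul, add_sub_cancel]
    exact hx
  by_contra hy
  have hs : 0 < 1 - s := by linarith
  set y : E := q + s • (x - q) with hydef
  have mem : ∀ (c : ℝ) (u v w : E), u ∈ L → v ∈ L → w ∈ L → w + c • (u - v) ∈ L := by
    intro c u v w hu hv hw
    have h := L.smul_vsub_vadd_mem c hu hv hw
    rw [vsub_eq_sub, vadd_eq_add, add_comm] at h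
    exact h
  have hyL : y ∈ L := mem s x q q hxL hq hq
  have hd : ∀ w ∈ (L : Set E), dist w y < (1 - s) * ρ →
      w ∈ closure (semi f Φ ∩ (L : Set E)) := by
    intro w hw hwy
    have hq'L : q + (1 - s)⁻¹ • (w - y) ∈ L := mem _ w y q hw hyL hq
    have hq'd : dist (q + (1 - s)⁻¹ • (w - y)) q < ρ := by
      rw [dist_eq_norm, add_sub_cancel_left, norm_smul, norm_inv, Real.norm_of_nonneg hs.le,
        ← dist_eq_norm, inv_mul_lt_iff₀ hs]
      exact hwy
    have h2 := closure_of_ball (S := semi f Φ) (le_refl L) (r := r) hq'L (H _ hq'L hq'd) hx hxL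
      hs0 hs1
    have h3 : (q + (1 - s)⁻¹ • (w - y)) + s • (x - (q + (1 - s)⁻¹ • (w - y))) = w := by
      have h4 : (q + (1 - s)⁻¹ • (w - y)) + s • (x - (q + (1 - s)⁻¹ • (w - y))) =
          y + ((1 - s) * (1 - s)⁻¹) • (w - y) := by
        rw [hydef]
        module
      rw [h4, mul_inv_cancel₀ hs.ne', one_smul, add_sub_cancel]
    rw [h3] at h2
    exact h2
  set D : ℝ := ‖x - q‖ + 1 with hDdef
  have hD : 0 < D := by positivity
  have hDx : ‖x - q‖ ≤ D := by linarith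
  obtain ⟨s', hs', hs'D⟩ : ∃ s' : ℝ, 0 < s' ∧ s' * D ≤ ρ / 4 :=
    ⟨ρ / 4 / D, by positivity, le_of_eq (by field_simp)⟩
  obtain ⟨η, hη, hηD⟩ : ∃ η : ℝ, 0 < η ∧ η * D < (1 - s) * ρ :=
    ⟨(1 - s) * ρ / 2 / D, by positivity, by
      have h5 : (1 - s) * ρ / 2 / D * D = (1 - s) * ρ / 2 := by field_simp
      have h6 : 0 < (1 - s) * ρ := by positivity
      rw [h5]
      linarith⟩
  set κ : ℝ := (s + s') / η with hκdef
  have hκ : 0 < κ := by positivity
  have hκη : κ * η = s + s' := by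
    rw [hκdef]
    field_simp
  have hx₁L : y + η • (x - q) ∈ L := mem η x q y hxL hq hyL
  have hx₁y : dist (y + η • (x - q)) y < (1 - s) * ρ := by
    rw [dist_eq_norm, add_sub_cancel_left, norm_smul, Real.norm_of_nonneg hη.le]
    exact lt_of_le_of_lt (mul_le_mul_of_nonneg_left hDx hη.le) hηD
  obtain ⟨x', hx'L, hx'd, ρ', hρ', hball⟩ := ball_of_dense hf (L : Set E) hd hx₁L hx₁y
    (show 0 < ρ / 2 / κ by positivity)
  have hq'L : y + κ • (y - x') ∈ L := mem κ y x' y hyL hx'L hyL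
  obtain ⟨z, t, ν, β, hcrt, hlt⟩ := not_hole (S := semi f Φ) (le_refl L) (r := r) hyL hy hx'L hρ'
    hball hκ hq'L
  have hq'd : dist (y + κ • (y - x')) q < ρ := by
    have h7 : y + κ • (y - x') - q = (-s') • (x - q) + κ • (y + η • (x - q) - x') := by
      have h8 : (-s') • (x - q) + κ • (y + η • (x - q) - x') =
          (κ * η - s') • (x - q) + κ • (y - x') := by module
      rw [h8, hκη, hydef]
      module
    rw [dist_eq_norm, h7]
    have h9 : ‖(-s') • (x - q)‖ ≤ ρ / 4 := by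
      rw [norm_smul, norm_neg, Real.norm_of_nonneg hs'.le]
      exact (mul_le_mul_of_nonneg_left hDx hs'.le).trans hs'D
    have h10 : ‖κ • (y + η • (x - q) - x')‖ < ρ / 2 := by
      rw [norm_smul, Real.norm_of_nonneg hκ.le, ← dist_eq_norm, dist_comm]
      calc κ * dist x' (y + η • (x - q)) < κ * (ρ / 2 / κ) := mul_lt_mul_of_pos_left hx'd hκ
        _ = ρ / 2 := by field_simp
    linarith [norm_add_le ((-s') • (x - q)) (κ • (y + η • (x - q) - x'))]
  exact absurd (H _ hq'L hq'd z t ν β hcrt) (not_le.2 hlt)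

end Pool.Agent.LibStar4
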