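import Pool.Agent.LibStar4.KernB

open Metric Set

namespace Pool.Agent.LibStar4

variable {E : Type*} [NormedAddCommGroup E] [InnerProductSpace ℝ E]
variable {ι : Type} [Finite ι] {f : ι → E → ℝ} {Φ : (ι → SignType) → Prop}

/-- a linear functional which is `0` on `D₀` and `1` at `v₀`, and the decomposition of the vectors
of `D₀ ⊔ span {v₀}` -/
theorem kernC_fun [FiniteDimensional ℝ E] (D₀ : Submodule ℝ E) {v₀ : E} (hv : v₀ ∉ D₀) :
    ∃ (g : E → ℝ) (C K : ℝ), 0 ≤ C ∧ 0 < K ∧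
      ∀ v ∈ D₀ ⊔ Submodule.span ℝ {v₀}, v - g v • v₀ ∈ D₀ ∧ |g v| ≤ C * ‖v‖ ∧
        ‖v - g v • v₀‖ ≤ K * ‖v‖ := by
  obtain ⟨φ, hφ, hφ0⟩ := Submodule.exists_dual_map_eq_bot_of_notMem hv inferInstance
  have hker : ∀ u ∈ D₀, φ u = 0 := by
    intro u hu
    have : φ u ∈ Submodule.map φ D₀ := Submodule.mem_map_of_mem hu
    rw [hφ0] at this
    simpa using this
  let G : E →L[ℝ] ℝ := LinearMap.toContinuousLinearMap ((φ v₀)⁻¹ • φ)
  have hG : ∀ v, G v = (φ v₀)⁻¹ * φ v := fun v => rfl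
  refine ⟨fun v => G v, ‖G‖, 1 + ‖G‖ * ‖v₀‖, norm_nonneg _, by positivity, ?_⟩
  intro v hvD
  obtain ⟨u, hu, z, hz, rfl⟩ := Submodule.mem_sup.1 hvD
  obtain ⟨a, rfl⟩ := Submodule.mem_span_singleton.1 hz
  have hg : G (u + a • v₀) = a := by
    rw [hG, map_add, hker u hu, map_smul, zero_add, smul_eq_mul]
    field_simp
  have hle : |G (u + a • v₀)| ≤ ‖G‖ * ‖u + a • v₀‖ := by
    have := G.le_opNorm (u + a • v₀)
    rwa [Real.norm_eq_abs] at this
  refine ⟨?_, hle, ?_⟩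
  · show u + a • v₀ - G (u + a • v₀) • v₀ ∈ D₀
    rw [hg, add_sub_cancel_right]
    exact hu
  · show ‖u + a • v₀ - G (u + a • v₀) • v₀‖ ≤ _
    calc ‖u + a • v₀ - G (u + a • v₀) • v₀‖ ≤ ‖u + a • v₀‖ + ‖G (u + a • v₀) • v₀‖ := norm_sub_le _ _
      _ ≤ ‖u + a • v₀‖ + ‖G‖ * ‖u + a • v₀‖ * ‖v₀‖ := by
          rw [norm_smul, Real.norm_eq_abs]
          gcongr
      _ = (1 + ‖G‖ * ‖v₀‖) * ‖u + a • v₀‖ := by ring

/-- The other points: here `M` is the span of `L` and `x` (e.g. `AffineSubspace.mk' q D` with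
`D = L.direction ⊔ span {x - q}`, or `{q + u + α (x - q) | u ∈ L.direction}`). Proof. `s = 1` is
clear. Let `0 < s < 1`, `y = q + s (x - q)`, and suppose `y ∉ S`. As `x - q ∉ L.direction`, there is
a continuous linear functional `g` with `g = 0` on `L.direction` and `g (x - q) = 1`
(`Submodule.exists_le_ker_of_lt_top` / `Submodule.exists_dual_map_eq_bot_of_notMem`, and
`LinearMap.toContinuousLinearMap`). A vector `v` of the direction of `M` is `v = u + α (x - q)` with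
`α = g v`, `u = v - g v • (x - q) ∈ L.direction`, and both are `≤ C ‖v‖`. For `w = y + v ∈ M`
with small `v`: `w = q' + s' (x - q')` with `s' = s + α ∈ (0, 1)`, `q' = q + (1 - s')⁻¹ u ∈ L` near
`q`; so `w ∈ closure (S ∩ M)` by `closure_of_ball`. Let `x₁ = y + η (x - q)`, `η > 0` small, and by
`ball_of_dense` `x' ∈ M` close to `x₁`, with a ball of `M` in `S`. Write
`x' = x₁ + u' + α' (x - q)`, `κ = s / (η + α') > 0`. Then `q' = y + κ (y - x') = q - κ u' ∈ L` is
near `q`, and `not_hole` gives a certificate that contradicts `H`. -/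
theorem seg_of_ball_off [FiniteDimensional ℝ E] (hf : ∀ a, Continuous (f a))
    {L : AffineSubspace ℝ E} {r : ℝ} {q : E} (hq : q ∈ L) {ρ : ℝ} (hρ : 0 < ρ)
    (H : ∀ q' ∈ L, dist q' q < ρ → ∀ z t ν β, Crt (semi f Φ) L r z t ν β → inner ℝ ν q' ≤ β)
    {x : E} (hx : x ∈ semi f Φ) (hxL : x ∉ L) {s : ℝ} (hs0 : 0 < s) (hs1 : s ≤ 1) :
    q + s • (x - q) ∈ semi f Φ := by
  rcases eq_or_lt_of_le hs1 with hs | hs
  · rw [hs, one_smul, add_sub_cancel]
    exact hx
  by_contra hyS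
  set v₀ : E := x - q with hv₀
  have hv₀L : v₀ ∉ L.direction := by
    intro h
    apply hxL
    have := AffineSubspace.vadd_mem_of_mem_direction h hq
    rwa [vadd_eq_add, hv₀, sub_add_cancel] at this
  obtain ⟨g, C, K, hC, hK, hg⟩ := kernC_fun L.direction hv₀L
  set D : Submodule ℝ E := L.direction ⊔ Submodule.span ℝ {v₀} with hD
  set M : AffineSubspace ℝ E := AffineSubspace.mk' q D with hM
  have hv₀D : v₀ ∈ D := Submodule.mem_sup_right (Submodule.mem_span_singleton_self v₀)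
  have memM : ∀ p : E, p ∈ M ↔ p - q ∈ D := by
    intro p
    rw [hM, AffineSubspace.mem_mk', vsub_eq_sub]
  have hLM : L ≤ M := by
    intro p hp
    rw [memM]
    exact Submodule.mem_sup_left (AffineSubspace.vsub_mem_direction hp hq)
  have memL : ∀ u ∈ L.direction, q + u ∈ L := by
    intro u hu
    have := AffineSubspace.vadd_mem_of_mem_direction hu hq
    rwa [vadd_eq_add, add_comm] at this
  have hxM : x ∈ M := by
    rw [memM]
    exact hv₀D
  set y : E := q + s • v₀ with hy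
  have hyM : y ∈ M := by
    rw [memM, hy, add_sub_cancel_left]
    exact D.smul_mem s hv₀D
  have hs' : 0 < 1 - s := by linarith
  have hB : 0 < K + C + 1 := by linarith
  -- the first radius
  obtain ⟨μ, hμ, hμ1, hμ2, hμ3⟩ : ∃ μ : ℝ, 0 < μ ∧ μ ≤ s ∧ μ ≤ (1 - s) / 2 ∧
      μ ≤ ρ * (1 - s) / 2 := by
    refine ⟨min s (min ((1 - s) / 2) (ρ * (1 - s) / 2)), ?_, min_le_left _ _, ?_, ?_⟩
    · refine lt_min hs0 (lt_min (by positivity) (by positivity))
    · exact (min_le_right _ _).trans (min_le_left _ _)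
    · exact (min_le_right _ _).trans (min_le_right _ _)
  have hρ₁ : 0 < μ / (K + C + 1) := div_pos hμ hB
  set ρ₁ : ℝ := μ / (K + C + 1) with hρ₁def
  have hρ₁e : (K + C + 1) * ρ₁ = μ := by
    rw [hρ₁def]
    field_simp
  have hCρ : C * ρ₁ ≤ μ := by nlinarith
  have hKρ : K * ρ₁ < μ := by nlinarith
  have hd : ∀ w ∈ (M : Set E), dist w y < ρ₁ → w ∈ closure (semi f Φ ∩ (M : Set E)) := by
    intro w hw hwy
    have hwM : w - q ∈ D := (memM w).1 hw
    have hvD : w - y ∈ D := by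
      have : w - y = (w - q) - s • v₀ := by
        rw [hy]
        abel
      rw [this]
      exact D.sub_mem hwM (D.smul_mem s hv₀D)
    obtain ⟨hu, hα, hun⟩ := hg (w - y) hvD
    set v : E := w - y with hv
    have hvn : ‖v‖ < ρ₁ := by
      rwa [dist_eq_norm] at hwy
    have hα' : |g v| ≤ μ := by
      refine hα.trans (le_trans ?_ hCρ)
      exact mul_le_mul_of_nonneg_left hvn.le hC
    have hun' : ‖v - g v • v₀‖ < μ := by
      refine lt_of_le_of_lt hun (lt_of_le_of_lt ?_ hKρ)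
      exact mul_le_mul_of_nonneg_left hvn.le hK.le
    obtain ⟨hα1, hα2⟩ := abs_le.1 hα'
    have h1s : (1 - s) / 2 ≤ 1 - (s + g v) := by linarith
    have h1s' : 0 < 1 - (s + g v) := by linarith
    have hq'L : q + (1 - (s + g v))⁻¹ • (v - g v • v₀) ∈ L :=
      memL _ (L.direction.smul_mem _ hu)
    have hq'd : dist (q + (1 - (s + g v))⁻¹ • (v - g v • v₀)) q < ρ := by
      rw [dist_eq_norm, add_sub_cancel_left, norm_smul, Real.norm_eq_abs,
        abs_of_pos (inv_pos.2 h1s'), inv_mul_lt_iff₀ h1s']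
      nlinarith
    have hcl := closure_of_ball (S := semi f Φ) hLM (r := r) hq'L (H _ hq'L hq'd) hx hxM
      (s := s + g v) (by linarith) (by linarith)
    have he : q + (1 - (s + g v))⁻¹ • (v - g v • v₀) +
        (s + g v) • (x - (q + (1 - (s + g v))⁻¹ • (v - g v • v₀))) = w := by
      have hxq : x = q + v₀ := by
        rw [hv₀, add_sub_cancel]
      have e1 : q + (1 - (s + g v))⁻¹ • (v - g v • v₀) +
          (s + g v) • (x - (q + (1 - (s + g v))⁻¹ • (v - g v • v₀))) =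
          q + ((1 - (s + g v)) * (1 - (s + g v))⁻¹) • (v - g v • v₀) + (s + g v) • v₀ := by
        rw [hxq]
        module
      rw [e1, mul_inv_cancel₀ h1s'.ne', one_smul]
      have e2 : w = y + v := by
        rw [hv]
        abel
      rw [e2, hy]
      module
    rwa [he] at hcl
  -- the second point
  obtain ⟨η, hη, hηρ⟩ : ∃ η : ℝ, 0 < η ∧ η * ‖v₀‖ < ρ₁ := by
    refine ⟨ρ₁ / (‖v₀‖ + 1), by positivity, ?_⟩
    rw [div_mul_eq_mul_div, div_lt_iff₀ (by positivity)]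
    nlinarith [norm_nonneg v₀]
  have hx₁M : y + η • v₀ ∈ (M : Set E) := by
    show y + η • v₀ ∈ M
    rw [memM]
    have : y + η • v₀ - q = (y - q) + η • v₀ := by abel
    rw [this]
    exact D.add_mem ((memM y).1 hyM) (D.smul_mem _ hv₀D)
  have hx₁y : dist (y + η • v₀) y < ρ₁ := by
    rw [dist_eq_norm, add_sub_cancel_left, norm_smul, Real.norm_eq_abs, abs_of_pos hη]
    exact hηρ
  obtain ⟨μ₂, hμ₂, hμ₂1, hμ₂2⟩ : ∃ μ₂ : ℝ, 0 < μ₂ ∧ μ₂ ≤ η / 2 ∧ μ₂ ≤ ρ * η / 2 :=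
    ⟨min (η / 2) (ρ * η / 2), lt_min (by positivity) (by positivity), min_le_left _ _,
      min_le_right _ _⟩
  have hρ₂ : 0 < μ₂ / (K + C + 1) := div_pos hμ₂ hB
  set ρ₂ : ℝ := μ₂ / (K + C + 1) with hρ₂def
  have hρ₂e : (K + C + 1) * ρ₂ = μ₂ := by
    rw [hρ₂def]
    field_simp
  have hCρ₂ : C * ρ₂ ≤ μ₂ := by nlinarith
  have hKρ₂ : K * ρ₂ < μ₂ := by nlinarith
  obtain ⟨x', hx'M, hx'd, ρ', hρ', hball⟩ := ball_of_dense hf (M : Set E) hd hx₁M hx₁y hρ₂
  have hx'q : x' - q ∈ D := (memM x').1 hx'M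
  have hv'D : x' - (y + η • v₀) ∈ D := by
    have : x' - (y + η • v₀) = (x' - q) - ((y + η • v₀) - q) := by abel
    rw [this]
    exact D.sub_mem hx'q ((memM _).1 hx₁M)
  obtain ⟨hu, hα, hun⟩ := hg (x' - (y + η • v₀)) hv'D
  set v : E := x' - (y + η • v₀) with hv
  have hvn : ‖v‖ < ρ₂ := by
    rwa [dist_eq_norm] at hx'd
  have hα' : |g v| ≤ μ₂ := by
    refine hα.trans (le_trans ?_ hCρ₂)
    exact mul_le_mul_of_nonneg_left hvn.le hC
  have hun' : ‖v - g v • v₀‖ < μ₂ := by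
    refine lt_of_le_of_lt hun (lt_of_le_of_lt ?_ hKρ₂)
    exact mul_le_mul_of_nonneg_left hvn.le hK.le
  obtain ⟨hα1, hα2⟩ := abs_le.1 hα'
  have hηα : η / 2 ≤ η + g v := by linarith
  have hηα' : 0 < η + g v := by linarith
  have hκ : 0 < s / (η + g v) := div_pos hs0 hηα'
  have hκe : s / (η + g v) * (η + g v) = s := by
    field_simp
  set κ : ℝ := s / (η + g v) with hκdef
  have hx'e : x' = y + η • v₀ + v := by
    rw [hv]
    abel
  have hq'e : y + κ • (y - x') = q + (-κ) • (v - g v • v₀) := by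
    have e1 : y + κ • (y - x') = q + (s - κ * (η + g v)) • v₀ + (-κ) • (v - g v • v₀) := by
      rw [hx'e, hy]
      module
    rw [e1, hκe, sub_self, zero_smul, add_zero]
  have hq'L : q + (-κ) • (v - g v • v₀) ∈ L := memL _ (L.direction.smul_mem _ hu)
  have hκle : κ * (η / 2) ≤ 1 := by
    have : κ * (η / 2) ≤ κ * (η + g v) := mul_le_mul_of_nonneg_left hηα hκ.le
    linarith
  have hq'd : dist (q + (-κ) • (v - g v • v₀)) q < ρ := by
    rw [dist_eq_norm, add_sub_cancel_left, norm_smul, Real.norm_eq_abs, abs_neg, abs_of_pos hκ]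
    have h1 : κ * ‖v - g v • v₀‖ < κ * μ₂ := mul_lt_mul_of_pos_left hun' hκ
    have h2 : κ * μ₂ ≤ κ * (ρ * η / 2) := mul_le_mul_of_nonneg_left hμ₂2 hκ.le
    have h3 : κ * (ρ * η / 2) ≤ ρ := by
      have : κ * (ρ * η / 2) = ρ * (κ * (η / 2)) := by ring
      rw [this]
      nlinarith
    linarith
  obtain ⟨z, t, ν, β, hcrt, hlt⟩ := not_hole (S := semi f Φ) hLM (r := r) hyM hyS
    (show x' ∈ M from hx'M) hρ' (fun w hw hwx => hball w hw hwx) hκ (by rw [hq'e]; exact hq'L)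
  rw [hq'e] at hlt
  exact absurd (H _ hq'L hq'd z t ν β hcrt) (not_le.2 hlt)

end Pool.Agent.LibStar4
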