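import Pool.Agent.LibStar4.Atoms

/-!
The class `∀ℝ` and the problem of the unique solution; formulas for lower bounds, and for the known upper
bound. (Definitions.)
-/

namespace Pool.Agent.LibStar4

open Pool.Agent.LibComplexity

/-- The true sentences `∀ y ∈ ℝᵐ, φ(y)`. -/
def TrueA : Set (List Bool) :=
  {w | ∃ (m : ℕ) (φ : Fml), w = word (m, φ.code) ∧ ∀ y : Fin m → ℝ, φ.holds (env y)}

/-- The class `∀ℝ` (the complements of the problems in `∃ℝ`). -/
def InA (L : Set (List Bool)) : Prop := PolyRed L TrueA

/-- The formulas with exactly one solution. -/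
def UNIQ : Set (List Bool) :=
  {w | ∃ (m : ℕ) (φ : Fml), w = word (m, φ.code) ∧ ∃! y : Fin m → ℝ, φ.holds (env y)}

/-- the solutions, lifted to a paraboloid -/
def liftF (n : ℕ) (φ : Fml) : Fml :=
  .and (φ.rename (ren n 0 (n + 1)))
    (.eq (Tm.sub (.var n) (Tm.sum ((List.range n).map fun j => Tm.sq (.var j)))))

/-- the origin, and the counterexamples (marked by the last variable) -/
def oneF (n : ℕ) (φ : Fml) : Fml :=
  .or (.and (.eq (.var n)) (Fml.conj ((List.range n).map fun j => .eq (.var j))))
    (.and (.eq (Tm.sub (.var n) to1)) (.neg (φ.rename (ren n 0 (n + 1)))))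

/-- the matrix of the sentence `∃ p, ∀ x y t, ...` that defines star-shaped sets -/
def eaF (n : ℕ) (φ : Fml) : Fml :=
  .and (φ.rename (ren n 0 (3 * n + 1)))
    (.or (.neg (φ.rename (ren n n (3 * n + 1))))
      (.or (.gt (Tm.sub tz (.var (3 * n))))
        (.or (.gt (Tm.sub (.var (3 * n)) to1))
          (.or (.neg (Fml.conj ((List.range n).map fun j =>
              .eq (Tm.sub (.var (2 * n + j)) (.add (.var j)
                (.mul (.var (3 * n)) (Tm.sub (.var (n + j)) (.var j))))))))
            (φ.rename (ren n (2 * n) (3 * n + 1)))))))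

end Pool.Agent.LibStar4
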