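import Pool.Agent.LibStar4.Low

namespace Pool.Agent.LibStar4

theorem lowA_ren (n : ℕ) (φ : Fml) (y : Fin (n + 1) → ℝ) :
    (φ.rename (ren n 0 (n + 1))).holds (env y) ↔ φ.holds (env fun j : Fin n => y j.castSucc) := by
  rw [mem_rename (n + 1) 0 (env y) (fun j : Fin n => y j.castSucc) φ]
  · rfl
  · intro j
    have hj : 0 + (j : ℕ) < n + 1 := by omega
    unfold env
    rw [dif_pos hj]
    congr 1
    apply Fin.ext
    simp
  · intro v hv
    unfold env
    rw [dif_neg (by omega)]

theorem lowA_last (n : ℕ) (y : Fin (n + 1) → ℝ) : env y n = y (Fin.last n) := by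
  unfold env
  rw [dif_pos (Nat.lt_succ_self n)]
  rfl

theorem lowA_cast (n : ℕ) (y : Fin (n + 1) → ℝ) (j : Fin n) : env y (j : ℕ) = y j.castSucc := by
  have hj : (j : ℕ) < n + 1 := by omega
  unfold env
  rw [dif_pos hj]
  rfl

theorem lowA_lift (n : ℕ) (φ : Fml) (y : Fin (n + 1) → ℝ) :
    (liftF n φ).holds (env y) ↔ φ.holds (env fun j : Fin n => y j.castSucc) ∧
      y (Fin.last n) = ∑ j : Fin n, y j.castSucc ^ 2 := by
  unfold liftF
  simp only [Fml.holds, lowA_ren, eval_sub, Tm.eval, lowA_last]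
  rw [eval_sum, List.map_map, sum_map_range]
  simp only [Function.comp, Tm.sq, Tm.eval, lowA_cast]
  refine and_congr_right fun _ => ?_
  constructor
  · intro h
    rw [sub_eq_zero.1 h]
    exact Finset.sum_congr rfl fun j _ => by ring
  · intro h
    rw [h, sub_eq_zero]
    exact Finset.sum_congr rfl fun j _ => by ring

theorem lowA_to1 (v : ℕ → ℝ) : to1.eval v = 1 := by simp [to1, Tm.eval, bin]

theorem lowA_one (n : ℕ) (φ : Fml) (y : Fin (n + 1) → ℝ) :
    (oneF n φ).holds (env y) ↔ (y (Fin.last n) = 0 ∧ ∀ j : Fin n, y j.castSucc = 0) ∨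
      (y (Fin.last n) = 1 ∧ ¬ φ.holds (env fun j : Fin n => y j.castSucc)) := by
  unfold oneF
  simp only [Fml.holds, lowA_ren, eval_sub, Tm.eval, lowA_last, lowA_to1, holds_conj,
    List.mem_map, List.mem_range]
  refine or_congr (and_congr_right fun _ => ?_) (and_congr_left fun _ => sub_eq_zero)
  constructor
  · intro h j
    have h1 := h _ ⟨(j : ℕ), j.2, rfl⟩
    simp only [Fml.holds, Tm.eval, lowA_cast] at h1
    exact h1
  · rintro h _ ⟨j, hj, rfl⟩
    simp only [Fml.holds, Tm.eval]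
    have h1 := lowA_cast n y ⟨j, hj⟩
    simp only at h1
    rw [h1]
    exact h ⟨j, hj⟩

/-- The lifted set is star-shaped iff there is exactly one solution: the set is
`{(x, s) | φ(x), s = ∑ x_j²}` (`mem_rename`/`env_ren` of `Out.lean`); if it contains `p ≠ x`, then the
midpoint of `p` and `x` is not on the paraboloid. -/
theorem liftF_spec (n : ℕ) (φ : Fml) :
    StarShaped (semiSet (n + 1) (liftF n φ)) ↔ ∃! y : Fin n → ℝ, φ.holds (env y) := by
  have hmem : ∀ y : Fin (n + 1) → ℝ, y ∈ semiSet (n + 1) (liftF n φ) ↔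
      φ.holds (env fun j : Fin n => y j.castSucc) ∧
        y (Fin.last n) = ∑ j : Fin n, y j.castSucc ^ 2 := fun y => lowA_lift n φ y
  constructor
  · rintro ⟨p, hp, hstar⟩
    have hp' := (hmem p).1 hp
    refine ⟨fun j : Fin n => p j.castSucc, hp'.1, ?_⟩
    intro y hy
    set q : Fin (n + 1) → ℝ := Fin.snoc (α := fun _ => ℝ) y (∑ j : Fin n, y j ^ 2) with hq
    have hqc : ∀ j : Fin n, q j.castSucc = y j := fun j => by rw [hq, Fin.snoc_castSucc]
    have hql : q (Fin.last n) = ∑ j : Fin n, y j ^ 2 := by rw [hq, Fin.snoc_last]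
    have hqS : q ∈ semiSet (n + 1) (liftF n φ) := by
      rw [hmem]
      simp only [hqc, hql]
      exact ⟨hy, trivial⟩
    have hmid := (hmem _).1 (hstar q hqS (1 / 2) (by norm_num) (by norm_num))
    have h2 := hmid.2
    simp only [Pi.add_apply, Pi.smul_apply, Pi.sub_apply, smul_eq_mul, hqc, hql, hp'.2] at h2
    have h3 : ∑ j : Fin n, (y j - p j.castSucc) ^ 2 = 0 := by
      have e : ∀ j : Fin n, (p j.castSucc + 1 / 2 * (y j - p j.castSucc)) ^ 2 =
          1 / 2 * p j.castSucc ^ 2 + 1 / 2 * y j ^ 2 - 1 / 4 * (y j - p j.castSucc) ^ 2 := by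
        intro j
        ring
      rw [Finset.sum_congr rfl fun j _ => e j] at h2
      rw [Finset.sum_sub_distrib, Finset.sum_add_distrib, ← Finset.mul_sum, ← Finset.mul_sum,
        ← Finset.mul_sum] at h2
      linarith
    have h4 := (Finset.sum_eq_zero_iff_of_nonneg fun j _ => sq_nonneg (y j - p j.castSucc)).1 h3
    funext j
    have h5 := h4 j (Finset.mem_univ j)
    have h6 : y j - p j.castSucc = 0 := by
      rcases sq_eq_zero_iff.1 h5 with h
      exact h
    linarith
  · rintro ⟨x, hx, huniq⟩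
    refine ⟨Fin.snoc (α := fun _ => ℝ) x (∑ j : Fin n, x j ^ 2), ?_, ?_⟩
    · rw [hmem]
      simp only [Fin.snoc_castSucc, Fin.snoc_last]
      exact ⟨hx, trivial⟩
    · intro y hy t _ _
      have hy' := (hmem y).1 hy
      have e := huniq _ hy'.1
      have e2 : y = Fin.snoc (α := fun _ => ℝ) x (∑ j : Fin n, x j ^ 2) := by
        funext k
        refine Fin.lastCases ?_ (fun j => ?_) k
        · rw [hy'.2, Fin.snoc_last, ← e]
        · rw [Fin.snoc_castSucc, ← e]
      rw [← e2, sub_self, smul_zero, add_zero]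
      exact hy

/-- the solutions of `oneF n φ` are the origin and the points `(x, 1)` with `¬ φ(x)` -/
theorem oneF_spec (n : ℕ) (φ : Fml) :
    (∃! y : Fin (n + 1) → ℝ, (oneF n φ).holds (env y)) ↔ ∀ y : Fin n → ℝ, φ.holds (env y) := by
  have h0 : (oneF n φ).holds (env (0 : Fin (n + 1) → ℝ)) := by
    rw [lowA_one]
    exact Or.inl ⟨rfl, fun _ => rfl⟩
  constructor
  · rintro ⟨z, hz, huniq⟩ y
    by_contra hy
    have h1 : (oneF n φ).holds (env (Fin.snoc (α := fun _ => ℝ) y 1 : Fin (n + 1) → ℝ)) := by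
      rw [lowA_one]
      simp only [Fin.snoc_castSucc, Fin.snoc_last]
      exact Or.inr ⟨trivial, hy⟩
    have e1 := huniq _ h0
    have e2 := huniq _ h1
    have e3 := congrFun (e1.trans e2.symm) (Fin.last n)
    rw [Fin.snoc_last] at e3
    simp at e3
  · intro hφ
    refine ⟨0, h0, ?_⟩
    intro y hy
    rcases (lowA_one n φ y).1 hy with ⟨h1, h2⟩ | ⟨_, h2⟩
    · funext k
      refine Fin.lastCases ?_ (fun j => ?_) k
      · exact h1
      · exact h2 j
    · exact absurd (hφ _) h2

end Pool.Agent.LibStar4
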