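import Pool.Agent.LibStar4.LowA
import Pool.Agent.LibStar4.VaD

namespace Pool.Agent.LibStar4

open Pool.Agent.LibComplexity

/-- A reduction between problems that are given by formulas: map `w` to
`word (N n, (T n φ).code)` if `w = word (n, φ.code)` (`ptf_eqW`, `okC`), otherwise to
`word (n₀, φ₀.code)`. Compare `red_of_sentences` in `VaD.lean`. -/
theorem red_formulas {L L' : Set (List Bool)} {P P' : ℕ → Fml → Prop}
    (hL : ∀ w, w ∈ L ↔ ∃ n φ, w = word (n, Fml.code φ) ∧ P n φ)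
    (hL' : ∀ w, w ∈ L' ↔ ∃ n φ, w = word (n, Fml.code φ) ∧ P' n φ) {N : ℕ → ℕ}
    (hN : PTf {(∅ : Orc)} (fun _ n => N n)) {T : ℕ → Fml → Fml}
    (hT : PF {(∅ : Orc)} (fun _ (x : ℕ × List Tok) => T x.1 (fmlOf x.2)))
    (h : ∀ n φ, P n φ ↔ P' (N n) (T n φ)) {n₀ : ℕ} {φ₀ : Fml} (h₀ : ¬ P' n₀ φ₀) :
    PolyRed L L' := by
  have hmem : ∀ n φ, word (n, Fml.code φ) ∈ L' ↔ P' n φ := by
    intro n φ
    rw [hL']
    constructor
    · rintro ⟨n', φ', hw, hP⟩
      have h1 := word_injective hw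
      simp only [Prod.mk.injEq] at h1
      obtain ⟨rfl, h2⟩ := h1
      rw [code_injective h2]
      exact hP
    · intro hP
      exact ⟨n, φ, rfl, hP⟩
  have hr : PTf {(∅ : Orc)} (fun _ (w : List Bool) => read (ℕ × List Tok) w) := PTf.read PTf.id
  have hT' : PTf {(∅ : Orc)} (fun _ (x : ℕ × List Tok) => (T x.1 (fmlOf x.2)).code) := hT
  let g : List Bool → Bool := fun w => decide (word (read (ℕ × List Tok) w) = w) &&
    okC (read (ℕ × List Tok) w).2
  let f : List Bool → List Bool := fun w =>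
    if g w = true then
      word (N (read (ℕ × List Tok) w).1,
        (T (read (ℕ × List Tok) w).1 (fmlOf (read (ℕ × List Tok) w).2)).code)
    else word (n₀, φ₀.code)
  have hg : PTf {(∅ : Orc)} (fun _ w => g w) :=
    (ptf_eqW (PTf.word hr) PTf.id).band (ptf_okC hr.snd)
  have hf : PTf {(∅ : Orc)} (fun _ w => f w) :=
    hg.ite (PTf.word ((hN.comp hr.fst).pair (hT'.comp hr))) (PTf.const _)
  refine ⟨f, inFP_of_PTf hf, fun w => ?_⟩
  rw [hL w]
  constructor
  · rintro ⟨n, φ, rfl, hP⟩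
    have h1 : read (ℕ × List Tok) (word (n, φ.code)) = (n, φ.code) := by
      have := read_word ((n, φ.code) : ℕ × List Tok) []
      rwa [List.append_nil] at this
    have h2 : g (word (n, φ.code)) = true := by
      simp only [g, h1, (okC_iff _).2 ⟨φ, rfl⟩, decide_true, Bool.and_true]
    have h3 : f (word (n, φ.code)) = word (N n, (T n φ).code) := by
      simp only [f, if_pos h2, h1, fmlOf_code]
    rw [h3, hmem]
    exact (h n φ).1 hP
  · intro hw
    by_cases h2 : g w = true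
    · have h3 : f w = word (N (read (ℕ × List Tok) w).1,
          (T (read (ℕ × List Tok) w).1 (fmlOf (read (ℕ × List Tok) w).2)).code) := by
        simp only [f, if_pos h2]
      rw [h3, hmem] at hw
      simp only [g, Bool.and_eq_true, decide_eq_true_eq] at h2
      obtain ⟨φ, hφ⟩ := (okC_iff _).1 h2.2
      rw [← hφ, fmlOf_code] at hw
      refine ⟨(read (ℕ × List Tok) w).1, φ, ?_, (h _ φ).2 hw⟩
      rw [hφ]
      exact h2.1.symm
    · have h3 : f w = word (n₀, φ₀.code) := by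
        simp only [f, if_neg h2]
      rw [h3, hmem] at hw
      exact absurd hw h₀

theorem LowB_pf_liftF {n : Orc → ℕ × List Tok → ℕ} {φ : Orc → ℕ × List Tok → Fml}
    (hn : PTf {(∅ : Orc)} n) (hφ : PF {(∅ : Orc)} φ) :
    PF {(∅ : Orc)} (fun A x => liftF (n A x) (φ A x)) := by
  unfold liftF
  have hn1 : PTf {(∅ : Orc)} (fun A x => n A x + 1) := hn.add (PTf.const 1)
  have hj' : PTf {(∅ : Orc)} (fun _ (p : (ℕ × List Tok) × ℕ) => p.2) := PTf.id.snd
  exact PF.and (PF.rename hn (PTf.const 0) hn1 hφ)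
    (PF.eq ((PT.var hn).sub (PT.sum hn.range (PT.var hj').sq)))

theorem LowB_pf_oneF {n : Orc → ℕ × List Tok → ℕ} {φ : Orc → ℕ × List Tok → Fml}
    (hn : PTf {(∅ : Orc)} n) (hφ : PF {(∅ : Orc)} φ) :
    PF {(∅ : Orc)} (fun A x => oneF (n A x) (φ A x)) := by
  unfold oneF
  have hn1 : PTf {(∅ : Orc)} (fun A x => n A x + 1) := hn.add (PTf.const 1)
  have hj' : PTf {(∅ : Orc)} (fun _ (p : (ℕ × List Tok) × ℕ) => p.2) := PTf.id.snd
  exact PF.or (PF.and (PF.eq (PT.var hn)) (PF.conj hn.range (PF.eq (PT.var hj'))))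
    (PF.and (PF.eq ((PT.var hn).sub (PT.cst to1)))
      (PF.neg (PF.rename hn (PTf.const 0) hn1 hφ)))

/-- The problem of the unique solution reduces to STAR (`liftF_spec`; `n₀ = 0`, `φ₀ = .gt tz`). -/
theorem uniq_red : PolyRed UNIQ STAR := by
  refine red_formulas (P := fun n φ => ∃! y : Fin n → ℝ, φ.holds (env y))
    (P' := fun n φ => StarShaped (semiSet n φ)) (N := fun n => n + 1) (T := liftF)
    (n₀ := 0) (φ₀ := .gt tz) (fun w => Iff.rfl) (fun w => Iff.rfl)
    (PTf.id.add (PTf.const 1)) (LowB_pf_liftF PTf.id.fst (pf_fmlOf PTf.id.snd))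
    (fun n φ => (liftF_spec n φ).symm) ?_
  rintro ⟨p, hp, -⟩
  have hp' : (Fml.gt tz).holds (env p) := hp
  simp only [Fml.holds, eval_tz, lt_self_iff_false] at hp'

/-- The problems in `∀ℝ` reduce to the problem of the unique solution (`oneF_spec`). -/
theorem trueA_red : PolyRed TrueA UNIQ := by
  refine red_formulas (P := fun n φ => ∀ y : Fin n → ℝ, φ.holds (env y))
    (P' := fun n φ => ∃! y : Fin n → ℝ, φ.holds (env y)) (N := fun n => n + 1) (T := oneF)
    (n₀ := 0) (φ₀ := .gt tz) (fun w => Iff.rfl) (fun w => Iff.rfl)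
    (PTf.id.add (PTf.const 1)) (LowB_pf_oneF PTf.id.fst (pf_fmlOf PTf.id.snd))
    (fun n φ => (oneF_spec n φ).symm) ?_
  rintro ⟨p, hp, -⟩
  simp only [Fml.holds, eval_tz, lt_self_iff_false] at hp

end Pool.Agent.LibStar4
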