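import Pool.Agent.LibStar4.Low

namespace Pool.Agent.LibStar4

theorem LowC_to1 (V : ℕ → ℝ) : to1.eval V = 1 := by simp [to1, Tm.eval, bin]

theorem LowC_var (V : ℕ → ℝ) (i : ℕ) : (Tm.var i).eval V = V i := rfl

theorem LowC_holds (n : ℕ) (φ : Fml) (V : ℕ → ℝ) (p x y : Fin n → ℝ) (t : ℝ)
    (hp : ∀ j : Fin n, V (0 + j) = p j) (hx : ∀ j : Fin n, V (n + j) = x j)
    (hy : ∀ j : Fin n, V (2 * n + j) = y j) (ht : V (3 * n) = t)
    (hfar : ∀ v, 3 * n + 1 ≤ v → V v = 0) :
    (eaF n φ).holds V ↔ (p ∈ semiSet n φ ∧ (x ∉ semiSet n φ ∨ t < 0 ∨ 1 < t ∨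
      ¬ (y = p + t • (x - p)) ∨ y ∈ semiSet n φ)) := by
  have e1 := mem_rename (3 * n + 1) 0 V p φ hp hfar
  have e2 := mem_rename (3 * n + 1) n V x φ hx hfar
  have e3 := mem_rename (3 * n + 1) (2 * n) V y φ hy hfar
  unfold eaF
  simp only [Fml.holds, holds_conj, List.mem_map, List.mem_range, e1, e2, e3, eval_sub, eval_tz,
    LowC_to1, LowC_var, ht]
  refine and_congr_right fun _ => or_congr Iff.rfl (or_congr ?_ (or_congr ?_
    (or_congr (not_congr ?_) Iff.rfl)))
  · constructor <;> intro h <;> linarith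
  · constructor <;> intro h <;> linarith
  · constructor
    · intro h
      funext j
      have := h _ ⟨(j : ℕ), j.2, rfl⟩
      simp only [Fml.holds, eval_sub, LowC_var, Tm.eval] at this
      have hp' := hp j
      rw [Nat.zero_add] at hp'
      rw [hy j, hp', ht, hx j] at this
      simp only [Pi.add_apply, Pi.smul_apply, Pi.sub_apply, smul_eq_mul]
      linarith
    · rintro h _ ⟨j, hj, rfl⟩
      simp only [Fml.holds, eval_sub, LowC_var, Tm.eval]
      have hp' := hp ⟨j, hj⟩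
      have hx' := hx ⟨j, hj⟩
      have hy' := hy ⟨j, hj⟩
      simp only [Nat.zero_add] at hp' hx' hy'
      rw [hy', hp', ht, hx', h]
      simp only [Pi.add_apply, Pi.smul_apply, Pi.sub_apply, smul_eq_mul]
      ring

/-- the definition of star-shaped sets as a sentence: `v = (x, y, t)`, `y = p + t (x - p)`
(`mem_rename` of `Out.lean`, `env₂_left`, `env₂_right`, `env₂_far` of `Sent.lean`) -/
theorem eaF_spec (n : ℕ) (φ : Fml) : StarShaped (semiSet n φ) ↔
    ∃ p : Fin n → ℝ, ∀ v : Fin (2 * n + 1) → ℝ, (eaF n φ).holds (env₂ p v) := by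
  have key : ∀ (p : Fin n → ℝ) (v : Fin (2 * n + 1) → ℝ),
      (eaF n φ).holds (env₂ p v) ↔ (p ∈ semiSet n φ ∧
        ((fun j : Fin n => v ⟨(j : ℕ), by omega⟩) ∉ semiSet n φ ∨
          v ⟨2 * n, by omega⟩ < 0 ∨ 1 < v ⟨2 * n, by omega⟩ ∨
      ¬ ((fun j : Fin n => v ⟨n + (j : ℕ), by omega⟩) =
        p + v ⟨2 * n, by omega⟩ • ((fun j : Fin n => v ⟨(j : ℕ), by omega⟩) - p)) ∨
        (fun j : Fin n => v ⟨n + (j : ℕ), by omega⟩) ∈ semiSet n φ)) := by
    intro p v
    apply LowC_holds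
    · intro j
      rw [Nat.zero_add]
      exact env₂_left p v j j.2
    · intro j
      exact env₂_right p v j (by omega)
    · intro j
      have h := env₂_right p v (n + j) (by omega)
      rw [← h]; congr 1; omega
    · have h := env₂_right p v (2 * n) (by omega)
      rw [← h]; congr 1; omega
    · intro w hw
      exact env₂_far p v w (by omega)
  constructor
  · rintro ⟨p, hp, h⟩
    refine ⟨p, fun v => (key p v).2 ⟨hp, ?_⟩⟩
    by_cases h1 : (fun j : Fin n => v ⟨(j : ℕ), by omega⟩) ∈ semiSet n φ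
    swap
    · exact Or.inl h1
    by_cases h2 : v ⟨2 * n, by omega⟩ < 0
    · exact Or.inr (Or.inl h2)
    by_cases h3 : 1 < v ⟨2 * n, by omega⟩
    · exact Or.inr (Or.inr (Or.inl h3))
    by_cases h4 : ((fun j : Fin n => v ⟨n + (j : ℕ), by omega⟩) =
        p + v ⟨2 * n, by omega⟩ • ((fun j : Fin n => v ⟨(j : ℕ), by omega⟩) - p))
    swap
    · exact Or.inr (Or.inr (Or.inr (Or.inl h4)))
    refine Or.inr (Or.inr (Or.inr (Or.inr ?_)))
    rw [h4]
    exact h _ h1 _ (not_lt.1 h2) (not_lt.1 h3)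
  · rintro ⟨p, h⟩
    have hp : p ∈ semiSet n φ := ((key p (fun _ => 0)).1 (h _)).1
    refine ⟨p, hp, fun x hx t ht0 ht1 => ?_⟩
    set y : Fin n → ℝ := p + t • (x - p) with hy
    set v : Fin (2 * n + 1) → ℝ := fun i =>
      if h : (i : ℕ) < n then x ⟨i, h⟩ else
        if h' : (i : ℕ) - n < n then y ⟨(i : ℕ) - n, h'⟩ else t with hv
    have vx : (fun j : Fin n => v ⟨(j : ℕ), by omega⟩) = x := by
      funext j
      simp only [hv, j.2, dif_pos]
    have vy : (fun j : Fin n => v ⟨n + (j : ℕ), by omega⟩) = y := by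
      funext j
      have h1 : ¬ (n + (j : ℕ) < n) := by omega
      have h2 : n + (j : ℕ) - n < n := by omega
      simp only [hv, h1, h2, dif_neg, dif_pos, not_false_eq_true]
      congr 1
      exact Fin.ext (by simp)
    have vt : v ⟨2 * n, by omega⟩ = t := by
      have h1 : ¬ (2 * n < n) := by omega
      have h2 : ¬ (2 * n - n < n) := by omega
      simp only [hv, h1, h2, dif_neg, not_false_eq_true]
    have hk := ((key p v).1 (h v)).2
    rw [vx, vy, vt] at hk
    rcases hk with hk | hk | hk | hk | hk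
    · exact absurd hx hk
    · exact absurd hk (not_lt.2 ht0)
    · exact absurd hk (not_lt.2 ht1)
    · exact absurd hy hk
    · exact hk

end Pool.Agent.LibStar4
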