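import Pool.Agent.LibStar4.LowC
import Pool.Agent.LibStar4.VaD

namespace Pool.Agent.LibStar4

open Pool.Agent.LibComplexity

theorem LowD_mem_TrueEA (k m : ℕ) (φ : Fml) :
    word (k, m, φ.code) ∈ TrueEA ↔
      ∃ x : Fin k → ℝ, ∀ y : Fin m → ℝ, φ.holds (env₂ x y) := by
  constructor
  · rintro ⟨k', m', ψ, hw, h⟩
    have h1 := word_injective hw
    simp only [Prod.mk.injEq] at h1
    obtain ⟨rfl, rfl, h2⟩ := h1
    rw [code_injective h2]
    exact h
  · intro h
    exact ⟨k, m, φ, rfl, h⟩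

/-- the analogue of `red_of_sentences` for the class `∃∀ℝ` -/
theorem red_of_sentencesEA {β : Type} [Enc β] [Dec β] {L : Set (List Bool)} {k m : β → ℕ}
    {ψ : β → Fml} {ok : β → Bool}
    (hk : PTf {(∅ : Orc)} (fun _ x => k x)) (hm : PTf {(∅ : Orc)} (fun _ x => m x))
    (hψ : PF {(∅ : Orc)} (fun _ x => ψ x)) (hok : PTf {(∅ : Orc)} (fun _ x => ok x))
    (h : ∀ w, w ∈ L ↔ ∃ x, w = word x ∧ ok x = true ∧
      ∃ U : Fin (k x) → ℝ, ∀ Y : Fin (m x) → ℝ, (ψ x).holds (env₂ U Y)) : InEA L := by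
  have hr : PTf {(∅ : Orc)} (fun _ (w : List Bool) => read β w) := PTf.read PTf.id
  have hψ' : PTf {(∅ : Orc)} (fun _ x => (ψ x).code) := hψ
  let g : List Bool → Bool := fun w => decide (word (read β w) = w) && ok (read β w)
  let f : List Bool → List Bool := fun w =>
    if g w = true then
      word (k (read β w), m (read β w), (ψ (read β w)).code)
    else word ((0 : ℕ), (0 : ℕ), (Fml.gt tz).code)
  have hg : PTf {(∅ : Orc)} (fun _ w => g w) :=
    (ptf_eqW (PTf.word hr) PTf.id).band (hok.comp hr)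
  have hf : PTf {(∅ : Orc)} (fun _ w => f w) :=
    hg.ite (PTf.word ((hk.comp hr).pair ((hm.comp hr).pair (hψ'.comp hr)))) (PTf.const _)
  refine ⟨f, inFP_of_PTf hf, fun w => ?_⟩
  rw [h w]
  constructor
  · rintro ⟨x, rfl, hx, hU⟩
    have h1 : read β (word x) = x := by
      have := read_word x []
      rwa [List.append_nil] at this
    have h2 : g (word x) = true := by
      simp only [g, h1, hx, decide_true, Bool.and_true]
    have h3 : f (word x) = word (k x, m x, (ψ x).code) := by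
      simp only [f, if_pos h2, h1]
    rw [h3, LowD_mem_TrueEA]
    exact hU
  · intro hw
    by_cases h2 : g w = true
    · have h3 : f w = word (k (read β w), m (read β w), (ψ (read β w)).code) := by
        simp only [f, if_pos h2]
      rw [h3, LowD_mem_TrueEA] at hw
      simp only [g, Bool.and_eq_true, decide_eq_true_eq] at h2
      exact ⟨read β w, h2.1.symm, h2.2, hw⟩
    · have h3 : f w = word ((0 : ℕ), (0 : ℕ), (Fml.gt tz).code) := by
        simp only [f, if_neg h2]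
      rw [h3, LowD_mem_TrueEA] at hw
      obtain ⟨U, hU⟩ := hw
      have := hU (fun i => i.elim0)
      simp only [Fml.holds, eval_tz, lt_self_iff_false] at this

theorem LowD_pf_eaF {n : Orc → ℕ × List Tok → ℕ} {φ : Orc → ℕ × List Tok → Fml}
    (hn : PTf {(∅ : Orc)} n) (hφ : PF {(∅ : Orc)} φ) :
    PF {(∅ : Orc)} (fun A x => eaF (n A x) (φ A x)) := by
  unfold eaF
  have h2n : PTf {(∅ : Orc)} (fun A x => 2 * n A x) := (PTf.const 2).mul hn
  have h3n : PTf {(∅ : Orc)} (fun A x => 3 * n A x) := (PTf.const 3).mul hn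
  have h3n1 : PTf {(∅ : Orc)} (fun A x => 3 * n A x + 1) := h3n.add (PTf.const 1)
  have hn' : PTf {(∅ : Orc)} (fun A (p : (ℕ × List Tok) × ℕ) => n A p.1) := hn.comp PTf.id.fst
  have hj' : PTf {(∅ : Orc)} (fun _ (p : (ℕ × List Tok) × ℕ) => p.2) := PTf.id.snd
  refine PF.and (PF.rename hn (PTf.const 0) h3n1 hφ) (PF.or (PF.neg (PF.rename hn hn h3n1 hφ))
    (PF.or (PF.gt ((PT.cst tz).sub (PT.var h3n)))
      (PF.or (PF.gt ((PT.var h3n).sub (PT.cst to1)))
        (PF.or (PF.neg (PF.conj hn.range (PF.eq ?_))) (PF.rename hn h2n h3n1 hφ)))))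
  exact (PT.var (((PTf.const 2).mul hn').add hj')).sub ((PT.var hj').add
    ((PT.var ((PTf.const 3).mul hn')).mul ((PT.var (hn'.add hj')).sub (PT.var hj'))))

/-- STAR is in the class `∃∀ℝ` (known); compare `star_inAE` in `Comp.lean`. -/
theorem star_inEA : InEA STAR := by
  refine red_of_sentencesEA (β := ℕ × List Tok) (k := fun x => x.1)
    (m := fun x => 2 * x.1 + 1) (ψ := fun x => eaF x.1 (fmlOf x.2))
    (ok := fun x => okC x.2) PTf.id.fst (((PTf.const 2).mul PTf.id.fst).add (PTf.const 1))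
    (LowD_pf_eaF PTf.id.fst (pf_fmlOf PTf.id.snd)) (ptf_okC PTf.id.snd) ?_
  intro w
  constructor
  · rintro ⟨n, φ, rfl, hst⟩
    refine ⟨(n, φ.code), rfl, (okC_iff _).2 ⟨φ, rfl⟩, ?_⟩
    show ∃ U : Fin n → ℝ, ∀ Y : Fin (2 * n + 1) → ℝ,
      (eaF n (fmlOf φ.code)).holds (env₂ U Y)
    rw [fmlOf_code]
    exact (eaF_spec n φ).1 hst
  · rintro ⟨⟨n, l⟩, rfl, hok, h⟩
    obtain ⟨φ, rfl⟩ := (okC_iff _).1 hok
    have h' : ∃ U : Fin n → ℝ, ∀ Y : Fin (2 * n + 1) → ℝ,
      (eaF n (fmlOf φ.code)).holds (env₂ U Y) := h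
    rw [fmlOf_code] at h'
    exact ⟨n, φ, rfl, (eaF_spec n φ).2 h'⟩

end Pool.Agent.LibStar4
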