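import Pool.Agent.LibStar4.Out

/-!
Unique readability, and the truth of the sentence of the reduction.
-/

open Set

namespace Pool.Agent.LibStar4

open Pool.Agent.LibComplexity

/-! ### Unique readability -/

/-- one step of the evaluation of a postfix word -/
def pstep (s : List (Tm ⊕ Fml)) (q : Tok) : List (Tm ⊕ Fml) :=
  match q.1, s with
  | 0, s => .inl (.const q.2.1 q.2.2) :: s
  | 1, .inl b :: .inl a :: s => .inl (.add a b) :: s
  | 2, .inl b :: .inl a :: s => .inl (.mul a b) :: s
  | 3, .inl a :: s => .inr (.eq a) :: s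
  | 4, .inl a :: s => .inr (.gt a) :: s
  | 5, .inl a :: s => .inr (.ge a) :: s
  | 6, .inr a :: s => .inr (.neg a) :: s
  | 7, .inr b :: .inr a :: s => .inr (.and a b) :: s
  | 8, .inr b :: .inr a :: s => .inr (.or a b) :: s
  | k + 9, s => .inl (.var k) :: s
  | _, s => s

theorem pstep_tm (t : Tm) : ∀ s, t.code.foldl pstep s = .inl t :: s := by
  induction t with
  | var i => intro s; rfl
  | const s b => intro s; rfl
  | add a b iha ihb => intro s; simp only [Tm.code, List.foldl_append, iha, ihb]; rfl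
  | mul a b iha ihb => intro s; simp only [Tm.code, List.foldl_append, iha, ihb]; rfl

theorem pstep_fml (t : Fml) : ∀ s, t.code.foldl pstep s = .inr t :: s := by
  induction t with
  | eq t => intro s; simp only [Fml.code, List.foldl_append, pstep_tm]; rfl
  | gt t => intro s; simp only [Fml.code, List.foldl_append, pstep_tm]; rfl
  | ge t => intro s; simp only [Fml.code, List.foldl_append, pstep_tm]; rfl
  | neg φ ih => intro s; simp only [Fml.code, List.foldl_append, ih]; rfl
  | and φ ψ ih1 ih2 => intro s; simp only [Fml.code, List.foldl_append, ih1, ih2]; rfl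
  | or φ ψ ih1 ih2 => intro s; simp only [Fml.code, List.foldl_append, ih1, ih2]; rfl

theorem code_injective {φ ψ : Fml} (h : φ.code = ψ.code) : φ = ψ := by
  have h1 := pstep_fml φ []
  rw [h, pstep_fml ψ []] at h1
  simpa using h1.symm

theorem mem_TrueAE (k m : ℕ) (φ : Fml) :
    word (k, m, φ.code) ∈ TrueAE ↔
      ∀ x : Fin k → ℝ, ∃ y : Fin m → ℝ, φ.holds (env₂ x y) := by
  constructor
  · rintro ⟨k', m', ψ, hw, h⟩
    have h1 := word_injective hw
    simp only [Prod.mk.injEq] at h1
    obtain ⟨rfl, rfl, h2⟩ := h1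
    rw [code_injective h2]
    exact h
  · intro h
    exact ⟨k, m, φ, rfl, h⟩

/-! ### The sentence -/

variable {n L : ℕ}

/-- the existential block -/
def blkE (w x p : Fin n → ℝ) (s : Fin L → ℝ) (k : Fin (3 * n + L)) : ℝ :=
  if h : (k : ℕ) < n then w ⟨k, h⟩
  else if h' : (k : ℕ) < n + n then x ⟨k - n, by omega⟩
  else if h'' : (k : ℕ) < n + n + n then p ⟨k - (n + n), by omega⟩
  else s ⟨k - 3 * n, by have := k.2; omega⟩

theorem env₂_left {k m : ℕ} (x : Fin k → ℝ) (y : Fin m → ℝ) (i : ℕ) (h : i < k) :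
    env₂ x y i = x ⟨i, h⟩ := dif_pos h

theorem env₂_right {k m : ℕ} (x : Fin k → ℝ) (y : Fin m → ℝ) (i : ℕ) (h : i < m) :
    env₂ x y (k + i) = y ⟨i, h⟩ := by
  unfold env₂
  rw [dif_neg (by omega), dif_pos (by omega)]
  congr 1
  exact Fin.ext (by simp)

theorem env₂_far {k m : ℕ} (x : Fin k → ℝ) (y : Fin m → ℝ) (i : ℕ) (h : k + m ≤ i) :
    env₂ x y i = 0 := by
  unfold env₂
  rw [dif_neg (by omega), dif_neg (by omega)]

theorem sentence_iff (κ φ : Fml) (R : (Fin n → ℝ) → (Fin L → ℝ) → Prop)
    (hκ : ∀ (V : ℕ → ℝ) (p : Fin n → ℝ) (s : Fin L → ℝ),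
      (∀ j : Fin n, V (nU n + (n + n + j)) = p j) →
      (∀ k : Fin L, V (nU n + (3 * n + k)) = s k) → (κ.holds V ↔ R p s)) :
    (∀ u : Fin (nU n) → ℝ, ∃ y : Fin (3 * n + L) → ℝ,
      (outF n (nU n + (3 * n + L)) κ φ).holds (env₂ u y)) ↔
    ∀ z c : Fin (n + 1) → Fin n → ℝ, ∃ w x p,
      Matr (semiSet n φ) {p | ∃ s, R p s} z c w x p := by
  have hzlt : ∀ (i : Fin (n + 1)) (j : Fin n), vz n i j < nU n := fun i j => by
    have := idx_lt i.2 j.2
    unfold vz nU
    omega
  have hclt : ∀ (i : Fin (n + 1)) (j : Fin n), vc n i j < nU n := fun i j => by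
    have := idx_lt i.2 j.2
    unfold vc nU
    omega
  have mono : ∀ {K K' : Set (Fin n → ℝ)} (z c : Fin (n + 1) → Fin n → ℝ) (w x p : Fin n → ℝ),
      (p ∈ K → p ∈ K') → Matr (semiSet n φ) K z c w x p → Matr (semiSet n φ) K' z c w x p := by
    intro K K' z c w x p hK h
    exact ⟨h.1, h.2.imp_right fun h => h.imp_right fun h => ⟨hK h.1, h.2⟩⟩
  constructor
  · intro h z c
    obtain ⟨y, hy⟩ := h (blk n z c)
    have hn1 : ∀ j : Fin n, (j : ℕ) < 3 * n + L := fun j => by have := j.2; omega
    have hn2 : ∀ j : Fin n, n + (j : ℕ) < 3 * n + L := fun j => by have := j.2; omega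
    have hn3 : ∀ j : Fin n, n + n + (j : ℕ) < 3 * n + L := fun j => by have := j.2; omega
    have hn4 : ∀ k : Fin L, 3 * n + (k : ℕ) < 3 * n + L := fun k => by have := k.2; omega
    let w : Fin n → ℝ := fun j => y ⟨j, hn1 j⟩
    let x : Fin n → ℝ := fun j => y ⟨n + j, hn2 j⟩
    let p : Fin n → ℝ := fun j => y ⟨n + n + j, hn3 j⟩
    let s : Fin L → ℝ := fun k => y ⟨3 * n + k, hn4 k⟩
    have hp : ∀ j : Fin n, env₂ (blk n z c) y (nU n + (n + n + j)) = p j :=
      fun j => env₂_right _ _ _ (hn3 j)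
    have hs : ∀ k : Fin L, env₂ (blk n z c) y (nU n + (3 * n + k)) = s k :=
      fun k => env₂_right _ _ _ (hn4 k)
    have h1 := (holds_outF (nU n + (3 * n + L)) κ φ (env₂ (blk n z c) y) z c w x p {p | R p s}
      (fun i j => by rw [env₂_left _ _ _ (hzlt i j), blk_z])
      (fun i j => by rw [env₂_left _ _ _ (hclt i j), blk_c])
      (fun j => env₂_right _ _ _ (hn1 j)) (fun j => env₂_right _ _ _ (hn2 j)) hp
      (fun v hv => env₂_far _ _ _ hv) (hκ _ p s hp hs)).1 hy
    exact ⟨w, x, p, mono z c w x p (fun hp => ⟨s, hp⟩) h1⟩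
  · intro h u
    obtain ⟨z, c, hz, hc⟩ := blk_split n u
    obtain ⟨w, x, p, hm⟩ := h z c
    have key : ∀ s : Fin L → ℝ, Matr (semiSet n φ) {p | R p s} z c w x p →
        (outF n (nU n + (3 * n + L)) κ φ).holds (env₂ u (blkE w x p s)) := by
      intro s hm
      have hp : ∀ j : Fin n, env₂ u (blkE w x p s) (nU n + (n + n + j)) = p j := by
        intro j
        have := j.2
        rw [env₂_right _ _ _ (by omega)]
        unfold blkE
        simp only
        rw [dif_neg (by omega), dif_neg (by omega), dif_pos (by omega)]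
        congr 1
        exact Fin.ext (by simp)
      have hs : ∀ k : Fin L, env₂ u (blkE w x p s) (nU n + (3 * n + k)) = s k := by
        intro k
        have := k.2
        rw [env₂_right _ _ _ (by omega)]
        unfold blkE
        simp only
        rw [dif_neg (by omega), dif_neg (by omega), dif_neg (by omega)]
        congr 1
        exact Fin.ext (by simp)
      refine (holds_outF (nU n + (3 * n + L)) κ φ _ z c w x p {p | R p s}
        (fun i j => by rw [env₂_left _ _ _ (hzlt i j), hz])
        (fun i j => by rw [env₂_left _ _ _ (hclt i j), hc]) ?_ ?_ hp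
        (fun v hv => env₂_far _ _ _ hv) (hκ _ p s hp hs)).2 hm
      · intro j
        have := j.2
        rw [env₂_right _ _ _ (by omega)]
        unfold blkE
        simp only
        rw [dif_pos (by omega)]
      · intro j
        have := j.2
        rw [env₂_right _ _ _ (by omega)]
        unfold blkE
        simp only
        rw [dif_neg (by omega), dif_pos (by omega)]
        congr 1
        exact Fin.ext (by simp)
    by_cases hK : ∃ s, R p s
    · obtain ⟨s, hs⟩ := hK
      exact ⟨_, key s (mono z c w x p (fun _ => hs) hm)⟩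
    · exact ⟨_, key 0 (mono z c w x p (fun hp => absurd hp hK) hm)⟩

end Pool.Agent.LibStar4
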