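import Pool.Agent.LibStar4.Red
import Pool.Agent.LibStar4.Sent

/-!
The reduction on codes.
-/

open Set

namespace Pool.Agent.LibStar4

open Pool.Agent.LibComplexity

def cneg (a : List Tok) : List Tok := a ++ [tok 6]
def cand (a b : List Tok) : List Tok := a ++ b ++ [tok 7]
def cor (a b : List Tok) : List Tok := a ++ b ++ [tok 8]
def cdisj (l : List (List Tok)) : List Tok :=
  l.flatMap (fun a => a) ++ (Fml.gt tz).code ++ List.replicate l.length (tok 8)
def cren (n base far : ℕ) (a : List Tok) : List Tok := a.map (renTok (ren n base far))

theorem cdisj_code (l : List Fml) : cdisj (l.map Fml.code) = (Fml.disj l).code := by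
  rw [code_disj, cdisj, List.flatMap_map, List.length_map]

/-- the code of `outF` -/
def outC (n far : ℕ) (κ l : List Tok) : List Tok :=
  cand (cren n (nU n) far l)
    (cor (cdisj ((List.range (n + 1)).map fun i => cneg (cren n (i * n) far l)))
      (cor (cand (cren n (nU n + n) far l)
          (Fml.disj ((List.range (n + 1)).map fun i => .gt (ballT n i))).code)
        (cand κ (Fml.conj ((List.range (n + 1)).map fun i => .ge (halfT n i))).code)))

theorem outC_code (n far : ℕ) (κ φ : Fml) :
    (outF n far κ φ).code = outC n far κ.code φ.code := by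
  have h : cdisj ((List.range (n + 1)).map fun i => cneg (cren n (i * n) far φ.code)) =
      (Fml.disj ((List.range (n + 1)).map fun i => .neg (φ.rename (ren n (i * n) far)))).code := by
    rw [← cdisj_code, List.map_map]
    congr 1
    apply List.map_congr_left
    intro i _
    simp only [Function.comp, Fml.code, Fml.code_rename, cneg, cren]
  unfold outC outF
  rw [h]
  simp only [cand, cor, cren, Fml.code, Fml.code_rename]

variable {𝒜 : Set Orc} {α β : Type} [Enc α] [Enc β]

theorem ptf_cneg {a : Orc → α → List Tok} (ha : PTf 𝒜 a) : PTf 𝒜 (fun A x => cneg (a A x)) := by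
  unfold cneg; repeat (first | assumption | with_reducible apply PTf.id | with_reducible apply PTf.const | with_reducible apply PTf.pair | with_reducible apply PTf.fst | with_reducible apply PTf.snd | with_reducible apply PTf.succ | with_reducible apply PTf.add | with_reducible apply PTf.mul | with_reducible apply PTf.sub | with_reducible apply PTf.cons | with_reducible apply PTf.append | with_reducible apply PTf.replicate | with_reducible apply PTf.length | with_reducible apply PTf.range | with_reducible apply PTf.map | with_reducible apply PTf.flatMap | with_reducible apply PTf.ifP | with_reducible apply PTf.decide_le | with_reducible apply PTf.decide_lt)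

theorem ptf_cand {a b : Orc → α → List Tok} (ha : PTf 𝒜 a) (hb : PTf 𝒜 b) :
    PTf 𝒜 (fun A x => cand (a A x) (b A x)) := by
  unfold cand; repeat (first | assumption | with_reducible apply PTf.id | with_reducible apply PTf.const | with_reducible apply PTf.pair | with_reducible apply PTf.fst | with_reducible apply PTf.snd | with_reducible apply PTf.succ | with_reducible apply PTf.add | with_reducible apply PTf.mul | with_reducible apply PTf.sub | with_reducible apply PTf.cons | with_reducible apply PTf.append | with_reducible apply PTf.replicate | with_reducible apply PTf.length | with_reducible apply PTf.range | with_reducible apply PTf.map | with_reducible apply PTf.flatMap | with_reducible apply PTf.ifP | with_reducible apply PTf.decide_le | with_reducible apply PTf.decide_lt)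

theorem ptf_cor {a b : Orc → α → List Tok} (ha : PTf 𝒜 a) (hb : PTf 𝒜 b) :
    PTf 𝒜 (fun A x => cor (a A x) (b A x)) := by
  unfold cor; repeat (first | assumption | with_reducible apply PTf.id | with_reducible apply PTf.const | with_reducible apply PTf.pair | with_reducible apply PTf.fst | with_reducible apply PTf.snd | with_reducible apply PTf.succ | with_reducible apply PTf.add | with_reducible apply PTf.mul | with_reducible apply PTf.sub | with_reducible apply PTf.cons | with_reducible apply PTf.append | with_reducible apply PTf.replicate | with_reducible apply PTf.length | with_reducible apply PTf.range | with_reducible apply PTf.map | with_reducible apply PTf.flatMap | with_reducible apply PTf.ifP | with_reducible apply PTf.decide_le | with_reducible apply PTf.decide_lt)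

theorem ptf_cdisj {l : Orc → α → List β} {t : Orc → α → β → List Tok} (hl : PTf 𝒜 l)
    (ht : PTf 𝒜 (fun A (p : α × β) => t A p.1 p.2)) :
    PTf 𝒜 (fun A x => cdisj ((l A x).map (t A x))) := by
  unfold cdisj
  simp only [List.flatMap_map, List.length_map]
  apply PTf.append
  · apply PTf.append
    · exact PTf.flatMap hl ht
    · repeat (first
        | assumption | with_reducible apply PTf.id | with_reducible apply PTf.const
        | with_reducible apply PTf.pair | with_reducible apply PTf.fst
        | with_reducible apply PTf.snd | with_reducible apply PTf.succ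
        | with_reducible apply PTf.add | with_reducible apply PTf.mul
        | with_reducible apply PTf.sub | with_reducible apply PTf.cons
        | with_reducible apply PTf.append | with_reducible apply PTf.replicate
        | with_reducible apply PTf.length | with_reducible apply PTf.range
        | with_reducible apply PTf.map | with_reducible apply PTf.flatMap
        | with_reducible apply PTf.ifP | with_reducible apply PTf.decide_le
        | with_reducible apply PTf.decide_lt)
  · repeat (first
      | assumption | with_reducible apply PTf.id | with_reducible apply PTf.const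
      | with_reducible apply PTf.pair | with_reducible apply PTf.fst
      | with_reducible apply PTf.snd | with_reducible apply PTf.succ
      | with_reducible apply PTf.add | with_reducible apply PTf.mul
      | with_reducible apply PTf.sub | with_reducible apply PTf.cons
      | with_reducible apply PTf.append | with_reducible apply PTf.replicate
      | with_reducible apply PTf.length | with_reducible apply PTf.range
      | with_reducible apply PTf.map | with_reducible apply PTf.flatMap
      | with_reducible apply PTf.ifP | with_reducible apply PTf.decide_le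
      | with_reducible apply PTf.decide_lt)

theorem ptf_cren {n base far : Orc → α → ℕ} {l : Orc → α → List Tok} (hn : PTf 𝒜 n)
    (hb : PTf 𝒜 base) (hf : PTf 𝒜 far) (hl : PTf 𝒜 l) :
    PTf 𝒜 (fun A x => cren (n A x) (base A x) (far A x) (l A x)) :=
  ptf_rename hn hb hf hl

theorem ptf_nU {n : Orc → α → ℕ} (hn : PTf 𝒜 n) : PTf 𝒜 (fun A x => nU (n A x)) := by
  unfold nU; repeat (first | assumption | with_reducible apply PTf.id | with_reducible apply PTf.const | with_reducible apply PTf.pair | with_reducible apply PTf.fst | with_reducible apply PTf.snd | with_reducible apply PTf.succ | with_reducible apply PTf.add | with_reducible apply PTf.mul | with_reducible apply PTf.sub | with_reducible apply PTf.cons | with_reducible apply PTf.append | with_reducible apply PTf.replicate | with_reducible apply PTf.length | with_reducible apply PTf.range | with_reducible apply PTf.map | with_reducible apply PTf.flatMap | with_reducible apply PTf.ifP | with_reducible apply PTf.decide_le | with_reducible apply PTf.decide_lt)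

theorem ptf_vz {n i j : Orc → α → ℕ} (hn : PTf 𝒜 n) (hi : PTf 𝒜 i) (hj : PTf 𝒜 j) :
    PTf 𝒜 (fun A x => vz (n A x) (i A x) (j A x)) := by
  unfold vz; repeat (first | assumption | with_reducible apply PTf.id | with_reducible apply PTf.const | with_reducible apply PTf.pair | with_reducible apply PTf.fst | with_reducible apply PTf.snd | with_reducible apply PTf.succ | with_reducible apply PTf.add | with_reducible apply PTf.mul | with_reducible apply PTf.sub | with_reducible apply PTf.cons | with_reducible apply PTf.append | with_reducible apply PTf.replicate | with_reducible apply PTf.length | with_reducible apply PTf.range | with_reducible apply PTf.map | with_reducible apply PTf.flatMap | with_reducible apply PTf.ifP | with_reducible apply PTf.decide_le | with_reducible apply PTf.decide_lt)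

theorem ptf_vc {n i j : Orc → α → ℕ} (hn : PTf 𝒜 n) (hi : PTf 𝒜 i) (hj : PTf 𝒜 j) :
    PTf 𝒜 (fun A x => vc (n A x) (i A x) (j A x)) := by
  unfold vc; repeat (first | assumption | with_reducible apply PTf.id | with_reducible apply PTf.const | with_reducible apply PTf.pair | with_reducible apply PTf.fst | with_reducible apply PTf.snd | with_reducible apply PTf.succ | with_reducible apply PTf.add | with_reducible apply PTf.mul | with_reducible apply PTf.sub | with_reducible apply PTf.cons | with_reducible apply PTf.append | with_reducible apply PTf.replicate | with_reducible apply PTf.length | with_reducible apply PTf.range | with_reducible apply PTf.map | with_reducible apply PTf.flatMap | with_reducible apply PTf.ifP | with_reducible apply PTf.decide_le | with_reducible apply PTf.decide_lt)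

theorem pt_ballT {n i : Orc → α → ℕ} (hn : PTf 𝒜 n) (hi : PTf 𝒜 i) :
    PT 𝒜 (fun A x => ballT (n A x) (i A x)) := by
  unfold ballT
  have hn' : PTf 𝒜 (fun A (p : α × ℕ) => n A p.1) := hn.comp PTf.id.fst
  have hi' : PTf 𝒜 (fun A (p : α × ℕ) => i A p.1) := hi.comp PTf.id.fst
  have hj' : PTf 𝒜 (fun _ (p : α × ℕ) => p.2) := PTf.id.snd
  apply PT.sum hn.range
  exact ((PT.var (ptf_vz hn' hi' hj')).sub (PT.var (ptf_vc hn' hi' hj'))).sq.sub
    (((PT.var ((ptf_nU hn').add (hn'.add hj'))).sub (PT.var (ptf_vc hn' hi' hj'))).sq)

theorem pt_halfT {n i : Orc → α → ℕ} (hn : PTf 𝒜 n) (hi : PTf 𝒜 i) :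
    PT 𝒜 (fun A x => halfT (n A x) (i A x)) := by
  unfold halfT
  have hn' : PTf 𝒜 (fun A (p : α × ℕ) => n A p.1) := hn.comp PTf.id.fst
  have hi' : PTf 𝒜 (fun A (p : α × ℕ) => i A p.1) := hi.comp PTf.id.fst
  have hj' : PTf 𝒜 (fun _ (p : α × ℕ) => p.2) := PTf.id.snd
  apply PT.sum hn.range
  exact ((PT.var ((ptf_nU hn').add ((hn'.add hn').add hj'))).sub
    (PT.var (ptf_vz hn' hi' hj'))).mul
      ((PT.var (ptf_vz hn' hi' hj')).sub (PT.var (ptf_vc hn' hi' hj')))

theorem ptf_outC {n far : Orc → α → ℕ} {κ l : Orc → α → List Tok} (hn : PTf 𝒜 n)
    (hf : PTf 𝒜 far) (hκ : PTf 𝒜 κ) (hl : PTf 𝒜 l) :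
    PTf 𝒜 (fun A x => outC (n A x) (far A x) (κ A x) (l A x)) := by
  unfold outC
  have hn' : PTf 𝒜 (fun A (p : α × ℕ) => n A p.1) := hn.comp PTf.id.fst
  have hf' : PTf 𝒜 (fun A (p : α × ℕ) => far A p.1) := hf.comp PTf.id.fst
  have hl' : PTf 𝒜 (fun A (p : α × ℕ) => l A p.1) := hl.comp PTf.id.fst
  have hi' : PTf 𝒜 (fun _ (p : α × ℕ) => p.2) := PTf.id.snd
  have h1 : PTf 𝒜 (fun A x => (Fml.disj ((List.range (n A x + 1)).map
      fun i => .gt (ballT (n A x) i))).code) :=
    PF.disj (hn.succ.range) (PF.gt (pt_ballT hn' hi'))
  have h2 : PTf 𝒜 (fun A x => (Fml.conj ((List.range (n A x + 1)).map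
      fun i => .ge (halfT (n A x) i))).code) :=
    PF.conj (hn.succ.range) (PF.ge (pt_halfT hn' hi'))
  exact ptf_cand (ptf_cren hn (ptf_nU hn) hf hl)
    (ptf_cor (ptf_cdisj hn.succ.range (ptf_cneg (ptf_cren hn' (hi'.mul hn') hf' hl')))
      (ptf_cor (ptf_cand (ptf_cren hn ((ptf_nU hn).add hn) hf hl) h1) (ptf_cand hκ h2)))

/-! ### Compact sets -/

/-- the reduction for compact sets -/
def redC (w : List Bool) : List Bool :=
  let q := read (ℕ × List Tok) w
  word (nU q.1, 3 * q.1 + 0, outC q.1 (nU q.1 + (3 * q.1 + 0)) (Fml.ge tz).code q.2)

theorem inFP_redC : InFP ∅ redC := by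
  have h : PTf {(∅ : Orc)} (fun _ w => redC w) := by
    unfold redC
    have h1 : PTf {(∅ : Orc)} (fun _ (w : List Bool) => read (ℕ × List Tok) w) :=
      PTf.read PTf.id
    have hn := h1.fst
    have h3 : PTf {(∅ : Orc)} (fun _ (w : List Bool) => 3 * (read (ℕ × List Tok) w).1 + 0) :=
      ((PTf.const 3).mul hn).add (PTf.const 0)
    exact PTf.word ((ptf_nU hn).pair (h3.pair (ptf_outC hn ((ptf_nU hn).add h3) (PTf.const _)
      h1.snd)))
  exact inFP_of_PTf h

theorem redC_spec (n : ℕ) (φ : Fml) (hS : IsCompact (semiSet n φ)) :
    StarShaped (semiSet n φ) ↔ redC (word (n, φ.code)) ∈ TrueAE := by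
  have h1 : read (ℕ × List Tok) (word (n, φ.code)) = (n, φ.code) := by
    have := read_word ((n, φ.code) : ℕ × List Tok) []
    rwa [List.append_nil] at this
  unfold redC
  simp only [h1]
  rw [← outC_code, mem_TrueAE, sentence_iff (Fml.ge tz) φ (fun _ _ => True)
    (fun V p s _ _ => by simp [Fml.holds]), starShaped_iff_compact hS]
  have h2 : {p : Fin n → ℝ | ∃ _ : Fin 0 → ℝ, True} = univ := by
    ext p
    simp
  rw [h2]

end Pool.Agent.LibStar4
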