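import Pool.Agent.LibStar4.Crit

/-!
The sentence produced by the reduction.
-/

open Set

namespace Pool.Agent.LibStar4

/-- the number of universal variables -/
def nU (n : ℕ) : ℕ := (n + 1) * n + (n + 1) * n

/-- renaming: the variables `< n` start at `base`, the others are moved out of the way -/
def ren (n base far : ℕ) (v : ℕ) : ℕ := if v < n then base + v else far + v

/-- the square of a term -/
def Tm.sq (t : Tm) : Tm := .mul t t

def vz (n i j : ℕ) : ℕ := i * n + j

def vc (n i j : ℕ) : ℕ := (n + 1) * n + (i * n + j)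

/-- `∑ (z_ij - c_ij)^2 - (x_j - c_ij)^2` -/
def ballT (n i : ℕ) : Tm :=
  Tm.sum ((List.range n).map fun j =>
    Tm.sub (Tm.sq (Tm.sub (.var (vz n i j)) (.var (vc n i j))))
      (Tm.sq (Tm.sub (.var (nU n + (n + j))) (.var (vc n i j)))))

/-- `∑ (p_j - z_ij) (z_ij - c_ij)` -/
def halfT (n i : ℕ) : Tm :=
  Tm.sum ((List.range n).map fun j =>
    .mul (Tm.sub (.var (nU n + (n + n + j))) (.var (vz n i j)))
      (Tm.sub (.var (vz n i j)) (.var (vc n i j))))

/-- the matrix; `κ` is a condition on `p` -/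
def outF (n far : ℕ) (κ φ : Fml) : Fml :=
  .and (φ.rename (ren n (nU n) far))
    (.or (Fml.disj ((List.range (n + 1)).map fun i => .neg (φ.rename (ren n (i * n) far))))
      (.or (.and (φ.rename (ren n (nU n + n) far))
          (Fml.disj ((List.range (n + 1)).map fun i => .gt (ballT n i))))
        (.and κ (Fml.conj ((List.range (n + 1)).map fun i => .ge (halfT n i))))))

section
variable {n m : ℕ}

theorem env_ren (far base : ℕ) (V : ℕ → ℝ) (x : Fin n → ℝ)
    (h1 : ∀ j : Fin n, V (base + j) = x j) (h2 : ∀ v, far ≤ v → V v = 0) :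
    (fun v => V (ren n base far v)) = env x := by
  funext v
  unfold ren env
  by_cases h : v < n
  · rw [if_pos h, dif_pos h]
    exact h1 ⟨v, h⟩
  · rw [if_neg h, dif_neg h]
    exact h2 _ (by omega)

theorem mem_rename (far base : ℕ) (V : ℕ → ℝ) (x : Fin n → ℝ) (φ : Fml)
    (h1 : ∀ j : Fin n, V (base + j) = x j) (h2 : ∀ v, far ≤ v → V v = 0) :
    (φ.rename (ren n base far)).holds V ↔ x ∈ semiSet n φ := by
  rw [Fml.holds_rename, env_ren far base V x h1 h2]
  rfl

theorem holds_outF (far : ℕ) (κ φ : Fml) (V : ℕ → ℝ) (z c : Fin (n + 1) → Fin n → ℝ)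
    (w x p : Fin n → ℝ) (K : Set (Fin n → ℝ))
    (hz : ∀ (i : Fin (n + 1)) (j : Fin n), V (vz n i j) = z i j)
    (hc : ∀ (i : Fin (n + 1)) (j : Fin n), V (vc n i j) = c i j)
    (hw : ∀ j : Fin n, V (nU n + j) = w j) (hx : ∀ j : Fin n, V (nU n + (n + j)) = x j)
    (hp : ∀ j : Fin n, V (nU n + (n + n + j)) = p j) (hfar : ∀ v, far ≤ v → V v = 0)
    (hκ : κ.holds V ↔ p ∈ K) :
    (outF n far κ φ).holds V ↔ Matr (semiSet n φ) K z c w x p := by
  have e1 := mem_rename far (nU n) V w φ hw hfar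
  have e2 := mem_rename far (nU n + n) V x φ (fun j => by rw [← hx j]; congr 1; ring) hfar
  have e3 : ∀ i : Fin (n + 1), (φ.rename (ren n ((i : ℕ) * n) far)).holds V ↔
      z i ∈ semiSet n φ := fun i => mem_rename far _ V (z i) φ (fun j => hz i j) hfar
  have e4 : ∀ i : Fin (n + 1), (ballT n i).eval V =
      ∑ j, (z i j - c i j) ^ 2 - ∑ j, (x j - c i j) ^ 2 := by
    intro i
    rw [ballT, eval_sum, List.map_map, sum_map_range, ← Finset.sum_sub_distrib]
    apply Finset.sum_congr rfl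
    intro j _
    simp only [Function.comp, eval_sub, Tm.sq, Tm.eval, hz i j, hc i j, hx j]
    ring
  have e5 : ∀ i : Fin (n + 1), (halfT n i).eval V =
      ∑ j, (p j - z i j) * (z i j - c i j) := by
    intro i
    rw [halfT, eval_sum, List.map_map, sum_map_range]
    apply Finset.sum_congr rfl
    intro j _
    simp only [Function.comp, eval_sub, Tm.eval, hz i j, hc i j, hp j]
  unfold outF Matr
  simp only [Fml.holds, holds_disj, holds_conj, List.mem_map, List.mem_range, e1, e2, hκ]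
  refine and_congr_right fun _ => or_congr ?_ (or_congr (and_congr_right fun _ => ?_)
    (and_congr_right fun _ => ?_))
  · constructor
    · rintro ⟨_, ⟨i, hi, rfl⟩, h⟩
      exact ⟨⟨i, hi⟩, fun h' => h ((e3 ⟨i, hi⟩).2 h')⟩
    · rintro ⟨i, hi⟩
      exact ⟨_, ⟨i, i.2, rfl⟩, fun h' => hi ((e3 i).1 h')⟩
  · constructor
    · rintro ⟨_, ⟨i, hi, rfl⟩, h⟩
      refine ⟨⟨i, hi⟩, ?_⟩
      have := e4 ⟨i, hi⟩
      simp only [Fml.holds] at h
      simp only at this
      rw [this] at h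
      linarith
    · rintro ⟨i, hi⟩
      refine ⟨_, ⟨i, i.2, rfl⟩, ?_⟩
      simp only [Fml.holds]
      rw [e4 i]
      linarith
  · constructor
    · intro h i
      have := h _ ⟨i, i.2, rfl⟩
      simp only [Fml.holds] at this
      rw [e5 i] at this
      exact this
    · rintro h _ ⟨i, hi, rfl⟩
      simp only [Fml.holds]
      rw [e5 ⟨i, hi⟩]
      exact h ⟨i, hi⟩

end

/-! ### The blocks -/

/-- the universal block -/
def blk (n : ℕ) (z c : Fin (n + 1) → Fin n → ℝ) (k : Fin (nU n)) : ℝ :=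
  if h : (k : ℕ) < (n + 1) * n then
    z ⟨k / n, Nat.div_lt_of_lt_mul (by rw [mul_comm]; exact h)⟩
      ⟨k % n, Nat.mod_lt _ (Nat.pos_of_ne_zero (by rintro rfl; simp at h))⟩
  else
    if h' : 0 < n then
    c ⟨(k - (n + 1) * n) / n, Nat.div_lt_of_lt_mul (by
      have := k.2; unfold nU at this; rw [mul_comm n]; omega)⟩
      ⟨(k - (n + 1) * n) % n, Nat.mod_lt _ h'⟩
    else 0

theorem idx_lt {n i j : ℕ} (hi : i < n + 1) (hj : j < n) : i * n + j < (n + 1) * n := by
  have : (i + 1) * n ≤ (n + 1) * n := Nat.mul_le_mul_right _ hi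
  have h2 : (i + 1) * n = i * n + n := by ring
  omega

theorem blk_z (n : ℕ) (z c : Fin (n + 1) → Fin n → ℝ) (i : Fin (n + 1)) (j : Fin n)
    (h : vz n i j < nU n) : blk n z c ⟨vz n i j, h⟩ = z i j := by
  have h1 : vz n i j < (n + 1) * n := idx_lt i.2 j.2
  unfold blk
  rw [dif_pos h1]
  have h2 : (vz n i j) / n = i := by
    unfold vz
    rw [mul_comm, Nat.mul_add_div (by have := j.2; omega), Nat.div_eq_of_lt j.2, add_zero]
  have h3 : (vz n i j) % n = j := by
    unfold vz
    rw [mul_comm, Nat.mul_add_mod, Nat.mod_eq_of_lt j.2]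
  exact congrArg₂ z (Fin.ext h2) (Fin.ext h3)

theorem blk_c (n : ℕ) (z c : Fin (n + 1) → Fin n → ℝ) (i : Fin (n + 1)) (j : Fin n)
    (h : vc n i j < nU n) : blk n z c ⟨vc n i j, h⟩ = c i j := by
  have h1 : ¬ vc n i j < (n + 1) * n := by unfold vc; omega
  unfold blk
  rw [dif_neg h1, dif_pos (by have := j.2; omega)]
  have h0 : vc n i j - (n + 1) * n = i * n + j := by unfold vc; omega
  have h2 : (vc n i j - (n + 1) * n) / n = i := by
    rw [h0, mul_comm, Nat.mul_add_div (by have := j.2; omega), Nat.div_eq_of_lt j.2, add_zero]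
  have h3 : (vc n i j - (n + 1) * n) % n = j := by
    rw [h0, mul_comm, Nat.mul_add_mod, Nat.mod_eq_of_lt j.2]
  exact congrArg₂ c (Fin.ext h2) (Fin.ext h3)

theorem blk_split (n : ℕ) (u : Fin (nU n) → ℝ) :
    ∃ z c : Fin (n + 1) → Fin n → ℝ,
      (∀ (i : Fin (n + 1)) (j : Fin n) (h : vz n i j < nU n), u ⟨vz n i j, h⟩ = z i j) ∧
      (∀ (i : Fin (n + 1)) (j : Fin n) (h : vc n i j < nU n), u ⟨vc n i j, h⟩ = c i j) := by
  have hz : ∀ (i : Fin (n + 1)) (j : Fin n), vz n i j < nU n := fun i j => by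
    have := idx_lt i.2 j.2
    unfold vz nU
    omega
  have hc : ∀ (i : Fin (n + 1)) (j : Fin n), vc n i j < nU n := fun i j => by
    have := idx_lt i.2 j.2
    unfold vc nU
    omega
  exact ⟨fun i j => u ⟨vz n i j, hz i j⟩, fun i j => u ⟨vc n i j, hc i j⟩,
    fun i j h => rfl, fun i j h => rfl⟩

end Pool.Agent.LibStar4
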