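import Pool.Agent.LibStar4.PsiA
import Pool.Agent.LibStar4.PsiB
import Pool.Agent.LibStar4.KernA

/-!
Completeness: certificates are eventually valid.
-/

open Metric Set Filter Topology

namespace Pool.Agent.LibStar4

set_option linter.unusedSectionVars false

variable {E : Type*} [NormedAddCommGroup E] [InnerProductSpace ℝ E] {ι : Type}
  {f : ι → E → ℝ} {Φ : (ι → SignType) → Prop}

theorem PsiD_compact [FiniteDimensional ℝ E] (L : AffineSubspace ℝ E) (r : ℝ) (z : E) (t : ℝ)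
    (ν : E) (β : ℝ) :
    IsCompact ((fun p : E => z + t • (p - z)) ''
      {p : E | p ∈ L ∧ ‖p‖ ≤ r ∧ β ≤ inner ℝ ν p}) := by
  refine IsCompact.image ?_ (by fun_prop)
  have h1 : IsClosed {p : E | p ∈ L} := L.closed_of_finiteDimensional
  have h2 : IsClosed {p : E | β ≤ inner ℝ ν p} :=
    isClosed_le continuous_const (by fun_prop)
  have h3 : IsCompact (Metric.closedBall (0 : E) r) := isCompact_closedBall 0 r
  have : {p : E | p ∈ L ∧ ‖p‖ ≤ r ∧ β ≤ inner ℝ ν p}
      = Metric.closedBall (0 : E) r ∩ ({p : E | p ∈ L} ∩ {p : E | β ≤ inner ℝ ν p}) := by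
    ext p
    simp only [mem_setOf_eq, mem_inter_iff, mem_closedBall, dist_zero_right]
    tauto
  rw [this]
  exact h3.inter_right (h1.inter h2)

/-- A certificate is eventually valid. Proof: `ev_scales_succ`. First kind: the first scale `s` is
so small that `z ∈ Base f Φ s` and `s ≤ t`; the set
`W = {z + t (p - z) | p ∈ L, ‖p‖ ≤ r, β ≤ inner ℝ ν p}` is compact and does not meet `semi f Φ`; apply
`wins_avoid`. Second kind: the same with `nt Φ`, `s ≤ -t`, `-t * s ≤ 1`. (A finite-dimensional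
affine subspace is closed: `AffineSubspace.closed_of_finiteDimensional`.) -/
theorem crt_block [FiniteDimensional ℝ E] [Finite ι] (hf : ∀ a, Continuous (f a)) {w : ℕ}
    {L : AffineSubspace ℝ E} {r : ℝ} {z : E} {t : ℝ} {ν : E} {β : ℝ}
    (h : Crt (semi f Φ) L r z t ν β) :
    ∀ᶠ l in scales (2 * w + 3), ∀ p ∈ L, ‖p‖ ≤ r → β ≤ inner ℝ ν p →
      Ex1 f Φ w (fun i => l.getD i 0) z t p ∨ Ex2 f Φ w (fun i => l.getD i 0) z t p := by
  have e : 2 * w + 3 = (2 * w + 2) + 1 := rfl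
  rw [e, ev_scales_succ]
  have hW := PsiD_compact L r z t ν β
  rcases h with ⟨hz, ht, ht1, H⟩ | ⟨hz, ht, H⟩
  · have hb := base_eventually hz
    have hs : ∀ᶠ s in 𝓝[>] (0 : ℝ), s ≤ t := by
      filter_upwards [Ioo_mem_nhdsGT ht] with s hs using hs.2.le
    filter_upwards [hb, hs] with s hbs hst
    have hav := wins_avoid (f := f) (Φ := Φ) hf (w := w) s hW (by
      rintro _ ⟨p, ⟨hpL, hpr, hpβ⟩, rfl⟩
      exact H p hpL hpr hpβ)
    filter_upwards [hav] with l hl p hpL hpr hpβ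
    exact Or.inl ⟨hbs, hst, ht1, hl _ ⟨p, ⟨hpL, hpr, hpβ⟩, rfl⟩⟩
  · have hz' : z ∈ semi f (nt Φ) := by rw [semi_nt]; exact hz
    have hb := base_eventually hz'
    have htn : 0 < -t := neg_pos.2 ht
    have hs : ∀ᶠ s in 𝓝[>] (0 : ℝ), s ≤ -t := by
      filter_upwards [Ioo_mem_nhdsGT htn] with s hs using hs.2.le
    have hs2 : ∀ᶠ s in 𝓝[>] (0 : ℝ), -t * s ≤ 1 := by
      filter_upwards [Ioo_mem_nhdsGT (one_div_pos.2 htn)] with s hs
      have := hs.2.le
      rw [le_div_iff₀ htn] at this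
      linarith
    filter_upwards [hb, hs, hs2] with s hbs hst hst2
    have hav := wins_avoid (f := f) (Φ := nt Φ) hf (w := w) s hW (by
      rintro _ ⟨p, ⟨hpL, hpr, hpβ⟩, rfl⟩
      rw [semi_nt]
      exact fun hn => hn (H p hpL hpr hpβ))
    filter_upwards [hav] with l hl p hpL hpr hpβ
    exact Or.inr ⟨hbs, hst, hst2, hl _ ⟨p, ⟨hpL, hpr, hpβ⟩, rfl⟩⟩

end Pool.Agent.LibStar4
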