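import Pool.Agent.LibStar4.PsiD
import Pool.Agent.LibStar4.Conv

/-!
Completeness.
-/

open Metric Set Filter Topology

namespace Pool.Agent.LibStar4

/-- The induction over the flats. Proof: induction on `j`. `j = 0`: `L` is empty. Step `j + 1`
(`(j + 1) * (2 w + 3) = j * (2 w + 3) + (2 w + 3)`, `ev_scales_add`): if `L` does not meet
`semi f Φ`, no point of `L` is in `Base` (`base_sub`), so `k = j` works (no certificates needed).
Otherwise there is `x₀ ∈ L ∩ semi f Φ`, and no point at all satisfies `StarAt` (such a point would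
be in `semi f Φ`, `mem_of_starAt`). `geom` gives `g, b`. Let `L' = L ∩ {g = b}` (an affine
subspace, e.g. defined by the carrier `{p ∈ L | g p = b}`); if it is non-empty,
`finrank L'.direction < finrank L.direction` (`AffineSubspace.direction_lt_of_nonempty`,
`Submodule.finrank_lt_finrank_of_lt`), so the induction hypothesis applies to `L'`. For `u` as in
the induction hypothesis, with positive decreasing scales (`scales_pos`, `scales_decr`), the set `U`
of the points excluded by one of the `j` levels is open (`isOpen_excl`, `isOpen_iUnion`) and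
contains the points of `L'` with `‖p‖ ≤ r`. `geom` gives `2 (n + 1)` certificates; by `crt_block`
(finitely many, `Filter.eventually_all`) eventually in the last block every `p ∈ L`, `‖p‖ ≤ r`,
`p ∉ U` is excluded at the level `j`. Use `excl_congr` and `List.getD_append` /
`List.getD_append_right` for the scales of `u ++ v`. -/
theorem cover_flat (n : ℕ) {ι : Type} [Finite ι] {f : ι → EuclideanSpace ℝ (Fin n) → ℝ}
    {Φ : (ι → SignType) → Prop} (hf : ∀ a, Continuous (f a)) (w : ℕ) {r : ℝ}
    (hk : ∀ p ∈ semi f Φ, ¬ StarAt (semi f Φ) p) :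
    ∀ (j : ℕ) (L : AffineSubspace ℝ (EuclideanSpace ℝ (Fin n))),
      ((L : Set (EuclideanSpace ℝ (Fin n))).Nonempty → Module.finrank ℝ L.direction < j) →
      ∀ᶠ l in scales (j * (2 * w + 3)),
        ∃ (z : ℕ → ℕ → EuclideanSpace ℝ (Fin n)) (t : ℕ → ℕ → ℝ), ∀ p ∈ L, ‖p‖ ≤ r →
          ∃ k < j, Excl f Φ w (2 * (n + 1)) (blkS (2 * w + 3) k l) (z k) (t k) p := by
  intro j
  induction j with
  | zero =>
    intro L hL
    refine Eventually.of_forall fun l => ⟨fun _ _ => 0, fun _ _ => 0, ?_⟩
    intro p hp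
    exact absurd (hL ⟨p, hp⟩) (Nat.not_lt_zero _)
  | succ j ih =>
    intro L hL
    by_cases hmeet : ∃ x₀, x₀ ∈ L ∧ x₀ ∈ semi f Φ
    swap
    · refine Eventually.of_forall fun l => ⟨fun _ _ => 0, fun _ _ => 0, ?_⟩
      intro p hp _
      refine ⟨j, Nat.lt_succ_self j, Or.inl ?_⟩
      intro hb
      exact hmeet ⟨p, hp, base_sub f Φ _ hb⟩
    obtain ⟨x₀, hx₀L, hx₀⟩ := hmeet
    have hk' : ∀ p ∈ L, ‖p‖ ≤ r → ¬ StarAt (semi f Φ) p := by
      intro p _ _ hs
      have hp : p ∈ semi f Φ := by
        have := hs x₀ hx₀ 0 le_rfl zero_le_one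
        simpa using this
      exact hk p hp hs
    obtain ⟨g, b, ⟨p₁, hp₁L, hp₁⟩, hgeom⟩ := geom n (r := r) hf hx₀ hx₀L hk'
    let L' : AffineSubspace ℝ (EuclideanSpace ℝ (Fin n)) :=
      { carrier := {p | p ∈ L ∧ g p = b}
        smul_vsub_vadd_mem' := by
          rintro c q₁ q₂ q₃ ⟨h1, h1'⟩ ⟨h2, h2'⟩ ⟨h3, h3'⟩
          refine ⟨L.smul_vsub_vadd_mem c h1 h2 h3, ?_⟩
          simp only [vsub_eq_sub, vadd_eq_add, map_add, map_smul, map_sub, h1', h2', h3']
          simp }
    have hL'mem : ∀ p, p ∈ L' ↔ p ∈ L ∧ g p = b := fun p => Iff.rfl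
    have hlt : L' < L := by
      refine lt_of_le_of_ne (fun p hp => ((hL'mem p).1 hp).1) ?_
      intro h
      rw [← h] at hp₁L
      exact hp₁ ((hL'mem p₁).1 hp₁L).2
    have hdim : (L' : Set (EuclideanSpace ℝ (Fin n))).Nonempty →
        Module.finrank ℝ L'.direction < j := by
      intro hne
      have h1 := AffineSubspace.direction_lt_of_nonempty hlt hne
      have h2 := Submodule.finrank_lt_finrank_of_lt h1
      have h3 := hL (hne.mono fun p hp => ((hL'mem p).1 hp).1)
      omega
    have hIH := ih L' hdim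
    rw [show (j + 1) * (2 * w + 3) = j * (2 * w + 3) + (2 * w + 3) from Nat.succ_mul _ _]
    rw [ev_scales_add]
    filter_upwards [hIH, scales_pos (j * (2 * w + 3)), scales_decr (j * (2 * w + 3)),
      scales_length (j * (2 * w + 3))] with u hu hpos hdec hlen
    obtain ⟨z, t, hzt⟩ := hu
    have hidx : ∀ k < j, ∀ i < 2 * w + 3, k * (2 * w + 3) + i < j * (2 * w + 3) := by
      intro k hkj i hi
      have h1 : (k + 1) * (2 * w + 3) ≤ j * (2 * w + 3) := Nat.mul_le_mul_right _ hkj
      have h2 : (k + 1) * (2 * w + 3) = k * (2 * w + 3) + (2 * w + 3) := Nat.succ_mul _ _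
      omega
    have hUo : IsOpen (⋃ k ∈ {k : ℕ | k < j},
        {p | Excl f Φ w (2 * (n + 1)) (blkS (2 * w + 3) k u) (z k) (t k) p}) := by
      refine isOpen_biUnion fun k hkj => isOpen_excl hf ?_ ?_ (z k) (t k)
      · intro i hi
        exact hpos _ (hidx k hkj i hi)
      · intro i hi
        have h1 := hidx k hkj (i + 1) (by omega)
        exact hdec (k * (2 * w + 3) + i) (by omega)
    obtain ⟨z', t', ν, β, hcov⟩ := hgeom _ hUo (by
      intro p hpL hpr hpb
      obtain ⟨k, hkj, hex⟩ := hzt p ((hL'mem p).2 ⟨hpL, hpb⟩) hpr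
      exact mem_biUnion (show k ∈ {k : ℕ | k < j} from hkj) hex)
    have hall : ∀ᶠ v in scales (2 * w + 3), ∀ c : Fin (2 * (n + 1)),
        Crt (semi f Φ) L r (z' c) (t' c) (ν c) (β c) → ∀ p ∈ L, ‖p‖ ≤ r →
          β c ≤ inner ℝ (ν c) p →
          Ex1 f Φ w (fun i => v.getD i 0) (z' c) (t' c) p ∨
            Ex2 f Φ w (fun i => v.getD i 0) (z' c) (t' c) p := by
      rw [Filter.eventually_all]
      intro c
      by_cases hc : Crt (semi f Φ) L r (z' c) (t' c) (ν c) (β c)
      · filter_upwards [crt_block (w := w) hf hc] with v hv _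
        exact hv
      · exact Eventually.of_forall fun v h => absurd h hc
    filter_upwards [hall] with v hv
    refine ⟨fun k c => if k = j then (if h : c < 2 * (n + 1) then z' ⟨c, h⟩ else 0) else z k c,
      fun k c => if k = j then (if h : c < 2 * (n + 1) then t' ⟨c, h⟩ else 0) else t k c, ?_⟩
    intro p hpL hpr
    by_cases hpU : p ∈ ⋃ k ∈ {k : ℕ | k < j},
        {p | Excl f Φ w (2 * (n + 1)) (blkS (2 * w + 3) k u) (z k) (t k) p}
    · obtain ⟨k, hkj, hex⟩ := mem_iUnion₂.1 hpU
      have hkj' : k < j := hkj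
      refine ⟨k, Nat.lt_succ_of_lt hkj', ?_⟩
      have hne : k ≠ j := ne_of_lt hkj'
      simp only [hne, if_false]
      refine (excl_congr (fun i hi => ?_) _ _ _).1 hex
      unfold blkS
      rw [List.getD_append _ _ _ _ (by rw [hlen]; exact hidx k hkj' i hi)]
    · obtain ⟨c, hc, hin⟩ := hcov p hpL hpr hpU
      have hex := hv c hc p hpL hpr hin
      refine ⟨j, Nat.lt_succ_self j, ?_⟩
      simp only [if_true]
      refine (excl_congr (s := fun i => v.getD i 0) (fun i hi => ?_) _ _ _).1
        (Or.inr ⟨c, c.2, ?_⟩)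
      · unfold blkS
        rw [List.getD_append_right _ _ _ _ (by rw [hlen]; omega)]
        congr 1
        rw [hlen]
        omega
      · simp only [c.2, dif_pos, Fin.eta]
        exact hex

end Pool.Agent.LibStar4
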