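import Pool.Agent.LibStar4.Out

/-!
The reduction is computable in polynomial time.
-/

open Set

namespace Pool.Agent.LibStar4

open Pool.Agent.LibComplexity

theorem code_sum (l : List Tm) :
    (Tm.sum l).code = l.flatMap Tm.code ++ tz.code ++ List.replicate l.length (tok 1) := by
  induction l with
  | nil => simp [Tm.sum]
  | cons t l ih =>
    simp only [Tm.sum, Tm.code, ih, List.flatMap_cons, List.length_cons, List.replicate_succ',
      List.append_assoc]

theorem code_disj (l : List Fml) :
    (Fml.disj l).code = l.flatMap Fml.code ++ (Fml.gt tz).code ++
      List.replicate l.length (tok 8) := by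
  induction l with
  | nil => simp [Fml.disj]
  | cons t l ih =>
    have h : (Fml.disj (t :: l)).code = t.code ++ (Fml.disj l).code ++ [tok 8] := rfl
    rw [h, ih, List.flatMap_cons, List.length_cons, List.replicate_succ']
    simp only [List.append_assoc]

theorem code_conj (l : List Fml) :
    (Fml.conj l).code = l.flatMap Fml.code ++ (Fml.ge tz).code ++
      List.replicate l.length (tok 7) := by
  induction l with
  | nil => simp [Fml.conj]
  | cons t l ih =>
    have h : (Fml.conj (t :: l)).code = t.code ++ (Fml.conj l).code ++ [tok 7] := rfl
    rw [h, ih, List.flatMap_cons, List.length_cons, List.replicate_succ']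
    simp only [List.append_assoc]

variable {𝒜 : Set Orc} {α β : Type} [Enc α] [Enc β]

theorem ptf_tok {k : Orc → α → ℕ} (hk : PTf 𝒜 k) : PTf 𝒜 (fun A x => tok (k A x)) := by
  unfold tok
  repeat (first
    | assumption | with_reducible apply PTf.id | with_reducible apply PTf.const
    | with_reducible apply PTf.pair | with_reducible apply PTf.fst
    | with_reducible apply PTf.snd | with_reducible apply PTf.succ
    | with_reducible apply PTf.add | with_reducible apply PTf.mul
    | with_reducible apply PTf.sub | with_reducible apply PTf.cons
    | with_reducible apply PTf.append | with_reducible apply PTf.replicate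
    | with_reducible apply PTf.length | with_reducible apply PTf.range
    | with_reducible apply PTf.map | with_reducible apply PTf.flatMap
    | with_reducible apply PTf.ifP | with_reducible apply PTf.decide_le
    | with_reducible apply PTf.decide_lt)

theorem ptf_ren {n base far v : Orc → α → ℕ} (hn : PTf 𝒜 n) (hb : PTf 𝒜 base)
    (hf : PTf 𝒜 far) (hv : PTf 𝒜 v) : PTf 𝒜 (fun A x => ren (n A x) (base A x) (far A x) (v A x)) := by
  unfold ren
  repeat (first
    | assumption | with_reducible apply PTf.id | with_reducible apply PTf.const
    | with_reducible apply PTf.pair | with_reducible apply PTf.fst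
    | with_reducible apply PTf.snd | with_reducible apply PTf.succ
    | with_reducible apply PTf.add | with_reducible apply PTf.mul
    | with_reducible apply PTf.sub | with_reducible apply PTf.cons
    | with_reducible apply PTf.append | with_reducible apply PTf.replicate
    | with_reducible apply PTf.length | with_reducible apply PTf.range
    | with_reducible apply PTf.map | with_reducible apply PTf.flatMap
    | with_reducible apply PTf.ifP | with_reducible apply PTf.decide_le
    | with_reducible apply PTf.decide_lt)

theorem ptf_renTok {n base far : Orc → α → ℕ} {q : Orc → α → Tok} (hn : PTf 𝒜 n)
    (hb : PTf 𝒜 base) (hf : PTf 𝒜 far) (hq : PTf 𝒜 q) :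
    PTf 𝒜 (fun A x => renTok (ren (n A x) (base A x) (far A x)) (q A x)) := by
  unfold renTok
  exact PTf.ifP (PTf.decide_le (PTf.const 9) hq.fst)
    ((PTf.add (ptf_ren hn hb hf (PTf.sub hq.fst (PTf.const 9))) (PTf.const 9)).pair hq.snd) hq

theorem ptf_rename {n base far : Orc → α → ℕ} {l : Orc → α → List Tok} (hn : PTf 𝒜 n)
    (hb : PTf 𝒜 base) (hf : PTf 𝒜 far) (hl : PTf 𝒜 l) :
    PTf 𝒜 (fun A x => (l A x).map (renTok (ren (n A x) (base A x) (far A x)))) := by
  apply PTf.map hl
  exact ptf_renTok (hn.comp PTf.id.fst) (hb.comp PTf.id.fst) (hf.comp PTf.id.fst) PTf.id.snd

/-- terms whose code is computable -/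
def PT (𝒜 : Set Orc) (t : Orc → α → Tm) : Prop := PTf 𝒜 (fun A x => (t A x).code)

/-- formulas whose code is computable -/
def PF (𝒜 : Set Orc) (t : Orc → α → Fml) : Prop := PTf 𝒜 (fun A x => (t A x).code)

theorem PT.var {i : Orc → α → ℕ} (h : PTf 𝒜 i) : PT 𝒜 (fun A x => .var (i A x)) := by
  unfold PT
  simp only [Tm.code]
  exact (ptf_tok (by repeat (first | assumption | with_reducible apply PTf.id | with_reducible apply PTf.const | with_reducible apply PTf.pair | with_reducible apply PTf.fst | with_reducible apply PTf.snd | with_reducible apply PTf.succ | with_reducible apply PTf.add | with_reducible apply PTf.mul | with_reducible apply PTf.sub | with_reducible apply PTf.cons | with_reducible apply PTf.append | with_reducible apply PTf.replicate | with_reducible apply PTf.length | with_reducible apply PTf.range | with_reducible apply PTf.map | with_reducible apply PTf.flatMap | with_reducible apply PTf.ifP | with_reducible apply PTf.decide_le | with_reducible apply PTf.decide_lt))).cons (PTf.const [])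

theorem PT.cst (t : Tm) : PT 𝒜 (fun _ (_ : α) => t) := PTf.const _

theorem PT.add {a b : Orc → α → Tm} (ha : PT 𝒜 a) (hb : PT 𝒜 b) :
    PT 𝒜 (fun A x => .add (a A x) (b A x)) := by
  unfold PT at *
  simp only [Tm.code]
  repeat (first
    | assumption | with_reducible apply PTf.id | with_reducible apply PTf.const
    | with_reducible apply PTf.pair | with_reducible apply PTf.fst
    | with_reducible apply PTf.snd | with_reducible apply PTf.succ
    | with_reducible apply PTf.add | with_reducible apply PTf.mul
    | with_reducible apply PTf.sub | with_reducible apply PTf.cons
    | with_reducible apply PTf.append | with_reducible apply PTf.replicate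
    | with_reducible apply PTf.length | with_reducible apply PTf.range
    | with_reducible apply PTf.map | with_reducible apply PTf.flatMap
    | with_reducible apply PTf.ifP | with_reducible apply PTf.decide_le
    | with_reducible apply PTf.decide_lt)

theorem PT.mul {a b : Orc → α → Tm} (ha : PT 𝒜 a) (hb : PT 𝒜 b) :
    PT 𝒜 (fun A x => .mul (a A x) (b A x)) := by
  unfold PT at *
  simp only [Tm.code]
  repeat (first
    | assumption | with_reducible apply PTf.id | with_reducible apply PTf.const
    | with_reducible apply PTf.pair | with_reducible apply PTf.fst
    | with_reducible apply PTf.snd | with_reducible apply PTf.succ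
    | with_reducible apply PTf.add | with_reducible apply PTf.mul
    | with_reducible apply PTf.sub | with_reducible apply PTf.cons
    | with_reducible apply PTf.append | with_reducible apply PTf.replicate
    | with_reducible apply PTf.length | with_reducible apply PTf.range
    | with_reducible apply PTf.map | with_reducible apply PTf.flatMap
    | with_reducible apply PTf.ifP | with_reducible apply PTf.decide_le
    | with_reducible apply PTf.decide_lt)

theorem PT.sub {a b : Orc → α → Tm} (ha : PT 𝒜 a) (hb : PT 𝒜 b) :
    PT 𝒜 (fun A x => (a A x).sub (b A x)) :=
  ha.add ((PT.cst tm1).mul hb)

theorem PT.sq {a : Orc → α → Tm} (ha : PT 𝒜 a) : PT 𝒜 (fun A x => (a A x).sq) := ha.mul ha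

theorem PT.comp {t : Orc → β → Tm} {f : Orc → α → β} (ht : PT 𝒜 t) (hf : PTf 𝒜 f) :
    PT 𝒜 (fun A x => t A (f A x)) := by
  unfold PT at *
  exact ht.comp hf

theorem PF.comp {t : Orc → β → Fml} {f : Orc → α → β} (ht : PF 𝒜 t) (hf : PTf 𝒜 f) :
    PF 𝒜 (fun A x => t A (f A x)) := by
  unfold PF at *
  exact ht.comp hf

theorem PT.sum {l : Orc → α → List β} {t : Orc → α → β → Tm} (hl : PTf 𝒜 l)
    (ht : PT 𝒜 (fun A (p : α × β) => t A p.1 p.2)) :
    PT 𝒜 (fun A x => Tm.sum ((l A x).map (t A x))) := by
  unfold PT at *
  simp only [code_sum, List.flatMap_map, List.length_map]
  apply PTf.append
  · apply PTf.append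
    · exact PTf.flatMap hl ht
    · repeat (first
        | assumption | with_reducible apply PTf.id | with_reducible apply PTf.const
        | with_reducible apply PTf.pair | with_reducible apply PTf.fst
        | with_reducible apply PTf.snd | with_reducible apply PTf.succ
        | with_reducible apply PTf.add | with_reducible apply PTf.mul
        | with_reducible apply PTf.sub | with_reducible apply PTf.cons
        | with_reducible apply PTf.append | with_reducible apply PTf.replicate
        | with_reducible apply PTf.length | with_reducible apply PTf.range
        | with_reducible apply PTf.map | with_reducible apply PTf.flatMap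
        | with_reducible apply PTf.ifP | with_reducible apply PTf.decide_le
        | with_reducible apply PTf.decide_lt)
  · repeat (first
      | assumption | with_reducible apply PTf.id | with_reducible apply PTf.const
      | with_reducible apply PTf.pair | with_reducible apply PTf.fst
      | with_reducible apply PTf.snd | with_reducible apply PTf.succ
      | with_reducible apply PTf.add | with_reducible apply PTf.mul
      | with_reducible apply PTf.sub | with_reducible apply PTf.cons
      | with_reducible apply PTf.append | with_reducible apply PTf.replicate
      | with_reducible apply PTf.length | with_reducible apply PTf.range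
      | with_reducible apply PTf.map | with_reducible apply PTf.flatMap
      | with_reducible apply PTf.ifP | with_reducible apply PTf.decide_le
      | with_reducible apply PTf.decide_lt)

theorem PF.disj {l : Orc → α → List β} {t : Orc → α → β → Fml} (hl : PTf 𝒜 l)
    (ht : PF 𝒜 (fun A (p : α × β) => t A p.1 p.2)) :
    PF 𝒜 (fun A x => Fml.disj ((l A x).map (t A x))) := by
  unfold PF at *
  simp only [code_disj, List.flatMap_map, List.length_map]
  apply PTf.append
  · apply PTf.append
    · exact PTf.flatMap hl ht
    · repeat (first
        | assumption | with_reducible apply PTf.id | with_reducible apply PTf.const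
        | with_reducible apply PTf.pair | with_reducible apply PTf.fst
        | with_reducible apply PTf.snd | with_reducible apply PTf.succ
        | with_reducible apply PTf.add | with_reducible apply PTf.mul
        | with_reducible apply PTf.sub | with_reducible apply PTf.cons
        | with_reducible apply PTf.append | with_reducible apply PTf.replicate
        | with_reducible apply PTf.length | with_reducible apply PTf.range
        | with_reducible apply PTf.map | with_reducible apply PTf.flatMap
        | with_reducible apply PTf.ifP | with_reducible apply PTf.decide_le
        | with_reducible apply PTf.decide_lt)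
  · repeat (first
      | assumption | with_reducible apply PTf.id | with_reducible apply PTf.const
      | with_reducible apply PTf.pair | with_reducible apply PTf.fst
      | with_reducible apply PTf.snd | with_reducible apply PTf.succ
      | with_reducible apply PTf.add | with_reducible apply PTf.mul
      | with_reducible apply PTf.sub | with_reducible apply PTf.cons
      | with_reducible apply PTf.append | with_reducible apply PTf.replicate
      | with_reducible apply PTf.length | with_reducible apply PTf.range
      | with_reducible apply PTf.map | with_reducible apply PTf.flatMap
      | with_reducible apply PTf.ifP | with_reducible apply PTf.decide_le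
      | with_reducible apply PTf.decide_lt)

theorem PF.conj {l : Orc → α → List β} {t : Orc → α → β → Fml} (hl : PTf 𝒜 l)
    (ht : PF 𝒜 (fun A (p : α × β) => t A p.1 p.2)) :
    PF 𝒜 (fun A x => Fml.conj ((l A x).map (t A x))) := by
  unfold PF at *
  simp only [code_conj, List.flatMap_map, List.length_map]
  apply PTf.append
  · apply PTf.append
    · exact PTf.flatMap hl ht
    · repeat (first
        | assumption | with_reducible apply PTf.id | with_reducible apply PTf.const
        | with_reducible apply PTf.pair | with_reducible apply PTf.fst
        | with_reducible apply PTf.snd | with_reducible apply PTf.succ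
        | with_reducible apply PTf.add | with_reducible apply PTf.mul
        | with_reducible apply PTf.sub | with_reducible apply PTf.cons
        | with_reducible apply PTf.append | with_reducible apply PTf.replicate
        | with_reducible apply PTf.length | with_reducible apply PTf.range
        | with_reducible apply PTf.map | with_reducible apply PTf.flatMap
        | with_reducible apply PTf.ifP | with_reducible apply PTf.decide_le
        | with_reducible apply PTf.decide_lt)
  · repeat (first
      | assumption | with_reducible apply PTf.id | with_reducible apply PTf.const
      | with_reducible apply PTf.pair | with_reducible apply PTf.fst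
      | with_reducible apply PTf.snd | with_reducible apply PTf.succ
      | with_reducible apply PTf.add | with_reducible apply PTf.mul
      | with_reducible apply PTf.sub | with_reducible apply PTf.cons
      | with_reducible apply PTf.append | with_reducible apply PTf.replicate
      | with_reducible apply PTf.length | with_reducible apply PTf.range
      | with_reducible apply PTf.map | with_reducible apply PTf.flatMap
      | with_reducible apply PTf.ifP | with_reducible apply PTf.decide_le
      | with_reducible apply PTf.decide_lt)

theorem PF.eq {a : Orc → α → Tm} (ha : PT 𝒜 a) : PF 𝒜 (fun A x => .eq (a A x)) := by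
  unfold PF; unfold PT at ha
  simp only [Fml.code]
  repeat (first
    | assumption | with_reducible apply PTf.id | with_reducible apply PTf.const
    | with_reducible apply PTf.pair | with_reducible apply PTf.fst
    | with_reducible apply PTf.snd | with_reducible apply PTf.succ
    | with_reducible apply PTf.add | with_reducible apply PTf.mul
    | with_reducible apply PTf.sub | with_reducible apply PTf.cons
    | with_reducible apply PTf.append | with_reducible apply PTf.replicate
    | with_reducible apply PTf.length | with_reducible apply PTf.range
    | with_reducible apply PTf.map | with_reducible apply PTf.flatMap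
    | with_reducible apply PTf.ifP | with_reducible apply PTf.decide_le
    | with_reducible apply PTf.decide_lt)

theorem PF.gt {a : Orc → α → Tm} (ha : PT 𝒜 a) : PF 𝒜 (fun A x => .gt (a A x)) := by
  unfold PF; unfold PT at ha
  simp only [Fml.code]
  repeat (first
    | assumption | with_reducible apply PTf.id | with_reducible apply PTf.const
    | with_reducible apply PTf.pair | with_reducible apply PTf.fst
    | with_reducible apply PTf.snd | with_reducible apply PTf.succ
    | with_reducible apply PTf.add | with_reducible apply PTf.mul
    | with_reducible apply PTf.sub | with_reducible apply PTf.cons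
    | with_reducible apply PTf.append | with_reducible apply PTf.replicate
    | with_reducible apply PTf.length | with_reducible apply PTf.range
    | with_reducible apply PTf.map | with_reducible apply PTf.flatMap
    | with_reducible apply PTf.ifP | with_reducible apply PTf.decide_le
    | with_reducible apply PTf.decide_lt)

theorem PF.ge {a : Orc → α → Tm} (ha : PT 𝒜 a) : PF 𝒜 (fun A x => .ge (a A x)) := by
  unfold PF; unfold PT at ha
  simp only [Fml.code]
  repeat (first
    | assumption | with_reducible apply PTf.id | with_reducible apply PTf.const
    | with_reducible apply PTf.pair | with_reducible apply PTf.fst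
    | with_reducible apply PTf.snd | with_reducible apply PTf.succ
    | with_reducible apply PTf.add | with_reducible apply PTf.mul
    | with_reducible apply PTf.sub | with_reducible apply PTf.cons
    | with_reducible apply PTf.append | with_reducible apply PTf.replicate
    | with_reducible apply PTf.length | with_reducible apply PTf.range
    | with_reducible apply PTf.map | with_reducible apply PTf.flatMap
    | with_reducible apply PTf.ifP | with_reducible apply PTf.decide_le
    | with_reducible apply PTf.decide_lt)

theorem PF.neg {a : Orc → α → Fml} (ha : PF 𝒜 a) : PF 𝒜 (fun A x => .neg (a A x)) := by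
  unfold PF at *
  simp only [Fml.code]
  repeat (first
    | assumption | with_reducible apply PTf.id | with_reducible apply PTf.const
    | with_reducible apply PTf.pair | with_reducible apply PTf.fst
    | with_reducible apply PTf.snd | with_reducible apply PTf.succ
    | with_reducible apply PTf.add | with_reducible apply PTf.mul
    | with_reducible apply PTf.sub | with_reducible apply PTf.cons
    | with_reducible apply PTf.append | with_reducible apply PTf.replicate
    | with_reducible apply PTf.length | with_reducible apply PTf.range
    | with_reducible apply PTf.map | with_reducible apply PTf.flatMap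
    | with_reducible apply PTf.ifP | with_reducible apply PTf.decide_le
    | with_reducible apply PTf.decide_lt)

theorem PF.and {a b : Orc → α → Fml} (ha : PF 𝒜 a) (hb : PF 𝒜 b) :
    PF 𝒜 (fun A x => .and (a A x) (b A x)) := by
  unfold PF at *
  simp only [Fml.code]
  repeat (first
    | assumption | with_reducible apply PTf.id | with_reducible apply PTf.const
    | with_reducible apply PTf.pair | with_reducible apply PTf.fst
    | with_reducible apply PTf.snd | with_reducible apply PTf.succ
    | with_reducible apply PTf.add | with_reducible apply PTf.mul
    | with_reducible apply PTf.sub | with_reducible apply PTf.cons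
    | with_reducible apply PTf.append | with_reducible apply PTf.replicate
    | with_reducible apply PTf.length | with_reducible apply PTf.range
    | with_reducible apply PTf.map | with_reducible apply PTf.flatMap
    | with_reducible apply PTf.ifP | with_reducible apply PTf.decide_le
    | with_reducible apply PTf.decide_lt)

theorem PF.or {a b : Orc → α → Fml} (ha : PF 𝒜 a) (hb : PF 𝒜 b) :
    PF 𝒜 (fun A x => .or (a A x) (b A x)) := by
  unfold PF at *
  simp only [Fml.code]
  repeat (first
    | assumption | with_reducible apply PTf.id | with_reducible apply PTf.const
    | with_reducible apply PTf.pair | with_reducible apply PTf.fst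
    | with_reducible apply PTf.snd | with_reducible apply PTf.succ
    | with_reducible apply PTf.add | with_reducible apply PTf.mul
    | with_reducible apply PTf.sub | with_reducible apply PTf.cons
    | with_reducible apply PTf.append | with_reducible apply PTf.replicate
    | with_reducible apply PTf.length | with_reducible apply PTf.range
    | with_reducible apply PTf.map | with_reducible apply PTf.flatMap
    | with_reducible apply PTf.ifP | with_reducible apply PTf.decide_le
    | with_reducible apply PTf.decide_lt)

theorem PF.cst (t : Fml) : PF 𝒜 (fun _ (_ : α) => t) := PTf.const _

theorem PF.rename {n base far : Orc → α → ℕ} {φ : Orc → α → Fml} (hn : PTf 𝒜 n)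
    (hb : PTf 𝒜 base) (hf : PTf 𝒜 far) (hφ : PF 𝒜 φ) :
    PF 𝒜 (fun A x => (φ A x).rename (ren (n A x) (base A x) (far A x))) := by
  unfold PF at *
  simp only [Fml.code_rename]
  exact ptf_rename hn hb hf hφ

end Pool.Agent.LibStar4
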