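import Pool.Agent.LibStar4.Proj
import Pool.Agent.LibStar4.Omega

/-!
Sets that are locally constant on types are constant on the region of well separated scales.
-/

open Polynomial Set Filter Topology

namespace Pool.Agent.LibStar4

noncomputable section

/-- the set `T` is locally constant on the types of `P` -/
def LC {ι : Type} (P : (MvPolynomial ι ℤ)[X][X]) (T : Set (ι → ℝ)) : Prop :=
  ∀ (j e : ℕ) (l0 : ι → ℝ), HasType P j e l0 →
    ∀ᶠ l in 𝓝 l0, HasType P j e l → (l ∈ T ↔ l0 ∈ T)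

/-- a non-zero constant coefficient -/
def Cst {ι : Type} (P : (MvPolynomial ι ℤ)[X][X]) : Prop :=
  ∃ N e c : ℕ, 0 < c ∧ (P.coeff N).coeff e = (c : MvPolynomial ι ℤ)

/-- Some coefficient is non-zero at `l`; take the least `j` such that some `co P i j l ≠ 0`, then the
greatest `i` for this `j` (`co_eq_zero` of `Types.lean` for the bounds). -/
theorem exists_type {ι : Type} {P : (MvPolynomial ι ℤ)[X][X]} (h : Cst P) (l : ι → ℝ) :
    ∃ j ≤ bt P, ∃ e ≤ P.natDegree, HasType P j e l := by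
  classical
  obtain ⟨N, e0, c, hc, hcoef⟩ := h
  have hne : co P N e0 l ≠ 0 := by
    unfold co
    rw [hcoef, map_natCast]
    exact_mod_cast hc.ne'
  have hex : ∃ j, ∃ i, co P i j l ≠ 0 := ⟨e0, N, hne⟩
  obtain ⟨i0, hi0⟩ := Nat.find_spec hex
  have hmin : ∀ i, ∀ j' < Nat.find hex, co P i j' l = 0 := by
    intro i j' hj'
    have h1 := Nat.find_min hex hj'
    by_contra hcon
    exact h1 ⟨i, hcon⟩
  have hi0d : i0 ≤ P.natDegree := by
    by_contra hcon
    exact hi0 (co_eq_zero P i0 _ l (Or.inl (by omega)))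
  have hjb : Nat.find hex ≤ bt P := by
    by_contra hcon
    exact hi0 (co_eq_zero P i0 _ l (Or.inr (by omega)))
  refine ⟨Nat.find hex, hjb, Nat.findGreatest (fun i => co P i (Nat.find hex) l ≠ 0) P.natDegree,
    Nat.findGreatest_le _, hmin, ?_, ?_⟩
  · intro i hi
    by_cases hid : i ≤ P.natDegree
    · have h2 := Nat.findGreatest_is_greatest hi hid
      exact not_not.1 h2
    · exact co_eq_zero P i _ l (Or.inl (by omega))
  · exact Nat.findGreatest_spec (P := fun i => co P i (Nat.find hex) l ≠ 0) hi0d hi0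

/-- On the region, the type is constant: a coefficient polynomial `a = (P.coeff i).coeff j` has size
`≤ D, H` (`Siz.poly_coeff` twice), so `ev l a = 0 ↔ a = 0` for `l ∈ Om m D H` (`ev_ne_zero`). -/
theorem om_type {m D H : ℕ} {P : (MvPolynomial (Fin m) ℤ)[X][X]}
    (hP : Siz.int.mv.poly.poly.Le P D H) {j e : ℕ} {l l' : Fin m → ℝ} (hl : l ∈ Om m D H)
    (hl' : l' ∈ Om m D H) (h : HasType P j e l) : HasType P j e l' := by
  have key : ∀ (i j : ℕ) (l l' : Fin m → ℝ), l ∈ Om m D H → co P i j l = 0 →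
      co P i j l' = 0 := by
    intro i j l l' hl h0
    have hsz : Siz.int.mv.Le ((P.coeff i).coeff j) D H := Siz.poly_coeff _ (Siz.poly_coeff _ hP i) j
    have ha : (P.coeff i).coeff j = 0 := by
      by_contra hne
      exact ev_ne_zero hne hsz hl h0
    unfold co
    rw [ha, map_zero]
  refine ⟨fun i j' hj' => key i j' l l' hl (h.1 i j' hj'),
    fun i hi => key i j l l' hl (h.2.1 i hi), fun h0 => h.2.2 (key e j l' l hl' h0)⟩

/-- `exists_type`, `om_type`, and `const_of_local` with `isPreconnected_om`. -/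
theorem om_const {m D H : ℕ} (hH : 1 ≤ H) {P : (MvPolynomial (Fin m) ℤ)[X][X]} (hc : Cst P)
    (hP : Siz.int.mv.poly.poly.Le P D H) {T : Set (Fin m → ℝ)} (hT : LC P T)
    {l l' : Fin m → ℝ} (hl : l ∈ Om m D H) (hl' : l' ∈ Om m D H) : l ∈ T ↔ l' ∈ T := by
  refine const_of_local (p := fun l => l ∈ T) (isPreconnected_om m D H hH) ?_ hl hl'
  intro x hx
  obtain ⟨j, _, e, _, ht⟩ := exists_type hc x
  filter_upwards [hT j e x ht] with y hy hyO
  exact hy (om_type hP hx hyO ht)

/-- `Siz.poly_coeff`, `Siz.poly_natDegree` -/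
theorem bt_le {ι : Type} {P : (MvPolynomial ι ℤ)[X][X]} {d h : ℕ}
    (H : Siz.int.mv.poly.poly.Le P d h) : bt P ≤ d := by
  unfold bt
  refine Finset.sup_le fun i _ => ?_
  exact Siz.poly_natDegree _ (Siz.poly_coeff _ H i)

end

end Pool.Agent.LibStar4
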