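import Pool.Agent.LibStar4.Proj

/-!
Parameters `u` become variables of the outer polynomial ring.
-/

open Polynomial Set Filter Topology

namespace Pool.Agent.LibStar4

noncomputable section

variable {m k₁ : ℕ}

/-- the variables `u` become variables of the outer polynomial ring -/
def th (m k₁ : ℕ) : MvPolynomial (Fin m ⊕ Fin k₁) ℤ →+*
    MvPolynomial (Fin (k₁ + 1)) (MvPolynomial (Fin m) ℤ) :=
  MvPolynomial.eval₂Hom (Int.castRingHom _)
    (Sum.elim (fun a => MvPolynomial.C (MvPolynomial.X a)) (fun b => MvPolynomial.X b.castSucc))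

/-- both sides are ring homomorphisms in `a`; `MvPolynomial.induction_on` -/
theorem fv_th (a : MvPolynomial (Fin m ⊕ Fin k₁) ℤ) (l : Fin m → ℝ) (v : Fin (k₁ + 1) → ℝ) :
    fv (th m k₁ a) (l, v) = ev (Sum.elim l fun b => v b.castSucc) a := by
  have h : ((MvPolynomial.eval₂Hom (ev l) v).comp (th m k₁)) =
      ev (Sum.elim l fun b => v b.castSucc) := by
    apply MvPolynomial.ringHom_ext
    · intro r
      simp [th, ev]
    · intro i
      rcases i with i | i
      · simp [th, ev]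
      · simp [th, ev]
  have h2 := congrArg (fun f => f a) h
  exact h2

/-- the image of a variable -/
theorem StratB_var (i : Fin m ⊕ Fin k₁) : Siz.int.mv.mv.Le
    ((Sum.elim (fun a => MvPolynomial.C (MvPolynomial.X a)) (fun b => MvPolynomial.X b.castSucc) :
      Fin m ⊕ Fin k₁ → MvPolynomial (Fin (k₁ + 1)) (MvPolynomial (Fin m) ℤ)) i) 1 1 := by
  rcases i with i | i
  · exact Siz.mv_C _ (Siz.mv_X _ i)
  · exact Siz.mv_X _ _

theorem StratB_prod {ι : Type*} {B : Type} [CommRing B] {s : Siz B} (I : Finset ι) (f : ι → B)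
    (e : ι → ℕ) (H : ∀ i ∈ I, s.Le (f i) (e i) 1) : s.Le (∏ i ∈ I, f i) (∑ i ∈ I, e i) 1 := by
  constructor
  · exact (s.deg_prod I f).trans (Finset.sum_le_sum fun i hi => (H i hi).1)
  · exact (s.nrm_prod I f).trans ((Finset.prod_le_prod' fun i hi => (H i hi).2).trans (by simp))

/-- Write `a` as the sum of its monomials: the image of `c X^α` is `C (c X^(α∘inl)) * X^(α∘inr)`, of
degree `≤ |α|` and norm `≤ |c|` (`Siz.Le.sum`, `Siz.Le.mul`, `Siz.mv_C`, `Siz.mv_X`, `Siz.Le.pow`). -/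
theorem le_th {a : MvPolynomial (Fin m ⊕ Fin k₁) ℤ} {d h : ℕ} (H : Siz.int.mv.Le a d h) :
    Siz.int.mv.mv.Le (th m k₁ a) d h := by
  have h0 : th m k₁ a = ∑ α ∈ a.support, ((a.coeff α : ℤ) :
      MvPolynomial (Fin (k₁ + 1)) (MvPolynomial (Fin m) ℤ)) * ∏ i ∈ α.support,
      (Sum.elim (fun a => MvPolynomial.C (MvPolynomial.X a)) (fun b => MvPolynomial.X b.castSucc) :
      Fin m ⊕ Fin k₁ → MvPolynomial (Fin (k₁ + 1)) (MvPolynomial (Fin m) ℤ)) i ^ α i := by
    unfold th
    rw [MvPolynomial.coe_eval₂Hom, MvPolynomial.eval₂_eq]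
    rfl
  rw [h0]
  have h1 := Siz.Le.sum (s := (Siz.int.mv (σ := Fin m)).mv (σ := Fin (k₁ + 1))) a.support (fun α => ((a.coeff α : ℤ) :
      MvPolynomial (Fin (k₁ + 1)) (MvPolynomial (Fin m) ℤ)) * ∏ i ∈ α.support,
      (Sum.elim (fun a => MvPolynomial.C (MvPolynomial.X a)) (fun b => MvPolynomial.X b.castSucc) :
      Fin m ⊕ Fin k₁ → MvPolynomial (Fin (k₁ + 1)) (MvPolynomial (Fin m) ℤ)) i ^ α i) d
      (fun α => (a.coeff α).natAbs) (by
      intro α hα
      have h2 := Siz.Le.int (s := (Siz.int.mv (σ := Fin m)).mv (σ := Fin (k₁ + 1))) (a.coeff α)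
      have h3 := StratB_prod (s := (Siz.int.mv (σ := Fin m)).mv (σ := Fin (k₁ + 1))) α.support (fun i =>
        (Sum.elim (fun a => MvPolynomial.C (MvPolynomial.X a))
          (fun b => MvPolynomial.X b.castSucc) :
        Fin m ⊕ Fin k₁ → MvPolynomial (Fin (k₁ + 1)) (MvPolynomial (Fin m) ℤ)) i ^ α i)
        (fun i => α i) (by
          intro i _
          refine ((StratB_var i).pow (α i)).mono (by simp) (by simp))
      refine (h2.mul h3).mono ?_ (by simp)
      have h4 := (Siz.mvDeg_le Siz.int a d).1 H.1 α (MvPolynomial.mem_support_iff.1 hα)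
      have h5 : α.degree = ∑ i ∈ α.support, α i := rfl
      rw [← h5]
      omega)
  refine h1.mono le_rfl ?_
  exact H.2

end

end Pool.Agent.LibStar4
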