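import Pool.Agent.LibStar4.StratA
import Pool.Agent.LibStar4.StratB

/-!
The polynomial whose zeros are the points of a type.
-/

open Polynomial Set Filter Topology

namespace Pool.Agent.LibStar4

noncomputable section

variable {m k₁ : ℕ}

/-- the polynomial whose zeros are the points of a type; the last variable is the inverse of the
leading coefficient -/
def F₂ (P : (MvPolynomial (Fin m ⊕ Fin k₁) ℤ)[X][X]) (j e : ℕ) :
    MvPolynomial (Fin (k₁ + 1)) (MvPolynomial (Fin m) ℤ) :=
  (∑ i ∈ Finset.range (P.natDegree + 1), ∑ j' ∈ Finset.range j,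
      th m k₁ ((P.coeff i).coeff j') ^ 2) +
    (∑ i ∈ Finset.range (P.natDegree + 1), if e < i then th m k₁ ((P.coeff i).coeff j) ^ 2 else 0) +
    (th m k₁ ((P.coeff e).coeff j) * MvPolynomial.X (Fin.last k₁) - 1) ^ 2

/-- the value of the polynomial -/
theorem StratC_val (P : (MvPolynomial (Fin m ⊕ Fin k₁) ℤ)[X][X]) (j e : ℕ)
    (l : Fin m → ℝ) (v : Fin (k₁ + 1) → ℝ) : fv (F₂ P j e) (l, v) =
      (∑ i ∈ Finset.range (P.natDegree + 1), ∑ j' ∈ Finset.range j,
        co P i j' (Sum.elim l fun b => v b.castSucc) ^ 2) +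
      (∑ i ∈ Finset.range (P.natDegree + 1),
        if e < i then co P i j (Sum.elim l fun b => v b.castSucc) ^ 2 else 0) +
      (co P e j (Sum.elim l fun b => v b.castSucc) * v (Fin.last k₁) - 1) ^ 2 := by
  have h : ∀ a : MvPolynomial (Fin m ⊕ Fin k₁) ℤ,
      MvPolynomial.eval₂Hom (ev l) v (th m k₁ a) = ev (Sum.elim l fun b => v b.castSucc) a :=
    fun a => fv_th a l v
  change MvPolynomial.eval₂Hom (ev l) v (F₂ P j e) = _
  unfold F₂ co
  rw [map_add, map_add, map_sum, map_sum, map_pow, map_sub, map_mul, map_one, h,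
    MvPolynomial.eval₂Hom_X']
  refine congrArg₂ _ (congrArg₂ _ ?_ ?_) rfl
  · refine Finset.sum_congr rfl fun i _ => ?_
    rw [map_sum]
    refine Finset.sum_congr rfl fun j' _ => ?_
    rw [map_pow, h]
  · refine Finset.sum_congr rfl fun i _ => ?_
    split_ifs
    · rw [map_pow, h]
    · rw [map_zero]

/-- a sum of squares -/
theorem fv_F₂_nonneg (P : (MvPolynomial (Fin m ⊕ Fin k₁) ℤ)[X][X]) (j e : ℕ)
    (x : (Fin m → ℝ) × (Fin (k₁ + 1) → ℝ)) : 0 ≤ fv (F₂ P j e) x := by
  obtain ⟨l, v⟩ := x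
  rw [StratC_val]
  have h1 : 0 ≤ ∑ i ∈ Finset.range (P.natDegree + 1), ∑ j' ∈ Finset.range j,
      co P i j' (Sum.elim l fun b => v b.castSucc) ^ 2 :=
    Finset.sum_nonneg fun i _ => Finset.sum_nonneg fun j' _ => sq_nonneg _
  have h2 : 0 ≤ ∑ i ∈ Finset.range (P.natDegree + 1),
      if e < i then co P i j (Sum.elim l fun b => v b.castSucc) ^ 2 else 0 :=
    Finset.sum_nonneg fun i _ => by split_ifs <;> positivity
  positivity

theorem StratC_zero (P : (MvPolynomial (Fin m ⊕ Fin k₁) ℤ)[X][X]) (j e : ℕ)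
    (w : Fin m ⊕ Fin k₁ → ℝ) (c : ℝ) :
      (∑ i ∈ Finset.range (P.natDegree + 1), ∑ j' ∈ Finset.range j, co P i j' w ^ 2) +
      (∑ i ∈ Finset.range (P.natDegree + 1), if e < i then co P i j w ^ 2 else 0) +
      (co P e j w * c - 1) ^ 2 = 0 ↔ HasType P j e w ∧ co P e j w * c = 1 := by
  have h1 : 0 ≤ ∑ i ∈ Finset.range (P.natDegree + 1), ∑ j' ∈ Finset.range j,
      co P i j' w ^ 2 :=
    Finset.sum_nonneg fun i _ => Finset.sum_nonneg fun j' _ => sq_nonneg _
  have h2 : 0 ≤ ∑ i ∈ Finset.range (P.natDegree + 1),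
      if e < i then co P i j w ^ 2 else 0 :=
    Finset.sum_nonneg fun i _ => by split_ifs <;> positivity
  have h3 : 0 ≤ (co P e j w * c - 1) ^ 2 := sq_nonneg _
  constructor
  · intro h
    have e1 : ∑ i ∈ Finset.range (P.natDegree + 1), ∑ j' ∈ Finset.range j,
      co P i j' w ^ 2 = 0 := by linarith
    have e2 : ∑ i ∈ Finset.range (P.natDegree + 1),
      (if e < i then co P i j w ^ 2 else 0) = 0 := by linarith
    have e3 : (co P e j w * c - 1) ^ 2 = 0 := by linarith
    have e4 : co P e j w * c = 1 := by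
      have := pow_eq_zero_iff (two_ne_zero) |>.1 e3
      linarith
    refine ⟨⟨?_, ?_, ?_⟩, e4⟩
    · intro i j' hj'
      by_cases hi : P.natDegree < i
      · exact co_eq_zero P i j' w (Or.inl hi)
      · rw [Finset.sum_eq_zero_iff_of_nonneg fun i _ =>
          Finset.sum_nonneg fun j' _ => sq_nonneg _] at e1
        have e5 := e1 i (Finset.mem_range.2 (by omega))
        rw [Finset.sum_eq_zero_iff_of_nonneg fun j' _ => sq_nonneg _] at e5
        exact pow_eq_zero_iff (two_ne_zero) |>.1 (e5 j' (Finset.mem_range.2 hj'))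
    · intro i hi
      by_cases hi' : P.natDegree < i
      · exact co_eq_zero P i j w (Or.inl hi')
      · rw [Finset.sum_eq_zero_iff_of_nonneg fun i _ => by split_ifs <;> positivity] at e2
        have e5 := e2 i (Finset.mem_range.2 (by omega))
        rw [if_pos hi] at e5
        exact pow_eq_zero_iff (two_ne_zero) |>.1 e5
    · intro h0
      rw [h0, zero_mul] at e4
      exact zero_ne_one e4
  · rintro ⟨⟨h4, h5, -⟩, h6⟩
    rw [Finset.sum_eq_zero fun i _ => Finset.sum_eq_zero fun j' hj' => by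
        rw [h4 i j' (Finset.mem_range.1 hj')]; exact zero_pow two_ne_zero,
      Finset.sum_eq_zero fun i _ => by
        split_ifs with hi
        · rw [h5 i hi]; exact zero_pow two_ne_zero
        · rfl, h6]
    norm_num

/-- A sum of squares vanishes iff all the squares vanish; `fv_th`; coefficients beyond the degree
vanish (`co_eq_zero`). (If `e > natDegree` both sides are false.) -/
theorem fv_F₂_eq_zero (P : (MvPolynomial (Fin m ⊕ Fin k₁) ℤ)[X][X]) (j e : ℕ)
    (l : Fin m → ℝ) (v : Fin (k₁ + 1) → ℝ) : fv (F₂ P j e) (l, v) = 0 ↔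
      HasType P j e (Sum.elim l fun b => v b.castSucc) ∧
        co P e j (Sum.elim l fun b => v b.castSucc) * v (Fin.last k₁) = 1 := by
  rw [StratC_val]
  exact StratC_zero P j e _ _

/-- `le_th`, `Siz.poly_coeff`, `Siz.poly_natDegree`; the first two sums have at most
`(d + 1) * (d + 1)` terms, each of degree `≤ 2 d` and norm `≤ h ^ 2`. -/
theorem le_F₂ {P : (MvPolynomial (Fin m ⊕ Fin k₁) ℤ)[X][X]} {d h : ℕ}
    (H : Siz.int.mv.poly.poly.Le P d h) {j : ℕ} (hj : j ≤ d) (e : ℕ) :
    Siz.int.mv.mv.Le (F₂ P j e) (2 * d + 2) (2 * (d + 1) ^ 2 * h ^ 2 + (h + 1) ^ 2) := by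
  have hn : P.natDegree ≤ d := Siz.poly_natDegree _ H
  have hc : ∀ i j', Siz.int.mv.mv.Le (th m k₁ ((P.coeff i).coeff j')) d h := fun i j' =>
    le_th (Siz.poly_coeff _ (Siz.poly_coeff _ H i) j')
  have hs : ∀ i j', Siz.int.mv.mv.Le (th m k₁ ((P.coeff i).coeff j') ^ 2) (2 * d) (h ^ 2) :=
    fun i j' => (hc i j').pow 2
  have h1 : Siz.int.mv.mv.Le (∑ i ∈ Finset.range (P.natDegree + 1), ∑ j' ∈ Finset.range j,
      th m k₁ ((P.coeff i).coeff j') ^ 2) (2 * d) ((d + 1) * ((d + 1) * h ^ 2)) := by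
    have := Siz.Le.sum (s := Siz.int.mv.mv) (Finset.range (P.natDegree + 1))
      (fun i => ∑ j' ∈ Finset.range j, th m k₁ ((P.coeff i).coeff j') ^ 2) (2 * d)
      (fun _ => (d + 1) * h ^ 2) (fun i _ => by
        refine (Siz.Le.sum (s := Siz.int.mv.mv) (Finset.range j)
          (fun j' => th m k₁ ((P.coeff i).coeff j') ^ 2) (2 * d) (fun _ => h ^ 2)
          (fun j' _ => hs i j')).mono le_rfl ?_
        rw [Finset.sum_const, Finset.card_range, smul_eq_mul]
        exact Nat.mul_le_mul_right _ (by omega))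
    refine this.mono le_rfl ?_
    rw [Finset.sum_const, Finset.card_range, smul_eq_mul]
    exact Nat.mul_le_mul_right _ (by omega)
  have h2 : Siz.int.mv.mv.Le (∑ i ∈ Finset.range (P.natDegree + 1),
      if e < i then th m k₁ ((P.coeff i).coeff j) ^ 2 else 0) (2 * d) ((d + 1) * h ^ 2) := by
    have := Siz.Le.sum (s := Siz.int.mv.mv) (Finset.range (P.natDegree + 1))
      (fun i => if e < i then th m k₁ ((P.coeff i).coeff j) ^ 2 else 0) (2 * d)
      (fun _ => h ^ 2) (fun i _ => by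
        split_ifs
        · exact hs i j
        · exact Siz.Le.zero.mono (Nat.zero_le _) (Nat.zero_le _))
    refine this.mono le_rfl ?_
    rw [Finset.sum_const, Finset.card_range, smul_eq_mul]
    exact Nat.mul_le_mul_right _ (by omega)
  have h3 : Siz.int.mv.mv.Le ((th m k₁ ((P.coeff e).coeff j) * MvPolynomial.X (Fin.last k₁) - 1)
      ^ 2) (2 * (d + 1)) ((h + 1) ^ 2) := by
    refine Siz.Le.pow ?_ 2
    rw [sub_eq_add_neg]
    refine (((hc e j).mul (Siz.mv_X _ (Fin.last k₁))).add Siz.Le.one.neg).mono ?_ ?_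
    · omega
    · omega
  refine ((h1.add h2).add h3).mono ?_ ?_
  · omega
  · have h4 : (d + 1) * h ^ 2 ≤ (d + 1) * ((d + 1) * h ^ 2) :=
      Nat.mul_le_mul_left _ (Nat.le_mul_of_pos_left _ (by omega))
    nlinarith

end

end Pool.Agent.LibStar4
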