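import Pool.Agent.LibStar4.StratC

/-!
The clopen pieces.
-/

open Polynomial Set Filter Topology

namespace Pool.Agent.LibStar4

noncomputable section

variable {m k₁ : ℕ}

/-- the clopen piece -/
def C₂ (P : (MvPolynomial (Fin m ⊕ Fin k₁) ℤ)[X][X]) (j e : ℕ) (T : Set (Fin m ⊕ Fin k₁ → ℝ)) :
    Set ((Fin m → ℝ) × (Fin (k₁ + 1) → ℝ)) :=
  {x | fv (F₂ P j e) x = 0 ∧ Sum.elim x.1 (fun b => x.2 b.castSucc) ∈ T}

theorem stratD_cont : Continuous (fun x : (Fin m → ℝ) × (Fin (k₁ + 1) → ℝ) =>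
    (Sum.elim x.1 (fun b => x.2 b.castSucc) : Fin m ⊕ Fin k₁ → ℝ)) := by
  refine continuous_pi fun i => ?_
  rcases i with i | i
  · exact (continuous_apply i).comp continuous_fst
  · exact (continuous_apply i.castSucc).comp continuous_snd

theorem stratD_closed {P : (MvPolynomial (Fin m ⊕ Fin k₁) ℤ)[X][X]}
    {T : Set (Fin m ⊕ Fin k₁ → ℝ)} (hT : LC P T) (j e : ℕ) : IsClosed (C₂ P j e T) := by
  have hZ : IsClosed {x | fv (F₂ P j e) x = 0} :=
    isClosed_eq (continuous_fv (F₂ P j e)) continuous_const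
  have hsub : C₂ P j e T ⊆ {x | fv (F₂ P j e) x = 0} := fun x hx => hx.1
  refine isClosed_of_closure_subset fun x hx => ?_
  have hx0 : fv (F₂ P j e) x = 0 := closure_minimal hsub hZ hx
  have ht : HasType P j e (Sum.elim x.1 fun b => x.2 b.castSucc) :=
    ((fv_F₂_eq_zero P j e x.1 x.2).1 hx0).1
  have h1 := hT j e _ ht
  have h2 : ∀ᶠ y in 𝓝 x, HasType P j e (Sum.elim y.1 fun b => y.2 b.castSucc) →
      ((Sum.elim y.1 fun b => y.2 b.castSucc) ∈ T ↔
        (Sum.elim x.1 fun b => x.2 b.castSucc) ∈ T) :=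
    (stratD_cont (m := m) (k₁ := k₁)).continuousAt.eventually h1
  obtain ⟨y, hyC, hy⟩ := ((mem_closure_iff_frequently.1 hx).and_eventually h2).exists
  have hyt : HasType P j e (Sum.elim y.1 fun b => y.2 b.castSucc) :=
    ((fv_F₂_eq_zero P j e y.1 y.2).1 hyC.1).1
  exact ⟨hx0, (hy hyt).1 hyC.2⟩

theorem stratD_compl {P : (MvPolynomial (Fin m ⊕ Fin k₁) ℤ)[X][X]}
    {T : Set (Fin m ⊕ Fin k₁ → ℝ)} (hT : LC P T) : LC P Tᶜ := by
  intro j e l0 h0
  filter_upwards [hT j e l0 h0] with l hl h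
  exact not_congr (hl h)

/-- `nonneg`, `sub` are clear. `closed` and `closed'`: on the closed set `{fv (F₂ P j e) = 0}` all
points have the type `(j, e)` (`fv_F₂_eq_zero`), so `hT` shows that membership in `T` is locally
constant there: a point of the closure of `C₂` (resp. of its complement in the zero set) is in the
zero set by continuity (`continuous_fv`), and near it membership is the same. -/
theorem clop_C₂ {P : (MvPolynomial (Fin m ⊕ Fin k₁) ℤ)[X][X]} {T : Set (Fin m ⊕ Fin k₁ → ℝ)}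
    (hT : LC P T) (j e : ℕ) : Clop (F₂ P j e) (C₂ P j e T) := by
  refine ⟨fv_F₂_nonneg P j e, fun x hx => hx.1, stratD_closed hT j e, ?_⟩
  have h : {x | fv (F₂ P j e) x = 0 ∧ x ∉ C₂ P j e T} = C₂ P j e Tᶜ := by
    ext x
    constructor
    · rintro ⟨h1, h2⟩
      exact ⟨h1, fun h3 => h2 ⟨h1, h3⟩⟩
    · rintro ⟨h1, h2⟩
      exact ⟨h1, fun h3 => h2 h3.2⟩
  rw [h]
  exact stratD_closed (stratD_compl hT) j e

/-- `exists_type` at the point `Sum.elim l u`; `v = Fin.snoc u (1 / co P e j _)`. -/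
theorem exists_iff_C₂ {P : (MvPolynomial (Fin m ⊕ Fin k₁) ℤ)[X][X]} (h : Cst P)
    (T : Set (Fin m ⊕ Fin k₁ → ℝ)) (l : Fin m → ℝ) :
    (∃ u : Fin k₁ → ℝ, Sum.elim l u ∈ T) ↔
      ∃ j ≤ bt P, ∃ e ≤ P.natDegree, ∃ v, (l, v) ∈ C₂ P j e T := by
  constructor
  · rintro ⟨u, hu⟩
    obtain ⟨j, hj, e, he, ht⟩ := exists_type h (Sum.elim l u)
    have h0 : co P e j (Sum.elim l u) ≠ 0 := ht.2.2
    have hv : (fun b : Fin k₁ =>
        (Fin.snoc u (1 / co P e j (Sum.elim l u)) : Fin (k₁ + 1) → ℝ) b.castSucc) = u := by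
      funext b
      exact Fin.snoc_castSucc (α := fun _ => ℝ) _ _ _
    have hlast : (Fin.snoc u (1 / co P e j (Sum.elim l u)) : Fin (k₁ + 1) → ℝ) (Fin.last k₁)
        = 1 / co P e j (Sum.elim l u) := Fin.snoc_last (α := fun _ => ℝ) _ _
    refine ⟨j, hj, e, he, Fin.snoc u (1 / co P e j (Sum.elim l u)), ?_, ?_⟩
    · rw [fv_F₂_eq_zero, hv, hlast]
      exact ⟨ht, mul_one_div_cancel h0⟩
    · change (Sum.elim l fun b : Fin k₁ =>
        (Fin.snoc u (1 / co P e j (Sum.elim l u)) : Fin (k₁ + 1) → ℝ) b.castSucc) ∈ T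
      rw [hv]
      exact hu
  · rintro ⟨j, _, e, _, v, hv⟩
    exact ⟨fun b => v b.castSucc, hv.2⟩

end

end Pool.Agent.LibStar4
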