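import Mathlib

/-!
Touching balls: the moving ball.
-/

open Metric Set

namespace Pool.Agent.LibStar4

variable {E : Type*} [NormedAddCommGroup E] [InnerProductSpace ℝ E]

theorem TouchA_nonneg_of_small {a b : ℝ} {h₀ : ℝ} (hh₀ : 0 < h₀)
    (H : ∀ h : ℝ, 0 < h → h ≤ h₀ → 0 ≤ 2 * a + h * b) : 0 ≤ a := by
  by_contra ha
  push Not at ha
  have hb : 0 ≤ |b| := abs_nonneg b
  have h1 : 0 < min h₀ (-a / (|b| + 1)) := lt_min hh₀ (div_pos (by linarith) (by linarith))
  have h2 := H _ h1 (min_le_left _ _)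
  have h3 : min h₀ (-a / (|b| + 1)) * b ≤ -a := by
    calc min h₀ (-a / (|b| + 1)) * b ≤ min h₀ (-a / (|b| + 1)) * |b| :=
          mul_le_mul_of_nonneg_left (le_abs_self b) h1.le
      _ ≤ (-a / (|b| + 1)) * |b| := mul_le_mul_of_nonneg_right (min_le_right _ _) hb
      _ ≤ (-a / (|b| + 1)) * (|b| + 1) := by
          apply mul_le_mul_of_nonneg_left (by linarith)
          exact (div_pos (by linarith) (by linarith)).le
      _ = -a := by field_simp
  linarith

/-- **Moving ball.** The proof is contained in the proof of `starAt_of_halfspaces` in the file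
`Geo.lean` of this library (first time at which the ball of radius `infDist y T / 2` that moves from
`y = q + s (x - q)` towards `x` touches `T`); there the centre is `c = y + τ' (x - y)`, i.e.
`τ = s + (1 - s) τ'`, and the last formulas there give `inner (q - z) (z - c) < 0`. -/
theorem touch_move [ProperSpace E] {T : Set E} (hT : IsClosed T) {q x : E} (hx : x ∈ T) {s : ℝ}
    (hs0 : 0 ≤ s) (hs1 : s < 1) (hy : q + s • (x - q) ∉ T) :
    ∃ τ : ℝ, 0 ≤ τ ∧ τ ≤ 1 ∧ ∃ z ∈ T, 0 < ‖z - (q + τ • (x - q))‖ ∧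
      (∀ w ∈ T, ‖z - (q + τ • (x - q))‖ ≤ ‖w - (q + τ • (x - q))‖) ∧
      inner ℝ (q - z) (z - (q + τ • (x - q))) < 0 := by
  set y : E := q + s • (x - q) with hydef
  have hne : T.Nonempty := ⟨x, hx⟩
  let f : ℝ → ℝ := fun τ => infDist (y + τ • (x - y)) T
  have hf : Continuous f := by
    apply (continuous_infDist_pt T).comp
    fun_prop
  have hf0 : 0 < f 0 := by
    have : f 0 = infDist y T := by simp [f]
    rw [this]
    exact (hT.notMem_iff_infDist_pos hne).1 hy
  have hf1 : f 1 = 0 := by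
    have : y + (1 : ℝ) • (x - y) = x := by module
    simp only [f, this]
    exact infDist_zero_of_mem hx
  set r : ℝ := f 0 / 2 with hr
  have hr0 : 0 < r := by rw [hr]; linarith
  let K : Set ℝ := Icc 0 1 ∩ f ⁻¹' Iic r
  have hKc : IsCompact K := isCompact_Icc.inter_right (isClosed_Iic.preimage hf)
  have hKne : K.Nonempty := ⟨1, ⟨zero_le_one, le_rfl⟩, by
    simp only [mem_preimage, mem_Iic, hf1]; exact hr0.le⟩
  obtain ⟨τ, hτT, hτmin⟩ := hKc.exists_isLeast hKne
  have hτ0 : 0 ≤ τ := hτT.1.1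
  have hτ1 : τ ≤ 1 := hτT.1.2
  have hfτ : f τ ≤ r := hτT.2
  have hτpos : 0 < τ := by
    rcases lt_or_eq_of_le hτ0 with h | h
    · exact h
    · exfalso
      rw [← h] at hfτ
      linarith
  have hbefore : ∀ σ, 0 ≤ σ → σ < τ → r < f σ := by
    intro σ h0 h1
    by_contra hcon
    push Not at hcon
    have : σ ∈ K := ⟨⟨h0, h1.le.trans hτT.1.2⟩, hcon⟩
    exact absurd (hτmin this) (not_le.2 h1)
  have hfτ' : f τ = r := by
    apply le_antisymm hfτ
    by_contra hcon
    push Not at hcon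
    -- continuity
    have h1 : ∀ᶠ σ in nhds τ, f σ < r := hf.continuousAt.eventually_lt continuousAt_const hcon
    have h2 : ∃ᶠ σ in nhdsWithin τ (Iio τ), True := by
      simp [Filter.frequently_true_iff_neBot]
      infer_instance
    have h3 : ∀ᶠ σ in nhdsWithin τ (Iio τ), f σ < r ∧ 0 < σ ∧ σ < τ := by
      filter_upwards [nhdsWithin_le_nhds h1, nhdsWithin_le_nhds (lt_mem_nhds hτpos),
        self_mem_nhdsWithin] with σ a b c
      exact ⟨a, b, c⟩
    obtain ⟨σ, _, h4, h5, h6⟩ := (h2.and_eventually h3).exists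
    exact absurd (hbefore σ h5.le h6) (not_lt.2 h4.le)
  have hcc : q + (s + (1 - s) * τ) • (x - q) = y + τ • (x - y) := by
    rw [hydef]; module
  refine ⟨s + (1 - s) * τ, by nlinarith, by nlinarith, ?_⟩
  rw [hcc]
  set c : E := y + τ • (x - y) with hc
  obtain ⟨z, hz, hzc⟩ := hT.exists_infDist_eq_dist hne c
  have hzc' : ‖z - c‖ = r := by
    rw [← hfτ']
    simp only [f]
    rw [← hc, hzc, dist_eq_norm, norm_sub_rev]
  have hcert : ∀ w ∈ T, ‖z - c‖ ≤ ‖w - c‖ := by
    intro w hw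
    rw [← dist_eq_norm, ← dist_eq_norm, dist_comm z c, ← hzc, dist_comm w c]
    exact infDist_le_dist_of_mem hw
  have h2 : 0 ≤ inner ℝ (z - c) (x - y) := by
    apply TouchA_nonneg_of_small (b := ‖x - y‖ ^ 2) hτpos
    intro h hh0 hh1
    have h3 := hbefore (τ - h) (by linarith) (by linarith)
    have h4 : f (τ - h) ≤ ‖z - (y + (τ - h) • (x - y))‖ := by
      simp only [f]
      rw [← dist_eq_norm, dist_comm]
      exact infDist_le_dist_of_mem hz
    have h5 : z - (y + (τ - h) • (x - y)) = (z - c) + h • (x - y) := by rw [hc]; module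
    rw [h5] at h4
    have h6 : ‖z - c‖ ^ 2 ≤ ‖(z - c) + h • (x - y)‖ ^ 2 :=
      pow_le_pow_left₀ (norm_nonneg _) (by rw [hzc']; linarith) 2
    rw [norm_add_sq_real, norm_smul, inner_smul_right, mul_pow, Real.norm_eq_abs, sq_abs] at h6
    have h7 : 0 ≤ h * (2 * inner ℝ (z - c) (x - y) + h * ‖x - y‖ ^ 2) := by nlinarith
    exact nonneg_of_mul_nonneg_right h7 hh0
  have h3 : (1 - s) • (q - z) = (1 - s) • (c - z) - (s + (1 - s) * τ) • (x - y) := by
    rw [hc, hydef]
    module
  have h4 : (1 - s) * inner ℝ (q - z) (z - c) =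
      - ((1 - s) * ‖z - c‖ ^ 2) - (s + (1 - s) * τ) * inner ℝ (z - c) (x - y) := by
    have h5 : inner ℝ ((1 - s) • (q - z)) (z - c) = inner ℝ ((1 - s) • (c - z) -
        (s + (1 - s) * τ) • (x - y)) (z - c) := by rw [h3]
    rw [inner_sub_left, inner_smul_left, inner_smul_left, inner_smul_left] at h5
    have h6 : inner ℝ (c - z) (z - c) = - ‖z - c‖ ^ 2 := by
      rw [← neg_sub z c, inner_neg_left, real_inner_self_eq_norm_sq]
    rw [h6, real_inner_comm (z - c) (x - y)] at h5
    simp only [conj_trivial] at h5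
    linarith
  have h5 : 0 < (1 - s) * ‖z - c‖ ^ 2 := by
    rw [hzc']
    have : 0 < 1 - s := by linarith
    positivity
  have h6 : 0 ≤ (s + (1 - s) * τ) * inner ℝ (z - c) (x - y) := by
    apply mul_nonneg _ h2
    have : 0 ≤ (1 - s) * τ := mul_nonneg (by linarith) hτ0
    linarith
  refine ⟨z, hz, by rw [hzc']; exact hr0, hcert, ?_⟩
  by_contra hcon
  push Not at hcon
  have h7 : 0 ≤ (1 - s) * inner ℝ (q - z) (z - c) := mul_nonneg (by linarith) hcon
  linarith

end Pool.Agent.LibStar4
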