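import Pool.Agent.LibStar4.Elim2

/-!
Types of points with respect to a polynomial in `t` and `T` with polynomial coefficients.
-/

open Polynomial

namespace Pool.Agent.LibStar4

noncomputable section

variable {ι : Type} {k d : ℕ}

/-- evaluation at a point -/
def ev (l : ι → ℝ) : MvPolynomial ι ℤ →+* ℝ := MvPolynomial.eval₂Hom (Int.castRingHom ℝ) l

theorem continuous_ev (a : MvPolynomial ι ℤ) : Continuous fun l : ι → ℝ => ev l a := by
  induction a using MvPolynomial.induction_on with
  | C a => simp only [ev, MvPolynomial.coe_eval₂Hom, MvPolynomial.eval₂_C]; exact continuous_const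
  | add p q hp hq => simp only [map_add]; exact hp.add hq
  | mul_X p i hp =>
    simp only [map_mul]
    apply hp.mul
    simp only [ev, MvPolynomial.coe_eval₂Hom, MvPolynomial.eval₂_X]
    exact continuous_apply i

/-- the coefficient of `T^i t^j` -/
def co (P : (MvPolynomial ι ℤ)[X][X]) (i j : ℕ) (l : ι → ℝ) : ℝ := ev l ((P.coeff i).coeff j)

theorem continuous_co (P : (MvPolynomial ι ℤ)[X][X]) (i j : ℕ) : Continuous (co P i j) :=
  continuous_ev _

/-- the type of a point: `t^j` is the lowest power of `t`, with a polynomial in `T` of degree `e` -/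
def HasType (P : (MvPolynomial ι ℤ)[X][X]) (j e : ℕ) (l : ι → ℝ) : Prop :=
  (∀ i, ∀ j' < j, co P i j' l = 0) ∧ (∀ i, e < i → co P i j l = 0) ∧ co P e j l ≠ 0

/-- a bound for the exponents of `t` -/
def bt (P : (MvPolynomial ι ℤ)[X][X]) : ℕ := (Finset.range (P.natDegree + 1)).sup fun i =>
  (P.coeff i).natDegree

theorem co_eq_zero (P : (MvPolynomial ι ℤ)[X][X]) (i j : ℕ) (l : ι → ℝ)
    (h : P.natDegree < i ∨ bt P < j) : co P i j l = 0 := by
  unfold co
  by_cases hi : P.natDegree < i
  · rw [Polynomial.coeff_eq_zero_of_natDegree_lt hi, Polynomial.coeff_zero, map_zero]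
  · have hj : bt P < j := by tauto
    have : (P.coeff i).natDegree ≤ bt P :=
      Finset.le_sup (f := fun i => (P.coeff i).natDegree) (Finset.mem_range.2 (by omega))
    rw [Polynomial.coeff_eq_zero_of_natDegree_lt (by omega), map_zero]

/-- the quotient by `t^j` -/
def Rj (P : (MvPolynomial ι ℤ)[X][X]) (j : ℕ) (l : ι → ℝ) (t T : ℝ) : ℝ :=
  ∑ i ∈ Finset.range (P.natDegree + 1), (∑ j' ∈ Finset.range (bt P + 1),
    if j ≤ j' then co P i j' l * t ^ (j' - j) else 0) * T ^ i

theorem continuous_Rj (P : (MvPolynomial ι ℤ)[X][X]) (j : ℕ) :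
    Continuous fun q : (ι → ℝ) × ℝ × ℝ => Rj P j q.1 q.2.1 q.2.2 := by
  unfold Rj
  apply continuous_finsetSum
  intro i _
  apply Continuous.mul
  · apply continuous_finsetSum
    intro j' _
    split_ifs with h
    · exact ((continuous_co P i j').comp continuous_fst).mul (by fun_prop)
    · exact continuous_const
  · fun_prop

theorem evtT_eq (P : (MvPolynomial ι ℤ)[X][X]) (l : ι → ℝ) (t T : ℝ) :
    evtT (ev l) t T P = ∑ i ∈ Finset.range (P.natDegree + 1),
      (∑ j ∈ Finset.range (bt P + 1), co P i j l * t ^ j) * T ^ i := by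
  unfold evtT
  rw [Polynomial.coe_eval₂RingHom, Polynomial.eval₂_eq_sum_range]
  apply Finset.sum_congr rfl
  intro i hi
  congr 1
  unfold evt
  rw [Polynomial.coe_eval₂RingHom]
  have : (P.coeff i).natDegree < bt P + 1 := Nat.lt_succ_of_le
    (Finset.le_sup (f := fun i => (P.coeff i).natDegree) hi)
  rw [Polynomial.eval₂_eq_sum_range' _ this]
  rfl

theorem evtT_eq_Rj {P : (MvPolynomial ι ℤ)[X][X]} {j e : ℕ} {l : ι → ℝ} (h : HasType P j e l)
    (t T : ℝ) : evtT (ev l) t T P = t ^ j * Rj P j l t T := by
  rw [evtT_eq]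
  unfold Rj
  rw [Finset.mul_sum]
  apply Finset.sum_congr rfl
  intro i _
  rw [← mul_assoc, Finset.mul_sum]
  congr 1
  apply Finset.sum_congr rfl
  intro j' _
  split_ifs with hj
  · rw [mul_left_comm, ← pow_add]
    congr 2
    omega
  · rw [h.1 i j' (by omega), zero_mul, mul_zero]

theorem Rj_zero {P : (MvPolynomial ι ℤ)[X][X]} {j e : ℕ} {l : ι → ℝ} (h : HasType P j e l)
    (T : ℝ) : Rj P j l 0 T = ∑ i ∈ Finset.range (e + 1), co P i j l * T ^ i := by
  have hj : j ≤ bt P := by
    by_contra hcon
    exact h.2.2 (co_eq_zero P e j l (Or.inr (by omega)))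
  have he : e ≤ P.natDegree := by
    by_contra hcon
    exact h.2.2 (co_eq_zero P e j l (Or.inl (by omega)))
  have h1 : ∀ i, (∑ j' ∈ Finset.range (bt P + 1),
      if j ≤ j' then co P i j' l * (0 : ℝ) ^ (j' - j) else 0) = co P i j l := by
    intro i
    rw [Finset.sum_eq_single j]
    · simp
    · intro j' _ hne
      split_ifs with h2
      · rw [zero_pow (by omega), mul_zero]
      · rfl
    · intro h2
      exact absurd (Finset.mem_range.2 (by omega)) h2
  unfold Rj
  simp only [h1]
  symm
  apply Finset.sum_subset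
  · intro i hi
    rw [Finset.mem_range] at *
    omega
  · intro i _ hi
    rw [Finset.mem_range] at hi
    rw [h.2.1 i (by omega), zero_mul]

/-- the polynomial in `T` is not zero -/
theorem exists_T {P : (MvPolynomial ι ℤ)[X][X]} {j e : ℕ} {l : ι → ℝ} (h : HasType P j e l)
    (a : ℝ) : ∃ T, a < T ∧ Rj P j l 0 T ≠ 0 := by
  let p : ℝ[X] := ∑ i ∈ Finset.range (e + 1), C (co P i j l) * X ^ i
  have hp : p ≠ 0 := by
    intro h0
    have : p.coeff e = co P e j l := by
      simp only [p, Polynomial.finsetSum_coeff, Polynomial.coeff_C_mul, Polynomial.coeff_X_pow]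
      rw [Finset.sum_eq_single e]
      · simp
      · intro i _ hi
        rw [if_neg (Ne.symm hi), mul_zero]
      · intro h2
        exact absurd (Finset.mem_range.2 (by omega)) h2
    rw [h0, Polynomial.coeff_zero] at this
    exact h.2.2 this.symm
  have hinf : (Set.Ioi a).Infinite := Set.Ioi_infinite a
  obtain ⟨T, hT, hT'⟩ := hinf.exists_notMem_finset p.roots.toFinset
  refine ⟨T, hT, ?_⟩
  rw [Rj_zero h]
  intro h0
  apply hT'
  rw [Multiset.mem_toFinset, Polynomial.mem_roots hp, Polynomial.IsRoot.def]
  simp only [p, Polynomial.eval_finsetSum, Polynomial.eval_mul, Polynomial.eval_C,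
    Polynomial.eval_pow, Polynomial.eval_X]
  exact h0

/-- roots are bounded -/
theorem root_le {P : (MvPolynomial ι ℤ)[X][X]} {j e : ℕ} {l : ι → ℝ} (h : HasType P j e l)
    {v : ℝ} (hv : Rj P j l 0 v = 0) :
    v ≤ 1 + (∑ i ∈ Finset.range e, |co P i j l|) / |co P e j l| := by
  rw [Rj_zero h] at hv
  have hc : 0 < |co P e j l| := abs_pos.2 h.2.2
  have hS : 0 ≤ ∑ i ∈ Finset.range e, |co P i j l| := Finset.sum_nonneg fun i _ => abs_nonneg _
  by_cases hv1 : v ≤ 1
  · have := div_nonneg hS hc.le
    linarith
  · push Not at hv1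
    have hv0 : 0 < v := by linarith
    rw [Finset.sum_range_succ] at hv
    rcases Nat.eq_zero_or_pos e with he | he
    · subst he
      simp at hv
      exact absurd hv h.2.2
    · have h1 : |co P e j l| * v ^ e ≤ (∑ i ∈ Finset.range e, |co P i j l|) * v ^ (e - 1) := by
        have h2 : co P e j l * v ^ e = - ∑ i ∈ Finset.range e, co P i j l * v ^ i := by linarith
        have h3 : |co P e j l * v ^ e| = |∑ i ∈ Finset.range e, co P i j l * v ^ i| := by
          rw [h2, abs_neg]
        rw [abs_mul, abs_of_pos (pow_pos hv0 e)] at h3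
        rw [h3, Finset.sum_mul]
        refine (Finset.abs_sum_le_sum_abs _ _).trans (Finset.sum_le_sum fun i hi => ?_)
        rw [abs_mul, abs_of_pos (pow_pos hv0 i)]
        apply mul_le_mul_of_nonneg_left _ (abs_nonneg _)
        apply pow_le_pow_right₀ hv1.le
        have := Finset.mem_range.1 hi
        omega
      have h4 : v ^ e = v ^ (e - 1) * v := by rw [← pow_succ]; congr 1; omega
      rw [h4] at h1
      have h5 : 0 < v ^ (e - 1) := pow_pos hv0 _
      have h6 : |co P e j l| * v ≤ ∑ i ∈ Finset.range e, |co P i j l| := by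
        have : (|co P e j l| * v) * v ^ (e - 1) ≤
          (∑ i ∈ Finset.range e, |co P i j l|) * v ^ (e - 1) := by linarith
        exact le_of_mul_le_mul_right this h5
      have h7 : v ≤ (∑ i ∈ Finset.range e, |co P i j l|) / |co P e j l| := by
        rw [le_div_iff₀ hc]; linarith
      linarith

/-- the partial derivatives -/
theorem hasDerivAt_eval₂ {A : Type} [CommRing A] (e : A →+* ℝ) (F : MvPolynomial (Fin k) A)
    (i : Fin k) (y : Fin k → ℝ) (x : ℝ) :
    HasDerivAt (fun x => MvPolynomial.eval₂ e (Function.update y i x) F)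
      (MvPolynomial.eval₂ e (Function.update y i x) (MvPolynomial.pderiv i F)) x := by
  induction F using MvPolynomial.induction_on with
  | C a =>
    simp only [MvPolynomial.eval₂_C, MvPolynomial.pderiv_C, MvPolynomial.eval₂_zero]
    exact hasDerivAt_const _ _
  | add p q hp hq =>
    simp only [MvPolynomial.eval₂_add, map_add]
    exact hp.add hq
  | mul_X p j hp =>
    have h1 : HasDerivAt (fun x => Function.update y i x j)
        (MvPolynomial.eval₂ e (Function.update y i x) (MvPolynomial.pderiv i (MvPolynomial.X j))) x := by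
      by_cases hj : j = i
      · subst hj
        simp only [Function.update_self, MvPolynomial.pderiv_X_self, MvPolynomial.eval₂_one]
        exact hasDerivAt_id x
      · simp only [Function.update_of_ne hj, MvPolynomial.pderiv_X_of_ne hj,
          MvPolynomial.eval₂_zero]
        exact hasDerivAt_const _ _
    have h2 := hp.mul h1
    simp only [MvPolynomial.eval₂_mul, MvPolynomial.eval₂_X, MvPolynomial.pderiv_mul,
      MvPolynomial.eval₂_add]
    exact h2

/-- the penalty -/
def qf (d : ℕ) (y : Fin k → ℝ) : ℝ := ∑ i, y i ^ (2 * d + 2)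

theorem qf_nonneg (d : ℕ) (y : Fin k → ℝ) : 0 ≤ qf d y :=
  Finset.sum_nonneg fun i _ => by
    have : 2 * d + 2 = 2 * (d + 1) := by ring
    rw [this, pow_mul]
    positivity

theorem continuous_qf (d : ℕ) : Continuous (qf d : (Fin k → ℝ) → ℝ) := by
  unfold qf
  fun_prop

theorem abs_le_of_qf {y : Fin k → ℝ} {T : ℝ} (h : qf d y ≤ T) (i : Fin k) : |y i| ≤ max 1 T := by
  by_contra hcon
  push Not at hcon
  have h1 : 1 < |y i| := lt_of_le_of_lt (le_max_left _ _) hcon
  have h2 : |y i| ≤ y i ^ (2 * d + 2) := by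
    have h3 : y i ^ (2 * d + 2) = |y i| ^ (2 * d + 2) := by
      rw [show 2 * d + 2 = 2 * (d + 1) by ring, pow_mul, pow_mul, sq_abs]
    rw [h3]
    exact le_self_pow₀ h1.le (by omega)
  have h3 : y i ^ (2 * d + 2) ≤ qf d y := by
    apply Finset.single_le_sum (f := fun i => y i ^ (2 * d + 2)) _ (Finset.mem_univ i)
    intro j _
    rw [show 2 * d + 2 = 2 * (d + 1) by ring, pow_mul]
    positivity
  have h4 : T < |y i| := lt_of_le_of_lt (le_max_right _ _) hcon
  linarith

/-- local minima in the interior are critical -/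
theorem crit_of_isLocalMin {A : Type} [CommRing A] (e : A →+* ℝ) (F : MvPolynomial (Fin k) A)
    (t : ℝ) (y : Fin k → ℝ)
    (h : IsLocalMin (fun y => MvPolynomial.eval₂ e y F + t * qf d y) y) : Crit F d e t y := by
  intro i
  have h1 : IsLocalMin (fun x => MvPolynomial.eval₂ e (Function.update y i x) F +
      t * qf d (Function.update y i x)) (y i) := by
    have hc : Filter.Tendsto (fun x => Function.update y i x) (nhds (y i)) (nhds y) := by
      have : Continuous fun x => Function.update y i x := by fun_prop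
      have h2 := this.tendsto (y i)
      rwa [Function.update_eq_self] at h2
    have h3 := hc.eventually h
    unfold IsLocalMin IsMinFilter
    simp only [Function.update_eq_self]
    exact h3
  have h2 : HasDerivAt (fun x => qf d (Function.update y i x))
      ((2 * d + 2) * y i ^ (2 * d + 1)) (y i) := by
    have h3 : (fun x => qf d (Function.update y i x)) = fun x =>
        x ^ (2 * d + 2) + ∑ j ∈ Finset.univ.erase i, y j ^ (2 * d + 2) := by
      funext x
      unfold qf
      rw [← Finset.add_sum_erase _ _ (Finset.mem_univ i), Function.update_self]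
      congr 1
      apply Finset.sum_congr rfl
      intro j hj
      rw [Function.update_of_ne (Finset.ne_of_mem_erase hj)]
    rw [h3]
    have h4 := (hasDerivAt_pow (2 * d + 2) (y i)).add_const
      (∑ j ∈ Finset.univ.erase i, y j ^ (2 * d + 2))
    have h5 : ((2 * d + 2 : ℕ) : ℝ) * y i ^ (2 * d + 2 - 1) = (2 * d + 2) * y i ^ (2 * d + 1) := by
      push_cast
      congr 1
    rw [h5] at h4
    exact h4
  have h3 := (hasDerivAt_eval₂ e F i y (y i)).add (h2.const_mul t)
  have h4 := h1.hasDerivAt_eq_zero h3
  rw [Function.update_eq_self] at h4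
  linarith

end

end Pool.Agent.LibStar4
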