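import Pool.Agent.LibStar4.Valid

/-!
The check is correct.
-/

namespace Pool.Agent.LibStar4

open Pool.Agent.LibComplexity

theorem VaA_tok (s : Bool × ℕ × ℕ) (k : ℕ) : vst s (tok k) =
    if k = 0 then (s.1, s.2.1, s.2.2 + 1)
    else if 9 ≤ k then (s.1, s.2.1, s.2.2 + 1)
    else if k ≤ 2 then (s.1 && decide (2 ≤ s.2.2), s.2.1, s.2.2 - 1)
    else if k ≤ 5 then (s.1 && decide (s.2.2 = 1), s.2.1 + 1, 0)
    else if k = 6 then (s.1 && decide (s.2.2 = 0) && decide (1 ≤ s.2.1), s.2)
    else (s.1 && decide (s.2.2 = 0) && decide (2 ≤ s.2.1), s.2.1 - 1, s.2.2) := by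
  unfold vst tok
  simp

/-- induction on `t` for all `a b` -/
theorem vst_tm (t : Tm) (a b : ℕ) : t.code.foldl vst (true, a, b) = (true, a, b + 1) := by
  induction t generalizing a b with
  | var i =>
    simp only [Tm.code, List.foldl_cons, List.foldl_nil, VaA_tok]
    rw [if_neg (by omega), if_pos (by omega)]
  | const s d => rfl
  | add t u iht ihu =>
    simp only [Tm.code, List.foldl_append, iht, ihu, List.foldl_cons, List.foldl_nil, VaA_tok]
    simp
  | mul t u iht ihu =>
    simp only [Tm.code, List.foldl_append, iht, ihu, List.foldl_cons, List.foldl_nil, VaA_tok]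
    simp

/-- induction on `φ` for all `a`; `vst_tm` -/
theorem vst_fml (φ : Fml) (a : ℕ) : φ.code.foldl vst (true, a, 0) = (true, a + 1, 0) := by
  induction φ generalizing a with
  | eq t =>
    simp only [Fml.code, List.foldl_append, vst_tm, List.foldl_cons, List.foldl_nil, VaA_tok]
    simp
  | gt t =>
    simp only [Fml.code, List.foldl_append, vst_tm, List.foldl_cons, List.foldl_nil, VaA_tok]
    simp
  | ge t =>
    simp only [Fml.code, List.foldl_append, vst_tm, List.foldl_cons, List.foldl_nil, VaA_tok]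
    simp
  | neg φ ih =>
    simp only [Fml.code, List.foldl_append, ih, List.foldl_cons, List.foldl_nil, VaA_tok]
    simp
  | and φ ψ ih1 ih2 =>
    simp only [Fml.code, List.foldl_append, ih1, ih2, List.foldl_cons, List.foldl_nil, VaA_tok]
    simp
  | or φ ψ ih1 ih2 =>
    simp only [Fml.code, List.foldl_append, ih1, ih2, List.foldl_cons, List.foldl_nil, VaA_tok]
    simp

theorem VaA_last {β : Type} (L : List β) (n : ℕ) (h : L.length = n + 1) :
    ∃ L' t, L = L' ++ [t] ∧ L'.length = n := by
  rcases List.eq_nil_or_concat L with h0 | ⟨L', t, h1⟩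
  · subst h0
    simp at h
  · rw [List.concat_eq_append] at h1
    refine ⟨L', t, h1, ?_⟩
    rw [h1] at h
    simpa using h

/-- the result of one step if it is accepted -/
theorem VaA_step (l : List Tok) (q : Tok) (F : List Fml) (T : List Tm)
    (hl : l = F.flatMap Fml.code ++ T.flatMap Tm.code) (a b : ℕ)
    (h : vst (true, F.length, T.length) q = (true, a, b)) :
    ∃ (F' : List Fml) (T' : List Tm), F'.length = a ∧ T'.length = b ∧
      l ++ [q] = F'.flatMap Fml.code ++ T'.flatMap Tm.code := by
  obtain ⟨k, s, d⟩ := q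
  by_cases h0 : k = 0
  · subst h0
    simp only [vst, if_true, Prod.mk.injEq, true_and] at h
    refine ⟨F, T ++ [.const s d], h.1, by simpa using h.2, ?_⟩
    rw [hl]
    simp [List.flatMap_append, Tm.code]
  by_cases hf : s = true ∨ d.isEmpty = false
  · simp only [vst, if_neg h0, if_pos hf, Prod.mk.injEq] at h
    exact absurd h.1 (by simp)
  have hs : s = false := by
    cases s
    · rfl
    · exact absurd (Or.inl rfl) hf
  have hd : d = [] := by
    cases d with
    | nil => rfl
    | cons x d => exact absurd (Or.inr rfl) hf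
  subst hs hd
  change vst _ (tok k) = _ at h
  change ∃ (F' : List Fml) (T' : List Tm), F'.length = a ∧ T'.length = b ∧
      l ++ [tok k] = F'.flatMap Fml.code ++ T'.flatMap Tm.code
  rw [VaA_tok, if_neg h0] at h
  by_cases h9 : 9 ≤ k
  · rw [if_pos h9] at h
    simp only [Prod.mk.injEq, true_and] at h
    refine ⟨F, T ++ [.var (k - 9)], h.1, by simpa using h.2, ?_⟩
    rw [hl]
    simp only [List.flatMap_append, List.flatMap_cons, List.flatMap_nil, Tm.code,
      List.append_nil, List.append_assoc]
    rw [Nat.sub_add_cancel h9]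
  rw [if_neg h9] at h
  by_cases h2 : k ≤ 2
  · rw [if_pos h2] at h
    simp only [Prod.mk.injEq, Bool.true_and, decide_eq_true_eq] at h
    obtain ⟨hT, ha, hb⟩ := h
    obtain ⟨T₁, u, rfl, hT1⟩ := VaA_last T (T.length - 1) (by omega)
    rw [List.length_append, List.length_singleton] at hT hb hT1
    obtain ⟨T₂, t, rfl, hT2⟩ := VaA_last T₁ (T₁.length - 1) (by omega)
    rw [List.length_append, List.length_singleton] at hT hb hT1 hT2
    have hk : k = 1 ∨ k = 2 := by omega
    rcases hk with rfl | rfl
    · refine ⟨F, T₂ ++ [.add t u], ha, by simp; omega, ?_⟩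
      rw [hl]
      simp [List.flatMap_append, Tm.code]
    · refine ⟨F, T₂ ++ [.mul t u], ha, by simp; omega, ?_⟩
      rw [hl]
      simp [List.flatMap_append, Tm.code]
  rw [if_neg h2] at h
  by_cases h5 : k ≤ 5
  · rw [if_pos h5] at h
    simp only [Prod.mk.injEq, Bool.true_and, decide_eq_true_eq] at h
    obtain ⟨hT, ha, hb⟩ := h
    obtain ⟨t, rfl⟩ := List.length_eq_one_iff.1 hT
    have hk : k = 3 ∨ k = 4 ∨ k = 5 := by omega
    rcases hk with rfl | rfl | rfl
    · refine ⟨F ++ [.eq t], [], by simpa using ha, by simpa using hb, ?_⟩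
      rw [hl]
      simp [List.flatMap_append, Fml.code]
    · refine ⟨F ++ [.gt t], [], by simpa using ha, by simpa using hb, ?_⟩
      rw [hl]
      simp [List.flatMap_append, Fml.code]
    · refine ⟨F ++ [.ge t], [], by simpa using ha, by simpa using hb, ?_⟩
      rw [hl]
      simp [List.flatMap_append, Fml.code]
  rw [if_neg h5] at h
  by_cases h6 : k = 6
  · rw [if_pos h6] at h
    simp only [Prod.mk.injEq, Bool.true_and, Bool.and_eq_true, decide_eq_true_eq] at h
    obtain ⟨⟨hT, hF⟩, ha, hb⟩ := h
    obtain ⟨F₁, φ, rfl, hF1⟩ := VaA_last F (F.length - 1) (by omega)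
    rw [List.length_append, List.length_singleton] at hF ha hF1
    have hT' : T = [] := List.length_eq_zero_iff.1 hT
    subst hT' h6
    refine ⟨F₁ ++ [.neg φ], [], by simpa using ha, by simpa using hb, ?_⟩
    rw [hl]
    simp [List.flatMap_append, Fml.code]
  · rw [if_neg h6] at h
    simp only [Prod.mk.injEq, Bool.true_and, Bool.and_eq_true, decide_eq_true_eq] at h
    obtain ⟨⟨hT, hF⟩, ha, hb⟩ := h
    obtain ⟨F₁, ψ, rfl, hF1⟩ := VaA_last F (F.length - 1) (by omega)
    rw [List.length_append, List.length_singleton] at hF ha hF1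
    obtain ⟨F₂, φ, rfl, hF2⟩ := VaA_last F₁ (F₁.length - 1) (by omega)
    rw [List.length_append, List.length_singleton] at hF ha hF1 hF2
    have hT' : T = [] := List.length_eq_zero_iff.1 hT
    subst hT'
    have hk : k = 7 ∨ k = 8 := by omega
    rcases hk with rfl | rfl
    · refine ⟨F₂ ++ [.and φ ψ], [], by simp; omega, by simpa using hb, ?_⟩
      rw [hl]
      simp [List.flatMap_append, Fml.code]
    · refine ⟨F₂ ++ [.or φ ψ], [], by simp; omega, by simpa using hb, ?_⟩
      rw [hl]
      simp [List.flatMap_append, Fml.code]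

theorem VaA_flag (s : Bool × ℕ × ℕ) (q : Tok) (h : (vst s q).1 = true) : s.1 = true := by
  unfold vst at h
  split_ifs at h
  all_goals first
    | exact h
    | (simp only [Bool.and_eq_true] at h; exact h.1)
    | (simp only [Bool.and_eq_true] at h; exact h.1.1)

/-- The words accepted so far are concatenations of codes: `List.reverseRecOn l` (append one symbol);
once the flag is `false` it stays `false`; split off the last polynomials / formulas of the lists. -/
theorem vst_inv (l : List Tok) (a b : ℕ) (h : l.foldl vst (true, 0, 0) = (true, a, b)) :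
    ∃ (F : List Fml) (T : List Tm), F.length = a ∧ T.length = b ∧
      l = F.flatMap Fml.code ++ T.flatMap Tm.code := by
  induction l using List.reverseRecOn generalizing a b with
  | nil =>
    simp only [List.foldl_nil, Prod.mk.injEq, true_and] at h
    exact ⟨[], [], by simpa using h.1, by simpa using h.2, rfl⟩
  | append_singleton l q ih =>
    rw [List.foldl_append, List.foldl_cons, List.foldl_nil] at h
    obtain ⟨⟨o, a', b'⟩, hs⟩ : ∃ s, l.foldl vst (true, 0, 0) = s := ⟨_, rfl⟩
    rw [hs] at h
    have ho : o = true := VaA_flag (o, a', b') q (by rw [h])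
    subst ho
    obtain ⟨F, T, hF, hT, hl⟩ := ih a' b' hs
    subst hF hT
    exact VaA_step l q F T hl a b h

/-- `vst_fml`, `vst_inv` with `a = 1`, `b = 0` -/
theorem okC_iff (l : List Tok) : okC l = true ↔ ∃ φ : Fml, φ.code = l := by
  constructor
  · intro h
    simp only [okC, Bool.and_eq_true, decide_eq_true_eq] at h
    obtain ⟨⟨h1, h2⟩, h3⟩ := h
    obtain ⟨F, T, hF, hT, hl⟩ := vst_inv l 1 0 (Prod.ext h1 (Prod.ext h2 h3))
    obtain ⟨φ, rfl⟩ := List.length_eq_one_iff.1 hF
    have hT' : T = [] := List.length_eq_zero_iff.1 hT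
    subst hT'
    refine ⟨φ, ?_⟩
    rw [hl]
    simp
  · rintro ⟨φ, rfl⟩
    simp [okC, vst_fml]

theorem fmlOf_code (φ : Fml) : fmlOf φ.code = φ := by
  have h : ∃ ψ : Fml, ψ.code = φ.code := ⟨φ, rfl⟩
  rw [fmlOf, dif_pos h]
  exact code_injective h.choose_spec

end Pool.Agent.LibStar4
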