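import Pool.Agent.LibStar4.VaA

namespace Pool.Agent.LibStar4

open Pool.Agent.LibComplexity

variable {𝒜 : Set Orc} {α β : Type} [Enc α] [Enc β]

theorem VaB_vst : PTf 𝒜 (fun _ (p : (Bool × ℕ × ℕ) × Tok) => vst p.1 p.2) := by
  have hs : PTf 𝒜 (fun _ (p : (Bool × ℕ × ℕ) × Tok) => p.1) := PTf.id.fst
  have hq : PTf 𝒜 (fun _ (p : (Bool × ℕ × ℕ) × Tok) => p.2) := PTf.id.snd
  have hk := hq.fst
  have s1 := hs.fst
  have s2 := hs.snd.fst
  have s3 := hs.snd.snd
  have hsg := hq.snd.fst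
  have hem := hq.snd.snd.isEmpty
  unfold vst
  refine PTf.ifP (PTf.decide_eq hk (PTf.const 0)) (s1.pair (s2.pair (s3.add (PTf.const 1)))) ?_
  refine PTf.ifP (PTf.decide_or (PTf.decide_eq hsg (PTf.const true)) (PTf.decide_eq hem (PTf.const false)))
    ((PTf.const false).pair hs.snd) ?_
  refine PTf.ifP (PTf.decide_le (PTf.const 9) hk) (s1.pair (s2.pair (s3.add (PTf.const 1)))) ?_
  refine PTf.ifP (PTf.decide_le hk (PTf.const 2))
    ((s1.band (PTf.decide_le (PTf.const 2) s3)).pair (s2.pair (s3.sub (PTf.const 1)))) ?_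
  refine PTf.ifP (PTf.decide_le hk (PTf.const 5))
    ((s1.band (PTf.decide_eq s3 (PTf.const 1))).pair ((s2.add (PTf.const 1)).pair (PTf.const 0))) ?_
  refine PTf.ifP (PTf.decide_eq hk (PTf.const 6))
    (((s1.band (PTf.decide_eq s3 (PTf.const 0))).band (PTf.decide_le (PTf.const 1) s2)).pair hs.snd) ?_
  exact ((s1.band (PTf.decide_eq s3 (PTf.const 0))).band (PTf.decide_le (PTf.const 2) s2)).pair
    ((s2.sub (PTf.const 1)).pair s3)

theorem VaB_sz (s : Bool × ℕ × ℕ) (q : Tok) : sz (vst s q) ≤ sz s + 6 := by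
  obtain ⟨b, x, y⟩ := s
  have h0 : ∀ b' : Bool, sz b' ≤ 3 := sz_bool
  have h1 : 1 ≤ sz b := sz_pos b
  have key : ∀ (b' : Bool) (x' y' : ℕ), x' + y' ≤ x + y + 1 →
      sz ((b', x', y') : Bool × ℕ × ℕ) ≤ sz ((b, x, y) : Bool × ℕ × ℕ) + 6 := by
    intro b' x' y' h
    rw [sz_pair, sz_pair, sz_pair, sz_pair, sz_nat, sz_nat, sz_nat, sz_nat]
    have := h0 b'
    omega
  unfold vst
  split_ifs
  all_goals first | (apply key; simp only; omega) | (apply key; exact Nat.le_succ _)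

theorem ptf_okC {l : Orc → α → List Tok} (hl : PTf 𝒜 l) : PTf 𝒜 (fun A x => okC (l A x)) := by
  have h : PTf 𝒜 (fun A x => (l A x).foldl vst (true, 0, 0)) := by
    refine PTf.foldl_grow (g := fun _ _ s q => vst s q) (h := fun _ _ => (true, 0, 0)) hl
      (PTf.const _) (VaB_vst.comp PTf.id.snd) (d := fun _ _ => 6) (PB.const 6) ?_
    intro A _ x s y _
    exact VaB_sz s y
  unfold okC
  exact (h.fst.band (PTf.decide_eq h.snd.fst (PTf.const 1))).band
    (PTf.decide_eq h.snd.snd (PTf.const 0))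

theorem pf_fmlOf {l : Orc → α → List Tok} (hl : PTf 𝒜 l) : PF 𝒜 (fun A x => fmlOf (l A x)) := by
  have h : PTf 𝒜 (fun A x => if okC (l A x) = true then l A x else (Fml.gt tz).code) :=
    PTf.ifP (PTf.decide_eq_true' (ptf_okC hl)) hl (PTf.const _)
  unfold PF
  refine h.congr fun A _ x => ?_
  by_cases hx : okC (l A x) = true
  · obtain ⟨φ, hφ⟩ := (okC_iff _).1 hx
    show (if okC (l A x) = true then l A x else (Fml.gt tz).code) = (fmlOf (l A x)).code
    rw [if_pos hx, ← hφ, fmlOf_code]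
  · rw [if_neg hx]
    have : ¬ ∃ φ : Fml, φ.code = l A x := fun h => hx ((okC_iff _).2 h)
    show (Fml.gt tz).code = (fmlOf (l A x)).code
    unfold fmlOf
    rw [dif_neg this]

end Pool.Agent.LibStar4
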