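import Pool.Agent.LibStar4.Map

/-!
Recognizing the codes of formulas. (Definitions.)
-/

namespace Pool.Agent.LibStar4

open Pool.Agent.LibComplexity

/-- one step of the check of a postfix word: the state is: ok, number of formulas, number of
polynomials; the polynomials are above the formulas on the stack -/
def vst (s : Bool × ℕ × ℕ) (q : Tok) : Bool × ℕ × ℕ :=
  if q.1 = 0 then (s.1, s.2.1, s.2.2 + 1)
  else if q.2.1 = true ∨ q.2.2.isEmpty = false then (false, s.2)
  else if 9 ≤ q.1 then (s.1, s.2.1, s.2.2 + 1)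
  else if q.1 ≤ 2 then (s.1 && decide (2 ≤ s.2.2), s.2.1, s.2.2 - 1)
  else if q.1 ≤ 5 then (s.1 && decide (s.2.2 = 1), s.2.1 + 1, 0)
  else if q.1 = 6 then (s.1 && decide (s.2.2 = 0) && decide (1 ≤ s.2.1), s.2)
  else (s.1 && decide (s.2.2 = 0) && decide (2 ≤ s.2.1), s.2.1 - 1, s.2.2)

/-- the check -/
def okC (l : List Tok) : Bool :=
  (l.foldl vst (true, 0, 0)).1 && decide ((l.foldl vst (true, 0, 0)).2.1 = 1) &&
    decide ((l.foldl vst (true, 0, 0)).2.2 = 0)

open Classical in
/-- the formula with a given code -/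
noncomputable def fmlOf (l : List Tok) : Fml := if h : ∃ φ : Fml, φ.code = l then h.choose else .gt tz

end Pool.Agent.LibStar4
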