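import Pool.Agent.LibStar4.Win

open Filter Topology Set

namespace Pool.Agent.LibStar4

noncomputable section

variable {ι : Type} {E : Type*} {f : ι → E → ℝ} {Φ : (ι → SignType) → Prop}

theorem sg_zero (y : ℝ) : sg 0 y = SignType.sign y := by
  unfold sg
  split_ifs with h
  · have h1 : y = 0 := abs_eq_zero.1 (le_antisymm h (abs_nonneg y))
    rw [h1, _root_.sign_zero]
  · rfl

theorem win_zero_sub (f : ι → E → ℝ) (Φ : (ι → SignType) → Prop) (ε : ℝ) :
    Win f Φ ε 0 ⊆ semi f Φ := by
  intro x hx
  have h1 := hx.2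
  simp only [sg_zero] at h1
  exact h1

theorem winA_mem {ε δ : ℝ} (h0 : 0 ≤ δ) (h : δ < ε) (f : ι → E → ℝ)
    (Φ : (ι → SignType) → Prop) (x : E) : x ∈ Win f Φ ε δ ↔
      ∃ τ : ι → SignType, Φ τ ∧ ∀ a, (τ a = 0 → |f a x| ≤ δ) ∧ (τ a = 1 → ε ≤ f a x) ∧
        (τ a = -1 → f a x ≤ -ε) := by
  constructor
  · rintro ⟨h1, h2⟩
    refine ⟨fun a => sg δ (f a x), h2, fun a => ?_⟩
    by_cases hd : |f a x| ≤ δ
    · have e1 : sg δ (f a x) = 0 := by
        unfold sg
        rw [if_pos hd]
      refine ⟨fun _ => hd, fun hh => ?_, fun hh => ?_⟩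
      · exfalso
        simp only [e1] at hh
        exact absurd hh (by decide)
      · exfalso
        simp only [e1] at hh
        exact absurd hh (by decide)
    · have e1 : sg δ (f a x) = SignType.sign (f a x) := by
        unfold sg
        rw [if_neg hd]
      have he : ε ≤ |f a x| := by
        rcases h1 a with h3 | h3
        · exact absurd h3 hd
        · exact h3
      have hepos : 0 < ε := lt_of_le_of_lt h0 h
      refine ⟨fun hh => ?_, fun hh => ?_, fun hh => ?_⟩
      · exfalso
        simp only [e1] at hh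
        rw [_root_.sign_eq_zero_iff] at hh
        rw [hh, abs_zero] at he
        linarith
      · simp only [e1] at hh
        rw [_root_.sign_eq_one_iff] at hh
        rwa [abs_of_pos hh] at he
      · simp only [e1] at hh
        rw [_root_.sign_eq_neg_one_iff] at hh
        rw [abs_of_neg hh] at he
        linarith
  · rintro ⟨τ, hτ, hx⟩
    have hepos : 0 < ε := lt_of_le_of_lt h0 h
    have key : ∀ a, (|f a x| ≤ δ ∨ ε ≤ |f a x|) ∧ sg δ (f a x) = τ a := by
      intro a
      obtain ⟨c1, c2, c3⟩ := hx a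
      cases hta : τ a with
      | zero =>
        have h4 : |f a x| ≤ δ := c1 hta
        refine ⟨Or.inl h4, ?_⟩
        unfold sg
        rw [if_pos h4]
        rfl
      | pos =>
        have h4 : ε ≤ f a x := c2 hta
        have h5 : 0 < f a x := lt_of_lt_of_le hepos h4
        have h6 : |f a x| = f a x := abs_of_pos h5
        refine ⟨Or.inr (by rw [h6]; exact h4), ?_⟩
        unfold sg
        rw [if_neg (by rw [h6]; linarith), _root_.sign_eq_one_iff.2 h5]
        rfl
      | neg =>
        have h4 : f a x ≤ -ε := c3 hta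
        have h5 : f a x < 0 := by linarith
        have h6 : |f a x| = -f a x := abs_of_neg h5
        refine ⟨Or.inr (by rw [h6]; linarith), ?_⟩
        unfold sg
        rw [if_neg (by rw [h6]; linarith), _root_.sign_eq_neg_one_iff.2 h5]
        rfl
    refine ⟨fun a => (key a).1, ?_⟩
    have e : (fun a => sg δ (f a x)) = τ := funext fun a => (key a).2
    show Φ fun a => sg δ (f a x)
    rw [e]
    exact hτ

/-- Proof: `Win f Φ ε δ` is the finite union, over the sign vectors `τ` with `Φ τ`, of the closed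
sets `{x | ∀ a, (τ a = 0 → |f a x| ≤ δ) ∧ (τ a = 1 → ε ≤ f a x) ∧ (τ a = -1 → f a x ≤ -ε)}`. -/
theorem isClosed_win [TopologicalSpace E] [Finite ι] (hf : ∀ a, Continuous (f a))
    (Φ : (ι → SignType) → Prop) {ε δ : ℝ} (h0 : 0 ≤ δ) (h : δ < ε) : IsClosed (Win f Φ ε δ) := by
  have e : Win f Φ ε δ = ⋃ τ ∈ {τ : ι → SignType | Φ τ},
      ⋂ a, {x | (τ a = 0 → |f a x| ≤ δ) ∧ (τ a = 1 → ε ≤ f a x) ∧ (τ a = -1 → f a x ≤ -ε)} := by
    ext x
    rw [winA_mem h0 h]
    simp only [mem_iUnion, mem_iInter, mem_setOf_eq, exists_prop]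
  rw [e]
  apply Set.Finite.isClosed_biUnion (Set.toFinite _)
  intro τ _
  apply isClosed_iInter
  intro a
  have e2 : {x | (τ a = 0 → |f a x| ≤ δ) ∧ (τ a = 1 → ε ≤ f a x) ∧ (τ a = -1 → f a x ≤ -ε)} =
      {x | τ a = 0 → |f a x| ≤ δ} ∩ ({x | τ a = 1 → ε ≤ f a x} ∩
        {x | τ a = -1 → f a x ≤ -ε}) := rfl
  rw [e2]
  refine IsClosed.inter ?_ (IsClosed.inter ?_ ?_)
  · by_cases hc : τ a = 0
    · simp only [hc, true_imp_iff]
      exact isClosed_le (hf a).abs continuous_const
    · simp only [hc, false_imp_iff]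
      exact isClosed_univ
  · by_cases hc : τ a = 1
    · simp only [hc, true_imp_iff]
      exact isClosed_le continuous_const (hf a)
    · simp only [hc, false_imp_iff]
      exact isClosed_univ
  · by_cases hc : τ a = -1
    · simp only [hc, true_imp_iff]
      exact isClosed_le (hf a) continuous_const
    · simp only [hc, false_imp_iff]
      exact isClosed_univ

end

end Pool.Agent.LibStar4
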